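import Pool.Agent.DSB.AOm
import Pool.Agent.DLN.ATop

/-! # Part A: the coded space is not countably paracompact (package A4)

(problem MP_f2e766_lc, project DSB, part A)

Let `w`, `D` be as in `CNcp`. For `n ∈ w` let `U_n = {y ∈ Y | ¬ Val D y n}` (an open set by `CSc`:
`COp`). Suppose `IsCP E Y τ`.
* There is a set `S` whose elements are exactly the `U_n`, `n ∈ w`, and it is countable: the
  relation `ρ n U := ∀ y, E y U ↔ E y Y ∧
  ¬ Val E D y n` is definable (`Df2`), for every `n` there is exactly one such `U` (`sep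
  hE`, `hE.ext`); `CPI.exists_fun hE` gives a function
  `f` with domain `w`, `CPI.exists_ran hE` its range `S`. `IsCnt E S` with `w`, `f`. `S` covers `Y`
  by the third clause of `CNcp`, and
  `Sub E S τ`.
* `IsCP` gives `S'`: open sets, a cover, every `V ∈ S'` is a subset of some `U_n`, locally finite.
* Let `K` be the set of all pairs `(y, n)`, `y ∈ Y`, `n ∈ w`, such that
  `∀ V, E V S' → E y V → ∀ z, E z V → ¬ Val E D z n` (i.e. every member of
  `S'` which contains `y` is a subset of `U_n`; the members of `S'` are subsets of `Y`):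
  `CPI.exists_rel hE` with a formula for this
  relation (`Df2`).
* `CSc E w Y B h K`: let `n ∈ w`, `y ∈ Y`, `(y, n) ∉ K`. There is `V ∈ S'` with `y ∈ V` and
  `V ⊄ U_n`. `V` is open: a code `b` with
  `y ∈ b`, and all `z ∈ Y` in the basic set `b` are in `V`, so `(z, n) ∉ K` for the same reason.
* `K_n` is disjoint from `D_n`: if `(y, n) ∈ D` and `(y, n) ∈ K`, take `V ∈ S'` with `y ∈ V`: then
  `¬ Val D y n`.
* So by `CNcp` there is `y ∈ Y` with `(y, n) ∉ K` for all `n ∈ w`. Local finiteness at `y` gives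
  `U`, `F`, `E y U`, and a natural number `a ∈ w'`,
  `IsOm E w'`, and a function `f` with domain `a` which takes all elements of `F` as values
  (`IsFin`, `Sm`); every `V ∈ S'` with `y ∈ V` is in
  `F` (take `z = y`). All elements `x` of `w'` have the following property `σ x` (induction
  `om_ind hE` with a formula for `σ`):
  there is `n ∈ w` such that for all `i ∈ x` and `V` with `Val f i V`, `E V S'`, `E y V`:
  `∀ z, E z V → ¬ Val E D z n`.
  No element: any `n ∈ w` (there is one by the third clause of `CNcp` for `y`). Successor `s` of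
  `x` (`IsSc`: `i ∈ s` iff `i ∈ x` or
  `i = x`): let `n` be as in `σ x`. If there is `V0` with `Val f x V0`, `E V0 S'`, `E y V0` (then
  `x ∈ a` by `CPI.IsFun.dom`, and `V0` is unique by `IsFun`) then
  `V0 ⊆ U_m` for some `m ∈ w` (refinement, the elements of `S` are the `U_m`); take `k` from the
  directedness clause for `n, m`:
  `¬ Val D z n` implies `¬ Val D z k` for `z ∈ Y` (the elements of members of `S'` are in `Y`).
  Otherwise `n` works for `s`.
  For `x = a`: there is `n ∈ w` such that every `V ∈ S'` with `y ∈ V` is a subset of `U_n` (`V ∈ F`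
  is a value of `f` at some `i ∈ a`).
  So `(y, n) ∈ K`, a contradiction. -/

set_option autoImplicit false

universe v

namespace DSB

open STP STP.Fml CPI DLN

variable {N : Type v} {E : N → N → Prop}

theorem CT_ncp (hE : ZFC E) {Y B h τ : N} (hn : CNcp E Y B h) (hτ : IsCT E Y B h τ) :
    ¬ IsCP E Y τ := by
  obtain ⟨w, D, hw, hD, hcov, hdir, hK⟩ := hn
  intro hcp
  -- the open sets `U_n`
  have hU : ∀ n, E n w → ∃! U, ∀ y, E y U ↔ E y Y ∧ ¬ Val E D y n := by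
    intro n _
    obtain ⟨U, hU⟩ := sep hE (ρ := fun y => ¬ Val E D y n)
      ⟨no (fVal 1 0 2), vv Y [D, n], by intro x; simp⟩ Y
    exact ⟨U, hU, fun V hV => hE.ext _ _ (fun z => by rw [hU, hV])⟩
  obtain ⟨f, hf, hf'⟩ := exists_fun hE (ρ := fun n U => ∀ y, E y U ↔ E y Y ∧ ¬ Val E D y n)
    ⟨.all (iff (.mem 0 2) (an (.mem 0 3) (no (fVal 4 0 1)))), vv Y [Y, D],
      by intro x y; simp⟩ w hU
  obtain ⟨S, hS⟩ := exists_ran hE hf
  have hSU : ∀ V, E V S → ∃ n, E n w ∧ ∀ y, E y V ↔ E y Y ∧ ¬ Val E D y n := by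
    intro V hV
    obtain ⟨n, hn, hv⟩ := (hS V).1 hV
    exact ⟨n, hn, ((hf' n V).1 hv).2⟩
  have hSopen : Sub E S τ := by
    intro U hU
    obtain ⟨n, hn, h1⟩ := hSU U hU
    refine (hτ U).2 ⟨fun y hy => ((h1 y).1 hy).1, fun y hy => ?_⟩
    obtain ⟨h2, h3⟩ := (h1 y).1 hy
    obtain ⟨b, hb, hyb, hz⟩ := hD n y hn h2 h3
    exact ⟨b, hb, hyb, fun z hz1 hz2 => (h1 z).2 ⟨hz1, hz z hz1 hz2⟩⟩
  have hScnt : IsCnt E S := ⟨w, f, hw, hf, fun y hy => (hS y).1 hy⟩
  have hScov : IsCov E Y S := by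
    intro y hy
    obtain ⟨n, hn, hny⟩ := hcov y hy
    obtain ⟨U, hU1⟩ := hf.2.1 n hn
    exact ⟨U, (hS U).2 ⟨n, hn, hU1⟩, (((hf' n U).1 hU1).2 y).2 ⟨hy, hny⟩⟩
  obtain ⟨S', hS'τ, hS'cov, href, hlf⟩ := hcp S hSopen hScnt hScov
  have hV : ∀ V, E V S' → ∃ n, E n w ∧ ∀ z, E z V → E z Y ∧ ¬ Val E D z n := by
    intro V hV
    obtain ⟨U, hU, hVU⟩ := href V hV
    obtain ⟨n, hn, h1⟩ := hSU U hU
    exact ⟨n, hn, fun z hz => (h1 z).1 (hVU z hz)⟩
  obtain ⟨K, -, hKr⟩ := exists_rel hE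
    (ρ := fun y n => ∀ V, E V S' → E y V → ∀ z, E z V → ¬ Val E D z n)
    ⟨.all (.imp (.mem 0 3) (.imp (.mem 1 0) (.all (.imp (.mem 0 1) (no (fVal 5 0 3)))))),
      vv Y [S', D], by intro x y; simp⟩ Y w
  obtain ⟨y, hy, hyK⟩ := hK K (by
    intro n y hn hy hnK
    have h1 : ¬ ∀ V, E V S' → E y V → ∀ z, E z V → ¬ Val E D z n := fun h =>
      hnK ((hKr y n).2 ⟨hy, hn, h⟩)
    push Not at h1
    obtain ⟨V, hVS, hyV, z0, hz0, hz0D⟩ := h1
    obtain ⟨b, hb, hyb, hbV⟩ := ((hτ V).1 (hS'τ V hVS)).2 y hyV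
    exact ⟨b, hb, hyb, fun z hz hzb hzK => ((hKr z n).1 hzK).2.2 V hVS (hbV z hz hzb) z0 hz0
      hz0D⟩) (by
    intro n y hn hy hyD hyK
    obtain ⟨V, hVS, hyV⟩ := hS'cov y hy
    exact ((hKr y n).1 hyK).2.2 V hVS hyV y hyV hyD)
  obtain ⟨U, F, hUτ, hyU, ⟨w', hw', a, ha, f', hf'1, hf'2⟩, hUF⟩ := hlf y hy
  have key : ∀ x, E x w' → ∃ n, E n w ∧ ∀ i V, E i x → Val E f' i V → E V S' → E y V →
      ∀ z, E z V → ¬ Val E D z n := by
    refine om_ind hE hw' (ρ := fun x => ∃ n, E n w ∧ ∀ i V, E i x → Val E f' i V → E V S' →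
      E y V → ∀ z, E z V → ¬ Val E D z n)
      ⟨ex (an (.mem 0 2) (.all (.all (.imp (.mem 1 3) (.imp (fVal 5 1 0) (.imp (.mem 0 6)
        (.imp (.mem 7 0) (.all (.imp (.mem 0 1) (no (fVal 9 0 3))))))))))),
        vv Y [w, f', S', y, D], by intro x; simp⟩ ?_ ?_
    · intro x _ hx
      obtain ⟨n, hn, -⟩ := hcov y hy
      exact ⟨n, hn, fun i V hi => absurd hi (hx i)⟩
    · rintro x s _ _ hs ⟨n, hn, h1⟩
      by_cases h2 : ∃ V0, Val E f' x V0 ∧ E V0 S' ∧ E y V0
      · obtain ⟨V0, h3, h4, h5⟩ := h2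
        obtain ⟨m, hm, h6⟩ := hV V0 h4
        obtain ⟨k, hk, h7⟩ := hdir n m hn hm
        refine ⟨k, hk, fun i V hi hiV hVS hyV z hz hzk => ?_⟩
        obtain ⟨m', _, h8⟩ := hV V hVS
        obtain ⟨h9, h10⟩ := h7 z (h8 z hz).1 hzk
        rcases (hs i).1 hi with hi | rfl
        · exact h1 i V hi hiV hVS hyV z hz h9
        · have e : V = V0 := hf'1.2.2 _ _ _ hiV h3
          subst e
          exact (h6 z hz).2 h10
      · refine ⟨n, hn, fun i V hi hiV hVS hyV z hz => ?_⟩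
        rcases (hs i).1 hi with hi | rfl
        · exact h1 i V hi hiV hVS hyV z hz
        · exact absurd ⟨V, hiV, hVS, hyV⟩ h2
  obtain ⟨n, hn, h1⟩ := key a ha
  refine hyK n hn ((hKr y n).2 ⟨hy, hn, fun V hVS hyV z hz => ?_⟩)
  obtain ⟨i, hi, hiV⟩ := hf'2 V (hUF V y hVS hyU hyV)
  exact h1 i V hi hiV hVS hyV z hz

end DSB
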