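import Pool.Agent.DSB.Coded
import Pool.Agent.DLN.ATop

/-! # Part A: `T₁` and normality of the coded topology (package A2)

(problem MP_f2e766_lc, project DSB, part A)

`τ` is the set of all `U` with `COp E Y B h U` (`IsCT`).
* `CT_t1`: let `x ∈ Y`. By `sep hE` (formula `no (.eq 0 1)`, parameter `vv x [x]`) let
  `U := {y ∈ Y | y ≠ x}`. `COp U`: for `y ∈ U` take
  the code `b` of `CT1` for the pair `(y, x)`: `Val h y b`, `¬ Val h x b`; every `z ∈ Y` with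
  `Val h z b` is different from `x`.
* `clo_CCl`: a closed set `A` of the space `(Y, τ)` is closed in the coded sense: for `y ∈ Y \ A`
  we have `y ∈ U`, `U` the
  complement, `COp U` gives the code.
* `CT_nor`: `CNor` and `clo_CCl`; `COp U` is `E U τ`. -/

set_option autoImplicit false

universe v

namespace DSB

open STP STP.Fml CPI DLN

variable {N : Type v} {E : N → N → Prop}

theorem CT_t1 (hE : ZFC E) {Y B h τ : N} (h1 : CT1 E Y B h) (hτ : IsCT E Y B h τ) :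
    IsT1 E Y τ := by
  intro x hx
  obtain ⟨U, hU⟩ := sep hE (ρ := fun y => ¬ y = x)
    ⟨no (.eq 0 1), vv x [x], by intro y; simp⟩ Y
  refine ⟨U, (hτ U).2 ⟨fun y hy => ((hU y).1 hy).1, fun y hy => ?_⟩, hU⟩
  obtain ⟨h2, h3⟩ := (hU y).1 hy
  obtain ⟨b, hb, hyb, hxb⟩ := h1 y x h2 hx h3
  exact ⟨b, hb, hyb, fun z hz hzb => (hU z).2 ⟨hz, fun h4 => hxb (h4 ▸ hzb)⟩⟩

theorem clo_CCl {Y B h τ A : N} (hτ : IsCT E Y B h τ) (hA : IsClo E Y τ A) : CCl E Y B h A := by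
  refine ⟨hA.1, fun y hy hyA => ?_⟩
  obtain ⟨U, hU, hU'⟩ := hA.2
  obtain ⟨b, hb, hyb, h1⟩ := ((hτ U).1 hU).2 y ((hU' y).2 ⟨hy, hyA⟩)
  exact ⟨b, hb, hyb, fun z hzA hzb => ((hU' z).1 (h1 z (hA.1 z hzA) hzb)).2 hzA⟩

theorem CT_nor (hE : ZFC E) {Y B h τ : N} (h1 : CT1 E Y B h) (hn : CNor E Y B h)
    (hτ : IsCT E Y B h τ) : IsNor E Y τ := by
  refine ⟨CT_t1 hE h1 hτ, fun A A' hA hA' hd => ?_⟩
  obtain ⟨U, V, hU, hV, hAU, hAV, h2⟩ := hn A A' (clo_CCl hτ hA) (clo_CCl hτ hA') hd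
  exact ⟨U, V, (hτ U).2 hU, (hτ V).2 hV, hAU, hAV, h2⟩

end DSB
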