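import Pool.Agent.DSB.Coded

/-! # Part A: induction on `ω` inside a model of `ZFC` (package A1)

(problem MP_f2e766_lc, project DSB, part A)

* `om_ind`: suppose that `ρ x` fails for some `x ∈ w`. By `sep hE` with the formula of `¬ ρ` (from
  the pair `⟨φ, v, h⟩` of
  `Df1` take `⟨Fml.no φ, v, _⟩`) there is the set `y` of all `x ∈ w` with `¬ ρ x`; it is not empty,
  so by `hE.found` it has an
  element `x` no element of which is in `y`. If `x` has no element, `h0` gives `ρ x`. Otherwise the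
  last clause of
  `IsOm` gives `u` with `IsSc E x u`, so `E u x`, and `E u w` since `w` is transitive (`hw.1.1`);
  `u` is not in `y`, so `ρ u`,
  and `hs` gives `ρ x`. Contradiction.
* `no_cyc`: `¬ E x x` (foundation for the set `{x}`, `hE.pair x x`). -/

set_option autoImplicit false

universe v

namespace DSB

open STP STP.Fml CPI DLN

variable {N : Type v} {E : N → N → Prop}

theorem om_ind (hE : ZFC E) {w : N} (hw : IsOm E w) {ρ : N → Prop} (hρ : Df1 E ρ)
    (h0 : ∀ x, E x w → (∀ z, ¬ E z x) → ρ x)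
    (hs : ∀ x s, E x w → E s w → IsSc E s x → ρ x → ρ s) : ∀ x, E x w → ρ x := by
  intro x₀ hx₀
  by_contra hcon
  obtain ⟨φ, v, h⟩ := hρ
  have hn : Df1 E fun x => ¬ ρ x := ⟨φ.no, v, fun x => not_congr (h x)⟩
  obtain ⟨y, hy⟩ := sep hE hn w
  obtain ⟨x, hx, hmin⟩ := hE.found y ⟨x₀, (hy x₀).2 ⟨hx₀, hcon⟩⟩
  obtain ⟨hxw, hnx⟩ := (hy x).1 hx
  by_cases hemp : ∃ z, E z x
  · obtain ⟨u, hu⟩ := hw.2.2.2 x hxw hemp
    have hux : E u x := (hu u).2 (Or.inr rfl)
    have huw : E u w := hw.1.1 x hxw u hux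
    have hρu : ρ u := by
      by_contra hc
      exact hmin u ((hy u).2 ⟨huw, hc⟩) hux
    exact hnx (hs u x huw hxw hu hρu)
  · exact hnx (h0 x hxw fun z hz => hemp ⟨z, hz⟩)

theorem no_cyc (hE : ZFC E) (x : N) : ¬ E x x := by
  obtain ⟨z, hz⟩ := hE.pair x x
  obtain ⟨y, hy, h⟩ := hE.found z ⟨x, (hz x).2 (Or.inl rfl)⟩
  have hyx : y = x := by
    rcases (hz y).1 hy with h1 | h1
    · exact h1
    · exact h1
  subst hyx
  exact h y hy

end DSB
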