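import Pool.Agent.DSB.Coded
import Pool.Agent.DLN.ATop

/-! # Part A: the `σ`-disjoint base (package A3)

(problem MP_f2e766_lc, project DSB, part A)

`CT_sd`: let `w`, `s` be as in `CSd`. For a code `b` the set `U_b = {y ∈ Y | Val h y b}` is open
(`DLN.CT_bas`). For `n ∈ w` let `B_n`
be the set of all `U ∈ τ` such that for some `b ∈ B`: `Val s b n` and `U = U_b`. The relation
`ρ n C := ∀ U, E U C ↔ E U τ ∧ ∃ b, E b B ∧ Val E s b n ∧ ∀ y, E y U ↔ E y Y ∧ Val E h y b` is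
definable (`Df2`: variables `0 = n`,
`1 = C`, parameters `τ, B, s, Y, h`, de Bruijn indices are shifted by one under every quantifier),
and for every `n` there is exactly
one such `C` (`sep hE` for the existence, `hE.ext` for the uniqueness). `CPI.exists_fun hE` gives a
function `f` with domain
`w` and `Val f n C ↔ n ∈ w ∧ ρ n C`. Members of `B_n` are open. If `U, V ∈ B_n`, `z ∈ U`, `z ∈ V`,
then `U = U_b`, `V = U_c`,
`s(b) = s(c) = n`, so `b = c` by `CSd` and `U = V` by `hE.ext`. Base: for `x ∈ U ∈ τ` the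
definition `COp` gives a code `b ∈ B` with
`x ∈ U_b ⊆ U`; `s` has a value `n` at `b` (`IsFun`), `n ∈ w`, `C` with `ρ n C`, and `U_b ∈ C`. -/

set_option autoImplicit false

universe v

namespace DSB

open STP STP.Fml CPI DLN

variable {N : Type v} {E : N → N → Prop}

theorem CT_sd (hE : ZFC E) {Y B h τ : N} (hs : CSd E Y B h) (hτ : IsCT E Y B h τ) :
    HasSDB E τ := by
  obtain ⟨w, s, hw, hsf, hsw, hsd⟩ := hs
  let ρ : N → N → Prop := fun n C => ∀ U, E U C ↔ E U τ ∧ ∃ b, E b B ∧ Val E s b n ∧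
    ∀ y, E y U ↔ E y Y ∧ Val E h y b
  have hρ : Df2 E ρ :=
    ⟨.all (iff (.mem 0 2) (an (.mem 0 3) (ex (an (.mem 0 5) (an (fVal 6 0 2)
      (.all (iff (.mem 0 2) (an (.mem 0 8) (fVal 9 0 1))))))))), vv Y [τ, B, s, Y, h], by
      intro x y
      simp [ρ]⟩
  have hex : ∀ n, ∃! C, ρ n C := by
    intro n
    obtain ⟨C, hC⟩ := sep hE (ρ := fun U => ∃ b, E b B ∧ Val E s b n ∧
        ∀ y, E y U ↔ E y Y ∧ Val E h y b)
      ⟨ex (an (.mem 0 2) (an (fVal 3 0 6) (.all (iff (.mem 0 2) (an (.mem 0 5) (fVal 6 0 1)))))),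
        vv Y [B, s, Y, h, n], by intro x; simp⟩ τ
    refine ⟨C, hC, fun C' hC' => ?_⟩
    exact hE.ext _ _ fun U => (hC' U).trans (hC U).symm
  obtain ⟨f, hf, hfv⟩ := exists_fun hE hρ w fun n _ => hex n
  refine ⟨w, f, hw, hf, ?_, ?_⟩
  · intro n C hnC
    obtain ⟨-, hC⟩ := (hfv n C).1 hnC
    refine ⟨fun U hU => ((hC U).1 hU).1, ?_⟩
    intro U V z hU hV hzU hzV
    obtain ⟨-, b, -, hb, hbU⟩ := (hC U).1 hU
    obtain ⟨-, c, -, hc, hcV⟩ := (hC V).1 hV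
    have h1 := (hbU z).1 hzU
    have h2 := (hcV z).1 hzV
    have h3 := hsd b c n z hb hc h1.1 h1.2 h2.2
    subst h3
    exact hE.ext _ _ fun y => (hbU y).trans (hcV y).symm
  · intro U x hU hx
    obtain ⟨h1, h2⟩ := (hτ U).1 hU
    obtain ⟨b, hb, hxb, hbU⟩ := h2 x hx
    obtain ⟨V, hV, hV'⟩ := CT_bas hE hτ hb
    obtain ⟨n, hn⟩ := hsf.2.1 b hb
    obtain ⟨C, hC, -⟩ := hex n
    refine ⟨n, C, V, (hfv n C).2 ⟨hsw b n hn, hC⟩, (hC V).2 ⟨hV, b, hb, hn, hV'⟩,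
      (hV' x).2 ⟨h1 x hx, hxb⟩, fun z hz => ?_⟩
    exact hbU z ((hV' z).1 hz).1 ((hV' z).1 hz).2

end DSB
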