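import Pool.Agent.DSB.GPt

/-! # Patterns (package M3; pure combinatorics)

(problem MP_f2e766_lc, project DSB, part M)

A pattern is a finite set of atoms over the points of the ground model and placeholders
`(n, i) : ℕ × ℕ` (`n` is the level), and over the labels and
placeholders `i : ℕ`. `Re W L π g`: the set `g` of atoms is a realization of the pattern `π` by
points outside of `W` and labels outside of `L`.
* `pat_cnt`: the set of the atoms with parameters in `W`, `L` is countable, and a countable set has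
  countably many finite subsets
  (`Set.countable_setOf_finite_subset`).
* `pat_ex`: `gp g \ W` and `gl g \ L` are finite; enumerate them injectively by natural numbers
  `i x`; the placeholder of `x` is `(x.1, i x)`, of a label
  `k` it is `i k`. `π` is the image of `g`.
* `pat_fin`: finitely many parameters.
* `re_anti`: immediate.
* `pat_copy`: let `θ`, `η` realize `g` and `θ'`, `η'` realize `g0`. `f x := x` for `x ∈ W`,
  `f (θ y) := θ' y` for the used placeholders `y`; `j k := k` for `k ∈ L`,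
  `j (η y) := η' y` (`η` is injective on the used placeholders). `f` is injective on `gp g`: `θ'`
  is injective on the used placeholders and its values are outside
  of `W0`, which contains all parameters of `π` (`POk W0 L0 π`); points of `gp g ∩ W` are
  parameters of `π`. -/

set_option autoImplicit false

namespace DSB

/-- atoms with placeholders -/
inductive PA : Type
  /-- closeness -/
  | cl (z a : Pt ⊕ ℕ × ℕ) (v : ℕ) : PA
  /-- status -/
  | st (l : Lb ⊕ ℕ) (a : Pt ⊕ ℕ × ℕ) (c : Bool) (e : ℕ) : PA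

/-- the entries of the first kind -/
def PA.pts : PA → Set (Pt ⊕ ℕ × ℕ)
  | .cl z a _ => {z, a}
  | .st _ a _ _ => {a}

/-- the entries of the second kind -/
def PA.lbs : PA → Set (Lb ⊕ ℕ)
  | .cl _ _ _ => ∅
  | .st l _ _ _ => {l}

/-- substitution for the placeholders -/
def PA.inst (θ : ℕ × ℕ → Pt) (η : ℕ → Lb) : PA → Atom
  | .cl z a v => .cl (Sum.elim id θ z) (Sum.elim id θ a) v
  | .st l a c e => .st (Sum.elim id η l) (Sum.elim id θ a) c e

/-- a finite pattern with parameters in `W`, `L` -/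
def POk (W : Set Pt) (L : Set Lb) (π : Set PA) : Prop :=
  π.Finite ∧ (∀ α ∈ π, ∀ x, .inl x ∈ α.pts → x ∈ W) ∧ ∀ α ∈ π, ∀ i, .inl i ∈ α.lbs → i ∈ L

/-- `g` is a realization of the pattern -/
def Re (W : Set Pt) (L : Set Lb) (π : Set PA) (g : Set Atom) : Prop :=
  ∃ (θ : ℕ × ℕ → Pt) (η : ℕ → Lb), PA.inst θ η '' π = g ∧
    (∀ α ∈ π, ∀ y, .inr y ∈ α.pts → θ y ∉ W ∧ (θ y).1 = y.1) ∧
    (∀ α ∈ π, ∀ β ∈ π, ∀ y y', .inr y ∈ α.pts → .inr y' ∈ β.pts → θ y = θ y' → y = y') ∧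
    (∀ α ∈ π, ∀ y, .inr y ∈ α.lbs → η y ∉ L) ∧
    ∀ α ∈ π, ∀ β ∈ π, ∀ y y', .inr y ∈ α.lbs → .inr y' ∈ β.lbs → η y = η y' → y = y'

/-- `f`, `j` copy the atoms in `g`; they fix the elements of `W` and `L` -/
structure Copy (f : Pt → Pt) (j : Lb → Lb) (W : Set Pt) (L : Set Lb) (g : Set Atom) : Prop where
  inj : Set.InjOn f (gp g)
  lev : ∀ x ∈ gp g, (f x).1 = x.1
  idp : ∀ x ∈ gp g, x ∈ W → f x = x
  idl : ∀ i ∈ gl g, i ∈ L → j i = i

private theorem pts_finite (α : PA) : α.pts.Finite := by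
  cases α with
  | cl z a v => exact Set.toFinite {z, a}
  | st l a c e => exact Set.finite_singleton a

private theorem lbs_finite (α : PA) : α.lbs.Finite := by
  cases α with
  | cl z a v => exact Set.finite_empty
  | st l a c e => exact Set.finite_singleton l

theorem pat_cnt {W : Set Pt} {L : Set Lb} (hW : W.Countable) (hL : L.Countable) :
    {π | POk W L π}.Countable := by
  have hP : (Sum.inl '' W ∪ Set.range (Sum.inr : ℕ × ℕ → Pt ⊕ ℕ × ℕ)).Countable :=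
    (hW.image _).union (Set.countable_range _)
  have hQ : (Sum.inl '' L ∪ Set.range (Sum.inr : ℕ → Lb ⊕ ℕ)).Countable :=
    (hL.image _).union (Set.countable_range _)
  have hA : {α : PA | (∀ x, .inl x ∈ α.pts → x ∈ W) ∧ ∀ i, .inl i ∈ α.lbs → i ∈ L}.Countable := by
    have h1 : ((fun x : (Pt ⊕ ℕ × ℕ) × (Pt ⊕ ℕ × ℕ) × ℕ => PA.cl x.1 x.2.1 x.2.2) ''
        ((Sum.inl '' W ∪ Set.range (Sum.inr : ℕ × ℕ → Pt ⊕ ℕ × ℕ)) ×ˢ
          ((Sum.inl '' W ∪ Set.range (Sum.inr : ℕ × ℕ → Pt ⊕ ℕ × ℕ)) ×ˢ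
            (Set.univ : Set ℕ)))).Countable :=
      (hP.prod (hP.prod (Set.to_countable _))).image _
    have h2 : ((fun x : (Lb ⊕ ℕ) × (Pt ⊕ ℕ × ℕ) × Bool × ℕ =>
        PA.st x.1 x.2.1 x.2.2.1 x.2.2.2) ''
        ((Sum.inl '' L ∪ Set.range (Sum.inr : ℕ → Lb ⊕ ℕ)) ×ˢ
          ((Sum.inl '' W ∪ Set.range (Sum.inr : ℕ × ℕ → Pt ⊕ ℕ × ℕ)) ×ˢ
            (Set.univ : Set (Bool × ℕ))))).Countable :=
      (hQ.prod (hP.prod (Set.to_countable _))).image _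
    refine (h1.union h2).mono ?_
    have key : ∀ s : Pt ⊕ ℕ × ℕ, (∀ x, .inl x = s → x ∈ W) →
        s ∈ Sum.inl '' W ∪ Set.range (Sum.inr : ℕ × ℕ → Pt ⊕ ℕ × ℕ) := by
      rintro (x | y) h
      · exact Or.inl ⟨x, h x rfl, rfl⟩
      · exact Or.inr ⟨y, rfl⟩
    have key' : ∀ s : Lb ⊕ ℕ, (∀ x, .inl x = s → x ∈ L) →
        s ∈ Sum.inl '' L ∪ Set.range (Sum.inr : ℕ → Lb ⊕ ℕ) := by
      rintro (x | y) h
      · exact Or.inl ⟨x, h x rfl, rfl⟩
      · exact Or.inr ⟨y, rfl⟩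
    rintro α ⟨hα, hβ⟩
    cases α with
    | cl z a v =>
      refine Or.inl ⟨(z, a, v), ⟨key z fun x hx => hα x ?_, key a fun x hx => hα x ?_,
        Set.mem_univ _⟩, rfl⟩
      · rw [hx]
        exact Or.inl rfl
      · rw [hx]
        exact Or.inr rfl
    | st l a c e =>
      refine Or.inr ⟨(l, a, c, e), ⟨key' l fun x hx => hβ x ?_, key a fun x hx => hα x ?_,
        Set.mem_univ _⟩, rfl⟩
      · rw [hx]
        exact rfl
      · rw [hx]
        exact rfl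
  refine (Set.countable_ofPred_finite_subset hA).mono ?_
  rintro π ⟨h1, h2, h3⟩
  exact ⟨h1, fun α hα => ⟨h2 α hα, h3 α hα⟩⟩

theorem pat_ex (W : Set Pt) (L : Set Lb) {g : Set Atom} (hg : g.Finite) :
    ∃ π, POk W L π ∧ Re W L π g := by
  classical
  obtain ⟨i, hi⟩ := Set.countable_iff_exists_injOn.1 ((gp_fin hg).sdiff (t := W)).countable
  obtain ⟨j, hj⟩ := Set.countable_iff_exists_injOn.1 ((gl_fin hg).sdiff (t := L)).countable
  have henc : Set.InjOn (fun x : Pt => (x.1, i x)) (gp g \ W) := fun x hx y hy hxy =>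
    hi hx hy (Prod.ext_iff.1 hxy).2
  have : Nonempty Lb := by
    by_contra hc
    have h1 := Cardinal.mk_ord_toType (Cardinal.mk (Set K))
    have h2 : IsEmpty Lb := not_nonempty_iff.1 hc
    rw [Cardinal.mk_eq_zero] at h1
    exact Cardinal.mk_ne_zero _ h1.symm
  obtain ⟨θ, hθ⟩ : ∃ θ : ℕ × ℕ → Pt, ∀ x ∈ gp g \ W, θ (x.1, i x) = x :=
    ⟨Function.invFunOn (fun x : Pt => (x.1, i x)) (gp g \ W), henc.leftInvOn_invFunOn⟩
  obtain ⟨η, hη⟩ : ∃ η : ℕ → Lb, ∀ x ∈ gl g \ L, η (j x) = x :=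
    ⟨Function.invFunOn j (gl g \ L), hj.leftInvOn_invFunOn⟩
  obtain ⟨s, hs⟩ : ∃ s : Pt → Pt ⊕ ℕ × ℕ, ∀ x, (x ∈ W ∧ s x = .inl x) ∨
      (x ∉ W ∧ s x = .inr (x.1, i x)) :=
    ⟨fun x => if x ∈ W then .inl x else .inr (x.1, i x), fun x => by
      by_cases h : x ∈ W
      · exact Or.inl ⟨h, by simp [h]⟩
      · exact Or.inr ⟨h, by simp [h]⟩⟩
  obtain ⟨t, ht⟩ : ∃ t : Lb → Lb ⊕ ℕ, ∀ x, (x ∈ L ∧ t x = .inl x) ∨
      (x ∉ L ∧ t x = .inr (j x)) :=
    ⟨fun x => if x ∈ L then .inl x else .inr (j x), fun x => by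
      by_cases h : x ∈ L
      · exact Or.inl ⟨h, by simp [h]⟩
      · exact Or.inr ⟨h, by simp [h]⟩⟩
  obtain ⟨tr, htr1, htr2⟩ : ∃ tr : Atom → PA, (∀ z a v, tr (.cl z a v) = .cl (s z) (s a) v) ∧
      ∀ l a c e, tr (.st l a c e) = .st (t l) (s a) c e :=
    ⟨fun α => match α with
      | .cl z a v => .cl (s z) (s a) v
      | .st l a c e => .st (t l) (s a) c e, fun _ _ _ => rfl, fun _ _ _ _ => rfl⟩
  have hp : ∀ α ∈ g, ∀ x ∈ (tr α).pts, ∃ z ∈ gp g, s z = x := by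
    intro α hα x hx
    cases α with
    | cl z a v =>
      rw [htr1] at hx
      rcases hx with hx | hx
      · exact ⟨z, ⟨_, hα, Or.inl rfl⟩, hx.symm⟩
      · exact ⟨a, ⟨_, hα, Or.inr rfl⟩, hx.symm⟩
    | st l a c e =>
      rw [htr2] at hx
      exact ⟨a, ⟨_, hα, rfl⟩, (show x = s a from hx).symm⟩
  have hl : ∀ α ∈ g, ∀ x ∈ (tr α).lbs, ∃ z ∈ gl g, t z = x := by
    intro α hα x hx
    cases α with
    | cl z a v =>
      rw [htr1] at hx
      exact absurd hx (Set.notMem_empty _)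
    | st l a c e =>
      rw [htr2] at hx
      exact ⟨l, ⟨_, hα, rfl⟩, (show x = t l from hx).symm⟩
  have hp' : ∀ α ∈ tr '' g, ∀ y, Sum.inr y ∈ α.pts → ∃ z ∈ gp g \ W, y = (z.1, i z) := by
    rintro _ ⟨α, hα, rfl⟩ y hy
    obtain ⟨z, hz, hzy⟩ := hp α hα _ hy
    rcases hs z with ⟨h1, h2⟩ | ⟨h1, h2⟩
    · rw [h2] at hzy
      exact absurd hzy (by simp)
    · rw [h2] at hzy
      exact ⟨z, ⟨hz, h1⟩, (Sum.inr.inj hzy).symm⟩
  have hl' : ∀ α ∈ tr '' g, ∀ y, Sum.inr y ∈ α.lbs → ∃ z ∈ gl g \ L, y = j z := by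
    rintro _ ⟨α, hα, rfl⟩ y hy
    obtain ⟨z, hz, hzy⟩ := hl α hα _ hy
    rcases ht z with ⟨h1, h2⟩ | ⟨h1, h2⟩
    · rw [h2] at hzy
      exact absurd hzy (by simp)
    · rw [h2] at hzy
      exact ⟨z, ⟨hz, h1⟩, (Sum.inr.inj hzy).symm⟩
  have es : ∀ z ∈ gp g, Sum.elim id θ (s z) = z := by
    intro z hz
    rcases hs z with ⟨h1, h2⟩ | ⟨h1, h2⟩
    · rw [h2]
      rfl
    · rw [h2]
      exact hθ z ⟨hz, h1⟩
  have et : ∀ z ∈ gl g, Sum.elim id η (t z) = z := by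
    intro z hz
    rcases ht z with ⟨h1, h2⟩ | ⟨h1, h2⟩
    · rw [h2]
      rfl
    · rw [h2]
      exact hη z ⟨hz, h1⟩
  refine ⟨tr '' g, ⟨hg.image _, ?_, ?_⟩, θ, η, ?_, ?_, ?_, ?_, ?_⟩
  · rintro _ ⟨α, hα, rfl⟩ x hx
    obtain ⟨z, hz, hzy⟩ := hp α hα _ hx
    rcases hs z with ⟨h1, h2⟩ | ⟨h1, h2⟩
    · rw [h2] at hzy
      rwa [← Sum.inl.inj hzy]
    · rw [h2] at hzy
      exact absurd hzy (by simp)
  · rintro _ ⟨α, hα, rfl⟩ x hx
    obtain ⟨z, hz, hzy⟩ := hl α hα _ hx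
    rcases ht z with ⟨h1, h2⟩ | ⟨h1, h2⟩
    · rw [h2] at hzy
      rwa [← Sum.inl.inj hzy]
    · rw [h2] at hzy
      exact absurd hzy (by simp)
  · rw [Set.image_image]
    refine (Set.image_congr (g := id) fun α hα => ?_).trans (Set.image_id g)
    cases α with
    | cl z a v =>
      rw [htr1]
      change Atom.cl _ _ v = _
      rw [es z ⟨_, hα, Or.inl rfl⟩, es a ⟨_, hα, Or.inr rfl⟩]
      rfl
    | st l a c e =>
      rw [htr2]
      change Atom.st _ _ c e = _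
      rw [et l ⟨_, hα, rfl⟩, es a ⟨_, hα, rfl⟩]
      rfl
  · intro α hα y hy
    obtain ⟨z, hz, rfl⟩ := hp' α hα y hy
    rw [hθ z hz]
    exact ⟨hz.2, rfl⟩
  · intro α hα β hβ y y' hy hy' h
    obtain ⟨z, hz, rfl⟩ := hp' α hα y hy
    obtain ⟨z', hz', rfl⟩ := hp' β hβ y' hy'
    rw [hθ z hz, hθ z' hz'] at h
    rw [h]
  · intro α hα y hy
    obtain ⟨z, hz, rfl⟩ := hl' α hα y hy
    rw [hη z hz]
    exact hz.2
  · intro α hα β hβ y y' hy hy' h
    obtain ⟨z, hz, rfl⟩ := hl' α hα y hy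
    obtain ⟨z', hz', rfl⟩ := hl' β hβ y' hy'
    rw [hη z hz, hη z' hz'] at h
    rw [h]

theorem pat_fin {W : ℕ → Set Pt} {L : ℕ → Set Lb} (hW : ∀ n, W n ⊆ W (n + 1))
    (hL : ∀ n, L n ⊆ L (n + 1)) {π : Set PA} (h : POk (⋃ n, W n) (⋃ n, L n) π) :
    ∃ n, POk (W n) (L n) π := by
  obtain ⟨h1, h2, h3⟩ := h
  have mW : Monotone W := monotone_nat_of_le_succ hW
  have mL : Monotone L := monotone_nat_of_le_succ hL
  have k1 : ∀ᶠ n in Filter.atTop, ∀ α ∈ π, ∀ x ∈ Sum.inl ⁻¹' α.pts, x ∈ W n := by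
    refine (Filter.eventually_all_finite h1).2 fun α hα => ?_
    refine (Filter.eventually_all_finite
      ((pts_finite α).preimage Sum.inl_injective.injOn)).2 fun x hx => ?_
    obtain ⟨n, hn⟩ := Set.mem_iUnion.1 (h2 α hα x hx)
    filter_upwards [Filter.eventually_ge_atTop n] with m hm using mW hm hn
  have k2 : ∀ᶠ n in Filter.atTop, ∀ α ∈ π, ∀ x ∈ Sum.inl ⁻¹' α.lbs, x ∈ L n := by
    refine (Filter.eventually_all_finite h1).2 fun α hα => ?_
    refine (Filter.eventually_all_finite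
      ((lbs_finite α).preimage Sum.inl_injective.injOn)).2 fun x hx => ?_
    obtain ⟨n, hn⟩ := Set.mem_iUnion.1 (h3 α hα x hx)
    filter_upwards [Filter.eventually_ge_atTop n] with m hm using mL hm hn
  obtain ⟨n, k3, k4⟩ := (k1.and k2).exists
  exact ⟨n, h1, k3, k4⟩

theorem re_anti {W W' : Set Pt} {L L' : Set Lb} (hW : W ⊆ W') (hL : L ⊆ L') {π : Set PA}
    {g : Set Atom} (h : Re W' L' π g) : Re W L π g := by
  obtain ⟨θ, η, h1, h2, h3, h4, h5⟩ := h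
  exact ⟨θ, η, h1, fun α hα y hy => ⟨fun hc => (h2 α hα y hy).1 (hW hc), (h2 α hα y hy).2⟩, h3,
    fun α hα y hy hc => h4 α hα y hy (hL hc), h5⟩

theorem pat_copy {W W0 : Set Pt} {L L0 : Set Lb} {π : Set PA} {g g0 : Set Atom}
    (hW : W0 ⊆ W) (hL : L0 ⊆ L) (hπ : POk W0 L0 π) (h : Re W L π g) (h0 : Re W0 L0 π g0) :
    ∃ f j, Copy f j W L g ∧ Atom.map f j '' g = g0 := by
  classical
  obtain ⟨θ, η, h1, h2, h3, h4, h5⟩ := h
  obtain ⟨θ', η', k1, k2, k3, k4, k5⟩ := h0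
  obtain ⟨f, hf1, hf2⟩ : ∃ f : Pt → Pt, (∀ α ∈ π, ∀ y, Sum.inr y ∈ α.pts → f (θ y) = θ' y) ∧
      ∀ x ∈ W, f x = x := by
    refine ⟨fun x => if h : ∃ y, (∃ α ∈ π, Sum.inr y ∈ α.pts) ∧ θ y = x then θ' h.choose else x,
      fun α hα y hy => ?_, fun x hx => ?_⟩
    · have hex : ∃ y', (∃ α ∈ π, Sum.inr y' ∈ α.pts) ∧ θ y' = θ y := ⟨y, ⟨α, hα, hy⟩, rfl⟩
      beta_reduce
      rw [dif_pos hex]
      obtain ⟨⟨β, hβ, hy'⟩, he⟩ := hex.choose_spec
      rw [h3 β hβ α hα _ _ hy' hy he]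
    · beta_reduce
      rw [dif_neg]
      rintro ⟨y, ⟨α, hα, hy⟩, rfl⟩
      exact (h2 α hα y hy).1 hx
  obtain ⟨j, hj1, hj2⟩ : ∃ j : Lb → Lb, (∀ α ∈ π, ∀ y, Sum.inr y ∈ α.lbs → j (η y) = η' y) ∧
      ∀ x ∈ L, j x = x := by
    refine ⟨fun x => if h : ∃ y, (∃ α ∈ π, Sum.inr y ∈ α.lbs) ∧ η y = x then η' h.choose else x,
      fun α hα y hy => ?_, fun x hx => ?_⟩
    · have hex : ∃ y', (∃ α ∈ π, Sum.inr y' ∈ α.lbs) ∧ η y' = η y := ⟨y, ⟨α, hα, hy⟩, rfl⟩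
      beta_reduce
      rw [dif_pos hex]
      obtain ⟨⟨β, hβ, hy'⟩, he⟩ := hex.choose_spec
      rw [h5 β hβ α hα _ _ hy' hy he]
    · beta_reduce
      rw [dif_neg]
      rintro ⟨y, ⟨α, hα, hy⟩, rfl⟩
      exact h4 α hα y hy hx
  have ef : ∀ α ∈ π, ∀ s ∈ α.pts, f (Sum.elim id θ s) = Sum.elim id θ' s := by
    rintro α hα (x | y) hs
    · exact hf2 x (hW (hπ.2.1 α hα x hs))
    · exact hf1 α hα y hs
  have ej : ∀ α ∈ π, ∀ s ∈ α.lbs, j (Sum.elim id η s) = Sum.elim id η' s := by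
    rintro α hα (x | y) hs
    · exact hj2 x (hL (hπ.2.2 α hα x hs))
    · exact hj1 α hα y hs
  have hgp : ∀ x ∈ gp g, ∃ α ∈ π, ∃ s ∈ α.pts, x = Sum.elim id θ s := by
    rintro x ⟨α, hα, hx⟩
    rw [← h1] at hα
    obtain ⟨β, hβ, rfl⟩ := hα
    refine ⟨β, hβ, ?_⟩
    cases β with
    | cl z a v =>
      rcases hx with hx | hx
      · exact ⟨z, Or.inl rfl, hx⟩
      · exact ⟨a, Or.inr rfl, hx⟩
    | st l a c e => exact ⟨a, rfl, hx⟩
  refine ⟨f, j, ⟨?_, ?_, fun x _ hx => hf2 x hx, fun i _ hi => hj2 i hi⟩, ?_⟩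
  · intro x hx x' hx' he
    obtain ⟨α, hα, s, hs, rfl⟩ := hgp x hx
    obtain ⟨β, hβ, s', hs', rfl⟩ := hgp x' hx'
    rw [ef α hα s hs, ef β hβ s' hs'] at he
    rcases s with x | y <;> rcases s' with x' | y'
    · exact he
    · have h6 := hπ.2.1 α hα x hs
      have h7 : x = θ' y' := he
      rw [h7] at h6
      exact absurd h6 (k2 β hβ y' hs').1
    · have h6 := hπ.2.1 β hβ x' hs'
      have h7 : θ' y = x' := he
      rw [← h7] at h6
      exact absurd h6 (k2 α hα y hs).1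
    · rw [k3 α hα β hβ y y' hs hs' he]
  · intro x hx
    obtain ⟨α, hα, s, hs, rfl⟩ := hgp x hx
    rw [ef α hα s hs]
    rcases s with x | y
    · rfl
    · exact (k2 α hα y hs).2.trans (h2 α hα y hs).2.symm
  · rw [← h1, ← k1, Set.image_image]
    refine Set.image_congr fun α hα => ?_
    cases α with
    | cl z a v =>
      change Atom.cl _ _ v = Atom.cl _ _ v
      rw [ef _ hα z (Or.inl rfl), ef _ hα a (Or.inr rfl)]
    | st l a c e =>
      change Atom.st _ _ c e = Atom.st _ _ c e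
      rw [ef _ hα a rfl, ej _ hα l rfl]

end DSB
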