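import Pool.Agent.DSB.Bas
import Pool.Agent.DSB.Pat

/-! # The amalgamation lemma: memberships (package M7; section 2 (iv) of the paper proof; pure)

(problem MP_f2e766_lc, project DSB, part M)

`g1` (the atoms of `q'` in the paper) is copied into `g2` (the atoms of the rung) by `f`, `j`,
which fix the common points and labels. `amg` is the union of `g1`, `g2` and the new atoms
`cl z A M`, `cl z b v` (`cl A b v ∈ g2`, `b.1 < e`). Let `ps x = f x` for `x ∈ gp g1`, `ps x = x`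
otherwise; similarly `js` for labels. By `Copy.idp`, `idl`, `cp`, `cl`: `ps x = x` for `x ∈ gp g2`,
`js i = i`
for `i ∈ gl g2`. So `Atom.map ps js` maps all atoms of `g1 ∪ g2` into `g2`.

* `amg_bs`: validity: `Lad z A M`; if `cl A b v ∈ g2`, `b.1 < e < M`, then `Lad A b m`, `v ≤ m`,
  and `Lad z b m`. Functional: two atoms `cl x y v ∈ g1`, `cl x y v' ∈ g2`: `x`, `y` are common
  points, so they
  are fixed, `cl x y v ∈ g2`. New atoms: their second point is not in `gp g1`, `z ∉ gp g2`, and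
  `b ≠ A` since `A.1 < b.1`.
* `am_w` (the case `w ≠ z`): `st i a c e' ∈ g1 ∪ g2` and `In (amg ..) w a e'` with `w ≠ z`. Then
  `st (js i) (ps a) c e' ∈ g2` and `In g2 (ps w) (ps a) e'`. PROOF. The first statement is clear.
  If `w = a`: `Dc g2 (ps a) e'`: `dc1`
  (the image of `g1`) or `dc2`, monotone. If `w ≠ a`: `cl w a v`, `e' < v`, is not a new atom
  (`w ≠ z`), so `cl (ps w) (ps a) v ∈ g2`. Let `cl (ps a) y v1 ∈ g2`, `y.1 < e'`, `1 ≤ v1`. Case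
  `st i a c e' ∈ g2`: `ps a = a`,
  `cl a y v1 ∈ g2 ⊆ amg`; the membership gives `cl w y v' ∈ amg`, `v1 ≤ v'`, not new, so
  `cl (ps w) (ps y) v' ∈ g2`, `ps y = y`. Case `st i a c e' ∈ g1`: `ps a = f a`; `y` is in the
  ladder of `f a` (`bs2`), so by `dc1`
  `cl (f a) y v2` is in the image of `g1`: `cl a' x v2 ∈ g1` with `f a' = f a`, `f x = y`, so
  `a' = a` (`inj`), `x.1 = y.1` (`lev`); `v2 = v1` since both atoms are in `g2` (`him`, `bs2.fn`).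
  The membership gives
  `cl w x v' ∈ amg`, `v1 ≤ v'`, not new, so `cl (ps w) (f x) v' ∈ g2`.
* `am_z` (the case `w = z`): `st i a c e' ∈ g1 ∪ g2`, `In (amg ..) z a e'`. If `a = z`: the status
  atom is in `g1` (`z ∉ gp g2`), `In g1 z z e'` by `dcs`. Otherwise `cl z a v ∈ amg`, `e' < v`. If
  it is in `g1` (it is not in `g2`, since
  `z ∉ gp g2`): `a` is in the ladder of `z` and in `gp g1`, so `a ∉ gp g2` by `hzW` and the status
  atom is in `g1`. References `cl a x v1 ∈ g1`, `1 ≤ v1`, `x.1 < e'`: `cl z x v' ∈ amg`; it is not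
  new as `x ∈ gp g1`, so in `g1`. This is alternative 1.
  If it is new: `a = A` or (`Lad A a m`, `cl A a v ∈ g2`), so `a ∉ gp g1` and the status atom is in
  `g2`; `In g2 A a e'`: if `a = A`: `dcs`. Otherwise `cl A a v ∈ g2`, `e' < v`; references
  `cl a y v1 ∈ g2`, `1 ≤ v1`, `y.1 < e'`: `cl z y v' ∈ amg`,
  `v1 ≤ v'`; if it is in `g1`, then `y` is a common point in the ladder of `z`, contradiction with
  `hzW`; it is not `cl z A M` because `y.1 > a.1 > A.1`; so `cl A y v' ∈ g2`. This is alternative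
  2. -/

set_option autoImplicit false

namespace DSB

/-- the amalgam -/
def amg (g1 g2 : Set Atom) (z A : Pt) (e M : ℕ) : Set Atom :=
  g1 ∪ g2 ∪ {.cl z A M} ∪ {α | ∃ b v, .cl A b v ∈ g2 ∧ b.1 < e ∧ α = .cl z b v}

/-- the hypotheses of the amalgamation lemma -/
structure AmH (g1 g2 : Set Atom) (z A : Pt) (e M : ℕ) (f : Pt → Pt) (j : Lb → Lb)
    (W : Set Pt) (L : Set Lb) : Prop where
  bs1 : Bs g1
  bs2 : Bs g2
  fin2 : g2.Finite
  dcs1 : ∀ i a c e', .st i a c e' ∈ g1 → Dc g1 a e'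
  dcs2 : ∀ i a c e', .st i a c e' ∈ g2 → Dc g2 a e'
  cp : Copy f j W L g1
  dc1 : ∀ i a c e', .st i a c e' ∈ g1 → Dc (Atom.map f j '' g1) (f a) e'
  him : Atom.map f j '' g1 ⊆ g2
  cW : ∀ x ∈ gp g2, x ∈ gp g1 → x ∈ W
  cL : ∀ i ∈ gl g2, i ∈ gl g1 → i ∈ L
  zg : z ∉ gp g2
  zW : ∀ a m, Lad z a m → a ∉ W
  aA : A ∉ gp g1
  bA : ∀ b m, Lad A b m → b ∉ gp g1
  zA : Lad z A M
  zb : ∀ b m, Lad A b m → b.1 < M → Lad z b m
  eM : e < M
  dA : Dc g2 A e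

section

variable {g1 g2 : Set Atom} {z A : Pt} {e M : ℕ} {f : Pt → Pt} {j : Lb → Lb} {W : Set Pt}
  {L : Set Lb}

private theorem mem_cl {x y : Pt} {v : ℕ} : .cl x y v ∈ amg g1 g2 z A e M ↔
    .cl x y v ∈ g1 ∨ .cl x y v ∈ g2 ∨ (x = z ∧ y = A ∧ v = M) ∨
      (x = z ∧ .cl A y v ∈ g2 ∧ y.1 < e) := by
  constructor
  · rintro (((h | h) | h) | ⟨b, v', h1, h2, h3⟩)
    · exact Or.inl h
    · exact Or.inr (Or.inl h)
    · have h := Set.mem_singleton_iff.1 h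
      injection h with h1 h2 h3
      exact Or.inr (Or.inr (Or.inl ⟨h1, h2, h3⟩))
    · injection h3 with h4 h5 h6
      subst h5 h6
      exact Or.inr (Or.inr (Or.inr ⟨h4, h1, h2⟩))
  · rintro (h | h | ⟨rfl, rfl, rfl⟩ | ⟨rfl, h1, h2⟩)
    · exact Or.inl (Or.inl (Or.inl h))
    · exact Or.inl (Or.inl (Or.inr h))
    · exact Or.inl (Or.inr rfl)
    · exact Or.inr ⟨y, v, h1, h2, rfl⟩

private theorem gp1 {g : Set Atom} {x y : Pt} {v : ℕ} (h : .cl x y v ∈ g) : x ∈ gp g :=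
  ⟨_, h, Or.inl rfl⟩

private theorem gp2 {g : Set Atom} {x y : Pt} {v : ℕ} (h : .cl x y v ∈ g) : y ∈ gp g :=
  ⟨_, h, Or.inr rfl⟩

private theorem gp3 {g : Set Atom} {i : Lb} {a : Pt} {c : Bool} {e : ℕ} (h : .st i a c e ∈ g) :
    a ∈ gp g :=
  ⟨_, h, rfl⟩

private theorem gl3 {g : Set Atom} {i : Lb} {a : Pt} {c : Bool} {e : ℕ} (h : .st i a c e ∈ g) :
    i ∈ gl g :=
  ⟨_, h, rfl⟩

private theorem fx (h : AmH g1 g2 z A e M f j W L) {x : Pt} (h1 : x ∈ gp g1) (h2 : x ∈ gp g2) :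
    f x = x :=
  h.cp.idp x h1 (h.cW x h2 h1)

private theorem jx (h : AmH g1 g2 z A e M f j W L) {i : Lb} (h1 : i ∈ gl g1) (h2 : i ∈ gl g2) :
    j i = i :=
  h.cp.idl i h1 (h.cL i h2 h1)

private theorem im_cl (h : AmH g1 g2 z A e M f j W L) {x y : Pt} {v : ℕ} (h1 : .cl x y v ∈ g1) :
    .cl (f x) (f y) v ∈ g2 :=
  h.him ⟨_, h1, rfl⟩

private theorem im_st (h : AmH g1 g2 z A e M f j W L) {i : Lb} {a : Pt} {c : Bool} {e' : ℕ}
    (h1 : .st i a c e' ∈ g1) : .st (j i) (f a) c e' ∈ g2 :=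
  h.him ⟨_, h1, rfl⟩

theorem amg_fin (h1 : g1.Finite) (h2 : g2.Finite) : (amg g1 g2 z A e M).Finite := by
  refine ((h1.union h2).union (Set.finite_singleton _)).union ?_
  refine (h2.image (fun α : Atom => match α with
    | .cl _ b v => .cl z b v
    | .st i a c e => .st i a c e)).subset ?_
  rintro _ ⟨b, v, h3, -, rfl⟩
  exact ⟨_, h3, rfl⟩

private theorem no1 (h : AmH g1 g2 z A e M f j W L) {y : Pt} {v : ℕ} (h1 : .cl A y v ∈ g2) :
    y ∉ gp g1 := by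
  obtain ⟨m, hm, -⟩ := h.bs2.val _ _ _ h1
  exact h.bA y m hm

private theorem fn12 (h : AmH g1 g2 z A e M f j W L) {x y : Pt} {v v' : ℕ}
    (h1 : .cl x y v ∈ g1) (h2 : .cl x y v' ∈ g2) : v = v' := by
  have h3 := im_cl h h1
  rw [fx h (gp1 h1) (gp1 h2), fx h (gp2 h1) (gp2 h2)] at h3
  exact h.bs2.fn _ _ _ _ h3 h2

private theorem noAA (h : AmH g1 g2 z A e M f j W L) {v : ℕ} (h1 : .cl A A v ∈ g2) : False := by
  obtain ⟨m, hm, -⟩ := h.bs2.val _ _ _ h1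
  exact lt_irrefl _ hm.lt

theorem amg_bs (h : AmH g1 g2 z A e M f j W L) : Bs (amg g1 g2 z A e M) := by
  constructor
  · intro x y v hx
    rcases mem_cl.1 hx with h1 | h1 | ⟨rfl, rfl, rfl⟩ | ⟨rfl, h1, h2⟩
    · exact h.bs1.val _ _ _ h1
    · exact h.bs2.val _ _ _ h1
    · exact ⟨_, h.zA, le_rfl⟩
    · obtain ⟨m, hm, hv⟩ := h.bs2.val _ _ _ h1
      exact ⟨m, h.zb y m hm (h2.trans h.eM), hv⟩
  · intro x y v v' hx hx'
    rcases mem_cl.1 hx with h1 | h1 | ⟨e1, e2, e3⟩ | ⟨e1, h1, h2⟩ <;>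
      rcases mem_cl.1 hx' with h1' | h1' | ⟨e1', e2', e3'⟩ | ⟨e1', h1', h2'⟩
    · exact h.bs1.fn _ _ _ _ h1 h1'
    · exact fn12 h h1 h1'
    · exact absurd (e2' ▸ gp2 h1) h.aA
    · exact absurd (gp2 h1) (no1 h h1')
    · exact (fn12 h h1' h1).symm
    · exact h.bs2.fn _ _ _ _ h1 h1'
    · exact absurd (e1' ▸ gp1 h1) h.zg
    · exact absurd (e1' ▸ gp1 h1) h.zg
    · exact absurd (e2 ▸ gp2 h1') h.aA
    · exact absurd (e1 ▸ gp1 h1') h.zg
    · exact e3.trans e3'.symm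
    · rw [e2] at h1'
      exact (noAA h h1').elim
    · exact absurd (gp2 h1') (no1 h h1)
    · exact absurd (e1 ▸ gp1 h1') h.zg
    · rw [e2'] at h1
      exact (noAA h h1).elim
    · exact h.bs2.fn _ _ _ _ h1 h1'

/-- `z ∈ N(A, e)` -/
theorem amg_in (h : AmH g1 g2 z A e M f j W L) : In (amg g1 g2 z A e M) z A e := by
  refine ⟨h.dA.mono fun α hα => Or.inl (Or.inl (Or.inr hα)), Or.inr ⟨⟨M, h.eM, ?_⟩, ?_⟩⟩
  · exact mem_cl.2 (Or.inr (Or.inr (Or.inl ⟨rfl, rfl, rfl⟩)))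
  · intro x v hx he _
    rcases mem_cl.1 hx with h1 | h1 | ⟨e1, e2, e3⟩ | ⟨e1, h1, h2⟩
    · exact absurd (gp1 h1) h.aA
    · exact ⟨v, le_rfl, mem_cl.2 (Or.inr (Or.inr (Or.inr ⟨rfl, h1, he⟩)))⟩
    · have h3 := h.zA.lt
      rw [e1] at h3
      exact absurd h3 (lt_irrefl _)
    · have h3 := h.zA.lt
      rw [e1] at h3
      exact absurd h3 (lt_irrefl _)

theorem amg_st {i : Lb} {a : Pt} {c : Bool} {e' : ℕ} :
    .st i a c e' ∈ amg g1 g2 z A e M ↔ .st i a c e' ∈ g1 ∨ .st i a c e' ∈ g2 := by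
  constructor
  · rintro (((h | h) | h) | ⟨b, v', h1, h2, h3⟩)
    · exact Or.inl h
    · exact Or.inr h
    · exact Atom.noConfusion (Set.mem_singleton_iff.1 h)
    · exact Atom.noConfusion h3
  · rintro (h | h)
    · exact Or.inl (Or.inl (Or.inl h))
    · exact Or.inl (Or.inl (Or.inr h))

/-- the case `w ≠ z` -/
theorem am_w (h : AmH g1 g2 z A e M f j W L) : ∃ (ps : Pt → Pt) (js : Lb → Lb),
    ∀ i a c e' w, .st i a c e' ∈ amg g1 g2 z A e M → w ≠ z → In (amg g1 g2 z A e M) w a e' →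
      .st (js i) (ps a) c e' ∈ g2 ∧ In g2 (ps w) (ps a) e' := by
  classical
  obtain ⟨ps, p1, p2⟩ : ∃ ps : Pt → Pt, (∀ x ∈ gp g1, ps x = f x) ∧ ∀ x ∈ gp g2, ps x = x := by
    refine ⟨fun x => if x ∈ gp g1 then f x else x, fun x hx => if_pos hx, fun x hx => ?_⟩
    by_cases h1 : x ∈ gp g1
    · exact (if_pos h1).trans (fx h h1 hx)
    · exact if_neg h1
  obtain ⟨js, q1, q2⟩ : ∃ js : Lb → Lb, (∀ x ∈ gl g1, js x = j x) ∧ ∀ x ∈ gl g2, js x = x := by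
    refine ⟨fun x => if x ∈ gl g1 then j x else x, fun x hx => if_pos hx, fun x hx => ?_⟩
    by_cases h1 : x ∈ gl g1
    · exact (if_pos h1).trans (jx h h1 hx)
    · exact if_neg h1
  refine ⟨ps, js, fun i a c e' w hs hw hi => ?_⟩
  have hst : .st (js i) (ps a) c e' ∈ g2 := by
    rcases amg_st.1 hs with h1 | h1
    · rw [p1 a (gp3 h1), q1 i (gl3 h1)]
      exact im_st h h1
    · rw [p2 a (gp3 h1), q2 i (gl3 h1)]
      exact h1
  have hcl : ∀ y v, .cl w y v ∈ amg g1 g2 z A e M → .cl (ps w) (ps y) v ∈ g2 := by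
    intro y v hy
    rcases mem_cl.1 hy with h1 | h1 | ⟨e1, e2, e3⟩ | ⟨e1, h1, h2⟩
    · rw [p1 w (gp1 h1), p1 y (gp2 h1)]
      exact im_cl h h1
    · rw [p2 w (gp1 h1), p2 y (gp2 h1)]
      exact h1
    · exact absurd e1 hw
    · exact absurd e1 hw
  refine ⟨hst, ⟨h.dcs2 _ _ _ _ hst, ?_⟩⟩
  rcases hi.2 with rfl | ⟨⟨v, hv, hc⟩, hr⟩
  · exact Or.inl rfl
  refine Or.inr ⟨⟨v, hv, hcl a v hc⟩, fun y v1 hy he h1 => ?_⟩
  rcases amg_st.1 hs with hs1 | hs2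
  · rw [p1 a (gp3 hs1)] at hy
    obtain ⟨m, hm, -⟩ := h.bs2.val _ _ _ hy
    obtain ⟨v2, α, hα, hα2⟩ := h.dc1 i a c e' hs1 y m hm he
    have hv2 : .cl (f a) y v2 ∈ g2 := h.him ⟨α, hα, hα2⟩
    have hvv := h.bs2.fn _ _ _ _ hv2 hy
    subst hvv
    cases α with
    | st i' a' c' e'' => exact Atom.noConfusion hα2
    | cl a' x v3 =>
      injection hα2 with e1 e2 e3
      subst e3
      have h3 : a' = a := h.cp.inj (gp1 hα) (gp3 hs1) e1
      subst h3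
      have h4 := h.cp.lev x (gp2 hα)
      rw [e2] at h4
      obtain ⟨v', h5, h6⟩ := hr x v3 (mem_cl.2 (Or.inl hα)) (by omega) h1
      refine ⟨v', h5, ?_⟩
      have h7 := hcl x v' h6
      rw [p1 x (gp2 hα), e2] at h7
      exact h7
  · rw [p2 a (gp3 hs2)] at hy
    obtain ⟨v', h5, h6⟩ := hr y v1 (mem_cl.2 (Or.inr (Or.inl hy))) he h1
    refine ⟨v', h5, ?_⟩
    have h7 := hcl y v' h6
    rw [p2 y (gp2 hy)] at h7
    exact h7

/-- the case `w = z` -/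
theorem am_z (h : AmH g1 g2 z A e M f j W L) {i : Lb} {a : Pt} {c : Bool} {e' : ℕ}
    (hs : .st i a c e' ∈ amg g1 g2 z A e M) (hi : In (amg g1 g2 z A e M) z a e') :
    (.st i a c e' ∈ g1 ∧ In g1 z a e') ∨
      (.st i a c e' ∈ g2 ∧ In g2 A a e' ∧ ∃ m, Lad z a m ∧ e' < m) := by
  rcases hi.2 with rfl | ⟨⟨v, hv, hc⟩, hr⟩
  · rcases amg_st.1 hs with h1 | h1
    · exact Or.inl ⟨h1, h.dcs1 _ _ _ _ h1, Or.inl rfl⟩
    · exact absurd (gp3 h1) h.zg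
  rcases mem_cl.1 hc with h1 | h1 | ⟨-, e2, e3⟩ | ⟨-, h1, h2⟩
  · obtain ⟨m, hm, -⟩ := h.bs1.val _ _ _ h1
    rcases amg_st.1 hs with h2 | h2
    · refine Or.inl ⟨h2, h.dcs1 _ _ _ _ h2, Or.inr ⟨⟨v, hv, h1⟩, fun x v1 hx he h3 => ?_⟩⟩
      obtain ⟨v', h4, h5⟩ := hr x v1 (mem_cl.2 (Or.inl hx)) he h3
      refine ⟨v', h4, ?_⟩
      rcases mem_cl.1 h5 with h6 | h6 | ⟨-, e2, -⟩ | ⟨-, h6, -⟩
      · exact h6
      · exact absurd (gp1 h6) h.zg
      · exact absurd (e2 ▸ gp2 hx) h.aA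
      · exact absurd (gp2 hx) (no1 h h6)
    · exact absurd (h.cW a (gp3 h2) (gp2 h1)) (h.zW a m hm)
  · exact absurd (gp1 h1) h.zg
  · subst e2 e3
    rcases amg_st.1 hs with h2 | h2
    · exact absurd (gp3 h2) h.aA
    · exact Or.inr ⟨h2, ⟨h.dcs2 _ _ _ _ h2, Or.inl rfl⟩, v, h.zA, hv⟩
  · obtain ⟨m, hm, hvm⟩ := h.bs2.val _ _ _ h1
    have hs2 : .st i a c e' ∈ g2 := by
      rcases amg_st.1 hs with h3 | h3
      · exact absurd (gp3 h3) (h.bA a m hm)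
      · exact h3
    refine Or.inr ⟨hs2, ⟨h.dcs2 _ _ _ _ hs2, Or.inr ⟨⟨v, hv, h1⟩, fun y v1 hy he h3 => ?_⟩⟩,
      m, h.zb a m hm (h2.trans h.eM), lt_of_lt_of_le hv hvm⟩
    obtain ⟨v', h4, h5⟩ := hr y v1 (mem_cl.2 (Or.inr (Or.inl hy))) he h3
    refine ⟨v', h4, ?_⟩
    rcases mem_cl.1 h5 with h6 | h6 | ⟨-, e2, -⟩ | ⟨-, h6, -⟩
    · obtain ⟨m', hm', -⟩ := h.bs1.val _ _ _ h6
      exact absurd (h.cW y (gp2 hy) (gp2 h6)) (h.zW y m' hm')
    · exact absurd (gp1 h6) h.zg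
    · subst e2
      obtain ⟨m', hm', -⟩ := h.bs2.val _ _ _ hy
      exact absurd (hm.lt.trans hm'.lt) (lt_irrefl _)
    · exact h6

end

end DSB
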