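import Pool.Agent.DSB.Res

/-! # Extending the part `r` (package P3; F1, F2, F3 of the paper proof)

(problem MP_f2e766_lc, project DSB, part P)

* `rext` (F1): `p ∈ Q t`, `r'` legal, `p.r ⊆ r'` imply `(r', p.g) ∈ Q t`. `mem_Q`; `GAt` at `l`:
  `dom` by monotonicity; `dc`, `ag` do not
  change; `tv`: if `st l a c e ∈ p.g` and `(a, l, v) ∈ r'` then by `dom` some
  `(a, l, v0) ∈ p.r ⊆ r'`, so `v = v0` (`RAt.fn` of `r'`), the old
  `tv` and `Tv.mono` (`res_mono`); `av`: `Av.mono`.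
* `RLeg.chain` (F2): the three conditions of `RAt` at `l` for the union of an increasing chain: two
  triples are in one `r n`; for
  `(z, l, ⊤) ∈ r n` use `r n` (`rres l (r n) ⊆ rres l (⋃ n, r n)`).
* `RLeg.glue` (F3): `r` legal with labels `< t`, `r1` legal with labels `< l`, `l ≤ t`,
  `rres l r ⊆ r1`. At a label `i < l` the triples of
  `r ∪ r1` with label `i` are those of `r1` and `rres i r1 ⊆ rres i (r ∪ r1)`; at a label `i ≥ l`
  they are those of `r`.
* `RLeg.add`: adding finite values at new places: `fn` by `h3`, `h4`; the set of declared points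
  does not change (`h2`). -/

set_option autoImplicit false

namespace DSB

open STP

variable {p : Pre} {t : WithTop Lb} {r r' : Set Tr}

/-- the precondition `(r', p.g)` -/
def Pre.wr (p : Pre) (r' : Set Tr) (h : r'.Countable) : Pre := ⟨r', p.g, h, p.fg⟩

theorem rext (hp : p ∈ Q t) (hr : RLeg t r') (h : p.r ⊆ r') : p.wr r' hr.cnt ∈ Q t := by
  obtain ⟨_, hg⟩ := mem_Q.1 hp
  have hle : p.wr r' hr.cnt ≤ p := ⟨h, subset_rfl⟩
  refine mem_Q.2 ⟨hr, ⟨hg.bs, hg.bd, fun l hl => ?_⟩⟩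
  have ho := hg.at' l hl
  refine ⟨?_, ho.dc, ho.ag, ?_, ?_⟩
  · intro a c e hst
    obtain ⟨v, hv⟩ := ho.dom a c e hst
    exact ⟨v, h hv⟩
  · intro a c e v hst hv hlt
    obtain ⟨v0, hv0⟩ := ho.dom a c e hst
    have hvv : v = v0 := (hr.at' l hl).fn a v v0 hv (h hv0)
    subst hvv
    exact (ho.tv a c e v hst hv0 hlt).mono (res_mono hle l)
  · intro a c e hst
    exact (ho.av a c e hst).mono (res_mono hle l)

/-- legality at a label only depends on the triples with this label and the smaller ones -/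
private theorem RExt_congr {Q : Set Pre} {l : Lb} {s : Dat} {r r' : Set Tr}
    (ho : RAt Q l s r) (h1 : ∀ a v, (a, l, v) ∈ r' → (a, l, v) ∈ r)
    (h2 : ∀ a v, (a, l, v) ∈ r → ∀ z, (z, l, ⊤) ∈ r → (a, l, v) ∈ r')
    (h3 : rres l r ⊆ rres l r') : RAt Q l s r' := by
  refine ⟨?_, ?_, ?_⟩
  · intro a v v' hv hv'
    exact ho.fn a v v' (h1 a v hv) (h1 a v' hv')
  · intro z hz a m hl
    obtain ⟨v, hv, hm⟩ := ho.lad z (h1 z ⊤ hz) a m hl
    exact ⟨v, h2 a v hv z (h1 z ⊤ hz), hm⟩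
  · intro z hz c q hq hsub
    exact ho.out z (h1 z ⊤ hz) c q hq (h3.trans hsub)

/-- the precondition `(r, ∅)` -/
theorem mem_Q_empty (hr : RLeg t r) : (⟨r, ∅, hr.cnt, Set.finite_empty⟩ : Pre) ∈ Q t := by
  refine mem_Q.2 ⟨hr, ⟨⟨?_, ?_⟩, ?_, fun l hl => ⟨?_, ?_, ?_, ?_, ?_⟩⟩⟩
  · intro z a v h
    exact absurd h (Set.notMem_empty _)
  · intro z a v v' h
    exact absurd h (Set.notMem_empty _)
  · rintro l ⟨α, hα, _⟩
    exact absurd hα (Set.notMem_empty _)
  · intro a c e h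
    exact absurd h (Set.notMem_empty _)
  · intro a c e h
    exact absurd h (Set.notMem_empty _)
  · intro w a b c c' e e' h
    exact absurd h (Set.notMem_empty _)
  · intro a c e v h
    exact absurd h (Set.notMem_empty _)
  · intro a c e h
    exact absurd h (Set.notMem_empty _)

theorem RLeg.chain {r : ℕ → Set Tr} (h : ∀ n, RLeg t (r n)) (hm : ∀ n, r n ⊆ r (n + 1)) :
    RLeg t (⋃ n, r n) := by
  have hmono : Monotone r := monotone_nat_of_le_succ hm
  refine ⟨Set.countable_iUnion fun n => (h n).cnt, ?_, ?_⟩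
  · intro x hx
    obtain ⟨n, hn⟩ := Set.mem_iUnion.1 hx
    exact (h n).bd x hn
  · intro l hl
    refine ⟨?_, ?_, ?_⟩
    · intro a v v' hv hv'
      obtain ⟨n, hn⟩ := Set.mem_iUnion.1 hv
      obtain ⟨m, hm'⟩ := Set.mem_iUnion.1 hv'
      exact ((h (max n m)).at' l hl).fn a v v' (hmono (le_max_left n m) hn)
        (hmono (le_max_right n m) hm')
    · intro z hz a m hlad
      obtain ⟨n, hn⟩ := Set.mem_iUnion.1 hz
      obtain ⟨v, hv, hmv⟩ := ((h n).at' l hl).lad z hn a m hlad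
      exact ⟨v, Set.mem_iUnion.2 ⟨n, hv⟩, hmv⟩
    · intro z hz c q hq hsub
      obtain ⟨n, hn⟩ := Set.mem_iUnion.1 hz
      exact ((h n).at' l hl).out z hn c q hq
        ((rres_mono (Set.subset_iUnion r n) l).trans hsub)

theorem RLeg.glue {l : Lb} {r1 : Set Tr} (hr : RLeg t r) (hl : (l : WithTop Lb) ≤ t)
    (h1 : RLeg l r1) (h : rres l r ⊆ r1) : RLeg t (r ∪ r1) := by
  refine ⟨hr.cnt.union h1.cnt, ?_, ?_⟩
  · rintro x (hx | hx)
    · exact hr.bd x hx
    · exact (h1.bd x hx).trans_le hl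
  · intro i hi
    rcases lt_or_ge i l with hil | hil
    · have hil' : (i : WithTop Lb) < (l : WithTop Lb) := WithTop.coe_lt_coe.2 hil
      refine RExt_congr (h1.at' i hil') ?_ ?_ (rres_mono Set.subset_union_right i)
      · rintro a v (hv | hv)
        · exact h ⟨hv, hil'⟩
        · exact hv
      · intro a v hv _ _
        exact Or.inr hv
    · refine RExt_congr (hr.at' i hi) ?_ ?_ (rres_mono Set.subset_union_left i)
      · rintro a v (hv | hv)
        · exact hv
        · exact absurd (WithTop.coe_lt_coe.1 (h1.bd _ hv)) (not_lt.2 hil)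
      · intro a v hv _ _
        exact Or.inl hv

theorem RLeg.add {X : Set Tr} (hr : RLeg t r) (hX : X.Countable)
    (h1 : ∀ x ∈ X, (x.2.1 : WithTop Lb) < t) (h2 : ∀ x ∈ X, x.2.2 ≠ ⊤)
    (h3 : ∀ a l v v', (a, l, v) ∈ X → (a, l, v') ∈ X → v = v')
    (h4 : ∀ a l v v', (a, l, v) ∈ X → (a, l, v') ∉ r) : RLeg t (r ∪ X) := by
  refine ⟨hr.cnt.union hX, ?_, ?_⟩
  · rintro x (hx | hx)
    · exact hr.bd x hx
    · exact h1 x hx
  · intro l hl
    have ho := hr.at' l hl
    have htop : ∀ z, (z, l, ⊤) ∈ r ∪ X → (z, l, ⊤) ∈ r := by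
      rintro z (hz | hz)
      · exact hz
      · exact absurd rfl (h2 _ hz)
    refine ⟨?_, ?_, ?_⟩
    · rintro a v v' (hv | hv) (hv' | hv')
      · exact ho.fn a v v' hv hv'
      · exact absurd hv (h4 a l v' v hv')
      · exact absurd hv' (h4 a l v v' hv)
      · exact h3 a l v v' hv hv'
    · intro z hz a m hlad
      obtain ⟨v, hv, hmv⟩ := ho.lad z (htop z hz) a m hlad
      exact ⟨v, Or.inl hv, hmv⟩
    · intro z hz c q hq hsub
      exact ho.out z (htop z hz) c q hq ((rres_mono Set.subset_union_left l).trans hsub)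

end DSB
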