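import Pool.Agent.DSB.AmIn
import Pool.Agent.DSB.RExt

/-! # The amalgamation lemma (package M8; section 2 (iv) of the paper proof)

(problem MP_f2e766_lc, project DSB, part M)

`amal`: let `h := (p.r, amg p.g q.g z A e M)`. `h ≤ p`, `h ≤ q` (`q.r ⊆ p.r`). `h ∈ Q l`: `mem_Q`;
the part `r` is that of `p`. `Bs`: `amg_bs`. The labels of `h.g` are `< l` (`amg` adds closeness
atoms only). `GAt (Q i) i (S i) h` for all `i < l` by strong
induction on `i`; suppose it for all `i' < i`; then `h.res i ∈ Q i` (`mem_Q`, `RLeg.res`, `GAt` at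
`i'` depends on the restriction only, see `Res.lean`).
* `dom`, `dc`: an atom `st i a c e' ∈ h.g` is in `p.g` or in `q.g` (`amg_st`); monotone.
* `tv`: atom in `p.g`: `GAt.tv` of `p`, `Tv.mono` (`h.res i ≤ p.res i`). Atom in `q.g` and
  `(a, i, v) ∈ p.r`, `e' < v`: some `(a, i, v0) ∈ q.r ⊆ p.r`, so `v0 = v` (`RAt.fn`), `GAt.tv` of
  `q`, `Tv.mono`. `av`: `Av.mono`.
* `ag` for `w ≠ z`: `am_w` for both atoms: `st (js i) (ps a) c e'`, `st (js i) (ps b) c' e''` in
  `q.g` and `In q.g (ps w) ..`; `GAt.ag` of `q` at the label `js i` (it is `< l`: a label of `q.g`)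
  gives `c = c'`.
* `ag` for `w = z`: `am_z` for both atoms. Both of the first kind: `GAt.ag` of `p` for `w = z`.
  Both of the second kind: `GAt.ag` of `q` for `w = A`. Mixed: `st i a c e' ∈ p.g`,
  `In p.g z a e'`, and `st i b c' e'' ∈ q.g`, `Lad z b m`,
  `e'' < m`. The label `i` is in `gl p.g` and in `gl q.g`, so `(z, i, ⊤) ∈ p.r` (`hdz`). If
  `a = z`: `GAt.tv` of `p` with `v = ⊤`: `Tv .. c (p.res i)`. Otherwise `In.lad` gives
  `Lad z a m1`, `e' < m1`, and `RAt.lad` of `p.r` gives `(a, i, v) ∈ p.r` with `m1 ≤ v`, so `e' < v`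
  and `Tv .. c (p.res i)`. `RAt.lad` for `b`: `(b, i, v') ∈ p.r`, `m ≤ v'`; `GAt.dom` of `q`:
  `(b, i, v0) ∈ q.r ⊆ p.r`, `v0 = v'`, `e'' < v0`, so `Tv .. c' (q.res i)`. By `Tv.mono` both hold
  for `h.res i ∈ Q i`, and `Tv.uniq` gives `c = c'`.
`In h.g z A e`: `amg_in`. -/

set_option autoImplicit false

namespace DSB

open STP

/-- the restriction is legal if the conditions hold below `i` -/
private theorem res_mem {l i : Lb} {H : Pre} (hil : i ≤ l) (hR : RLeg l H.r) (hb : Bs H.g)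
    (hlow : ∀ i' : Lb, i' < i → GAt (Q i') i' (S i') H) : H.res i ∈ Q i := by
  refine mem_Q.2 ⟨hR.res (WithTop.coe_le_coe.2 hil), bs_gres.2 hb, ?_, fun k hk => ?_⟩
  · rintro k ⟨α, hα, hk⟩
    exact hα.2 k hk
  · have h1 := hlow k (WithTop.coe_lt_coe.1 hk)
    refine ⟨?_, ?_, ?_, ?_, ?_⟩
    · intro a c e he
      obtain ⟨v, hv⟩ := h1.dom a c e (st_gres.1 he).1
      exact ⟨v, hv, hk⟩
    · intro a c e he
      exact dc_gres.2 (h1.dc a c e (st_gres.1 he).1)
    · intro w a b c c' e e' he he' hi hi'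
      exact h1.ag w a b c c' e e' (st_gres.1 he).1 (st_gres.1 he').1 (in_gres.1 hi)
        (in_gres.1 hi')
    · intro a c e v he hv hev
      rw [res_res _ hk.le]
      exact h1.tv a c e v (st_gres.1 he).1 hv.1 hev
    · intro a c e he
      rw [res_res _ hk.le]
      exact h1.av a c e (st_gres.1 he).1

theorem amal {l : Lb} {p q : Pre} (hp : p ∈ Q l) (hq : q ∈ Q l) (hr : q.r ⊆ p.r) {z A : Pt}
    {e M : ℕ} {f : Pt → Pt} {j : Lb → Lb} {W : Set Pt} {L : Set Lb}
    (h : AmH p.g q.g z A e M f j W L) (hdz : ∀ i ∈ gl q.g, i ∈ gl p.g → (z, i, ⊤) ∈ p.r) :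
    ∃ h ∈ Q l, h ≤ p ∧ h ≤ q ∧ In h.g z A e := by
  obtain ⟨H, hHr, hHg⟩ : ∃ H : Pre, H.r = p.r ∧ H.g = amg p.g q.g z A e M :=
    ⟨⟨p.r, amg p.g q.g z A e M, p.cr, amg_fin p.fg q.fg⟩, rfl, rfl⟩
  have hHp : H ≤ p := by
    refine ⟨hHr.ge, fun α hα => ?_⟩
    rw [hHg]
    exact Or.inl (Or.inl (Or.inl hα))
  have hHq : H ≤ q := by
    refine ⟨hr.trans hHr.ge, fun α hα => ?_⟩
    rw [hHg]
    exact Or.inl (Or.inl (Or.inr hα))
  obtain ⟨hpR, hpG⟩ := mem_Q.1 hp
  obtain ⟨hqR, hqG⟩ := mem_Q.1 hq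
  have hbs : Bs H.g := by
    rw [hHg]
    exact amg_bs h
  have hst : ∀ {i : Lb} {a : Pt} {c : Bool} {e' : ℕ}, Atom.st i a c e' ∈ H.g →
      Atom.st i a c e' ∈ p.g ∨ Atom.st i a c e' ∈ q.g := by
    intro i a c e' h1
    rw [hHg] at h1
    exact amg_st.1 h1
  have hHR : RLeg l H.r := by
    rw [hHr]
    exact hpR
  have key : ∀ i : Lb, i < l → GAt (Q i) i (S i) H := by
    intro i
    induction i using WellFoundedLT.induction with
    | ind i ih =>
      intro hil
      have hil' : (i : WithTop Lb) < (l : WithTop Lb) := WithTop.coe_lt_coe.2 hil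
      have hres : H.res i ∈ Q i :=
        res_mem hil.le hHR hbs fun i' hi' => ih i' hi' (hi'.trans hil)
      have hpi := hpG.at' i hil'
      have hqi := hqG.at' i hil'
      have hRi := hpR.at' i hil'
      have hmix : ∀ a b c c' (e1 e2 : ℕ), Atom.st i a c e1 ∈ p.g → In p.g z a e1 →
          Atom.st i b c' e2 ∈ q.g → (∃ m, Lad z b m ∧ e2 < m) → c = c' := by
        rintro a b c c' e1 e2 ha hia hb ⟨m, hm, hem⟩
        have hz : (z, i, ⊤) ∈ p.r := hdz i ⟨_, hb, rfl⟩ ⟨_, ha, rfl⟩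
        have h1 : Tv (Q i) i (S i) c (p.res i) := by
          by_cases haz : z = a
          · rw [← haz] at ha
            exact hpi.tv z c e1 ⊤ ha hz (WithTop.coe_lt_top e1)
          · obtain ⟨v, m1, -, hm1, hv, hvm⟩ := In.lad hpG.bs hia haz
            obtain ⟨v', hv', hmv⟩ := hRi.lad z hz a m1 hm1
            refine hpi.tv a c e1 v' ha hv' (lt_of_lt_of_le ?_ hmv)
            exact Nat.cast_lt.2 (hv.trans_le hvm)
        have h2 : Tv (Q i) i (S i) c' (q.res i) := by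
          obtain ⟨v0, hv0⟩ := hqi.dom b c' e2 hb
          obtain ⟨v', hv', hmv⟩ := hRi.lad z hz b m hm
          have h3 : v' = v0 := hRi.fn b v' v0 hv' (hr hv0)
          rw [h3] at hmv
          refine hqi.tv b c' e2 v0 hb hv0 (lt_of_lt_of_le ?_ hmv)
          exact Nat.cast_lt.2 hem
        exact Tv.uniq hres (h1.mono (res_mono hHp i)) (h2.mono (res_mono hHq i))
      refine ⟨?_, ?_, ?_, ?_, ?_⟩
      · intro a c e' h1
        rw [hHr]
        rcases hst h1 with h2 | h2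
        · exact hpi.dom a c e' h2
        · obtain ⟨v, hv⟩ := hqi.dom a c e' h2
          exact ⟨v, hr hv⟩
      · intro a c e' h1
        rcases hst h1 with h2 | h2
        · exact (hpi.dc a c e' h2).mono hHp.2
        · exact (hqi.dc a c e' h2).mono hHq.2
      · intro w a b c c' e1 e2 ha hb hwa hwb
        rw [hHg] at ha hb hwa hwb
        by_cases hwz : w = z
        · rw [hwz] at hwa hwb
          rcases am_z h ha hwa with ⟨ha1, ha2⟩ | ⟨ha1, ha2, ha3⟩
          · rcases am_z h hb hwb with ⟨hb1, hb2⟩ | ⟨hb1, hb2, hb3⟩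
            · exact hpi.ag z a b c c' e1 e2 ha1 hb1 ha2 hb2
            · exact hmix a b c c' e1 e2 ha1 ha2 hb1 hb3
          · rcases am_z h hb hwb with ⟨hb1, hb2⟩ | ⟨hb1, hb2, hb3⟩
            · exact (hmix b a c' c e2 e1 hb1 hb2 ha1 ha3).symm
            · exact hqi.ag A a b c c' e1 e2 ha1 hb1 ha2 hb2
        · obtain ⟨ps, js, h1⟩ := am_w h
          obtain ⟨h2, h3⟩ := h1 i a c e1 w ha hwz hwa
          obtain ⟨h4, h5⟩ := h1 i b c' e2 w hb hwz hwb
          have h6 := hqG.bd (js i) ⟨_, h2, rfl⟩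
          exact (hqG.at' (js i) h6).ag (ps w) (ps a) (ps b) c c' e1 e2 h2 h4 h3 h5
      · intro a c e' v h1 hv hev
        rw [hHr] at hv
        rcases hst h1 with h2 | h2
        · exact (hpi.tv a c e' v h2 hv hev).mono (res_mono hHp i)
        · obtain ⟨v0, hv0⟩ := hqi.dom a c e' h2
          have h3 : v = v0 := hRi.fn a v v0 hv (hr hv0)
          rw [h3] at hev
          exact (hqi.tv a c e' v0 h2 hv0 hev).mono (res_mono hHq i)
      · intro a c e' h1
        rcases hst h1 with h2 | h2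
        · exact (hpi.av a c e' h2).mono (res_mono hHp i)
        · exact (hqi.av a c e' h2).mono (res_mono hHq i)
  refine ⟨H, mem_Q.2 ⟨hHR, hbs, ?_, fun i hi => key i (WithTop.coe_lt_coe.1 hi)⟩, hHp, hHq, ?_⟩
  · rintro i ⟨α, hα, hi⟩
    rw [hHg] at hα
    rcases hα with ((hα | hα) | hα) | ⟨b, v, -, -, hα⟩
    · exact hpG.bd i ⟨α, hα, hi⟩
    · exact hqG.bd i ⟨α, hα, hi⟩
    · rw [Set.mem_singleton_iff.1 hα] at hi
      exact absurd hi (Set.notMem_empty _)
    · rw [hα] at hi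
      exact absurd hi (Set.notMem_empty _)
  · rw [hHg]
    exact amg_in h

end DSB
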