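import Pool.Agent.DSB.BNm

/-! # The bridge: not countably paracompact (package B5)

(problem MP_f2e766_lc, project DSB, part B)

`br_ncp`: let `D` be as in `TNcp`; `w = oN`, the name of the sequence is
`D' = nm fun a n => chi (a ∈ D n)`: `Val D' (kn a) (nn n)` iff `a ∈ D n`
(`val_nm`, `chi_mem`).
* `CSc D'`: reordered with bounded quantifiers: `F.bck`, `F.bsn`: ground `n`, `a`; if `a ∈ D n` the
  premise is false; otherwise `F.loc`,
  first clause of `TNcp`, the witness `kn b`, `∀ z ∈ Y` by `F.bsn`.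
* second clause: `F.bsn`, `nn n` with `a ∉ D n`. Directedness: `F.bck` twice, the witness
  `nn (max n m)`.
* last clause: `F.all`: a name `X` for `K`, `F.imp` twice: `q` forces `CSc X` and the disjointness.
  Let `K n a := BSet.mem (opN (kn a) (nn n)) X`, so that
  `r ∈ K n a` iff `r` forces `Val X (kn a) (nn n)` (`F.mem`, `val_iff`). `TClo ρ q (K n)`: if
  `r ≤ q` has no extension in `K n a`, then
  `r` forces `¬ Val X (kn a) (nn n)` (`F.no`), so by `CSc` `r` forces `∃ b ∈ pN C, ..`; `F.esn`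
  gives `r' ≤ r` and a ground `b`. The
  disjointness: `a ∈ D n`, `r ≤ q`, `r ∈ K n a` gives a contradiction with `F.not_false`. To prove
  the conclusion under `q` use `F.loc`: for
  `q' ≤ q` (the hypotheses `TClo ρ q' (K n)` etc. hold for `q'` too) the hypothesis gives `r ≤ q'`
  and `a` with no extension of `r` in `K n a` for all
  `n`; the witness is `kn a`, and `∀ n ∈ ω` by `F.bck`, `F.no`.

How to work with these statements (files `CPI/BTv.lean`, `CPI/BNam.lean`; see the proofs in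
`DLN/BSp.lean`,
`DLN/BNsep.lean`, `DLN/BNlin.lean`, `CPI/BNet.lean` for models): `F p S` means that `S G` is true
in all quotients `NG G` with
`RO.up p ∈ G.s`. A statement `S G` for an arbitrary `G` is proved by `F.top fun p => ?_` (all
statements
about names have a truth value: class `TV`, found by instance search; state the statement as a
function of `G`). Quantifiers: `F.all`, `F.ex`, `F.bsn` (`∀ x ∈ sn φ`: it is enough to treat
`x = kn a` below
conditions `q ∈ φ a`), `F.esn`, `F.bck`, `F.eck` (`∀/∃ x ∈ ω`; `om_eq`: the only `w` with `IsOm w`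
is `oN`), `F.dest_sn`, `F.dest_ck`,
`F.bsub`, `F.esub`, connectives: `F.imp`, `F.and`, `F.no`, `F.or`, `F.loc` (densely), `F.mono`,
`F.const`, `F.not_false`,
`F.of_not`. Atomic statements: `kn_eq`, `kn_sn`, `kn_sn_chi`, `val_rn`, `val_iff`, `chi_mem`;
forced forms:
`F.sn`, `F.valr`, `F.kn_eq`, `F.mem`. To reorder the premises of a statement (so that all
quantifiers
become bounded) prove the reordered statement and apply it. If `rw` does not find a pattern, use
`beta_reduce` or `show`. From `q ∈ φ a` and `RO.up q ∈ G.s` one gets `φ a ∈ G.s` by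
`G.up hG (RO.up_le.2 h)`; `q ∈ chi c ↔ c` is `RO.mem_chi`. -/

set_option autoImplicit false

namespace DSB

open STP STP.BSet CPI DLN

variable {P : Type} [PartialOrder P] {A C : Type} {ρ : A → C → RO P}

private theorem pN_mem' (G : Ult (RO P)) (a : A) : EG G (NG.mk G (kn a)) (NG.mk G (pN A)) :=
  (kn_sn G).2 G.top

private noncomputable abbrev dN (D : ℕ → Set A) : BSet (RO P) :=
  nm fun a n => (chi (a ∈ D n) : RO P)

private theorem val_D (G : Ult (RO P)) {D : ℕ → Set A} {a : A} {n : ℕ} :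
    Val (EG G) (NG.mk G (dN D)) (NG.mk G (kn a)) (NG.mk G (nn n)) ↔ a ∈ D n :=
  (val_nm G).trans chi_mem

private theorem ncp1 {D : ℕ → Set A}
    (hD : ∀ n (q : P) (a : A), a ∉ D n → ∃ r ≤ q, ∃ b, r ∈ ρ a b ∧
      ∀ a' ∈ D n, ∀ r' ≤ r, r' ∉ ρ a' b) :
    ∀ G : Ult (RO P), ∀ n, EG G n (NG.mk G oN) → ∀ y, EG G y (NG.mk G (pN A)) →
      (¬ Val (EG G) (NG.mk G (dN D)) y n →
        ∃ b, EG G b (NG.mk G (pN C)) ∧ (Val (EG G) (NG.mk G (rn ρ)) y b ∧
          ∀ z, EG G z (NG.mk G (pN A)) →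
            (Val (EG G) (NG.mk G (rn ρ)) z b → ¬ Val (EG G) (NG.mk G (dN D)) z n))) := by
  refine F.top fun p => F.bck.2 fun n => F.bsn.2 fun a q _ _ => ?_
  by_cases ha : a ∈ D n
  · intro G _ h
    exact absurd ((val_D G).2 ha) h
  · have key : F q fun G => ∃ b, EG G b (NG.mk G (pN C)) ∧
        (Val (EG G) (NG.mk G (rn ρ)) (NG.mk G (kn a)) b ∧
          ∀ z, EG G z (NG.mk G (pN A)) →
            (Val (EG G) (NG.mk G (rn ρ)) z b →
              ¬ Val (EG G) (NG.mk G (dN D)) z (NG.mk G (nn n)))) := by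
      refine F.esn.2 fun q' _ => ?_
      obtain ⟨r, hr, b, hb1, hb2⟩ := hD n q' a ha
      refine ⟨r, hr, b, RO.mem_top, F.and.2 ⟨F.valr.2 hb1, F.bsn.2 fun a' s hs _ => ?_⟩⟩
      by_cases ha' : a' ∈ D n
      · exact F.imp.2 fun t ht h => absurd (F.valr.1 h) (hb2 a' ha' t (ht.trans hs))
      · intro G _ _ h
        exact ha' ((val_D G).1 h)
    intro G hG _
    exact key G hG

private theorem ncp2 {D : ℕ → Set A} (hD : ∀ a, ∃ n, a ∉ D n) :
    ∀ G : Ult (RO P), ∀ y, EG G y (NG.mk G (pN A)) →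
      ∃ n, EG G n (NG.mk G oN) ∧ ¬ Val (EG G) (NG.mk G (dN D)) y n := by
  refine F.top fun p => F.bsn.2 fun a q _ _ G _ => ?_
  obtain ⟨n, hn⟩ := hD a
  exact ⟨_, nn_mem G n, fun h => hn ((val_D G).1 h)⟩

private theorem ncp3 {D : ℕ → Set A} (hD : ∀ m n, m ≤ n → D n ⊆ D m) :
    ∀ G : Ult (RO P), ∀ n, EG G n (NG.mk G oN) → ∀ m, EG G m (NG.mk G oN) →
      ∃ k, EG G k (NG.mk G oN) ∧ ∀ y, EG G y (NG.mk G (pN A)) →
        (Val (EG G) (NG.mk G (dN D)) y k →
          Val (EG G) (NG.mk G (dN D)) y n ∧ Val (EG G) (NG.mk G (dN D)) y m) := by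
  refine F.top fun p => F.bck.2 fun n => F.bck.2 fun m => F.eck.2 fun q _ => ?_
  refine ⟨q, le_rfl, max n m, F.bsn.2 fun a r _ _ G _ hv => ?_⟩
  have h1 : a ∈ D (max n m) := (val_D G).1 hv
  exact ⟨(val_D G).2 (hD n _ (le_max_left n m) h1), (val_D G).2 (hD m _ (le_max_right n m) h1)⟩

private theorem ncp4 {D : ℕ → Set A}
    (hD : ∀ (q : P) (K : ℕ → A → RO P), (∀ n, TClo ρ q (K n)) →
      (∀ n, ∀ a ∈ D n, ∀ r ≤ q, r ∉ K n a) → ∃ r ≤ q, ∃ a, ∀ n, ∀ r' ≤ r, r' ∉ K n a) :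
    ∀ G : Ult (RO P), ∀ K, CSc (EG G) (NG.mk G oN) (NG.mk G (pN A)) (NG.mk G (pN C))
      (NG.mk G (rn ρ)) K →
      ((∀ n y, EG G n (NG.mk G oN) → EG G y (NG.mk G (pN A)) →
        Val (EG G) (NG.mk G (dN D)) y n → ¬ Val (EG G) K y n) →
      ∃ y, EG G y (NG.mk G (pN A)) ∧ ∀ n, EG G n (NG.mk G oN) → ¬ Val (EG G) K y n) := by
  refine F.top fun p => F.all.2 fun X => F.imp.2 fun q _ hX1 => F.imp.2 fun q1 hq1 hX2 => ?_
  have hU : ∀ (r : P) (n : ℕ) (a : A), r ∈ BSet.mem (opN (kn a) (nn n)) X ↔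
      F r fun G => Val (EG G) (NG.mk G X) (NG.mk G (kn a)) (NG.mk G (nn n)) := by
    intro r n a
    rw [← F.mem]
    exact ⟨fun h1 G hG => val_iff.2 (h1 G hG), fun h1 G hG => val_iff.1 (h1 G hG)⟩
  refine F.esn.2 fun q2 hq2 => ?_
  obtain ⟨r, hr, a, ha⟩ := hD q2 (fun n a => BSet.mem (opN (kn a) (nn n)) X) (by
    intro n r hr a hra
    have h1 : F r fun G => ¬ Val (EG G) (NG.mk G X) (NG.mk G (kn a)) (NG.mk G (nn n)) :=
      F.no.2 fun s hs hv => hra s hs ((hU s n a).2 hv)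
    have h2 : F r fun G => ∃ b, EG G b (NG.mk G (pN C)) ∧
        (Val (EG G) (NG.mk G (rn ρ)) (NG.mk G (kn a)) b ∧
          ∀ z, EG G z (NG.mk G (pN A)) → (Val (EG G) (NG.mk G (rn ρ)) z b →
            ¬ Val (EG G) (NG.mk G X) z (NG.mk G (nn n)))) := fun G hG =>
      hX1 G (up_mem ((hr.trans hq2).trans hq1) hG) _ _ (nn_mem G n) (pN_mem' G a) (h1 G hG)
    obtain ⟨r', hr', b, -, h3⟩ := F.esn.1 h2 r le_rfl
    refine ⟨r', hr', b, F.valr.1 fun G hG => (h3 G hG).1, fun a' r'' hr'' h4 h5 => ?_⟩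
    refine F.not_false (p := r'') fun G hG => ?_
    exact (h3 G (up_mem hr'' hG)).2 _ (pN_mem' G a') (F.valr.2 h4 G hG)
      ((hU r'' n a').1 h5 G hG)) (by
    intro n a ha r hr h5
    refine F.not_false (p := r) fun G hG => ?_
    exact hX2 G (up_mem (hr.trans hq2) hG) _ _ (nn_mem G n) (pN_mem' G a) ((val_D G).2 ha)
      ((hU r n a).1 h5 G hG))
  exact ⟨r, hr, a, RO.mem_top,
    F.bck.2 fun n => F.no.2 fun s hs hv => ha n s hs ((hU s n a).2 hv)⟩

theorem br_ncp (h : TNcp ρ) (G : Ult (RO P)) :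
    CNcp (EG G) (NG.mk G (pN A)) (NG.mk G (pN C)) (NG.mk G (rn ρ)) := by
  obtain ⟨D, h1, h2, h3, h4⟩ := h
  exact ⟨NG.mk G oN, NG.mk G (dN D), ck_om G,
    fun n y hn hy hv => ncp1 h1 G n hn y hy hv, ncp2 h2 G,
    fun n m hn hm => ncp3 h3 G n hn m hm, ncp4 h4 G⟩

end DSB
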