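import Pool.Agent.DSB.Nam

/-! # The names of relations between points and natural numbers (package B1)

(problem MP_f2e766_lc, project DSB, part B)

* `nn_eq`: `nn n = ck n`, use `ck_eq_iff` (as in `CPI.kn_eq`) and `Nat.cast_inj`.
* `F.valn`: exactly as the proof of `CPI.F.valr` (file `CPI/BNam.lean`), with `nm`, `nn_eq` instead
  of `rn`, `kn_eq` for the second
  component. `val_nm`: `iff_of_F`.
* `F.dest_nm`: as `CPI.F.elim_rn`: if `p` forces `Val (nm ρ) X Y`, then densely below `p` there are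
  `a`, `n` such that `r ∈ ρ a n` and `r` forces
  `X = kn a`, `Y = nn n`.
* `nm_fun`: `nm fun a n => chi (s a = n)` is a function with domain `pN A`: every element is a pair
  `opN (kn a) (nn n)` (a statement about
  all elements of the name: `F.all`, `F.imp`, unfold the membership as in `F.elim_rn`), existence
  of values: `F.bsn`, value `nn (s a)`
  (`val_nm`, `chi_mem`), uniqueness: `F.dest_nm` twice and `nn_eq`.

How to work with these statements (files `CPI/BTv.lean`, `CPI/BNam.lean`; see the proofs in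
`DLN/BSp.lean`,
`DLN/BNsep.lean`, `DLN/BNlin.lean`, `CPI/BNet.lean` for models): `F p S` means that `S G` is true
in all quotients `NG G` with
`RO.up p ∈ G.s`. A statement `S G` for an arbitrary `G` is proved by `F.top fun p => ?_` (all
statements
about names have a truth value: class `TV`, found by instance search; state the statement as a
function of `G`). Quantifiers: `F.all`, `F.ex`, `F.bsn` (`∀ x ∈ sn φ`: it is enough to treat
`x = kn a` below
conditions `q ∈ φ a`), `F.esn`, `F.bck`, `F.eck` (`∀/∃ x ∈ ω`; `om_eq`: the only `w` with `IsOm w`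
is `oN`), `F.dest_sn`, `F.dest_ck`,
`F.bsub`, `F.esub`, connectives: `F.imp`, `F.and`, `F.no`, `F.or`, `F.loc` (densely), `F.mono`,
`F.const`, `F.not_false`,
`F.of_not`. Atomic statements: `kn_eq`, `kn_sn`, `kn_sn_chi`, `val_rn`, `val_iff`, `chi_mem`;
forced forms:
`F.sn`, `F.valr`, `F.kn_eq`, `F.mem`. To reorder the premises of a statement (so that all
quantifiers
become bounded) prove the reordered statement and apply it. If `rw` does not find a pattern, use
`beta_reduce` or `show`. From `q ∈ φ a` and `RO.up q ∈ G.s` one gets `φ a ∈ G.s` by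
`G.up hG (RO.up_le.2 h)`; `q ∈ chi c ↔ c` is `RO.mem_chi`. -/

set_option autoImplicit false

namespace DSB

open STP STP.BSet CPI DLN

variable {P : Type} [PartialOrder P] {A : Type}

theorem nn_eq (G : Ult (RO P)) {n m : ℕ} : NG.mk G (nn n) = NG.mk G (nn m) ↔ n = m := by
  unfold nn
  rw [ck_eq_iff, Nat.cast_inj]

private theorem bnm_mem (x : BSet (RO P)) (ρ : A → ℕ → RO P) :
    mem x (nm ρ) = ⨆ z : A × ℕ, ρ z.1 z.2 ⊓ eq x (opN (kn z.1) (nn z.2)) := rfl

private theorem bnm_nn {p : P} {n m : ℕ} :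
    F p (fun G => NG.mk G (nn n) = NG.mk G (nn m)) ↔ n = m := by
  simp only [nn_eq, F.const]

theorem F.valn {p : P} {ρ : A → ℕ → RO P} {a : A} {n : ℕ} :
    F p (fun G => Val (EG G) (NG.mk G (nm ρ)) (NG.mk G (kn a)) (NG.mk G (nn n))) ↔
      p ∈ ρ a n := by
  simp only [val_iff]
  rw [F.mem, bnm_mem, RO.mem_iSup]
  constructor
  · intro h
    refine (ρ a n).locally fun q hq => ?_
    obtain ⟨r, hr, b, h1, h2⟩ := h q hq
    have h3 := F.eq.2 h2
    have h4 : a = b.1 := F.kn_eq.1 fun G hG => (eq_opN (h3 G hG)).1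
    have h5 : n = b.2 := bnm_nn.1 fun G hG => (eq_opN (h3 G hG)).2
    rw [h4, h5]
    exact ⟨r, hr, h1⟩
  · intro h q hq
    refine ⟨q, le_rfl, (a, n), (ρ a n).down hq h, ?_⟩
    rw [eq_refl]
    exact RO.mem_top

theorem val_nm (G : Ult (RO P)) {ρ : A → ℕ → RO P} {a : A} {n : ℕ} :
    Val (EG G) (NG.mk G (nm ρ)) (NG.mk G (kn a)) (NG.mk G (nn n)) ↔ ρ a n ∈ G.s :=
  iff_of_F (fun _ => F.valn) G

theorem F.dest_nm {p : P} {ρ : A → ℕ → RO P} {X Y : BSet (RO P)}
    (h : F p fun G => Val (EG G) (NG.mk G (nm ρ)) (NG.mk G X) (NG.mk G Y)) :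
    ∀ q ≤ p, ∃ r ≤ q, ∃ a n, r ∈ ρ a n ∧ (F r fun G => NG.mk G X = NG.mk G (kn a)) ∧
      F r fun G => NG.mk G Y = NG.mk G (nn n) := by
  simp only [val_iff] at h
  rw [F.mem, bnm_mem, RO.mem_iSup] at h
  intro q hq
  obtain ⟨r, hr, z, h1, h2⟩ := h q hq
  have h3 := F.eq.2 h2
  exact ⟨r, hr, z.1, z.2, h1, fun G hG => (eq_opN (h3 G hG)).1,
    fun G hG => (eq_opN (h3 G hG)).2⟩

theorem nm_fun (s : A → ℕ) (G : Ult (RO P)) :
    IsFun (EG G) (NG.mk G (nm fun a n => (chi (s a = n) : RO P))) (NG.mk G (pN A)) := by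
  refine ⟨?_, ?_, ?_⟩
  · have h1 : ∀ G : Ult (RO P), ∀ p, EG G p (NG.mk G (nm fun a n => (chi (s a = n) : RO P))) →
        ∃ x y, EG G x (NG.mk G (pN A)) ∧ IsOP (EG G) p x y := by
      refine F.top fun p => F.all.2 fun X => F.imp.2 fun q _ h => ?_
      rw [F.mem, bnm_mem, RO.mem_iSup] at h
      refine F.loc fun q' hq' => ?_
      obtain ⟨r, hr, z, _, h2⟩ := h q' hq'
      have h3 := F.eq.2 h2
      refine ⟨r, hr, fun G hG => ⟨NG.mk G (kn z.1), NG.mk G (nn z.2), (kn_sn G).2 G.top, ?_⟩⟩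
      exact isOP_iff.2 (h3 G hG)
    exact h1 G
  · have h1 : ∀ G : Ult (RO P), ∀ x, EG G x (NG.mk G (pN A)) →
        ∃ y, Val (EG G) (NG.mk G (nm fun a n => (chi (s a = n) : RO P))) x y := by
      refine F.top fun p => F.bsn.2 fun a q _ _ G _ => ?_
      exact ⟨NG.mk G (nn (s a)), (val_nm G).2 (chi_mem.2 rfl)⟩
    exact h1 G
  · have h1 : ∀ G : Ult (RO P), ∀ x y z,
        Val (EG G) (NG.mk G (nm fun a n => (chi (s a = n) : RO P))) x y →
          (Val (EG G) (NG.mk G (nm fun a n => (chi (s a = n) : RO P))) x z → y = z) := by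
      refine F.top fun p => F.all.2 fun X => F.all.2 fun Y => F.all.2 fun Z =>
        F.imp.2 fun q _ h => F.imp.2 fun q' hq' h' => F.loc fun t ht => ?_
      obtain ⟨r, hr, a, n, h2, h3, h4⟩ := F.dest_nm h t (ht.trans hq')
      obtain ⟨r', hr', b, m, h5, h6, h7⟩ := F.dest_nm h' r (hr.trans ht)
      have h8 : a = b := (F.kn_eq (p := r')).1 fun G hG => by
        have h9 := h3 G (up_mem hr' hG)
        have h10 := h6 G hG
        exact h9.symm.trans h10
      have h11 : s a = n := RO.mem_chi.1 h2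
      have h12 : s b = m := RO.mem_chi.1 h5
      refine ⟨r', hr'.trans hr, fun G hG => ?_⟩
      have h9 := h4 G (up_mem hr' hG)
      have h10 := h7 G hG
      beta_reduce at h9 h10 ⊢
      rw [h9, h10, ← h11, ← h12, h8]
    exact h1 G

end DSB
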