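import Pool.Agent.DSB.Nam

/-! # The bridge: normality (package B3)

(problem MP_f2e766_lc, project DSB, part B)

`br_nor`: `F.top fun p => ?_`, `F.all` twice (names `X0`, `X1`), `F.imp` three times: let `q` force
`CCl X0`, `CCl X1` and that they are
disjoint. Let `X c` be `X1` for `c = true` and `X0` for `c = false`,
`H c a := BSet.mem (kn a) (X c)` (`F.mem`: `q ∈ H c a` iff `q` forces
`kn a ∈ X c`).
* `TClo ρ q (H c)`: let `r ≤ q` have no extension in `H c a`. So `r` forces `kn a ∉ X c` (`F.no`,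
  `F.mem`), `kn a ∈ Y`. By `CCl` `r` forces
  `∃ b ∈ pN C, Val h (kn a) b ∧ ∀ z ∈ X c, ¬ Val h z b`; `F.esn` gives `r' ≤ r` and a ground `b`;
  `F.valr`, and for `r'' ≤ r'` in `ρ a' b` we
  have `r'' ∉ H c a'` (`F.mem`, `F.valr`, `F.not_false`).
* disjointness: `F.mem`, `F.not_false`.
Let `U` be as in `TNor`. The witnesses are the names `sn (U false)`, `sn (U true)`. `COp`: `Sub` by
`sn_sub` (`U c a ≤ ⊤`); `∀ y ∈ sn (U c)`: `F.bsn`:
ground `a`, a condition in `U c a`; `F.loc` with `TOp`: a ground `b`; the rest by `F.bsn`, `F.imp`,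
`F.valr`, `F.sn`. `Sub (X c) (sn (U c))`: `F.bsub` with
`Sub (X c) (pN A)` (first part of `CCl`), `F.mem`, `F.sn`. Disjoint: `F.bsn` for the first
membership, `F.sn` for the second.

How to work with these statements (files `CPI/BTv.lean`, `CPI/BNam.lean`; see the proofs in
`DLN/BSp.lean`,
`DLN/BNsep.lean`, `DLN/BNlin.lean`, `CPI/BNet.lean` for models): `F p S` means that `S G` is true
in all quotients `NG G` with
`RO.up p ∈ G.s`. A statement `S G` for an arbitrary `G` is proved by `F.top fun p => ?_` (all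
statements
about names have a truth value: class `TV`, found by instance search; state the statement as a
function of `G`). Quantifiers: `F.all`, `F.ex`, `F.bsn` (`∀ x ∈ sn φ`: it is enough to treat
`x = kn a` below
conditions `q ∈ φ a`), `F.esn`, `F.bck`, `F.eck` (`∀/∃ x ∈ ω`; `om_eq`: the only `w` with `IsOm w`
is `oN`), `F.dest_sn`, `F.dest_ck`,
`F.bsub`, `F.esub`, connectives: `F.imp`, `F.and`, `F.no`, `F.or`, `F.loc` (densely), `F.mono`,
`F.const`, `F.not_false`,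
`F.of_not`. Atomic statements: `kn_eq`, `kn_sn`, `kn_sn_chi`, `val_rn`, `val_iff`, `chi_mem`;
forced forms:
`F.sn`, `F.valr`, `F.kn_eq`, `F.mem`. To reorder the premises of a statement (so that all
quantifiers
become bounded) prove the reordered statement and apply it. If `rw` does not find a pattern, use
`beta_reduce` or `show`. From `q ∈ φ a` and `RO.up q ∈ G.s` one gets `φ a ∈ G.s` by
`G.up hG (RO.up_le.2 h)`; `q ∈ chi c ↔ c` is `RO.mem_chi`. -/

set_option autoImplicit false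

namespace DSB

open STP STP.BSet CPI DLN

variable {P : Type} [PartialOrder P] {A C : Type} {ρ : A → C → RO P}

private theorem pN_mem (G : Ult (RO P)) (a : A) : EG G (NG.mk G (kn a)) (NG.mk G (pN A)) :=
  (kn_sn (φ := fun _ : A => (⊤ : RO P)) G).2 G.top

/-- a typed open set is open -/
private theorem op_sn {q : P} {U : A → RO P} (hU : TOp ρ q U) : F q fun G =>
    COp (EG G) (NG.mk G (pN A)) (NG.mk G (pN C)) (NG.mk G (rn ρ)) (NG.mk G (sn U)) := by
  have h1 : F q fun G => ∀ x, EG G x (NG.mk G (sn U)) → ∃ b, EG G b (NG.mk G (pN C)) ∧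
      (Val (EG G) (NG.mk G (rn ρ)) x b ∧ ∀ z, EG G z (NG.mk G (pN A)) →
        (Val (EG G) (NG.mk G (rn ρ)) z b → EG G z (NG.mk G (sn U)))) := by
    refine F.bsn.2 fun a r hr hra => F.esn.2 fun r1 hr1 => ?_
    obtain ⟨r2, hr2, b, hb, h2⟩ := hU r1 (hr1.trans hr) a ((U a).down hr1 hra)
    refine ⟨r2, hr2, b, RO.mem_top, F.and.2 ⟨F.valr.2 hb, F.bsn.2 fun a' r3 hr3 _ => ?_⟩⟩
    refine F.imp.2 fun r4 hr4 h4 => F.sn.2 ?_
    exact h2 a' r4 (hr4.trans hr3) (F.valr.1 h4)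
  intro G hG
  refine ⟨sn_sub (fun a => le_top) G, fun x hx => ?_⟩
  obtain ⟨b, hb, h2, h3⟩ := h1 G hG x hx
  exact ⟨b, hb, h2, fun z hz hzb => h3 z hz hzb⟩

theorem br_nor (h : TNor ρ) (G : Ult (RO P)) :
    CNor (EG G) (NG.mk G (pN A)) (NG.mk G (pN C)) (NG.mk G (rn ρ)) := by
  intro H K hH hK hd
  obtain ⟨X0, rfl⟩ := NG.exists_rep H
  obtain ⟨X1, rfl⟩ := NG.exists_rep K
  by_contra hcon
  obtain ⟨q, hq⟩ := F.of_not (S := fun G =>
    CCl (EG G) (NG.mk G (pN A)) (NG.mk G (pN C)) (NG.mk G (rn ρ)) (NG.mk G X0) ∧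
    CCl (EG G) (NG.mk G (pN A)) (NG.mk G (pN C)) (NG.mk G (rn ρ)) (NG.mk G X1) ∧
    (∀ z, ¬ (EG G z (NG.mk G X0) ∧ EG G z (NG.mk G X1))) ∧
    ¬ ∃ U V, COp (EG G) (NG.mk G (pN A)) (NG.mk G (pN C)) (NG.mk G (rn ρ)) U ∧
      COp (EG G) (NG.mk G (pN A)) (NG.mk G (pN C)) (NG.mk G (rn ρ)) V ∧
      Sub (EG G) (NG.mk G X0) U ∧ Sub (EG G) (NG.mk G X1) V ∧ ∀ z, ¬ (EG G z U ∧ EG G z V))
    ⟨hH, hK, hd, hcon⟩
  obtain ⟨X, hX0, hX1⟩ : ∃ X : Bool → BSet (RO P), X false = X0 ∧ X true = X1 :=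
    ⟨fun c => cond c X1 X0, rfl, rfl⟩
  have hC : ∀ c, F q fun G => CCl (EG G) (NG.mk G (pN A)) (NG.mk G (pN C)) (NG.mk G (rn ρ))
      (NG.mk G (X c)) := by
    intro c
    cases c
    · rw [hX0]
      exact fun G hG => (hq G hG).1
    · rw [hX1]
      exact fun G hG => (hq G hG).2.1
  have hdj : F q fun G => ∀ z, ¬ (EG G z (NG.mk G (X false)) ∧ EG G z (NG.mk G (X true))) := by
    rw [hX0, hX1]
    exact fun G hG => (hq G hG).2.2.1
  obtain ⟨U, hU1, hU2, hU3⟩ := h q (fun c a => BSet.mem (kn a) (X c)) (by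
    intro c r hr a hna
    have hno : F r fun G => ¬ EG G (NG.mk G (kn a)) (NG.mk G (X c)) :=
      F.no.2 fun r' hr' h1 => hna r' hr' (F.mem.1 h1)
    have h1 : F r fun G => ∃ b, EG G b (NG.mk G (pN C)) ∧
        (Val (EG G) (NG.mk G (rn ρ)) (NG.mk G (kn a)) b ∧
          ∀ z, EG G z (NG.mk G (X c)) → ¬ Val (EG G) (NG.mk G (rn ρ)) z b) := fun G hG =>
      (hC c G (up_mem hr hG)).2 _ (pN_mem G a) (hno G hG)
    obtain ⟨r', hr', b, -, h2⟩ := F.esn.1 h1 r le_rfl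
    refine ⟨r', hr', b, F.valr.1 fun G hG => (h2 G hG).1, fun a' r'' hr'' h3 h4 =>
      F.not_false (p := r'') fun G hG => ?_⟩
    exact (h2 G (up_mem hr'' hG)).2 _ (F.mem.2 h4 G hG) (F.valr.2 h3 G hG)) (by
    intro r hr a h1
    refine F.not_false (p := r) fun G hG => ?_
    exact hdj G (up_mem hr hG) _ ⟨F.mem.2 h1.1 G hG, F.mem.2 h1.2 G hG⟩)
  have hS : ∀ c, F q fun G => Sub (EG G) (NG.mk G (X c)) (NG.mk G (sn (U c))) := by
    intro c
    exact F.bsub (S := fun G x => EG G x (NG.mk G (sn (U c)))) (φ := fun _ : A => (⊤ : RO P))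
      (fun G hG => (hC c G hG).1) fun a r hr h1 => F.sn.2 (hU2 c r hr a (F.mem.1 h1))
  have hD : F q fun G => ∀ z, EG G z (NG.mk G (sn (U false))) →
      ¬ EG G z (NG.mk G (sn (U true))) := by
    refine F.bsn.2 fun a r hr h1 => F.no.2 fun r' hr' h2 => ?_
    exact hU3 r' (hr'.trans hr) a ⟨(U false a).down hr' h1, F.sn.1 h2⟩
  refine F.not_false (p := q) fun G hG => (hq G hG).2.2.2 ⟨NG.mk G (sn (U false)),
    NG.mk G (sn (U true)), op_sn (hU1 false) G hG, op_sn (hU1 true) G hG, ?_, ?_,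
    fun z hz => hD G hG z hz.1 hz.2⟩
  · rw [← hX0]
    exact hS false G hG
  · rw [← hX1]
    exact hS true G hG

end DSB
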