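import Pool.Agent.DSB.BNm

/-! # The bridge: the sigma-disjoint base (package B4)

(problem MP_f2e766_lc, project DSB, part B)

`br_sd`: let `s` be as in `TSd`; `w = oN`, the name of the function is
`nm fun b n => chi (s b = n)` (`nm_fun`). Values are in `ω`: `F.dest_nm`, `nn_mem`.
Last clause: suppose that `q` forces `Val s' X n`, `Val s' X' n`, `z ∈ Y`, `Val h z X`,
`Val h z X'` for names (`F.all`, `F.imp`). By `F.dest_nm` (twice) and
`F.dest_sn`, densely `X = kn b`, `n = nn k`, `s b = k`, `X' = kn c`, `n = nn k'`, `s c = k'` (so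
`k = k'` by `nn_eq`), `z = kn a` (`F.loc`). So `F.valr` gives
`r ∈ ρ a b`, `r ∈ ρ a c`, hence `b = c`.

How to work with these statements (files `CPI/BTv.lean`, `CPI/BNam.lean`; see the proofs in
`DLN/BSp.lean`,
`DLN/BNsep.lean`, `DLN/BNlin.lean`, `CPI/BNet.lean` for models): `F p S` means that `S G` is true
in all quotients `NG G` with
`RO.up p ∈ G.s`. A statement `S G` for an arbitrary `G` is proved by `F.top fun p => ?_` (all
statements
about names have a truth value: class `TV`, found by instance search; state the statement as a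
function of `G`). Quantifiers: `F.all`, `F.ex`, `F.bsn` (`∀ x ∈ sn φ`: it is enough to treat
`x = kn a` below
conditions `q ∈ φ a`), `F.esn`, `F.bck`, `F.eck` (`∀/∃ x ∈ ω`; `om_eq`: the only `w` with `IsOm w`
is `oN`), `F.dest_sn`, `F.dest_ck`,
`F.bsub`, `F.esub`, connectives: `F.imp`, `F.and`, `F.no`, `F.or`, `F.loc` (densely), `F.mono`,
`F.const`, `F.not_false`,
`F.of_not`. Atomic statements: `kn_eq`, `kn_sn`, `kn_sn_chi`, `val_rn`, `val_iff`, `chi_mem`;
forced forms:
`F.sn`, `F.valr`, `F.kn_eq`, `F.mem`. To reorder the premises of a statement (so that all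
quantifiers
become bounded) prove the reordered statement and apply it. If `rw` does not find a pattern, use
`beta_reduce` or `show`. From `q ∈ φ a` and `RO.up q ∈ G.s` one gets `φ a ∈ G.s` by
`G.up hG (RO.up_le.2 h)`; `q ∈ chi c ↔ c` is `RO.mem_chi`. -/

set_option autoImplicit false

namespace DSB

open STP STP.BSet CPI DLN

variable {P : Type} [PartialOrder P] {A C : Type} {ρ : A → C → RO P}

private theorem sd_om (s : C → ℕ) (G : Ult (RO P)) :
    ∀ b n, Val (EG G) (NG.mk G (nm fun b n => (chi (s b = n) : RO P))) b n →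
      EG G n (NG.mk G oN) := by
  revert G
  refine F.top fun p => F.all.2 fun X => F.all.2 fun Y => F.imp.2 fun q _ h => ?_
  refine F.loc fun q' hq' => ?_
  obtain ⟨r, hr, a, n, -, -, h2⟩ := F.dest_nm h q' hq'
  refine ⟨r, hr, fun G hG => ?_⟩
  have h3 : NG.mk G Y = NG.mk G (nn n) := h2 G hG
  beta_reduce
  rw [h3]
  exact nn_mem G n

private theorem sd_inj {s : C → ℕ}
    (hs : ∀ b c, s b = s c → ∀ (a : A) (q : P), q ∈ ρ a b → q ∈ ρ a c → b = c)
    (G : Ult (RO P)) :
    ∀ z, EG G z (NG.mk G (pN A)) → ∀ b c n,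
      Val (EG G) (NG.mk G (nm fun b n => (chi (s b = n) : RO P))) b n →
      Val (EG G) (NG.mk G (nm fun b n => (chi (s b = n) : RO P))) c n →
      Val (EG G) (NG.mk G (rn ρ)) z b → Val (EG G) (NG.mk G (rn ρ)) z c → b = c := by
  revert G
  refine F.top fun p => F.bsn.2 fun a q _ _ => F.all.2 fun X => F.all.2 fun Y =>
    F.all.2 fun Z => F.imp.2 fun q1 _ h1 => F.imp.2 fun q2 hq2 h2 => F.imp.2 fun q3 hq3 h3 =>
    F.imp.2 fun q4 hq4 h4 => F.loc fun q5 hq5 => ?_
  obtain ⟨r, hr, b, k, h5, h6, h7⟩ := F.dest_nm (h1.mono (hq4.trans (hq3.trans hq2))) q5 hq5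
  obtain ⟨t, ht, c, l, h8, h9, h10⟩ := F.dest_nm (h2.mono (hq4.trans hq3)) r (hr.trans hq5)
  have h11 : s b = k := RO.mem_chi.1 h5
  have h12 : s c = l := RO.mem_chi.1 h8
  have h13 : k = l := F.const.1 fun G hG => by
    have h14 : NG.mk G Z = NG.mk G (nn k) := h7 G (up_mem ht hG)
    have h15 : NG.mk G Z = NG.mk G (nn l) := h10 G hG
    exact (nn_eq G).1 (h14.symm.trans h15)
  have h16 : t ∈ ρ a b := F.valr.1 fun G hG => by
    have h17 : NG.mk G X = NG.mk G (kn b) := h6 G (up_mem ht hG)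
    beta_reduce
    rw [← h17]
    exact h3 G (up_mem (ht.trans (hr.trans (hq5.trans hq4))) hG)
  have h18 : t ∈ ρ a c := F.valr.1 fun G hG => by
    have h17 : NG.mk G Y = NG.mk G (kn c) := h9 G hG
    beta_reduce
    rw [← h17]
    exact h4 G (up_mem (ht.trans (hr.trans hq5)) hG)
  have h19 : b = c := hs b c (h11.trans (h13.trans h12.symm)) a t h16 h18
  refine ⟨t, ht.trans hr, fun G hG => ?_⟩
  have h20 : NG.mk G X = NG.mk G (kn b) := h6 G (up_mem ht hG)
  have h21 : NG.mk G Y = NG.mk G (kn c) := h9 G hG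
  beta_reduce
  rw [h20, h21, h19]

theorem br_sd (h : TSd ρ) (G : Ult (RO P)) :
    CSd (EG G) (NG.mk G (pN A)) (NG.mk G (pN C)) (NG.mk G (rn ρ)) := by
  obtain ⟨s, hs⟩ := h
  exact ⟨NG.mk G oN, NG.mk G (nm fun b n => chi (s b = n)), ck_om G, nm_fun s G, sd_om s G,
    fun b c n z h1 h2 h3 h4 h5 => sd_inj hs G z h3 b c n h1 h2 h4 h5⟩

end DSB
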