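import Pool.Agent.DSB.Nam

/-! # The bridge: coded space, `T₁` (package B2)

(problem MP_f2e766_lc, project DSB, part B)

As `DLN/BSp.lean` (all elements of `pN A` have the truth value `⊤`: `F.bsn` for `sn fun _ => ⊤`).
* `br_sp`: first clause: `F.bsn`: the point `kn a`, the code `kn b` with `b` from `h.ex a`. Second
  clause, reordered as
  `∀ y ∈ Y, ∀ b ∈ B, ∀ b' ∈ B, Val h y b → Val h y b' → ..`: ground `a`, `b`, `b'`; `F.imp` twice,
  `F.valr`, then `F.loc` with `h.nb`: the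
  witness `kn c`; `∀ z ∈ Y` by `F.bsn`, `F.imp`, `F.and`, `F.valr`.
* `br_t1`: reordered as `∀ x ∈ Y, ∀ y ∈ Y, x ≠ y → ..`: ground `a`, `a'`; if `a = a'` the premise
  is false; otherwise `F.loc` and
  the hypothesis, `F.no`, `F.valr`.

How to work with these statements (files `CPI/BTv.lean`, `CPI/BNam.lean`; see the proofs in
`DLN/BSp.lean`,
`DLN/BNsep.lean`, `DLN/BNlin.lean`, `CPI/BNet.lean` for models): `F p S` means that `S G` is true
in all quotients `NG G` with
`RO.up p ∈ G.s`. A statement `S G` for an arbitrary `G` is proved by `F.top fun p => ?_` (all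
statements
about names have a truth value: class `TV`, found by instance search; state the statement as a
function of `G`). Quantifiers: `F.all`, `F.ex`, `F.bsn` (`∀ x ∈ sn φ`: it is enough to treat
`x = kn a` below
conditions `q ∈ φ a`), `F.esn`, `F.bck`, `F.eck` (`∀/∃ x ∈ ω`; `om_eq`: the only `w` with `IsOm w`
is `oN`), `F.dest_sn`, `F.dest_ck`,
`F.bsub`, `F.esub`, connectives: `F.imp`, `F.and`, `F.no`, `F.or`, `F.loc` (densely), `F.mono`,
`F.const`, `F.not_false`,
`F.of_not`. Atomic statements: `kn_eq`, `kn_sn`, `kn_sn_chi`, `val_rn`, `val_iff`, `chi_mem`;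
forced forms:
`F.sn`, `F.valr`, `F.kn_eq`, `F.mem`. To reorder the premises of a statement (so that all
quantifiers
become bounded) prove the reordered statement and apply it. If `rw` does not find a pattern, use
`beta_reduce` or `show`. From `q ∈ φ a` and `RO.up q ∈ G.s` one gets `φ a ∈ G.s` by
`G.up hG (RO.up_le.2 h)`; `q ∈ chi c ↔ c` is `RO.mem_chi`. -/

set_option autoImplicit false

namespace DSB

open STP STP.BSet CPI DLN

variable {P : Type} [PartialOrder P] {A C : Type} {ρ : A → C → RO P}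

private theorem kn_pN (G : Ult (RO P)) (a : A) : EG G (NG.mk G (kn a)) (NG.mk G (pN A)) :=
  (kn_sn G).2 G.top

theorem br_sp (h : TSp ρ) (G : Ult (RO P)) :
    CSp (EG G) (NG.mk G (pN A)) (NG.mk G (pN C)) (NG.mk G (rn ρ)) := by
  refine ⟨?_, ?_⟩
  · have h1 : ∀ G : Ult (RO P), ∀ y, EG G y (NG.mk G (pN A)) →
        ∃ b, EG G b (NG.mk G (pN C)) ∧ Val (EG G) (NG.mk G (rn ρ)) y b := by
      refine F.top fun p => F.bsn.2 fun a q _ _ G hG => ?_
      obtain ⟨b, hb⟩ := h.ex a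
      have h2 : ρ a b = ⊤ := top_le_iff.1 (RO.le_def.2 fun q _ => hb q)
      refine ⟨NG.mk G (kn b), kn_pN G b, ?_⟩
      rw [val_rn, h2]
      exact G.top
    exact h1 G
  · have h1 : ∀ G : Ult (RO P), ∀ y, EG G y (NG.mk G (pN A)) →
        ∀ b, EG G b (NG.mk G (pN C)) → ∀ b', EG G b' (NG.mk G (pN C)) →
          ((Val (EG G) (NG.mk G (rn ρ)) y b ∧ Val (EG G) (NG.mk G (rn ρ)) y b') →
            ∃ c, EG G c (NG.mk G (pN C)) ∧ Val (EG G) (NG.mk G (rn ρ)) y c ∧
              ∀ z, EG G z (NG.mk G (pN A)) → Val (EG G) (NG.mk G (rn ρ)) z c →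
                Val (EG G) (NG.mk G (rn ρ)) z b ∧ Val (EG G) (NG.mk G (rn ρ)) z b') := by
      refine F.top fun p => F.bsn.2 fun a q1 _ _ => F.bsn.2 fun b q2 _ _ =>
        F.bsn.2 fun b' q3 _ _ => F.imp.2 fun q _ hv => F.loc fun r hr => ?_
      have hv' := F.and.1 hv
      obtain ⟨r', hr', c, hc, hl⟩ := h.nb r a b b' ((ρ a b).down hr (F.valr.1 hv'.1))
        ((ρ a b').down hr (F.valr.1 hv'.2))
      have h3 : F r' fun G => ∀ z, EG G z (NG.mk G (pN A)) →
          Val (EG G) (NG.mk G (rn ρ)) z (NG.mk G (kn c)) →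
            Val (EG G) (NG.mk G (rn ρ)) z (NG.mk G (kn b)) ∧
            Val (EG G) (NG.mk G (rn ρ)) z (NG.mk G (kn b')) := by
        refine F.bsn.2 fun a2 s hs _ => F.imp.2 fun t ht h4 => ?_
        have h5 := hl a2 t (ht.trans hs) (F.valr.1 h4)
        exact fun G hG => ⟨F.valr.2 h5.1 G hG, F.valr.2 h5.2 G hG⟩
      exact ⟨r', hr', fun G hG => ⟨NG.mk G (kn c), kn_pN G c,
        F.valr.2 hc G hG, h3 G hG⟩⟩
    exact fun y b b' hy hb hb' h4 h5 => h1 G y hy b hb b' hb' ⟨h4, h5⟩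

theorem br_t1 (h : TT1 ρ) (G : Ult (RO P)) :
    CT1 (EG G) (NG.mk G (pN A)) (NG.mk G (pN C)) (NG.mk G (rn ρ)) := by
  have h1 : ∀ G : Ult (RO P), ∀ x, EG G x (NG.mk G (pN A)) →
      ∀ y, EG G y (NG.mk G (pN A)) → (¬ x = y →
        ∃ b, EG G b (NG.mk G (pN C)) ∧ Val (EG G) (NG.mk G (rn ρ)) x b ∧
          ¬ Val (EG G) (NG.mk G (rn ρ)) y b) := by
    refine F.top fun p => F.bsn.2 fun a q1 _ _ => F.bsn.2 fun a' q2 hq2 _ => ?_
    by_cases haa : a = a'
    · subst haa
      exact fun G _ h2 => absurd rfl h2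
    · have h2 : F q2 fun G => ∃ b, EG G b (NG.mk G (pN C)) ∧
          Val (EG G) (NG.mk G (rn ρ)) (NG.mk G (kn a)) b ∧
          ¬ Val (EG G) (NG.mk G (rn ρ)) (NG.mk G (kn a')) b := by
        refine F.loc fun r hr => ?_
        obtain ⟨r', hr', b, hb, hl⟩ := h r a a' haa
        have h3 : F r' fun G => ¬ Val (EG G) (NG.mk G (rn ρ)) (NG.mk G (kn a'))
            (NG.mk G (kn b)) := F.no.2 fun t ht h4 => hl t ht (F.valr.1 h4)
        exact ⟨r', hr', fun G hG => ⟨NG.mk G (kn b), kn_pN G b, F.valr.2 hb G hG, h3 G hG⟩⟩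
      exact fun G hG _ => h2 G hG
  exact fun x y hx hy hxy => h1 G x hx y hy hxy

end DSB
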