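import Pool.Agent.DSB.Gr

/-! # Points with a given ladder; finiteness of the parts of a precondition (package G1)

(problem MP_f2e766_lc, project DSB, part G)

* `exists_pt`: let `F i = some (x.1.2, x.2)` if there is (exactly one) `x ∈ Z` with `x.1.1 = i`,
  `F i = none` otherwise. For
  `t : K` let `k t : K` with `dec (k t) = (F, t)` (`dec_surj`); `k` is injective. The set of all
  `t` with `(n, k t) ∈ B` is
  countable, but `K = Set ℕ` is not countable (`Cardinal.mk_set`, `Cardinal.cantor`, or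
  `Set.countable_univ_iff`), so there is `t` with `z := (n, k t) ∉ B`.
* `lad_cnt`, `lad_fin`: `a ↦ a.1` is injective on the ladder (`Lad.eq`).
* `gp_fin`, `gl_fin`, `gp_mono` etc.: unfold. -/

set_option autoImplicit false

namespace DSB

open Cardinal

private theorem not_cnt : ¬ Countable K := by
  have h2 : #K = 𝔠 := by simp [K]
  intro h
  have h1 : #K ≤ ℵ₀ := Cardinal.mk_le_aleph0_iff.2 h
  rw [h2] at h1
  exact absurd h1 (not_le.2 Cardinal.aleph0_lt_continuum)

theorem exists_pt (n : ℕ) {Z : Set (Pt × ℕ)} (h1 : ∀ x ∈ Z, n < x.1.1)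
    (h2 : ∀ x ∈ Z, ∀ y ∈ Z, x.1.1 = y.1.1 → x = y) {B : Set Pt} (hB : B.Countable) :
    ∃ z : Pt, z ∉ B ∧ z.1 = n ∧ ∀ a m, Lad z a m ↔ (a, m) ∈ Z := by
  classical
  obtain ⟨F, hF⟩ : ∃ F : ℕ → Option (K × ℕ), ∀ i k m, F i = some (k, m) ↔ ((i, k), m) ∈ Z := by
    refine ⟨fun i => if h : ∃ x ∈ Z, x.1.1 = i then some (h.choose.1.2, h.choose.2) else none,
      fun i k m => ?_⟩
    beta_reduce
    constructor
    · intro h
      by_cases h3 : ∃ x ∈ Z, x.1.1 = i
      · rw [dif_pos h3] at h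
        have h4 := Option.some.inj h
        rw [Prod.mk.injEq] at h4
        have h5 : ((i, k), m) = h3.choose :=
          Prod.ext (Prod.ext h3.choose_spec.2.symm h4.1.symm) h4.2.symm
        rw [h5]
        exact h3.choose_spec.1
      · rw [dif_neg h3] at h
        exact absurd h (by simp)
    · intro h
      have h3 : ∃ x ∈ Z, x.1.1 = i := ⟨_, h, rfl⟩
      rw [dif_pos h3]
      have h5 : h3.choose = ((i, k), m) :=
        h2 _ h3.choose_spec.1 _ h h3.choose_spec.2
      rw [h5]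
  have hk : ∀ t : K, ∃ k : K, dec k = (F, t) := fun t => dec_surj _
  choose k hk using hk
  have kinj : Function.Injective k := by
    intro t t' h
    have h3 := hk t
    rw [h, hk t'] at h3
    exact ((Prod.mk.injEq _ _ _ _).mp h3).2.symm
  obtain ⟨t, ht⟩ : ∃ t, (n, k t) ∉ B := by
    by_contra hc
    push Not at hc
    have hBc : Countable B := hB.to_subtype
    refine not_cnt (Function.Injective.countable (f := fun t : K => (⟨(n, k t), hc t⟩ : B)) ?_)
    intro t t' h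
    have h3 : ((n, k t) : Pt) = (n, k t') := congrArg Subtype.val h
    exact kinj ((Prod.mk.injEq _ _ _ _).mp h3).2
  refine ⟨(n, k t), ht, rfl, fun a m => ?_⟩
  have h3 : (dec (k t)).1 = F := by rw [hk]
  constructor
  · rintro ⟨-, h4⟩
    rw [show ((n, k t) : Pt).2 = k t from rfl, h3] at h4
    exact (hF _ _ _).1 h4
  · intro h
    refine ⟨h1 _ h, ?_⟩
    rw [show ((n, k t) : Pt).2 = k t from rfl, h3]
    exact (hF _ _ _).2 h

private theorem lad_inj (z : Pt) : Set.InjOn (fun a : Pt => a.1) {a | ∃ m, Lad z a m} := by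
  rintro a ⟨m, h⟩ a' ⟨m', h'⟩ he
  exact (h.eq h' he).1

theorem lad_cnt (z : Pt) : {a | ∃ m, Lad z a m}.Countable :=
  Set.MapsTo.countable_of_injOn (t := Set.univ) (Set.mapsTo_univ _ _) (lad_inj z)
    (Set.to_countable _)

theorem lad_fin (z : Pt) (e : ℕ) : {a | ∃ m, Lad z a m ∧ a.1 < e}.Finite := by
  have h1 : {a | ∃ m, Lad z a m ∧ a.1 < e} ⊆ {a | ∃ m, Lad z a m} :=
    fun a ⟨m, h⟩ => ⟨m, h.1⟩
  refine Set.Finite.of_finite_image ((Set.finite_Iio e).subset ?_) ((lad_inj z).mono h1)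
  rintro _ ⟨a, ⟨m, h⟩, rfl⟩
  exact h.2

private theorem gp_eq (g : Set Atom) : gp g = ⋃ α ∈ g, α.pts := by
  ext x
  simp [gp]

private theorem gl_eq (g : Set Atom) : gl g = ⋃ α ∈ g, α.lbs := by
  ext x
  simp [gl]

theorem gp_fin {g : Set Atom} (h : g.Finite) : (gp g).Finite := by
  rw [gp_eq]
  refine h.biUnion fun α _ => ?_
  cases α with
  | cl z a v => exact Set.toFinite {z, a}
  | st l a c e => exact Set.toFinite {a}

theorem gl_fin {g : Set Atom} (h : g.Finite) : (gl g).Finite := by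
  rw [gl_eq]
  refine h.biUnion fun α _ => ?_
  cases α with
  | cl z a v => exact Set.finite_empty
  | st l a c e => exact Set.finite_singleton l

theorem gp_mono {g g' : Set Atom} (h : g ⊆ g') : gp g ⊆ gp g' := by
  rintro x ⟨α, hα, hx⟩
  exact ⟨α, h hα, hx⟩

theorem gl_mono {g g' : Set Atom} (h : g ⊆ g') : gl g ⊆ gl g' := by
  rintro x ⟨α, hα, hx⟩
  exact ⟨α, h hα, hx⟩

theorem gp_union (g g' : Set Atom) : gp (g ∪ g') = gp g ∪ gp g' := by
  refine Set.Subset.antisymm ?_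
    (Set.union_subset (gp_mono Set.subset_union_left) (gp_mono Set.subset_union_right))
  rintro x ⟨α, hα | hα, hx⟩
  · exact Or.inl ⟨α, hα, hx⟩
  · exact Or.inr ⟨α, hα, hx⟩

theorem gl_union (g g' : Set Atom) : gl (g ∪ g') = gl g ∪ gl g' := by
  refine Set.Subset.antisymm ?_
    (Set.union_subset (gl_mono Set.subset_union_left) (gl_mono Set.subset_union_right))
  rintro x ⟨α, hα | hα, hx⟩
  · exact Or.inl ⟨α, hα, hx⟩
  · exact Or.inr ⟨α, hα, hx⟩

private theorem pts_map (f : Pt → Pt) (j : Lb → Lb) (α : Atom) :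
    (Atom.map f j α).pts = f '' α.pts := by
  cases α with
  | cl z a v => exact (Set.image_pair f z a).symm
  | st l a c e => exact (Set.image_singleton (f := f) (a := a)).symm

private theorem lbs_map (f : Pt → Pt) (j : Lb → Lb) (α : Atom) :
    (Atom.map f j α).lbs = j '' α.lbs := by
  cases α with
  | cl z a v => exact (Set.image_empty j).symm
  | st l a c e => exact (Set.image_singleton (f := j) (a := l)).symm

theorem gp_image (f : Pt → Pt) (j : Lb → Lb) (g : Set Atom) :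
    gp (Atom.map f j '' g) = f '' gp g := by
  ext x
  constructor
  · rintro ⟨_, ⟨α, hα, rfl⟩, hx⟩
    rw [pts_map] at hx
    obtain ⟨y, hy, rfl⟩ := hx
    exact ⟨y, ⟨α, hα, hy⟩, rfl⟩
  · rintro ⟨y, ⟨α, hα, hy⟩, rfl⟩
    refine ⟨_, ⟨α, hα, rfl⟩, ?_⟩
    rw [pts_map]
    exact ⟨y, hy, rfl⟩

theorem gl_image (f : Pt → Pt) (j : Lb → Lb) (g : Set Atom) :
    gl (Atom.map f j '' g) = j '' gl g := by
  ext x
  constructor
  · rintro ⟨_, ⟨α, hα, rfl⟩, hx⟩
    rw [lbs_map] at hx
    obtain ⟨y, hy, rfl⟩ := hx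
    exact ⟨y, ⟨α, hα, hy⟩, rfl⟩
  · rintro ⟨y, ⟨α, hα, hy⟩, rfl⟩
    refine ⟨_, ⟨α, hα, rfl⟩, ?_⟩
    rw [lbs_map]
    exact ⟨y, hy, rfl⟩

end DSB
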