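import Pool.Agent.DSB.Pos
import Pool.Agent.DSB.GPt

/-! # Basic facts about atoms (package P1)

(problem MP_f2e766_lc, project DSB, part P)

All proofs are short.
* `In.mono`: the references of `a` of level `< e` are decided in `g` (`Dc`), and `g'` is
  functional, so no new ones.
* `In.trans`: `In g w a e`, `In g u w e'`, `a.1 < e'`, `e ≤ e'`. If `u = w` nothing to do. If
  `w = a`: `In.anti`. Otherwise `cl w a v ∈ g`, `e < v`; since
  `a.1 < e'` and `1 ≤ v` the references of `w` give `cl u a v' ∈ g` with `v ≤ v'`. For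
  `cl a x v1 ∈ g`, `x.1 < e`, `1 ≤ v1` there is
  `cl w x v2 ∈ g` with `v1 ≤ v2`, and `x.1 < e ≤ e'`, so `cl u x v3 ∈ g` with `v2 ≤ v3`.
* `In.lad`: `Bs.val`. `In.disj`: if `w ≠ a, a'` then `a`, `a'` are both in the ladder of `w`
  (`Lad.eq`); if `w = a ≠ a'` then `a'` is in
  the ladder of `a`, but has the same level (`Lad.lt`).
* `Av.sub`: `In.trans`.
* `Tv.uniq`: if `c ≠ c'` then `p` is good and no extension of `p` is good. -/

set_option autoImplicit false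

namespace DSB

open STP

variable {g g' : Set Atom} {w a u x : Pt} {e e' v : ℕ}

theorem Bs.anti (h : g ⊆ g') (hb : Bs g') : Bs g := by
  exact ⟨fun z a v hz => hb.val z a v (h hz), fun z a v v' h1 h2 => hb.fn z a v v' (h h1) (h h2)⟩

theorem Dc.mono (h : g ⊆ g') (hd : Dc g a e) : Dc g' a e := by
  exact fun x m hl hx => (hd x m hl hx).imp fun v hv => h hv

theorem Dc.anti (h : e' ≤ e) (hd : Dc g a e) : Dc g a e' := by
  exact fun x m hl hx => hd x m hl (hx.trans_le h)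

theorem Dc.zero : Dc g a 0 := by
  exact fun x m _ hx => absurd hx (Nat.not_lt_zero _)

theorem In.mono (h : g ⊆ g') (hb : Bs g') (hi : In g w a e) : In g' w a e := by
  refine ⟨hi.1.mono h, hi.2.imp id fun hr => ?_⟩
  obtain ⟨⟨v, hv, hc⟩, hr⟩ := hr
  refine ⟨⟨v, hv, h hc⟩, fun x v1 hx he h1 => ?_⟩
  obtain ⟨m, hm, -⟩ := hb.val a x v1 hx
  obtain ⟨v2, hv2⟩ := hi.1 x m hm he
  have h3 := hb.fn a x v1 v2 hx (h hv2)
  subst h3
  obtain ⟨v', h4, h5⟩ := hr x v1 hv2 he h1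
  exact ⟨v', h4, h h5⟩

theorem In.anti (h : e' ≤ e) (hi : In g w a e) : In g w a e' := by
  refine ⟨hi.1.anti h, hi.2.imp id fun hr => ?_⟩
  obtain ⟨⟨v, hv, hc⟩, hr⟩ := hr
  exact ⟨⟨v, lt_of_le_of_lt h hv, hc⟩, fun x v1 hx he => hr x v1 hx (he.trans_le h)⟩

theorem In.self (h : Dc g a e) : In g a a e := by
  exact ⟨h, Or.inl rfl⟩

theorem In.trans (hb : Bs g) (hi : In g w a e) (hj : In g u w e') (h : a.1 < e') (h' : e ≤ e') :
    In g u a e := by
  rcases hj.2 with rfl | ⟨⟨v, hv, hc⟩, hr⟩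
  · exact hi
  rcases hi.2 with rfl | ⟨⟨v1, hv1, hc1⟩, hr1⟩
  · exact hj.anti h'
  refine ⟨hi.1, Or.inr ⟨?_, ?_⟩⟩
  · obtain ⟨v', h1, h2⟩ := hr a v1 hc1 h (by omega)
    exact ⟨v', by omega, h2⟩
  · intro x v2 hx he h1
    obtain ⟨v3, h3, h4⟩ := hr1 x v2 hx he h1
    obtain ⟨v5, h5, h6⟩ := hr x v3 h4 (he.trans_le h') (by omega)
    exact ⟨v5, by omega, h6⟩

theorem In.lad (hb : Bs g) (hi : In g w a e) (hn : w ≠ a) :
    ∃ v m, .cl w a v ∈ g ∧ Lad w a m ∧ e < v ∧ v ≤ m := by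
  obtain ⟨⟨v, hv, hc⟩, -⟩ := hi.2.resolve_left hn
  obtain ⟨m, hm, hvm⟩ := hb.val w a v hc
  exact ⟨v, m, hc, hm, hv, hvm⟩

theorem In.disj {a' : Pt} (hb : Bs g) (hi : In g w a e) (hj : In g w a' e') (h : a.1 = a'.1) :
    a = a' := by
  by_cases h1 : w = a
  · by_cases h2 : w = a'
    · exact h1.symm.trans h2
    · obtain ⟨v, m, -, hm, -⟩ := hj.lad hb h2
      have h3 := hm.lt
      rw [h1, h] at h3
      exact absurd h3 (lt_irrefl _)
  · by_cases h2 : w = a'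
    · obtain ⟨v, m, -, hm, -⟩ := hi.lad hb h1
      have h3 := hm.lt
      rw [h2, h] at h3
      exact absurd h3 (lt_irrefl _)
    · obtain ⟨v, m, -, hm, -⟩ := hi.lad hb h1
      obtain ⟨v', m', -, hm', -⟩ := hj.lad hb h2
      exact (hm.eq hm' h).1

/-- the point `a` is not in `N(w, v)` if the closeness is `v` -/
theorem In.not (hb : Bs g) (h : .cl w a v ∈ g) : ¬ In g w a v ∨ w = a := by
  by_cases h1 : w = a
  · exact Or.inr h1
  · refine Or.inl fun hi => ?_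
    obtain ⟨v', m, hc, -, hlt, -⟩ := hi.lad hb h1
    have h2 := hb.fn w a v v' h hc
    omega

/-- a point outside of the ladder -/
theorem In.not_lad (hb : Bs g) (h : ∀ m, ¬ Lad w a m) (hn : w ≠ a) : ¬ In g w a e := by
  intro hi
  obtain ⟨v, m, -, hm, -⟩ := hi.lad hb hn
  exact h m hm

theorem Mem.mono {Q : Set Pre} {s : K → Option Pre} {p q : Pre} (h : Mem Q s p) (hq : q ≤ p) :
    Mem Q s q := by
  obtain ⟨k, b, h1, h2, h3⟩ := h
  exact ⟨k, b, h1, h2, hq.trans h3⟩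

theorem Av.mono {Q : Set Pre} {s : Pt → K → Option Pre} {p q : Pre} (h : Av Q s p a e)
    (hq : q ≤ p) : Av Q s q a e := by
  exact fun q' hq' hle => h q' hq' (hle.trans hq)

theorem Av.anti {Q : Set Pre} {s : Pt → K → Option Pre} {p : Pre} (h : Av Q s p a e)
    (he : e ≤ e') : Av Q s p a e' := by
  exact fun q hq hle w hi => h q hq hle w (hi.anti he)

theorem Av.sub {Q : Set Pre} {s : Pt → K → Option Pre} {p : Pre} (hb : ∀ q ∈ Q, Bs q.g)
    (h : Av Q s p a e) (hi : In p.g w a e) (h1 : a.1 < e') (h2 : e ≤ e') : Av Q s p w e' := by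
  intro q hq hle u hu
  exact h q hq hle u ((hi.mono hle.2 (hb q hq)).trans (hb q hq) hu h1 h2)

theorem Good.mono {Q : Set Pre} {l : Lb} {s : Pt → K → Option Pre} {p q : Pre}
    (h : Good Q l s p) (hq : q ≤ p) : Good Q l s q := by
  exact fun p' hp' hle => h p' hp' (hle.trans hq)

theorem Tv.mono {Q : Set Pre} {l : Lb} {s : Dat} {c : Bool} {p q : Pre} (h : Tv Q l s c p)
    (hq : q ≤ p) : Tv Q l s c q := by
  cases c
  · exact Good.mono h hq
  · exact fun q' hq' hle => h q' hq' (hle.trans hq)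

theorem Tv.uniq {Q : Set Pre} {l : Lb} {s : Dat} {c c' : Bool} {p : Pre} (hp : p ∈ Q)
    (h : Tv Q l s c p) (h' : Tv Q l s c' p) : c = c' := by
  cases c <;> cases c'
  · rfl
  · exact absurd h (h' p hp le_rfl)
  · exact absurd h' (h p hp le_rfl)
  · rfl

end DSB
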