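import Mathlib

/-! # Book-keeping (package M1; pure)

(problem MP_f2e766_lc, project DSB, part M)

`α` is a preorder of states in which every increasing `ω`-sequence has an upper bound which creates
no new tasks (`hub`). Every state `a` has
countably many tasks `tk a`, larger states have more tasks; a task `τ` can be treated at every
state `c`: there is `d ≥ c` with `D τ c d`. Then above every
state `a` there is a state `b` such that every task of `b` has been treated between `a` and `b`, at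
a state which has this task.

PROOF. Step 1: for every countable set `S` of tasks and every `a` there is `b ≥ a` such that every
`τ ∈ S` has `c`, `d` with `a ≤ c ≤ d ≤ b`, `D τ c d`: if `S` is not
empty let `S` be the range of `e : ℕ → T` (`Set.Countable.exists_eq_range`), `f 0 = a`,
`f (n + 1) ≥ f n` with `D (e n) (f n) (f (n + 1))`, and `b` an upper
bound (`hub`). Step 2: `a 0 = a`, `a (n + 1) ≥ a n` from step 1 for `S = tk (a n)`, `b` from `hub`:
`τ ∈ tk b` is in some `tk (a n)`, and `a n ≤ c` gives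
`τ ∈ tk c`.

`enum_inf`: an enumeration `e0 : ℕ → T` of `S` composed with `fun n => (Nat.unpair n).1`. -/

set_option autoImplicit false

namespace DSB

private theorem book_step {α T : Type*} [Preorder α] {tk : α → Set T}
    (hub : ∀ f : ℕ → α, (∀ n, f n ≤ f (n + 1)) → ∃ b, (∀ n, f n ≤ b) ∧
      ∀ τ ∈ tk b, ∃ n, τ ∈ tk (f n))
    (D : T → α → α → Prop) (hD : ∀ τ c, ∃ d, c ≤ d ∧ D τ c d) (S : Set T) (hS : S.Countable)
    (a : α) : ∃ b, a ≤ b ∧ ∀ τ ∈ S, ∃ c d, a ≤ c ∧ c ≤ d ∧ d ≤ b ∧ D τ c d := by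
  rcases S.eq_empty_or_nonempty with rfl | hne
  · exact ⟨a, le_rfl, fun τ h => absurd h (Set.notMem_empty _)⟩
  obtain ⟨e, rfl⟩ := hS.exists_eq_range hne
  choose d hd1 hd2 using hD
  let f : ℕ → α := fun n => Nat.rec a (fun n c => d (e n) c) n
  have hf : ∀ n, f (n + 1) = d (e n) (f n) := fun n => rfl
  have h1 : ∀ n, f n ≤ f (n + 1) := fun n => by rw [hf]; exact hd1 _ _
  obtain ⟨b, hb, -⟩ := hub f h1
  have h2 : ∀ n, a ≤ f n := by
    intro n
    induction n with
    | zero => exact le_rfl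
    | succ n ih => exact ih.trans (h1 n)
  refine ⟨b, (h2 0).trans (hb 0), ?_⟩
  rintro _ ⟨n, rfl⟩
  exact ⟨f n, f (n + 1), h2 n, h1 n, hb (n + 1), by rw [hf]; exact hd2 _ _⟩

theorem book {α T : Type*} [Preorder α] (tk : α → Set T) (hc : ∀ a, (tk a).Countable)
    (hm : ∀ a b, a ≤ b → tk a ⊆ tk b)
    (hub : ∀ f : ℕ → α, (∀ n, f n ≤ f (n + 1)) → ∃ b, (∀ n, f n ≤ b) ∧
      ∀ τ ∈ tk b, ∃ n, τ ∈ tk (f n))
    (D : T → α → α → Prop) (hD : ∀ τ c, ∃ d, c ≤ d ∧ D τ c d) (a : α) :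
    ∃ b, a ≤ b ∧ ∀ τ ∈ tk b, ∃ c d, a ≤ c ∧ c ≤ d ∧ d ≤ b ∧ τ ∈ tk c ∧ D τ c d := by
  choose F hF1 hF2 using fun x : α => book_step hub D hD (tk x) (hc x) x
  let f : ℕ → α := fun n => Nat.rec a (fun _ c => F c) n
  have hf : ∀ n, f (n + 1) = F (f n) := fun n => rfl
  have h1 : ∀ n, f n ≤ f (n + 1) := fun n => by rw [hf]; exact hF1 _
  have h2 : ∀ n, a ≤ f n := by
    intro n
    induction n with
    | zero => exact le_rfl
    | succ n ih => exact ih.trans (h1 n)
  obtain ⟨b, hb, hbt⟩ := hub f h1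
  refine ⟨b, (h2 0).trans (hb 0), fun τ hτ => ?_⟩
  obtain ⟨n, hn⟩ := hbt τ hτ
  obtain ⟨c, d, h3, h4, h5, h6⟩ := hF2 (f n) τ hn
  refine ⟨c, d, (h2 n).trans h3, h4, h5.trans ?_, hm _ _ h3 hn, h6⟩
  rw [← hf]
  exact hb (n + 1)

/-- an enumeration of a nonempty countable set in which every element occurs infinitely often -/
theorem enum_inf {T : Type*} {S : Set T} (hS : S.Countable) (hne : S.Nonempty) :
    ∃ e : ℕ → T, (∀ n, e n ∈ S) ∧ ∀ x ∈ S, ∀ n, ∃ k, n ≤ k ∧ e k = x := by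
  obtain ⟨e0, rfl⟩ := hS.exists_eq_range hne
  refine ⟨fun n => e0 (Nat.unpair n).1, fun n => ⟨_, rfl⟩, ?_⟩
  rintro _ ⟨i, rfl⟩ n
  refine ⟨Nat.pair i n, Nat.right_le_pair i n, ?_⟩
  simp only [Nat.unpair_pair]

end DSB
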