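import Pool.Agent.DSB.KDow
import Pool.Agent.DSB.BSp
import Pool.Agent.DSB.BNor
import Pool.Agent.DSB.BSd
import Pool.Agent.DSB.BNcp

/-! # The model, from the typed statements

(problem MP_f2e766_lc, project DSB; assembly) -/

set_option autoImplicit false

namespace DSB

open STP STP.BSet CPI DLN

theorem cdat {P : Type} [PartialOrder P] {A C : Type} {ρ : A → C → RO P} (h : TDat ρ)
    (G : Ult (RO P)) : CDat (EG G) (NG.mk G (pN A)) (NG.mk G (pN C)) (NG.mk G (rn ρ)) where
  sp := br_sp h.sp G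
  t1 := br_t1 h.t1 G
  nor := br_nor h.nor G
  sd := br_sd h.sd G
  ncp := br_ncp h.ncp G

/-- the typed statements give a model -/
theorem model_of {P : Type} [PartialOrder P] [Nonempty P] {A C : Type} {ρ : A → C → RO P}
    (h : TDat ρ) : ∃ (N : Type 1) (E : N → N → Prop), ZFC E ∧ DowSD E := by
  obtain ⟨G, -⟩ := Ult.exists_mem (B := RO P) (b := ⊤) (by
    intro h
    obtain ⟨p⟩ := (inferInstance : Nonempty P)
    have h1 : p ∈ (⊤ : RO P) := RO.mem_top
    rw [h] at h1
    exact RO.not_mem_bot h1)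
  exact ⟨NG G, EG G, NG_zfc G, KDow (NG_zfc G) (cdat h G)⟩

end DSB
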