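import Pool.Agent.DSB.Bas

/-! # Restrictions (package P2)

(problem MP_f2e766_lc, project DSB, part P)

Restriction to the labels `< t` keeps all closeness atoms, so `Bs`, `Dc`, `In` do not change. The
legality conditions at the label
`l < t` only concern `rres l r`, the triples and status atoms with label `l`, and the closeness
atoms, so they are the same for `p` and
`p.res t` (`(p.res t).res l = p.res l`). At labels `l ≥ t` the conditions for a precondition with
labels `< t` are void.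
`act_S`: if `l` is not free and `Act (Q l) (dat l)` then `S l = dat l`; otherwise all names are
empty, `Mem` never holds, `clo` with
`q = p`, `e = 0` (`Dc.zero`). -/

set_option autoImplicit false

namespace DSB

open STP

variable {g : Set Atom} {w a : Pt} {e : ℕ} {p q : Pre} {t t' : WithTop Lb}

theorem cl_gres {v : ℕ} : .cl w a v ∈ gres t g ↔ .cl w a v ∈ g := by
  simp [gres, Atom.lbs]

theorem st_gres {l : Lb} {c : Bool} :
    .st l a c e ∈ gres t g ↔ .st l a c e ∈ g ∧ (l : WithTop Lb) < t := by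
  simp [gres, Atom.lbs]

theorem bs_gres : Bs (gres t g) ↔ Bs g := by
  constructor
  · intro h
    exact ⟨fun z a v hv => h.val z a v (cl_gres.2 hv),
      fun z a v v' hv hv' => h.fn z a v v' (cl_gres.2 hv) (cl_gres.2 hv')⟩
  · intro h
    exact ⟨fun z a v hv => h.val z a v (cl_gres.1 hv),
      fun z a v v' hv hv' => h.fn z a v v' (cl_gres.1 hv) (cl_gres.1 hv')⟩

theorem dc_gres : Dc (gres t g) a e ↔ Dc g a e := by
  simp only [Dc, cl_gres]

theorem in_gres : In (gres t g) w a e ↔ In g w a e := by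
  simp only [In, dc_gres, cl_gres]

theorem res_le (p : Pre) (t : WithTop Lb) : p ≤ p.res t := by
  exact ⟨fun _ h => h.1, fun _ h => h.1⟩

theorem res_mono (h : q ≤ p) (t : WithTop Lb) : q.res t ≤ p.res t := by
  exact ⟨fun _ hx => ⟨h.1 hx.1, hx.2⟩, fun _ hx => ⟨h.2 hx.1, hx.2⟩⟩

theorem res_res (p : Pre) (h : t' ≤ t) : (p.res t).res t' = p.res t' := by
  refine Pre.ext ?_ ?_
  · ext x
    exact ⟨fun hx => ⟨hx.1.1, hx.2⟩, fun hx => ⟨⟨hx.1, lt_of_lt_of_le hx.2 h⟩, hx.2⟩⟩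
  · ext x
    exact ⟨fun hx => ⟨hx.1.1, hx.2⟩,
      fun hx => ⟨⟨hx.1, fun l hl => lt_of_lt_of_le (hx.2 l hl) h⟩, hx.2⟩⟩

theorem rres_rres (r : Set Tr) (h : t' ≤ t) : rres t' (rres t r) = rres t' r := by
  ext x
  exact ⟨fun hx => ⟨hx.1.1, hx.2⟩, fun hx => ⟨⟨hx.1, lt_of_lt_of_le hx.2 h⟩, hx.2⟩⟩

theorem rres_mono {r r' : Set Tr} (h : r ⊆ r') (t : WithTop Lb) : rres t r ⊆ rres t r' := by
  exact fun _ hx => ⟨h hx.1, hx.2⟩

/-- below a condition with labels `< t` -/
theorem res_le_of (hp : Bd t p) (h : q ≤ p) : q.res t ≤ p := by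
  exact ⟨fun x hx => ⟨h.1 hx, hp.1 x hx⟩,
    fun α hα => ⟨h.2 hα, fun l hl => hp.2 l ⟨α, hα, hl⟩⟩⟩

theorem res_eq (hp : Bd t p) : p.res t = p := by
  exact le_antisymm (res_le_of hp le_rfl) (res_le p t)

theorem rres_eq {r : Set Tr} (h : ∀ x ∈ r, (x.2.1 : WithTop Lb) < t) : rres t r = r := by
  ext x
  exact ⟨fun hx => hx.1, fun hx => ⟨hx, h x hx⟩⟩

theorem bd_of_Q (hp : p ∈ Q t) : Bd t p := by
  exact hp.2.1

theorem bs_of_Q (hp : p ∈ Q t) : Bs p.g := by
  exact hp.1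

theorem RLeg.res {r : Set Tr} (h : RLeg t r) (ht : t' ≤ t) : RLeg t' (rres t' r) := by
  refine ⟨h.cnt.mono fun _ hx => hx.1, fun _ hx => hx.2, fun l hl => ?_⟩
  have h1 := h.at' l (lt_of_lt_of_le hl ht)
  refine ⟨fun a v v' hv hv' => h1.fn a v v' hv.1 hv'.1, ?_, ?_⟩
  · intro z hz a m hm
    obtain ⟨v, hv, hmv⟩ := h1.lad z hz.1 a m hm
    exact ⟨v, ⟨hv, hl⟩, hmv⟩
  · intro z hz c q hq hsub
    rw [rres_rres _ hl.le] at hsub
    exact h1.out z hz.1 c q hq hsub

theorem RLeg.up {r : Set Tr} (h : RLeg t' r) (ht : t' ≤ t) : RLeg t r := by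
  refine ⟨h.cnt, fun x hx => lt_of_lt_of_le (h.bd x hx) ht, fun l hl => ?_⟩
  by_cases hl' : (l : WithTop Lb) < t'
  · exact h.at' l hl'
  · exact ⟨fun a v _ hv _ => absurd (h.bd (a, l, v) hv) hl',
      fun z hz => absurd (h.bd (z, l, ⊤) hz) hl', fun z hz => absurd (h.bd (z, l, ⊤) hz) hl'⟩

theorem RLeg.empty (t : WithTop Lb) : RLeg t ∅ := by
  exact ⟨Set.countable_empty, fun _ hx => absurd hx (Set.notMem_empty _), fun _ _ =>
    ⟨fun _ _ _ hx => absurd hx (Set.notMem_empty _), fun _ hx => absurd hx (Set.notMem_empty _),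
      fun _ hx => absurd hx (Set.notMem_empty _)⟩⟩

theorem Q_res (hp : p ∈ Q t) (ht : t' ≤ t) : p.res t' ∈ Q t' := by
  rw [mem_Q] at hp ⊢
  refine ⟨hp.1.res ht, bs_gres.2 hp.2.bs, ?_, fun l hl => ?_⟩
  · rintro l ⟨α, hα, hl⟩
    exact hα.2 l hl
  · have h1 := hp.2.at' l (lt_of_lt_of_le hl ht)
    refine ⟨?_, ?_, ?_, ?_, ?_⟩
    · intro a c e he
      obtain ⟨v, hv⟩ := h1.dom a c e (st_gres.1 he).1
      exact ⟨v, hv, hl⟩
    · intro a c e he
      exact dc_gres.2 (h1.dc a c e (st_gres.1 he).1)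
    · intro w a b c c' e e' he he' hi hi'
      exact h1.ag w a b c c' e e' (st_gres.1 he).1 (st_gres.1 he').1 (in_gres.1 hi)
        (in_gres.1 hi')
    · intro a c e v he hv hev
      rw [res_res _ hl.le]
      exact h1.tv a c e v (st_gres.1 he).1 hv.1 hev
    · intro a c e he
      rw [res_res _ hl.le]
      exact h1.av a c e (st_gres.1 he).1

theorem Q_up (hp : p ∈ Q t') (ht : t' ≤ t) : p ∈ Q t := by
  rw [mem_Q] at hp ⊢
  refine ⟨hp.1.up ht, hp.2.bs, fun l hl => lt_of_lt_of_le (hp.2.bd l hl) ht, fun l hl => ?_⟩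
  by_cases hl' : (l : WithTop Lb) < t'
  · exact hp.2.at' l hl'
  · have hno : ∀ a c e, .st l a c e ∈ p.g → False := fun a c e he =>
      hl' (hp.2.bd l ⟨_, he, rfl⟩)
    exact ⟨fun a c e he => (hno a c e he).elim, fun a c e he => (hno a c e he).elim,
      fun _ a _ c _ e _ he => (hno a c e he).elim, fun a c e _ he => (hno a c e he).elim,
      fun a c e he => (hno a c e he).elim⟩

/-- a legal precondition is in `Q t` if its labels are `< t` -/
theorem Q_of_bd (hp : p ∈ Q t) (h : Bd t' p) (ht : t' ≤ t) : p ∈ Q t' := by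
  have h1 := Q_res hp ht
  rwa [res_eq h] at h1

theorem act_S (l : Lb) : Act (Q l) (S l) := by
  unfold S eff
  split_ifs with h
  · exact h.2
  · refine ⟨fun c p hp x _ => ⟨p, hp, le_rfl, 0, Dc.zero, ?_⟩, ?_⟩
    · rintro q _ _ w _ ⟨k, b, hk, _⟩
      exact absurd hk (by simp)
    · rintro p _ x ⟨k, b, hk, _⟩ _
      exact absurd hk (by simp)

theorem S_free {l : Lb} (h : Free l) (c : Bool) (x : Pt) (k : K) : S l c x k = none := by
  unfold S eff
  rw [if_neg (fun h' => h'.1 h)]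

theorem S_act {l : Lb} (h : ¬ Free l) (h' : Act (Q l) (dat l)) : S l = dat l := by
  unfold S eff
  rw [if_pos ⟨h, h'⟩]

end DSB
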