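import Pool.Agent.DSB.CClo
import Pool.Agent.DSB.Res

/-! # The chain condition (package C2; F8 of the paper proof)

(problem MP_f2e766_lc, project DSB, part C)

For a precondition `p` and a set `C` of labels let `on C p` be the pair of the set of all triples
of `p.r` with label in `C` and of the set of all atoms of
`p.g` all of whose labels are in `C` (so all closeness atoms are in it). Let `lab p` be the
countable set of the labels of `p`.

* `glue_on`: let `p, q ∈ Q ⊤` have `on C p = on C q` where `C ⊇ lab p ∩ lab q`. Then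
  `u := (p.r ∪ q.r, p.g ∪ q.g) ∈ Q ⊤`. The closeness atoms of `p`, `q`, `u`
  are the same. For a label `i` in `lab p` the triples and status atoms of `u` with label `i` are
  those of `p` (if `i ∈ lab q` too then `i ∈ C` and those of
  `q` are the same), similarly for `i ∈ lab q`. So `RAt`, `GAt` at `i` for `u` follow from those
  for `p` (or `q`): `In`, `Dc` depend on the
  closeness atoms only; `tv`, `av` by `Tv.mono`, `Av.mono` (`u.res i ≤ p.res i`), `out`: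
  `rres i p.r ⊆ rres i u.r`. At the other labels nothing is to prove.
* `cc`: let `A` be an antichain. Let `T` be the type of all pairs `(C, p0)`, `C : Set Lb`,
  `p0 : Pre`; `sp (C, p0) := C ∪ lab p0` if `C` is countable, and a
  version with countable values for all `t`: work with `T := {x : Set Lb × Pre // x.1.Countable}`.
  `op (C, p0) := lab p` for a chosen `p ∈ A` with
  `on C p = p0` if there is one, `∅` otherwise. `hs`: for `#M ≤ #K` there are at most
  `#K ^ ℵ₀ = #K` countable `C ⊆ M` and preconditions `p0` with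
  labels in `M` (`#Pt ≤ #K`; as in `GDat.lean`, `SSO/GDat.lean`). `close` gives `M`. Let `A'` be
  the set of all chosen `p` for `(C, p0)` with `sp ⊆ M`: `#A' ≤ #K`.
  Every `p ∈ A` is in `A'`: let `C := lab p ∩ M` and let `p'` be the chosen element for
  `(C, on C p)`: `lab p' ⊆ M`, so `lab p ∩ lab p' ⊆ C`, and
  `on C p' = on C p`; by `glue_on` `p` and `p'` are compatible, so `p = p'`. -/

set_option autoImplicit false

namespace DSB

open Cardinal STP

/-- the labels of `p` -/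
private def lab (p : Pre) : Set Lb := (fun x : Tr => x.2.1) '' p.r ∪ gl p.g

private theorem lab_cnt (p : Pre) : (lab p).Countable :=
  (p.cr.image _).union (gl_fin p.fg).countable

private theorem mem_lab_r {p : Pre} {a : Pt} {l : Lb} {v : ℕ∞} (h : (a, l, v) ∈ p.r) :
    l ∈ lab p := Or.inl ⟨(a, l, v), h, rfl⟩

private theorem mem_lab_g {p : Pre} {a : Pt} {l : Lb} {c : Bool} {e : ℕ}
    (h : Atom.st l a c e ∈ p.g) : l ∈ lab p := Or.inr ⟨Atom.st l a c e, h, rfl⟩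

/-- the part of `p` with labels in `C` -/
private def onC (C : Set Lb) (p : Pre) : Pre :=
  ⟨{x | x ∈ p.r ∧ x.2.1 ∈ C}, {α | α ∈ p.g ∧ α.lbs ⊆ C}, p.cr.mono fun _ h => h.1,
    p.fg.subset fun _ h => h.1⟩

private theorem onC_r {C : Set Lb} {p q : Pre} (h : onC C p = onC C q) {x : Tr} (hx : x.2.1 ∈ C)
    (hq : x ∈ q.r) : x ∈ p.r := by
  have h1 : x ∈ (onC C q).r := ⟨hq, hx⟩
  rw [← h] at h1
  exact h1.1

private theorem onC_g {C : Set Lb} {p q : Pre} (h : onC C p = onC C q) {α : Atom}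
    (hx : α.lbs ⊆ C) (hq : α ∈ q.g) : α ∈ p.g := by
  have h1 : α ∈ (onC C q).g := ⟨hq, hx⟩
  rw [← h] at h1
  exact h1.1

private theorem onC_lab (C : Set Lb) (p : Pre) : lab (onC C p) ⊆ C := by
  rintro l (⟨x, hx, rfl⟩ | ⟨α, hα, hl⟩)
  · exact hx.2
  · exact hα.2 hl

private theorem dc_congr {g g' : Set Atom} (h : ∀ z a v, Atom.cl z a v ∈ g → Atom.cl z a v ∈ g')
    {a : Pt} {e : ℕ} (hd : Dc g a e) : Dc g' a e := by
  intro x m hx he
  obtain ⟨v, hv⟩ := hd x m hx he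
  exact ⟨v, h _ _ _ hv⟩

private theorem in_congr {g g' : Set Atom} (h : ∀ z a v, Atom.cl z a v ∈ g ↔ Atom.cl z a v ∈ g')
    {w a : Pt} {e : ℕ} (hd : In g w a e) : In g' w a e := by
  refine ⟨dc_congr (fun z a v => (h z a v).1) hd.1, ?_⟩
  rcases hd.2 with h1 | ⟨⟨v, h1, h2⟩, h3⟩
  · exact Or.inl h1
  · refine Or.inr ⟨⟨v, h1, (h _ _ _).1 h2⟩, fun x v hx he hv => ?_⟩
    obtain ⟨v', h4, h5⟩ := h3 x v ((h _ _ _).2 hx) he hv
    exact ⟨v', h4, (h _ _ _).1 h5⟩

private theorem at_aux {l : Lb} {u p : Pre} (hle : u ≤ p)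
    (hcl : ∀ z a v, Atom.cl z a v ∈ u.g ↔ Atom.cl z a v ∈ p.g)
    (hr : ∀ a v, (a, l, v) ∈ u.r → (a, l, v) ∈ p.r)
    (hg : ∀ a c e, Atom.st l a c e ∈ u.g → Atom.st l a c e ∈ p.g)
    (h1 : RAt (Q l) l (S l) p.r) (h2 : GAt (Q l) l (S l) p) :
    RAt (Q l) l (S l) u.r ∧ GAt (Q l) l (S l) u := by
  constructor
  · exact
      { fn := fun a v v' h h' => h1.fn a v v' (hr a v h) (hr a v' h')
        lad := fun z hz a m hm => by
          obtain ⟨v, hv, hv'⟩ := h1.lad z (hr z ⊤ hz) a m hm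
          exact ⟨v, hle.1 hv, hv'⟩
        out := fun z hz c q hq hqr ht =>
          h1.out z (hr z ⊤ hz) c q hq (fun x hx => hqr ⟨hle.1 hx.1, hx.2⟩) ht }
  · exact
      { dom := fun a c e h => by
          obtain ⟨v, hv⟩ := h2.dom a c e (hg a c e h)
          exact ⟨v, hle.1 hv⟩
        dc := fun a c e h => dc_congr (fun z a v => (hcl z a v).2) (h2.dc a c e (hg a c e h))
        ag := fun w a b c c' e e' h h' hi hi' =>
          h2.ag w a b c c' e e' (hg a c e h) (hg b c' e' h') (in_congr hcl hi) (in_congr hcl hi')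
        tv := fun a c e v h h' hv =>
          (h2.tv a c e v (hg a c e h) (hr a v h') hv).mono (res_mono hle l)
        av := fun a c e h => (h2.av a c e (hg a c e h)).mono (res_mono hle l) }

private theorem glue_on {p q : Pre} (hp : p ∈ Q ⊤) (hq : q ∈ Q ⊤) {C : Set Lb}
    (hC : lab p ∩ lab q ⊆ C) (h : onC C p = onC C q) : ∃ u ∈ Q ⊤, u ≤ p ∧ u ≤ q := by
  obtain ⟨p1, p2⟩ := mem_Q.1 hp
  obtain ⟨q1, q2⟩ := mem_Q.1 hq
  let u : Pre := ⟨p.r ∪ q.r, p.g ∪ q.g, p.cr.union q.cr, p.fg.union q.fg⟩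
  have hup : u ≤ p := ⟨Set.subset_union_left, Set.subset_union_left⟩
  have huq : u ≤ q := ⟨Set.subset_union_right, Set.subset_union_right⟩
  have hpq : ∀ z a v, Atom.cl z a v ∈ q.g → Atom.cl z a v ∈ p.g := fun z a v hh =>
    onC_g h (Set.empty_subset _) hh
  have hqp : ∀ z a v, Atom.cl z a v ∈ p.g → Atom.cl z a v ∈ q.g := fun z a v hh =>
    onC_g h.symm (Set.empty_subset _) hh
  have hclp : ∀ z a v, Atom.cl z a v ∈ u.g ↔ Atom.cl z a v ∈ p.g := fun z a v =>
    ⟨fun hh => hh.elim id (hpq z a v), fun hh => Or.inl hh⟩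
  have hclq : ∀ z a v, Atom.cl z a v ∈ u.g ↔ Atom.cl z a v ∈ q.g := fun z a v =>
    ⟨fun hh => hh.elim (hqp z a v) id, fun hh => Or.inr hh⟩
  have hat : ∀ l : Lb, RAt (Q l) l (S l) u.r ∧ GAt (Q l) l (S l) u := by
    intro l
    by_cases hl : l ∈ lab q ∧ l ∉ lab p
    · refine at_aux huq hclq (fun a v hh => ?_) (fun a c e hh => ?_)
        (q1.at' l (WithTop.coe_lt_top l)) (q2.at' l (WithTop.coe_lt_top l))
      · exact hh.elim (fun h3 => absurd (mem_lab_r h3) hl.2) id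
      · exact hh.elim (fun h3 => absurd (mem_lab_g h3) hl.2) id
    · have hl' : l ∈ lab q → l ∈ C := fun h3 =>
        hC ⟨by_contra fun h4 => hl ⟨h3, h4⟩, h3⟩
      refine at_aux hup hclp (fun a v hh => ?_) (fun a c e hh => ?_)
        (p1.at' l (WithTop.coe_lt_top l)) (p2.at' l (WithTop.coe_lt_top l))
      · exact hh.elim id fun h3 => onC_r h (hl' (mem_lab_r h3)) h3
      · refine hh.elim id fun h3 => onC_g h ?_ h3
        intro l' hl''
        have h5 : l' = l := hl''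
        rw [h5]
        exact hl' (mem_lab_g h3)
  refine ⟨u, mem_Q.2 ⟨⟨u.cr, fun x _ => WithTop.coe_lt_top _, fun l _ => (hat l).1⟩,
    ⟨⟨?_, ?_⟩, fun l _ => WithTop.coe_lt_top _, fun l _ => (hat l).2⟩⟩, hup, huq⟩
  · intro z a v hh
    exact p2.bs.val z a v ((hclp z a v).1 hh)
  · intro z a v v' hh hh'
    exact p2.bs.fn z a v v' ((hclp z a v).1 hh) ((hclp z a v').1 hh')

private theorem inf_K : ℵ₀ ≤ #K := Cardinal.aleph0_le_mk K

private theorem cnt_le (α : Type) [Countable α] : #α ≤ #K :=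
  Cardinal.mk_le_aleph0.trans inf_K

private theorem prod_le {α β : Type} (h1 : #α ≤ #K) (h2 : #β ≤ #K) : #(α × β) ≤ #K := by
  rw [← Cardinal.mul_def]
  exact Cardinal.mul_le_of_le inf_K h1 h2

private theorem sum_le {α β : Type} (h1 : #α ≤ #K) (h2 : #β ≤ #K) : #(α ⊕ β) ≤ #K := by
  rw [← Cardinal.add_def]
  exact Cardinal.add_le_of_le inf_K h1 h2

private theorem sub_le {Z : Type} (N : Set Z) (h : #N ≤ #K) :
    #{s : Set Z // s ⊆ N ∧ s.Countable} ≤ #K := by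
  have h1 := Cardinal.mk_bounded_subset_le N ℵ₀
  simp only [Cardinal.le_aleph0_iff_set_countable] at h1
  refine h1.trans ?_
  have hK : #K = 𝔠 := by simp [K]
  have h2 : max #N ℵ₀ ≤ 𝔠 := max_le (h.trans hK.le) Cardinal.aleph0_le_continuum
  calc max #N ℵ₀ ^ ℵ₀ ≤ 𝔠 ^ ℵ₀ := Cardinal.power_le_power_right h2
    _ = #K := by rw [Cardinal.continuum_power_aleph0, hK]

private theorem pt_le : #Pt ≤ #K := prod_le (cnt_le ℕ) le_rfl

private theorem tr_le {M : Set Lb} (hM : #M ≤ #K) : #{x : Tr | x.2.1 ∈ M} ≤ #K := by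
  have h1 : #(Pt × M × ℕ∞) ≤ #K := prod_le pt_le (prod_le hM (cnt_le ℕ∞))
  refine le_trans (Cardinal.mk_le_of_injective
    (f := fun x : {x : Tr | x.2.1 ∈ M} => (x.1.1, (⟨x.1.2.1, x.2⟩ : M), x.1.2.2)) ?_) h1
  rintro ⟨⟨a, l, v⟩, hx⟩ ⟨⟨a', l', v'⟩, hx'⟩ hh
  simp only [Prod.mk.injEq, Subtype.mk.injEq] at hh
  obtain ⟨rfl, rfl, rfl⟩ := hh
  rfl

/-- code of an atom -/
private noncomputable def acode (M : Set Lb) (α : {α : Atom | α.lbs ⊆ M}) :
    (Pt × Pt × ℕ) ⊕ (M × Pt × Bool × ℕ) :=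
  match α with
  | ⟨.cl z a v, _⟩ => Sum.inl (z, a, v)
  | ⟨.st l a c e, h⟩ => Sum.inr (⟨l, h rfl⟩, a, c, e)

private theorem at_le {M : Set Lb} (hM : #M ≤ #K) : #{α : Atom | α.lbs ⊆ M} ≤ #K := by
  have h1 : #((Pt × Pt × ℕ) ⊕ (M × Pt × Bool × ℕ)) ≤ #K :=
    sum_le (prod_le pt_le (prod_le pt_le (cnt_le ℕ)))
      (prod_le hM (prod_le pt_le (prod_le (cnt_le Bool) (cnt_le ℕ))))
  refine le_trans (Cardinal.mk_le_of_injective (f := acode M) ?_) h1
  rintro ⟨α, hα⟩ ⟨β, hβ⟩ hh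
  cases α with
  | cl z a v =>
    cases β with
    | cl z' a' v' =>
      have h2 := Sum.inl.inj hh
      simp only [Prod.mk.injEq] at h2
      obtain ⟨rfl, rfl, rfl⟩ := h2
      rfl
    | st l' a' c' e' => exact absurd hh (by simp [acode])
  | st l a c e =>
    cases β with
    | cl z' a' v' => exact absurd hh (by simp [acode])
    | st l' a' c' e' =>
      have h2 := Sum.inr.inj hh
      simp only [Prod.mk.injEq, Subtype.mk.injEq] at h2
      obtain ⟨rfl, rfl, rfl, rfl⟩ := h2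
      rfl

theorem cc {A : Set Pre} (hA : ∀ p ∈ A, p ∈ Q ⊤)
    (ha : ∀ p ∈ A, ∀ q ∈ A, (∃ u ∈ Q ⊤, u ≤ p ∧ u ≤ q) → p = q) : #A ≤ #K := by
  classical
  let T : Type := {x : Set Lb × Pre // x.1.Countable}
  let sp : T → Set Lb := fun t => t.1.1 ∪ lab t.1.2
  have hspc : ∀ t, (sp t).Countable := fun t => t.2.union (lab_cnt _)
  have hs : ∀ M : Set Lb, #M ≤ #K → #{t | sp t ⊆ M} ≤ #K := by
    intro M hM
    have h1 : #({s : Set Lb // s ⊆ M ∧ s.Countable} ×
        {s : Set Tr // s ⊆ {x : Tr | x.2.1 ∈ M} ∧ s.Countable} ×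
        {s : Set Atom // s ⊆ {α : Atom | α.lbs ⊆ M} ∧ s.Countable}) ≤ #K :=
      prod_le (sub_le _ hM) (prod_le (sub_le _ (tr_le hM)) (sub_le _ (at_le hM)))
    refine le_trans (Cardinal.mk_le_of_injective (f := fun t : {t | sp t ⊆ M} =>
      ((⟨t.1.1.1, fun l hl => t.2 (Or.inl hl), t.1.2⟩ :
          {s : Set Lb // s ⊆ M ∧ s.Countable}),
        (⟨t.1.1.2.r, fun x hx => t.2 (Or.inr (Or.inl ⟨x, hx, rfl⟩)), t.1.1.2.cr⟩ :
          {s : Set Tr // s ⊆ {x : Tr | x.2.1 ∈ M} ∧ s.Countable}),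
        (⟨t.1.1.2.g, fun α hα l hl => t.2 (Or.inr (Or.inr ⟨α, hα, hl⟩)),
          t.1.1.2.fg.countable⟩ :
          {s : Set Atom // s ⊆ {α : Atom | α.lbs ⊆ M} ∧ s.Countable}))) ?_) h1
    rintro ⟨⟨⟨C, p⟩, hC⟩, h2⟩ ⟨⟨⟨C', p'⟩, hC'⟩, h2'⟩ hh
    simp only [Prod.mk.injEq, Subtype.mk.injEq] at hh
    obtain ⟨h3, h4, h5⟩ := hh
    subst h3
    have h6 : p = p' := Pre.ext h4 h5
    subst h6
    rfl
  -- the chosen element
  let ch : T → Pre := fun t =>
    if h : ∃ p ∈ A, onC t.1.1 p = t.1.2 then h.choose else t.1.2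
  have hch : ∀ t : T, (∃ p ∈ A, onC t.1.1 p = t.1.2) →
      ch t ∈ A ∧ onC t.1.1 (ch t) = t.1.2 := by
    intro t h
    have h1 : ch t = h.choose := dif_pos h
    rw [h1]
    exact h.choose_spec
  obtain ⟨M, hM, hcl⟩ := close sp hspc hs (fun t => lab (ch t)) fun t => lab_cnt _
  have hsub : A ⊆ ch '' {t | sp t ⊆ M} := by
    intro p hp
    let t : T := ⟨(lab p ∩ M, onC (lab p ∩ M) p), (lab_cnt p).mono Set.inter_subset_left⟩
    have ht : sp t ⊆ M := by
      rintro l (hl | hl)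
      · exact hl.2
      · exact (onC_lab _ p hl).2
    obtain ⟨h1, h2⟩ := hch t ⟨p, hp, rfl⟩
    have h3 := hcl t ht
    refine ⟨t, ht, ?_⟩
    refine (ha p hp (ch t) h1 (glue_on (hA p hp) (hA _ h1) (C := lab p ∩ M) ?_ h2.symm)).symm
    rintro l ⟨hl, hl'⟩
    exact ⟨hl, h3 hl'⟩
  exact (Cardinal.mk_le_mk_of_subset hsub).trans (Cardinal.mk_image_le.trans (hs M hM))

end DSB
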