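import Pool.Agent.DSB.Gr

/-! # Closing off (package C1)

(problem MP_f2e766_lc, project DSB, part C; pure)

A copy of `SSO/RClo.lean` (complete proof there) with 'of size at most `#K = 2 ^ ω`' instead of
'small': a set closed under
operations of countable arity. `K = Set ℕ`.

Iteration of length `ω₁`: by well-founded recursion on `i : Ordinal.{0}` let
`N i := ⋃ j < i, (N j ∪ ⋃ t ∈ {t | sp t ⊆ N j}, op t)`. By induction `#(N i) ≤ #K` for all
`i < ω₁` (a union of at most `ℵ₁ ≤ #K` sets of size at most `#K`: `Cardinal.mk_biUnion_le`,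
`Cardinal.mk_iUnion_le`, `#K * #K = #K`), and `N` is increasing.
`M := N ω₁` (a union of `ℵ₁` sets). If `sp t ⊆ M`: `sp t` is countable, so `sp t ⊆ N j` for some
`j < ω₁`, so `op t ⊆ N (j + 1) ⊆ M`. -/

set_option autoImplicit false

namespace DSB

open Cardinal

private theorem K_card : #K = 𝔠 := by simp [K]

private theorem K_inf : ℵ₀ ≤ #K := by
  rw [K_card]
  exact Cardinal.aleph0_le_continuum

private theorem un_le {I X : Type} (hI : #I ≤ #K) (f : I → Set X) (hf : ∀ i, #(f i) ≤ #K) :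
    #(⋃ i, f i : Set X) ≤ #K := by
  refine (Cardinal.mk_iUnion_le_sum_mk (f := f)).trans
    ((Cardinal.sum_le_sum _ (fun _ : I => #K) hf).trans ?_)
  rw [Cardinal.sum_const']
  exact (mul_le_mul' hI le_rfl).trans (Cardinal.mul_eq_self K_inf).le

/-- the stages of the closing off -/
private noncomputable def stage {T X : Type} (sp op : T → Set X) (i : Ordinal.{0}) : Set X :=
  ⋃ j : Set.Iio i, (stage sp op j.1 ∪ ⋃ t ∈ {t | sp t ⊆ stage sp op j.1}, op t)
termination_by i
decreasing_by exact j.2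

private theorem mem_stage {T X : Type} {sp op : T → Set X} {i : Ordinal.{0}} {x : X} :
    x ∈ stage sp op i ↔ ∃ j < i, x ∈ stage sp op j ∨ ∃ t, sp t ⊆ stage sp op j ∧ x ∈ op t := by
  rw [stage]
  simp only [Set.mem_iUnion, Set.mem_union, Set.mem_ofPred_eq, exists_prop, Subtype.exists,
    Set.mem_Iio]

private theorem stage_mono {T X : Type} {sp op : T → Set X} {i j : Ordinal.{0}} (h : i ≤ j) :
    stage sp op i ⊆ stage sp op j := by
  intro x hx
  rw [mem_stage] at hx ⊢
  obtain ⟨k, hk, hx⟩ := hx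
  exact ⟨k, hk.trans_le h, hx⟩

private theorem stage_le {T X : Type} {sp op : T → Set X}
    (hs : ∀ M : Set X, #M ≤ #K → #{t | sp t ⊆ M} ≤ #K) (ho : ∀ t, (op t).Countable)
    (i : Ordinal.{0}) (hi : i.card ≤ #K) : #(stage sp op i) ≤ #K := by
  induction i using WellFoundedLT.induction with
  | ind i ih =>
    have e : stage sp op i = ⋃ j : i.ToType,
        (stage sp op ((Ordinal.ToType.mk.symm j : Set.Iio i) : Ordinal) ∪
          ⋃ t : {t | sp t ⊆ stage sp op ((Ordinal.ToType.mk.symm j : Set.Iio i) : Ordinal)},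
            op t.1) := by
      ext x
      rw [mem_stage]
      simp only [Set.mem_iUnion, Set.mem_union]
      constructor
      · rintro ⟨j, hj, h⟩
        refine ⟨Ordinal.ToType.mk ⟨j, hj⟩, ?_⟩
        rw [OrderIso.symm_apply_apply]
        rcases h with h | ⟨t, ht, hx⟩
        · exact Or.inl h
        · exact Or.inr ⟨⟨t, ht⟩, hx⟩
      · rintro ⟨j, h⟩
        refine ⟨_, Set.mem_Iio.1 (Ordinal.ToType.mk.symm j : Set.Iio i).2, ?_⟩
        rcases h with h | ⟨t, hx⟩
        · exact Or.inl h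
        · exact Or.inr ⟨t.1, t.2, hx⟩
    rw [e]
    refine un_le ?_ _ fun j => ?_
    · rw [Cardinal.mk_toType]
      exact hi
    · have h0 := Set.mem_Iio.1 (Ordinal.ToType.mk.symm j : Set.Iio i).2
      have h1 := ih _ h0 ((Ordinal.card_le_card h0.le).trans hi)
      refine (Cardinal.mk_union_le _ _).trans
        ((Cardinal.add_le_of_le K_inf h1 (un_le (hs _ h1) _ fun t => ?_)))
      exact (Cardinal.le_aleph0_iff_set_countable.2 (ho t.1)).trans K_inf

theorem close {T X : Type} (sp : T → Set X) (hc : ∀ t, (sp t).Countable)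
    (hs : ∀ M : Set X, #M ≤ #K → #{t | sp t ⊆ M} ≤ #K) (op : T → Set X)
    (ho : ∀ t, (op t).Countable) : ∃ M : Set X, #M ≤ #K ∧ ∀ t, sp t ⊆ M → op t ⊆ M := by
  refine ⟨stage sp op (Ordinal.omega 1), stage_le hs ho _ ?_, ?_⟩
  · rw [Ordinal.card_omega, K_card]
    exact Cardinal.aleph_one_le_continuum
  · intro t ht x hx
    have h1 : ∀ y : sp t, ∃ j < Ordinal.omega 1, y.1 ∈ stage sp op j := by
      intro y
      obtain ⟨j, hj, h⟩ := mem_stage.1 (ht y.2)
      exact ⟨Order.succ j, (Cardinal.isSuccLimit_omega 1).succ_lt hj,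
        mem_stage.2 ⟨j, Order.lt_succ j, h⟩⟩
    choose g hg1 hg2 using h1
    have hcnt : Countable (sp t) := hc t
    have h2 : (⨆ y, g y) < Ordinal.omega 1 := Ordinal.iSup_lt_omega_one hg1
    rw [mem_stage]
    refine ⟨_, h2, Or.inr ⟨t, ?_, hx⟩⟩
    intro y hy
    exact stage_mono (Ordinal.le_iSup g ⟨y, hy⟩) (hg2 ⟨y, hy⟩)

end DSB
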