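import Pool.Agent.DSB.CCc

/-! # Names of elements of the Boolean algebra (package C3)

(problem MP_f2e766_lc, project DSB, part C)

`exists_fam`: let `U : RO Cn`. By Zorn's lemma (`zorn_subset` or `exists_maximal`...) there is a
maximal set `A` of conditions in `U` which are
pairwise incompatible. `#A ≤ #K` by `cc` (for the set of the underlying preconditions). If `A` is
not empty take `s : K → Option Pre` whose values are
`some b`, `b ∈ A` (an injection `A → K` and `Function.invFun`/`if h : ∃`); if `A` is empty let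
`s k = none`. If `p ∈ U` then by maximality some `u ≤ p` (in
`Cn`) is below an element `b` of `A` (`U` is down closed, so `u ∈ U`; if `p` is incompatible with
all elements of `A`, then `insert p A`
contradicts the maximality). -/

set_option autoImplicit false

namespace DSB

open Cardinal STP

theorem exists_fam (U : RO Cn) : ∃ s : K → Option Pre,
    (∀ k b, s k = some b → ∃ h : b ∈ Q ⊤, (⟨b, h⟩ : Cn) ∈ U) ∧
    ∀ p ∈ U, ∃ q ≤ p, ∃ k b, s k = some b ∧ q.1 ≤ b := by
  classical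
  obtain ⟨A, hA⟩ := zorn_subset {A : Set Cn | (∀ a ∈ A, a ∈ U) ∧
      ∀ a ∈ A, ∀ b ∈ A, (∃ u : Cn, u ≤ a ∧ u ≤ b) → a = b} (by
    intro c hc hch
    refine ⟨⋃₀ c, ⟨?_, ?_⟩, fun s hs => Set.subset_sUnion_of_mem hs⟩
    · rintro a ⟨B, hB, ha⟩
      exact (hc hB).1 a ha
    · rintro a ⟨B, hB, ha⟩ b ⟨B', hB', hb⟩ h
      rcases hch.total hB hB' with h1 | h1
      · exact (hc hB').2 a (h1 ha) b hb h
      · exact (hc hB).2 a ha b (h1 hb) h)
  obtain ⟨hA1, hA2⟩ := hA.prop
  have hcard : #(Subtype.val '' A : Set Pre) ≤ #K := by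
    refine cc ?_ ?_
    · rintro _ ⟨a, -, rfl⟩
      exact a.2
    · rintro _ ⟨a, ha, rfl⟩ _ ⟨b, hb, rfl⟩ ⟨u, hu, h1, h2⟩
      rw [hA2 a ha b hb ⟨⟨u, hu⟩, h1, h2⟩]
  obtain ⟨f⟩ := hcard
  refine ⟨fun k => if h : ∃ b, f b = k then some h.choose.1 else none, ?_, ?_⟩
  · intro k b hk
    by_cases h : ∃ b, f b = k
    · simp only [dif_pos h, Option.some.injEq] at hk
      obtain ⟨a, ha, hab⟩ := h.choose.2
      rw [hk] at hab
      subst hab
      exact ⟨a.2, hA1 a ha⟩
    · simp only [dif_neg h] at hk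
      cases hk
  · intro p hp
    by_contra hcon
    have h1 : ∀ q ≤ p, ∀ b ∈ A, ¬ q ≤ b := by
      intro q hq b hb hqb
      refine hcon ⟨q, hq, f ⟨b.1, b, hb, rfl⟩, b.1, ?_, hqb⟩
      have h : ∃ b', f b' = f ⟨b.1, b, hb, rfl⟩ := ⟨_, rfl⟩
      have h2 : h.choose = ⟨b.1, b, hb, rfl⟩ := f.injective h.choose_spec
      change (if h : ∃ b', f b' = f ⟨b.1, b, hb, rfl⟩ then some h.choose.1 else none) = _
      rw [dif_pos h, h2]
    have h2 : insert p A ∈ {A : Set Cn | (∀ a ∈ A, a ∈ U) ∧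
        ∀ a ∈ A, ∀ b ∈ A, (∃ u : Cn, u ≤ a ∧ u ≤ b) → a = b} := by
      refine ⟨?_, ?_⟩
      · rintro a (rfl | ha)
        · exact hp
        · exact hA1 a ha
      · rintro a (rfl | ha) b (rfl | hb) ⟨u, hu1, hu2⟩
        · rfl
        · exact absurd hu2 (h1 u hu1 b hb)
        · exact absurd hu1 (h1 u hu2 a ha)
        · exact hA2 a ha b hb ⟨u, hu1, hu2⟩
    have h3 : p ∈ A := hA.le_of_ge h2 (Set.subset_insert p A) (Set.mem_insert p A)
    exact h1 p le_rfl p h3 le_rfl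

end DSB
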