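import Pool.Agent.DSB.Lang
import Pool.Agent.DLN.ADefs

/-! # Coded spaces inside a structure `(N, E)`

(problem MP_f2e766_lc, project DSB; definitions, no sorry in this file)

A coded space is a triple `(Y, B, h)`: `Y` is the set of points, `B` a set of codes, and
`(y, b) ∈ h`
(`Val E h y b`) means that the point `y` is in the basic open set with the code `b`. `CSp` is
defined in
`CPI/Coded.lean`, `CCl` (closed subset) in `DLN/Coded.lean`, `COp` (open subset), `IsCT` (the
topology) in
`DLN/ADefs.lean`. -/

set_option autoImplicit false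

universe v

namespace DSB

open STP CPI DLN

section

variable {N : Type v} (E : N → N → Prop)

/-- the coded space is `T₁` -/
def CT1 (Y B h : N) : Prop :=
  ∀ x y, E x Y → E y Y → x ≠ y → ∃ b, E b B ∧ Val E h x b ∧ ¬ Val E h y b

/-- the coded space is normal -/
def CNor (Y B h : N) : Prop :=
  ∀ H K, CCl E Y B h H → CCl E Y B h K → (∀ z, ¬ (E z H ∧ E z K)) →
    ∃ U V, COp E Y B h U ∧ COp E Y B h V ∧ Sub E H U ∧ Sub E K V ∧ ∀ z, ¬ (E z U ∧ E z V)

/-- the codes have indices in `ω`, and the basic sets of different codes with the same index are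
disjoint -/
def CSd (Y B h : N) : Prop :=
  ∃ w s, IsOm E w ∧ IsFun E s B ∧ (∀ b n, Val E s b n → E n w) ∧
    ∀ b c n z, Val E s b n → Val E s c n → E z Y → Val E h z b → Val E h z c → b = c

/-- `D` codes a sequence of closed sets; `(y, n) ∈ D` means that `y` is in the `n`-th set -/
def CSc (w Y B h D : N) : Prop :=
  ∀ n y, E n w → E y Y → ¬ Val E D y n →
    ∃ b, E b B ∧ Val E h y b ∧ ∀ z, E z Y → Val E h z b → ¬ Val E D z n

/-- there is a directed sequence `D` of closed sets with empty intersection such that no sequence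
`K` of
closed sets which are disjoint from the members of `D` covers the space -/
def CNcp (Y B h : N) : Prop :=
  ∃ w D, IsOm E w ∧ CSc E w Y B h D ∧
    (∀ y, E y Y → ∃ n, E n w ∧ ¬ Val E D y n) ∧
    (∀ n m, E n w → E m w → ∃ k, E k w ∧
      ∀ y, E y Y → Val E D y k → Val E D y n ∧ Val E D y m) ∧
    ∀ K, CSc E w Y B h K → (∀ n y, E n w → E y Y → Val E D y n → ¬ Val E K y n) →
      ∃ y, E y Y ∧ ∀ n, E n w → ¬ Val E K y n

/-- the coded data of a Dowker space with a `σ`-disjoint base -/
structure CDat (Y B h : N) : Prop where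
  sp : CSp E Y B h
  t1 : CT1 E Y B h
  nor : CNor E Y B h
  sd : CSd E Y B h
  ncp : CNcp E Y B h

end

end DSB
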