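import Pool.Agent.DSB.Zero

/-! # The simple typed statements (package D1)

(problem MP_f2e766_lc, project DSB, part D)

`q ∈ rho w (a, e)` iff densely below `q` the membership `In r.1.g w a e` is decided (`RO.mem_cl`,
`In.mono` with `bs_of_Q`).
* `rho_lad`: if `q ∈ rho w (a, e)` and `w ≠ a` then some `r ≤ q` has `In r.1.g w a e`.
* `tsp`: `ex`: the code `(a, 0)`: `In g a a 0` by `Dc.zero`. `nb`: pass to `r1 ≤ q` with
  `In r1.1.g a a1 e1` and `In r1.1.g a a2 e2` (dense, twice), let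
  `e := max (max e1 e2) (max (a1.1 + 1) (a2.1 + 1))`, `dc_ext` gives `r ≤ r1` with `Dc r.1.g a e`;
  the code `(a, e)`: `r ∈ rho a (a, e)` by `In.self`; for
  `r' ≤ r`, `r' ∈ rho a' (a, e)`: densely below `r'` `In g a' a e`, so `In g a' a1 e1` by
  `In.trans`.
* `tt1`: let `a ≠ a'`. If `Lad a' a m` for some `m`: `decs` gives `r ≤ q` with `cl a' a v ∈ r.g`,
  `dc_ext` for `a`, `v`; the code `(a, v)`: `In.not` in every
  extension. Otherwise the code `(a, 0)`: `In.not_lad`.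
* `tsd`: `s (a, e) := Nat.pair a.1 e`: the same level and the same `e`; pass to a condition which
  decides both memberships, `In.disj`.
* `tcl_lev`: the sets `{a | n ≤ a.1}` are closed: the code `(a, 0)` for `a.1 < n`: `In g a' a 0`
  implies `a' = a` or `a` is in the ladder of `a'` (`In.lad`),
  so `a'.1 ≤ a.1 < n`. -/

set_option autoImplicit false

namespace DSB

open STP

private theorem bsq (q : Cn) : Bs q.1.g := (mem_Q.1 q.2).2.bs

theorem mem_rho {w : Pt} {b : Cod} {p : Cn} :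
    p ∈ rho w b ↔ ∀ q ≤ p, ∃ r ≤ q, In r.1.g w b.1 b.2 := by
  refine RO.mem_cl fun p q hq h => ?_
  exact In.mono hq.2 (bsq q) h

theorem In.rho {w : Pt} {b : Cod} {p : Cn} (h : In p.1.g w b.1 b.2) : p ∈ rho w b := by
  exact mem_rho.2 fun q hq => ⟨q, le_rfl, In.mono hq.2 (bsq q) h⟩

theorem tsp : TSp rho := by
  refine ⟨fun a => ⟨(a, 0), fun q => In.rho (In.self Dc.zero)⟩, fun q a b b' h h' => ?_⟩
  obtain ⟨r1, hr1, h1⟩ := mem_rho.1 h q le_rfl
  obtain ⟨r2, hr2, h2⟩ := mem_rho.1 h' r1 hr1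
  have h1' : In r2.1.g a b.1 b.2 := In.mono hr2.2 (bsq r2) h1
  obtain ⟨e, he⟩ : ∃ e, e = max (max b.2 b'.2) (max (b.1.1 + 1) (b'.1.1 + 1)) := ⟨_, rfl⟩
  obtain ⟨p', hp', hz, hd⟩ := dc_ext r2.2 a e
  have hle : (⟨p', hp'⟩ : Cn) ≤ r2 := hz.le
  refine ⟨⟨p', hp'⟩, hle.trans (hr2.trans hr1), (a, e), In.rho (In.self hd), ?_⟩
  intro a' r' hr' hm
  constructor
  · refine mem_rho.2 fun q' hq' => ?_
    obtain ⟨s, hs, h3⟩ := mem_rho.1 hm q' hq'
    have hs2 : s ≤ r2 := hs.trans (hq'.trans (hr'.trans hle))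
    exact ⟨s, hs, In.trans (bsq s) (In.mono hs2.2 (bsq s) h1') h3 (by
      change b.1.1 < e
      omega) (by
      change b.2 ≤ e
      omega)⟩
  · refine mem_rho.2 fun q' hq' => ?_
    obtain ⟨s, hs, h3⟩ := mem_rho.1 hm q' hq'
    have hs2 : s ≤ r2 := hs.trans (hq'.trans (hr'.trans hle))
    exact ⟨s, hs, In.trans (bsq s) (In.mono hs2.2 (bsq s) h2) h3 (by
      change b'.1.1 < e
      omega) (by
      change b'.2 ≤ e
      omega)⟩

theorem tt1 : TT1 rho := by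
  intro q a a' hne
  by_cases hl : ∃ m, Lad a' a m
  · obtain ⟨p1, hp1, hz1, h1⟩ := decs q.2 (D := {(a', a)}) (Set.finite_singleton _) (by
      intro x hx
      rw [Set.mem_singleton_iff.1 hx]
      exact hl)
    obtain ⟨v, hv⟩ := h1 (a', a) rfl
    obtain ⟨p2, hp2, hz2, hd⟩ := dc_ext hp1 a v
    have hle : (⟨p2, hp2⟩ : Cn) ≤ q := hz2.le.trans hz1.le
    refine ⟨⟨p2, hp2⟩, hle, (a, v), In.rho (In.self hd), fun r' hr' hm => ?_⟩
    obtain ⟨s, hs, h3⟩ := mem_rho.1 hm r' le_rfl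
    have hv' : .cl a' a v ∈ s.1.g := (hs.trans hr').2 (hz2.sub hv)
    rcases In.not (bsq s) hv' with h4 | h4
    · exact h4 h3
    · exact hne h4.symm
  · refine ⟨q, le_rfl, (a, 0), In.rho (In.self Dc.zero), fun r' hr' hm => ?_⟩
    obtain ⟨s, hs, h3⟩ := mem_rho.1 hm r' le_rfl
    exact In.not_lad (bsq s) (fun m hm => hl ⟨m, hm⟩) (fun h => hne h.symm) h3

theorem tsd : TSd rho := by
  refine ⟨fun b => Nat.pair b.1.1 b.2, fun b c hbc a q h h' => ?_⟩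
  have h0 := Nat.pair_eq_pair.1 hbc
  obtain ⟨r1, hr1, h1⟩ := mem_rho.1 h q le_rfl
  obtain ⟨r2, hr2, h2⟩ := mem_rho.1 h' r1 hr1
  exact Prod.ext (In.disj (bsq r2) (In.mono hr2.2 (bsq r2) h1) h2 h0.1) h0.2

theorem tcl_lev (n : ℕ) (q : Cn) (a : Pt) (h : a.1 < n) : ∃ r ≤ q, ∃ b : Cod, r ∈ rho a b ∧
    ∀ a', n ≤ a'.1 → ∀ r' ≤ r, r' ∉ rho a' b := by
  refine ⟨q, le_rfl, (a, 0), In.rho (In.self Dc.zero), fun a' ha' r' hr' hm => ?_⟩
  obtain ⟨s, hs, h3⟩ := mem_rho.1 hm r' le_rfl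
  have hne : a' ≠ a := by
    rintro rfl
    omega
  obtain ⟨v, m, -, h4, -⟩ := In.lad (bsq s) h3 hne
  have h5 : a'.1 < a.1 := h4.lt
  omega

end DSB
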