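import Pool.Agent.DSB.RExt

/-! # Reduction (package P4; F4 of the paper proof)

(problem MP_f2e766_lc, project DSB, part P)

Let `p ∈ Q t`, `l` not free, `l ≤ t`. Let `T` be the finite set of the labels `i ≥ l` in `gl p.g`
and `C` the countable set of all labels of `p`
(in `p.r` and `p.g`); `free_inj` gives `j`, injective on `T`, with free values `< l` outside of
`C`. Let
`p' = (p.r ∪ X, p.g ∪ Y)`, `Y = {st (j i) a c e | st i a c e ∈ p.g, l ≤ i}` (finite),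
`X = {(a, j i, 0) | st i a c e ∈ p.g, l ≤ i}`.
* `p' ∈ Q t`: the part `r` is legal by `RLeg.add` (`j i ∉ C`). At labels `i ∉ j '' T` nothing has
  changed except that the conditions
  are stronger (`Tv.mono`, `Av.mono`; `p'.res i ≤ p.res i`). At the label `j i`: `dom`: `X`; `dc`,
  `ag`: as for the label `i` in `p` (the closeness
  atoms are the same, so `In` is the same; `j` is injective on `T`, so the status atoms with label
  `j i` are exactly the copies of those with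
  label `i`); `tv`: the value is `0`, so `(e : ℕ∞) < 0` is impossible (`fn`: the value of `r` at
  `(a, j i)` is unique); `av`: `S_free`: the
  name is empty (`Mem` is impossible).
* Let `q ∈ Q l`, `q ≤ p'.res l`, `u = (q.r ∪ p'.r, q.g ∪ p'.g)`. `u.res l = q`: the part of `p'`
  with labels `< l` is contained in `q`,
  and all closeness atoms of `p'` are in `p'.res l`, so in `q.g`. `u ∈ Q t`: part `r`: `RLeg.glue`.
  `Bs u.g`: all closeness atoms of
  `u.g` are in `q.g`. `GAt` at `i < l`: as for `q` (the status atoms with label `i` of `u` are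
  those of `q`). `GAt` at `i ≥ l`: the status atoms
  with label `i` are those of `p'` (with label `≥ l`: of `p`, the copies have labels `< l`); `dom`,
  `dc` by monotonicity; `tv`, `av` by
  `Tv.mono`, `Av.mono` (`u.res i ≤ p'.res i`; `(a, i, v) ∈ u.r` iff `∈ p'.r`); `ag`: `In u.g` is
  `In q.g` (closeness atoms), and
  the copies `st (j i) a c e`, `st (j i) b c' e'` are in `p'.res l`, so in `q.g`; `GAt.ag` of `q`
  at the label `j i` gives `c = c'`. -/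

set_option autoImplicit false

namespace DSB

open STP

private theorem bs_congr {g g' : Set Atom}
    (h : ∀ w b v, Atom.cl w b v ∈ g ↔ Atom.cl w b v ∈ g') (hb : Bs g') : Bs g :=
  ⟨fun z a v hz => hb.val z a v ((h z a v).1 hz),
    fun z a v v' h1 h2 => hb.fn z a v v' ((h _ _ _).1 h1) ((h _ _ _).1 h2)⟩

private theorem dc_congr {g g' : Set Atom}
    (h : ∀ w b v, Atom.cl w b v ∈ g ↔ Atom.cl w b v ∈ g') {a : Pt} {e : ℕ} :
    Dc g a e ↔ Dc g' a e := by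
  unfold Dc
  simp only [h]

private theorem in_congr {g g' : Set Atom}
    (h : ∀ w b v, Atom.cl w b v ∈ g ↔ Atom.cl w b v ∈ g') {w a : Pt} {e : ℕ} :
    In g w a e ↔ In g' w a e := by
  unfold In
  rw [dc_congr h]
  simp only [h]

private theorem gat_tr {Qi : Set Pre} {i : Lb} {s : Dat} {p q : Pre} (h : GAt Qi i s p)
    (hqp : q ≤ p) (hst : ∀ a c e, Atom.st i a c e ∈ q.g → Atom.st i a c e ∈ p.g)
    (hr : ∀ a v, (a, i, v) ∈ q.r → (a, i, v) ∈ p.r)
    (hcl : ∀ w b v, Atom.cl w b v ∈ q.g → Atom.cl w b v ∈ p.g) : GAt Qi i s q := by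
  have hc : ∀ w b v, Atom.cl w b v ∈ q.g ↔ Atom.cl w b v ∈ p.g :=
    fun w b v => ⟨hcl w b v, fun h1 => hqp.2 h1⟩
  refine ⟨fun a c e h1 => ?_, fun a c e h1 => ?_, fun w a b c c' e e' h1 h2 h3 h4 => ?_,
    fun a c e v h1 h2 h3 => ?_, fun a c e h1 => ?_⟩
  · obtain ⟨v, hv⟩ := h.dom a c e (hst _ _ _ h1)
    exact ⟨v, hqp.1 hv⟩
  · exact (dc_congr hc).2 (h.dc a c e (hst _ _ _ h1))
  · exact h.ag w a b c c' e e' (hst _ _ _ h1) (hst _ _ _ h2) ((in_congr hc).1 h3)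
      ((in_congr hc).1 h4)
  · exact (h.tv a c e v (hst _ _ _ h1) (hr _ _ h2) h3).mono (res_mono hqp _)
  · exact (h.av a c e (hst _ _ _ h1)).mono (res_mono hqp _)

theorem red {t : WithTop Lb} {p : Pre} (hp : p ∈ Q t) {l : Lb} (hl : ¬ Free l)
    (hlt : (l : WithTop Lb) ≤ t) : ∃ p' ∈ Q t, p' ≤ p ∧
      (∀ w b v, .cl w b v ∈ p'.g → .cl w b v ∈ p.g) ∧
      (∀ i a c e, .st i a c e ∈ p'.g → l ≤ i → .st i a c e ∈ p.g) ∧
      (∀ x ∈ p'.r, l ≤ x.2.1 → x ∈ p.r) ∧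
      ∀ q ∈ Q l, q ≤ p'.res l → ∃ u ∈ Q t, u ≤ p' ∧ u.res l = q ∧
        (∀ i a c e, .st i a c e ∈ u.g → l ≤ i → .st i a c e ∈ p'.g) ∧
        (∀ x ∈ u.r, l ≤ x.2.1 → x ∈ p'.r) := by
  obtain ⟨hpr, hpg⟩ := mem_Q.1 hp
  have hgl : ∀ {i a c e}, Atom.st i a c e ∈ p.g → i ∈ gl p.g := fun {i a c e} h =>
    ⟨_, h, rfl⟩
  have hTf : {i | i ∈ gl p.g ∧ l ≤ i}.Finite := (gl_fin p.fg).subset fun i h => h.1
  have hCc : ({i | ∃ x ∈ p.r, x.2.1 = i} ∪ gl p.g).Countable :=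
    (p.cr.image fun x : Tr => x.2.1).union (gl_fin p.fg).countable
  obtain ⟨j, hji, hj⟩ := free_inj hl hTf hCc
  have hj1 : ∀ {i a c e}, Atom.st i a c e ∈ p.g → l ≤ i → Free (j i) ∧ j i < l ∧
      (∀ b v, (b, j i, v) ∉ p.r) ∧ ∀ b c' e', Atom.st (j i) b c' e' ∉ p.g := by
    intro i a c e h h'
    obtain ⟨h1, h2, h3⟩ := hj i ⟨hgl h, h'⟩
    exact ⟨h1, h2, fun b v h4 => h3 (Or.inl ⟨_, h4, rfl⟩), fun b c' e' h4 => h3 (Or.inr (hgl h4))⟩
  -- the copies
  obtain ⟨Y, hY⟩ : ∃ Y : Set Atom, Y = {α | ∃ i a c e, Atom.st i a c e ∈ p.g ∧ l ≤ i ∧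
    α = Atom.st (j i) a c e} := ⟨_, rfl⟩
  obtain ⟨X, hX⟩ : ∃ X : Set Tr, X = {x | ∃ i a c e, Atom.st i a c e ∈ p.g ∧ l ≤ i ∧
    x = (a, j i, 0)} := ⟨_, rfl⟩
  have hYf : Y.Finite := by
    refine (p.fg.image (Atom.map id j)).subset ?_
    rw [hY]
    rintro α ⟨i, a, c, e, h1, -, rfl⟩
    exact ⟨_, h1, rfl⟩
  have hXc : X.Countable := by
    refine Set.Countable.mono (s₂ := gp p.g ×ˢ ((j '' gl p.g) ×ˢ {(0 : ℕ∞)})) ?_ ?_
    · rw [hX]
      rintro x ⟨i, a, c, e, h1, -, rfl⟩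
      exact ⟨⟨_, h1, rfl⟩, ⟨i, hgl h1, rfl⟩, rfl⟩
    · exact ((gp_fin p.fg).prod (((gl_fin p.fg).image j).prod
        (Set.finite_singleton _))).countable
  obtain ⟨p', hp'r, hp'g⟩ : ∃ p' : Pre, p'.r = p.r ∪ X ∧ p'.g = p.g ∪ Y :=
    ⟨⟨p.r ∪ X, p.g ∪ Y, p.cr.union hXc, p.fg.union hYf⟩, rfl, rfl⟩
  have hle : p' ≤ p := by
    rw [Pre.le_def, hp'r, hp'g]
    exact ⟨Set.subset_union_left, Set.subset_union_left⟩
  have hcl : ∀ w b v, Atom.cl w b v ∈ p'.g → Atom.cl w b v ∈ p.g := by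
    intro w b v h
    rw [hp'g, hY] at h
    rcases h with h | ⟨i, a, c, e, -, -, h⟩
    · exact h
    · cases h
  have hst : ∀ {i a c e}, Atom.st i a c e ∈ p'.g → Atom.st i a c e ∈ p.g ∨
      ∃ k, Atom.st k a c e ∈ p.g ∧ l ≤ k ∧ i = j k := by
    intro i a c e h
    rw [hp'g, hY] at h
    rcases h with h | ⟨k, a', c', e', h1, h2, h⟩
    · exact Or.inl h
    · cases h
      exact Or.inr ⟨k, h1, h2, rfl⟩
  have hrr : ∀ {a i v}, (a, i, v) ∈ p'.r → (a, i, v) ∈ p.r ∨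
      ∃ k c e, Atom.st k a c e ∈ p.g ∧ l ≤ k ∧ i = j k ∧ v = 0 := by
    intro a i v h
    rw [hp'r, hX] at h
    rcases h with h | ⟨k, a', c', e', h1, h2, h⟩
    · exact Or.inl h
    · cases h
      exact Or.inr ⟨k, c', e', h1, h2, rfl, rfl⟩
  have hst4 : ∀ i a c e, Atom.st i a c e ∈ p'.g → l ≤ i → Atom.st i a c e ∈ p.g := by
    intro i a c e h h'
    rcases hst h with h | ⟨k, h1, h2, rfl⟩
    · exact h
    · exact absurd (hj1 h1 h2).2.1 (not_lt.2 h')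
  have hr5 : ∀ x ∈ p'.r, l ≤ x.2.1 → x ∈ p.r := by
    rintro ⟨a, i, v⟩ h h'
    rcases hrr h with h | ⟨k, c, e, h1, h2, rfl, -⟩
    · exact h
    · exact absurd (hj1 h1 h2).2.1 (not_lt.2 h')
  have hjt : ∀ {i a c e}, Atom.st i a c e ∈ p.g → l ≤ i → ((j i : Lb) : WithTop Lb) < t :=
    fun {i a c e} h h' => (WithTop.coe_lt_coe.2 (hj1 h h').2.1).trans_le hlt
  -- the extended condition is legal
  have hp'R : RLeg t p'.r := by
    rw [hp'r]
    refine RLeg.add hpr hXc ?_ ?_ ?_ ?_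
    · rw [hX]
      rintro x ⟨i, a, c, e, h1, h2, rfl⟩
      exact hjt h1 h2
    · rw [hX]
      rintro x ⟨i, a, c, e, h1, h2, rfl⟩
      exact ENat.zero_ne_top
    · rw [hX]
      rintro a i v v' ⟨k, a1, c1, e1, -, -, h1⟩ ⟨k2, a2, c2, e2, -, -, h2⟩
      cases h1
      have h3 := congrArg (fun x : Tr => x.2.2) h2
      exact h3.symm
    · rw [hX]
      rintro a i v v' ⟨k, a1, c1, e1, h1, h2, h3⟩ h4
      cases h3
      exact (hj1 h1 h2).2.2.1 _ _ h4
  have hp'Q : p' ∈ Q t := by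
    refine mem_Q.2 ⟨hp'R, bs_congr (fun w b v => ⟨hcl w b v, fun h => hle.2 h⟩) hpg.bs, ?_, ?_⟩
    · rintro i ⟨α, h1, h2⟩
      rw [hp'g, hY] at h1
      rcases h1 with h1 | ⟨k, a, c, e, h3, h4, rfl⟩
      · exact hpg.bd i ⟨α, h1, h2⟩
      · have h5 : i = j k := h2
        rw [h5]
        exact hjt h3 h4
    · intro i hi
      by_cases hk : ∃ k a c e, Atom.st k a c e ∈ p.g ∧ l ≤ k ∧ i = j k
      · obtain ⟨k, a0, c0, e0, h1, h2, rfl⟩ := hk
        have hG := hpg.at' k (hpg.bd k (hgl h1))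
        have hcc : ∀ w b v, Atom.cl w b v ∈ p'.g ↔ Atom.cl w b v ∈ p.g :=
          fun w b v => ⟨hcl w b v, fun h => hle.2 h⟩
        have hs : ∀ a c e, Atom.st (j k) a c e ∈ p'.g → Atom.st k a c e ∈ p.g := by
          intro a c e h
          rcases hst h with h | ⟨k', h3, h4, h5⟩
          · exact absurd h ((hj1 h1 h2).2.2.2 _ _ _)
          · rw [hji ⟨hgl h1, h2⟩ ⟨hgl h3, h4⟩ h5]
            exact h3
        have hr0 : ∀ a v, (a, j k, v) ∈ p'.r → v = 0 := by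
          intro a v h
          rcases hrr h with h | ⟨k', c, e, -, -, -, h5⟩
          · exact absurd h ((hj1 h1 h2).2.2.1 _ _)
          · exact h5
        refine ⟨fun a c e h => ⟨0, ?_⟩, fun a c e h => ?_, fun w a b c c' e e' h3 h4 h5 h6 => ?_,
          fun a c e v h3 h4 h5 => ?_, fun a c e h3 q _ _ w _ => ?_⟩
        · rw [hp'r, hX]
          exact Or.inr ⟨k, a, c, e, hs _ _ _ h, h2, rfl⟩
        · exact (dc_congr hcc).2 (hG.dc a c e (hs _ _ _ h))
        · exact hG.ag w a b c c' e e' (hs _ _ _ h3) (hs _ _ _ h4) ((in_congr hcc).1 h5)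
            ((in_congr hcc).1 h6)
        · rw [hr0 a v h4] at h5
          exact absurd h5 (not_lt.2 zero_le)
        · rintro ⟨x, b, h4, -⟩
          rw [S_free (hj1 h1 h2).1] at h4
          cases h4
      · refine gat_tr (hpg.at' i hi) hle (fun a c e h => ?_) (fun a v h => ?_) hcl
        · rcases hst h with h | ⟨k, h1, h2, h3⟩
          · exact h
          · exact absurd ⟨k, a, c, e, h1, h2, h3⟩ hk
        · rcases hrr h with h | ⟨k, c, e, h1, h2, h3, -⟩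
          · exact h
          · exact absurd ⟨k, a, c, e, h1, h2, h3⟩ hk
  refine ⟨p', hp'Q, hle, hcl, hst4, hr5, fun q hq hqp => ?_⟩
  obtain ⟨hqr, hqg⟩ := mem_Q.1 hq
  obtain ⟨u, hur, hug⟩ : ∃ u : Pre, u.r = p'.r ∪ q.r ∧ u.g = p'.g ∪ q.g :=
    ⟨⟨p'.r ∪ q.r, p'.g ∪ q.g, p'.cr.union q.cr, p'.fg.union q.fg⟩, rfl, rfl⟩
  have hup : u ≤ p' := by
    rw [Pre.le_def, hur, hug]
    exact ⟨Set.subset_union_left, Set.subset_union_left⟩
  have huq : u ≤ q := by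
    rw [Pre.le_def, hur, hug]
    exact ⟨Set.subset_union_right, Set.subset_union_right⟩
  have hucl : ∀ w b v, Atom.cl w b v ∈ u.g → Atom.cl w b v ∈ q.g := by
    intro w b v h
    rw [hug] at h
    rcases h with h | h
    · exact hqp.2 (cl_gres.2 h)
    · exact h
  have hust : ∀ i a c e, Atom.st i a c e ∈ u.g → l ≤ i → Atom.st i a c e ∈ p'.g := by
    intro i a c e h h'
    rw [hug] at h
    rcases h with h | h
    · exact h
    · exact absurd (WithTop.coe_lt_coe.1 (hqg.bd i ⟨_, h, rfl⟩)) (not_lt.2 h')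
  have huR : ∀ x ∈ u.r, l ≤ x.2.1 → x ∈ p'.r := by
    intro x h h'
    rw [hur] at h
    rcases h with h | h
    · exact h
    · exact absurd (WithTop.coe_lt_coe.1 (hqr.bd x h)) (not_lt.2 h')
  have hust' : ∀ i a c e, Atom.st i a c e ∈ u.g → i < l → Atom.st i a c e ∈ q.g := by
    intro i a c e h h'
    rw [hug] at h
    rcases h with h | h
    · exact hqp.2 (st_gres.2 ⟨h, WithTop.coe_lt_coe.2 h'⟩)
    · exact h
  have huR' : ∀ x ∈ u.r, x.2.1 < l → x ∈ q.r := by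
    intro x h h'
    rw [hur] at h
    rcases h with h | h
    · exact hqp.1 ⟨h, WithTop.coe_lt_coe.2 h'⟩
    · exact h
  have hucc : ∀ w b v, Atom.cl w b v ∈ u.g ↔ Atom.cl w b v ∈ q.g :=
    fun w b v => ⟨hucl w b v, fun h => huq.2 h⟩
  refine ⟨u, mem_Q.2 ⟨?_, bs_congr hucc hqg.bs, ?_, ?_⟩, hup, ?_, hust, huR⟩
  · rw [hur]
    exact RLeg.glue hp'R hlt hqr hqp.1
  · rintro i ⟨α, h1, h2⟩
    rw [hug] at h1
    rcases h1 with h1 | h1
    · exact (mem_Q.1 hp'Q).2.bd i ⟨α, h1, h2⟩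
    · exact (hqg.bd i ⟨α, h1, h2⟩).trans_le hlt
  · intro i hi
    rcases lt_or_ge i l with hil | hil
    · exact gat_tr (hqg.at' i (WithTop.coe_lt_coe.2 hil)) huq
        (fun a c e h => hust' i a c e h hil) (fun a v h => huR' _ h hil) hucl
    · have hG := (mem_Q.1 hp'Q).2.at' i hi
      refine ⟨fun a c e h => ?_, fun a c e h => ?_, fun w a b c c' e e' h3 h4 h5 h6 => ?_,
        fun a c e v h3 h4 h5 => ?_, fun a c e h3 => ?_⟩
      · obtain ⟨v, hv⟩ := hG.dom a c e (hust _ _ _ _ h hil)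
        exact ⟨v, hup.1 hv⟩
      · exact (hG.dc a c e (hust _ _ _ _ h hil)).mono hup.2
      · have h7 := hst4 _ _ _ _ (hust _ _ _ _ h3 hil) hil
        have h8 := hst4 _ _ _ _ (hust _ _ _ _ h4 hil) hil
        have hcp : ∀ {a c e}, Atom.st i a c e ∈ p.g → Atom.st (j i) a c e ∈ q.g := by
          intro a c e h
          refine hqp.2 (st_gres.2 ⟨?_, WithTop.coe_lt_coe.2 (hj1 h7 hil).2.1⟩)
          rw [hp'g, hY]
          exact Or.inr ⟨i, a, c, e, h, hil, rfl⟩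
        exact (hqg.at' (j i) (WithTop.coe_lt_coe.2 (hj1 h7 hil).2.1)).ag w a b c c' e e'
          (hcp h7) (hcp h8) ((in_congr hucc).1 h5) ((in_congr hucc).1 h6)
      · exact (hG.tv a c e v (hust _ _ _ _ h3 hil) (huR _ h4 hil) h5).mono (res_mono hup _)
      · exact (hG.av a c e (hust _ _ _ _ h3 hil)).mono (res_mono hup _)
  · refine Pre.ext (Set.Subset.antisymm ?_ ?_) (Set.Subset.antisymm ?_ ?_)
    · rintro x ⟨h1, h2⟩
      exact huR' x h1 (WithTop.coe_lt_coe.1 h2)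
    · intro x h1
      exact ⟨huq.1 h1, hqr.bd x h1⟩
    · rintro α ⟨h1, h2⟩
      cases α with
      | cl w b v => exact hucl _ _ _ h1
      | st i a c e => exact hust' _ _ _ _ h1 (WithTop.coe_lt_coe.1 (h2 i rfl))
    · intro α h1
      exact ⟨huq.2 h1, fun i h2 => hqg.bd i ⟨α, h1, h2⟩⟩

end DSB
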