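import Pool.Agent.DSB.CFam
import Pool.Agent.DSB.DRho
import Pool.Agent.DSB.Red

/-! # Labels for disjoint closed sets

(problem MP_f2e766_lc, project DSB, part D)

* `tclo_mix`: if `q` forces `H` to be closed, then `H ⊓ up q` is closed for all conditions.
* `exists_label`: two closed disjoint sets (for all conditions) are carried by a label `l` above a
  given label. The data are the
  families of `exists_fam`; all labels in them are below some `l1` which is not free; `l > l1` has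
  these data. `Act (Q l) (dat l)` is proved with
  `red`. -/

set_option autoImplicit false

namespace DSB

open Cardinal STP

theorem tclo_mix {P : Type} [PartialOrder P] {A C : Type} {ρ : A → C → RO P}
    (hs : ∀ a, ∃ b, ∀ q : P, q ∈ ρ a b) {q : P} {H : A → RO P} (h : TClo ρ q H) (p : P) :
    TClo ρ p fun a => H a ⊓ RO.up q := by
  intro r _ a hra
  by_cases hc : ∃ t ≤ r, t ≤ q
  · obtain ⟨t, htr, htq⟩ := hc
    obtain ⟨r', hr', b, hb, h1⟩ := h t htq a fun s hs h2 =>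
      hra s (hs.trans htr) ⟨h2, (RO.up q).down (hs.trans htq) (RO.self_mem_up q)⟩
    exact ⟨r', hr'.trans htr, b, hb, fun a' r'' hr'' h2 h3 => h1 a' r'' hr'' h2 h3.1⟩
  · obtain ⟨b, hb⟩ := hs a
    refine ⟨r, le_rfl, b, hb r, fun a' r'' hr'' _ h3 => hc ?_⟩
    obtain ⟨t, ht, htq⟩ := RO.mem_up.1 h3.2 r'' le_rfl
    exact ⟨t, ht.trans hr'', htq⟩

theorem mix_dis {P : Type} [PartialOrder P] {q p : P} {U V : RO P}
    (h : ∀ r ≤ q, ¬ (r ∈ U ∧ r ∈ V)) : ¬ (p ∈ U ⊓ RO.up q ∧ p ∈ V ⊓ RO.up q) := by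
  rintro ⟨h1, h2⟩
  obtain ⟨t, ht, htq⟩ := RO.mem_up.1 h1.2 p le_rfl
  exact h t htq ⟨U.down ht h1.1, V.down ht h2.1⟩

/-- the labels of a precondition -/
private def lab (p : Pre) : Set Lb := {l | ∃ x ∈ p.r, x.2.1 = l} ∪ gl p.g

private theorem lab_cnt (p : Pre) : (lab p).Countable := by
  refine Set.Countable.union ?_ (gl_fin p.fg).countable
  exact (p.cr.image fun x => x.2.1).mono fun l hl => hl

private theorem card_idx : #(Bool × Pt × K × ℕ) ≤ #K := by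
  have h0 : ℵ₀ ≤ #K := by
    rw [Cardinal.mk_set, Cardinal.mk_nat]
    exact (Cardinal.cantor _).le
  have h1 : #ℕ ≤ #K := by rw [Cardinal.mk_nat]; exact h0
  have h2 : #Bool ≤ #K := (Cardinal.mk_le_aleph0).trans h0
  have h3 : ∀ {X Y : Type}, #X ≤ #K → #Y ≤ #K → #(X × Y) ≤ #K := by
    intro X Y hX hY
    rw [Cardinal.mk_prod, Cardinal.lift_id, Cardinal.lift_id]
    exact (mul_le_mul' hX hY).trans (Cardinal.mul_eq_self h0).le
  exact h3 h2 (h3 (h3 h1 le_rfl) (h3 le_rfl h1))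

/-- the labels of the data are bounded -/
private theorem exists_bd (s : Dat) (l0 : Lb) : ∃ l1, l0 < l1 ∧ ¬ Free l1 ∧
    ∀ c x k b, s c x k = some b → ∀ l ∈ lab b, l < l1 := by
  classical
  have h1 : ∀ i : Bool × Pt × K, ∃ f : ℕ → Lb,
      (∀ b, s i.1 i.2.1 i.2.2 = some b → ∀ l ∈ lab b, ∃ n, f n = l) := by
    intro i
    rcases h : s i.1 i.2.1 i.2.2 with _ | b
    · exact ⟨fun _ => l0, fun b hb => absurd hb (by simp)⟩
    · obtain ⟨f, hf⟩ := ((lab_cnt b).insert l0).exists_eq_range (Set.insert_nonempty _ _)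
      refine ⟨f, fun b' hb' l hl => ?_⟩
      obtain rfl : b = b' := Option.some.inj hb'
      have h2 : l ∈ Set.range f := by
        rw [← hf]
        exact Or.inr hl
      exact h2
  choose f hf using h1
  obtain ⟨l1, hl1⟩ := lb_bdd card_idx fun i => f (i.1, i.2.1, i.2.2.1) i.2.2.2
  obtain ⟨l2, hl2⟩ := no_max l0
  obtain ⟨l3, hl3⟩ := exists_nonfree
  refine ⟨max l1 (max l2 l3), lt_of_lt_of_le hl2 ((le_max_left _ _).trans (le_max_right _ _)),
    fun h => hl3 (h.mono ((le_max_right _ _).trans (le_max_right _ _))), ?_⟩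
  intro c x k b hb l hl
  obtain ⟨n, hn⟩ := hf (c, x, k) b hb l hl
  rw [← hn]
  exact lt_of_lt_of_le (hl1 (c, x, k, n)) (le_max_left _ _)

private theorem bd_lab {b : Pre} {l1 : Lb} (h : ∀ l ∈ lab b, l < l1) : Bd l1 b :=
  ⟨fun x hx => WithTop.coe_lt_coe.2 (h _ (Or.inl ⟨x, hx, rfl⟩)),
    fun l hl => WithTop.coe_lt_coe.2 (h l (Or.inr hl))⟩

theorem exists_label {H : Bool → Pt → RO Cn} (hc : ∀ c p, TClo rho p (H c))
    (hd : ∀ p a, ¬ (p ∈ H false a ∧ p ∈ H true a)) (l0 : Lb) : ∃ l, l0 < l ∧ ¬ Free l ∧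
      (∀ c x (p : Cn), Mem (Q l) (S l c x) (p.1.res l) → p ∈ H c x) ∧
      ∀ c x (p : Cn), p ∈ H c x → ∃ q ≤ p, Mem (Q l) (S l c x) (q.1.res l) := by
  have h1 : ∀ (c : Bool) (x : Pt), ∃ s : K → Option Pre,
      (∀ k b, s k = some b → ∃ h : b ∈ Q ⊤, (⟨b, h⟩ : Cn) ∈ H c x) ∧
      ∀ p ∈ H c x, ∃ q ≤ p, ∃ k b, s k = some b ∧ q.1 ≤ b := fun c x => exists_fam (H c x)
  choose s hs1 hs2 using h1
  obtain ⟨l1, hl01, hfree1, hlab⟩ := exists_bd s l0
  obtain ⟨l, hl1, hl⟩ := exists_lb s l1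
  have hfree : ¬ Free l := fun h => hfree1 (h.mono hl1.le)
  have hbd : ∀ c x k b, s c x k = some b → Bd l b := by
    intro c x k b hb
    exact bd_lab fun i hi => (hlab c x k b hb i hi).trans hl1
  have hle : (l : WithTop Lb) ≤ ⊤ := le_top
  have hbQ : ∀ c x k b, s c x k = some b → b ∈ Q l := by
    intro c x k b hb
    obtain ⟨h, -⟩ := hs1 c x k b hb
    exact Q_of_bd h (hbd c x k b hb) hle
  -- the members of the families
  have hin : ∀ c x (p : Cn), Mem (Q l) (s c x) (p.1.res l) → p ∈ H c x := by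
    rintro c x p ⟨k, b, hb, -, hpb⟩
    obtain ⟨h, hm⟩ := hs1 c x k b hb
    exact (H c x).down (show p ≤ ⟨b, h⟩ from (res_le p.1 l).trans hpb) hm
  have hout : ∀ c x (p : Cn), p ∈ H c x → ∃ q ≤ p, Mem (Q l) (s c x) (q.1.res l) := by
    intro c x p hp
    obtain ⟨q, hq, k, b, hb, hqb⟩ := hs2 c x p hp
    exact ⟨q, hq, k, b, hb, hbQ c x k b hb, res_le_of (hbd c x k b hb) hqb⟩
  have hact : Act (Q l) (dat l) := by
    rw [hl]
    constructor
    · intro c p hp x hno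
      have hpT : p ∈ Q ⊤ := Q_up hp hle
      obtain ⟨r', hr', b, hb, h2⟩ := hc c ⟨p, hpT⟩ ⟨p, hpT⟩ le_rfl x (by
        intro r hr hrH
        obtain ⟨q, hq, hm⟩ := hout c x r hrH
        exact hno _ (Q_res q.2 hle) (res_le_of (bd_of_Q hp) (hq.trans hr)) hm)
      obtain ⟨r1, hr1, hin1⟩ := mem_rho.1 hb r' le_rfl
      obtain ⟨r2, hr2, hz, hdc⟩ := dc_ext r1.2 x (max b.2 (b.1.1 + 1))
      obtain ⟨p', hp', hp'le, -, -, -, hext⟩ := red hr2 hfree hle
      have hp'1 : p' ≤ r1.1 := hp'le.trans hz.le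
      refine ⟨p'.res l, Q_res hp' hle, res_le_of (bd_of_Q hp) (hp'1.trans (hr1.trans hr')),
        max b.2 (b.1.1 + 1), dc_gres.2 (hdc.mono hp'le.2), ?_⟩
      rintro q hq hqle w hw ⟨k, b', hb', -, hqb⟩
      obtain ⟨u, hu, hup, hures, -, -⟩ := hext q hq hqle
      have huq : u ≤ q := by
        rw [← hures]
        exact res_le u l
      have hwu : In u.g w x (max b.2 (b.1.1 + 1)) := by
        rw [← hures] at hw
        exact in_gres.1 hw
      have hxu : In u.g x b.1 b.2 := hin1.mono (hup.trans hp'1).2 (bs_of_Q hu)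
      have hwb : In u.g w b.1 b.2 := hxu.trans (bs_of_Q hu) hwu
        (lt_of_lt_of_le (Nat.lt_succ_self _) (le_max_right _ _)) (le_max_left _ _)
      obtain ⟨h, hm⟩ := hs1 c w k b' hb'
      refine h2 w ⟨u, hu⟩ (show u ≤ r'.1 from (hup.trans hp'1).trans hr1) (In.rho hwb) ?_
      exact (H c w).down (show (⟨u, hu⟩ : Cn) ≤ ⟨b', h⟩ from huq.trans hqb) hm
    · rintro p hp x ⟨k, b, hb, -, hpb⟩ ⟨k', b', hb', -, hpb'⟩
      obtain ⟨h, hm⟩ := hs1 _ x k b hb
      obtain ⟨h', hm'⟩ := hs1 _ x k' b' hb'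
      exact hd ⟨p, Q_up hp hle⟩ x
        ⟨(H false x).down (show (⟨p, Q_up hp hle⟩ : Cn) ≤ ⟨b, h⟩ from hpb) hm,
          (H true x).down (show (⟨p, Q_up hp hle⟩ : Cn) ≤ ⟨b', h'⟩ from hpb') hm'⟩
  have hS : S l = s := (S_act hfree hact).trans hl
  refine ⟨l, hl01.trans hl1, hfree, ?_, ?_⟩
  · rw [hS]
    exact hin
  · rw [hS]
    exact hout

end DSB
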