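import Pool.Agent.DSB.Zero

/-! # Good conditions decide `T(l)` (package P6; F6 of the paper proof)

(problem MP_f2e766_lc, project DSB, part P)

Let `GT l` hold.
* `good_of_Tv`: for `c = false` this is the definition. Let `c = true`: no extension of `p` is good
  for `S l false`. To show: `p` is good for `S l true`.
  Let `p' ≤ p`, `N`, `B`, `C` and suppose there is no witness for `(p', N, B, C)` and `S l true`.
  As `p'` is not good for `S l false` there are
  `p2 ≤ p'`, `N2`, `B2`, `C2` without witness for `S l false`. `GT l` for `p2.r`, `max N N2`,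
  `B ∪ B2`, `C ∪ C2` gives `r'`, `z`; `q0 := p2.wr r'` is in `Q l`
  (`rext`). If no `q ≤ q0` in `Q l` has `Mem (Q l) (S l false z) q`, then
  `(act_S l).clo false q0 z` gives `q ≤ q0`, `e` with `Dc`, `Av`: a witness
  for `(p2, N2, B2, C2)`. Otherwise let `q1 ≤ q0` have `Mem (Q l) (S l false z) q1`; by
  `(act_S l).dis` and `Mem.mono` no `q ≤ q1` has
  `Mem (Q l) (S l true z) q`, so `clo true q1 z` gives a witness for `(p', N, B, C)`.
* `Tv_dense`: if some `q ≤ p` is good for `S l false`, take it and `c = false`; otherwise `p` and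
  `c = true`. -/

set_option autoImplicit false

namespace DSB

open STP

theorem good_of_Tv {l : Lb} (hG : GT l) {c : Bool} {p : Pre} (hp : p ∈ Q l)
    (h : Tv (Q l) l (S l) c p) : Good (Q l) l (S l c) p := by
  cases c with
  | false => exact h
  | true =>
    have h0 : ∀ q ∈ Q l, q ≤ p → ¬ Good (Q l) l (S l false) q := h
    intro p' hp' hle N B C hB hC
    by_contra hno
    have h1 := h0 p' hp' hle
    unfold Good at h1
    simp only [not_forall] at h1
    obtain ⟨p2, hp2, hp2le, N2, B2, C2, hB2, hC2, hno2⟩ := h1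
    obtain ⟨r', z, hr', hsub, hz, hf, hd⟩ := hG p2.r (mem_Q.1 hp2).1 (max N N2) (B ∪ B2)
      (C ∪ C2) (hB.union hB2) (hC.union hC2)
    have hq0 : p2.wr r' hr'.cnt ∈ Q l := rext hp2 hr' hsub
    have hq0le : p2.wr r' hr'.cnt ≤ p2 := ⟨hsub, subset_rfl⟩
    by_cases hM : ∃ q1 ∈ Q l, q1 ≤ p2.wr r' hr'.cnt ∧ Mem (Q l) (S l false z) q1
    · obtain ⟨q1, hq1, hq1le, hmem⟩ := hM
      obtain ⟨q, hq, hqle, e, hDc, hAv⟩ := (act_S l).clo true q1 hq1 z
        (fun q hq hqle hm => (act_S l).dis q hq z (hmem.mono hqle) hm)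
      refine hno ⟨q, hq, hqle.trans (hq1le.trans (hq0le.trans hp2le)), z, e, ?_, ?_, ?_,
        hDc, hAv⟩
      · rw [hz]
        exact le_max_left _ _
      · exact ⟨fun h => hf.1 (Or.inl h), fun a m ha h => hf.2 a m ha (Or.inl h)⟩
      · exact fun i hi hil => hqle.1 (hq1le.1 (hd i (Or.inl hi) (WithTop.coe_lt_coe.2 hil)))
    · obtain ⟨q, hq, hqle, e, hDc, hAv⟩ := (act_S l).clo false _ hq0 z
        (fun q hq hqle hm => hM ⟨q, hq, hqle, hm⟩)
      refine hno2 ⟨q, hq, hqle.trans hq0le, z, e, ?_, ?_, ?_, hDc, hAv⟩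
      · rw [hz]
        exact le_max_right _ _
      · exact ⟨fun h => hf.1 (Or.inr h), fun a m ha h => hf.2 a m ha (Or.inr h)⟩
      · exact fun i hi hil => hqle.1 (hd i (Or.inr hi) (WithTop.coe_lt_coe.2 hil))

theorem Tv_dense {l : Lb} {p : Pre} (hp : p ∈ Q l) :
    ∃ q ∈ Q l, q ≤ p ∧ ∃ c, Tv (Q l) l (S l) c q := by
  by_cases h : ∃ q ∈ Q l, q ≤ p ∧ Good (Q l) l (S l false) q
  · obtain ⟨q, hq, hle, hg⟩ := h
    exact ⟨q, hq, hle, false, hg⟩
  · exact ⟨p, hp, le_rfl, true, fun q hq hle hg => h ⟨q, hq, hle, hg⟩⟩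

end DSB
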