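import Pool.Agent.DSB.DLab
import Pool.Agent.DSB.Tdec

/-! # The space is not countably paracompact

(problem MP_f2e766_lc, project DSB, part D)

`D n` is the set of all points of level `≥ n`. Let `q` force that all `K n` are closed, `K n`
disjoint from `D n`. The label `l n` carries
(`exists_label`) the name of `K n ⊓ up q` for `false` and the set `D n` for `true`. All conditions
in `Q (l n)` are good for `S (l n) false`: `GT (l n)` gives
a fresh point of high level, which is in `D n`, so not in `K n`. Now `GT ⊤` gives a point which is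
declared for all `l n`, and `RAt.out` implies that it is in
no `K n`. -/

set_option autoImplicit false

namespace DSB

open STP

private theorem tclo_lev (n : ℕ) (p : Cn) : TClo rho p fun a => chi (n ≤ a.1) := by
  intro r _ a hra
  have h1 : a.1 < n := by
    by_contra h
    exact hra r le_rfl (RO.mem_chi.2 (not_lt.1 h))
  obtain ⟨r', hr', b, hb, h2⟩ := tcl_lev n r a h1
  exact ⟨r', hr', b, hb, fun a' r'' hr'' h3 h4 => h2 a' (RO.mem_chi.1 h4) r'' hr'' h3⟩

/-- the label for `K n` and `D n` -/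
private theorem exists_lab (hG : ∀ l : Lb, GT l) {q : Cn} {F : Pt → RO Cn} (n : ℕ)
    (hF : TClo rho q F) (hn : ∀ a : Pt, n ≤ a.1 → ∀ r ≤ q, r ∉ F a) :
    ∃ l : Lb, (∀ p ∈ Q l, Tv (Q l) l (S l) false p) ∧
      ∀ x (p : Cn), p ≤ q → p ∈ F x → ∃ r ≤ p, Mem (Q l) (S l false x) (r.1.res l) := by
  obtain ⟨l, -, -, hin, hout⟩ := exists_label
    (H := fun c a => cond c (chi (n ≤ a.1)) (F a ⊓ RO.up q)) (by
      intro c p
      cases c
      · exact tclo_mix tsp.ex hF p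
      · exact tclo_lev n p) (by
      rintro p a ⟨h1, h2⟩
      obtain ⟨t, ht, htq⟩ := RO.mem_up.1 h1.2 p le_rfl
      exact hn a (RO.mem_chi.1 h2) t htq ((F a).down ht h1.1)) (exists_nonfree.choose)
  refine ⟨l, fun p _ p' hp' _ N B C hB hC => ?_, fun x p hp hpx => ?_⟩
  · obtain ⟨r', z, hr', hsub, hz, hfr, hC'⟩ := hG l p'.r (mem_Q.1 hp').1 (max N n) B C hB hC
    have hq0 : p'.wr r' hr'.cnt ∈ Q l := rext hp' hr' hsub
    obtain ⟨q1, hq1, hle, e, hd, hav⟩ := (act_S l).clo false (p'.wr r' hr'.cnt) hq0 z (by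
      intro q' hq' _ hm
      have hT : q' ∈ Q ⊤ := Q_up hq' le_top
      have h1 : (⟨q', hT⟩ : Cn) ∈ F z ⊓ RO.up q := by
        refine hin false z ⟨q', hT⟩ ?_
        show Mem (Q l) (S l false z) (q'.res l)
        rw [res_eq (bd_of_Q hq')]
        exact hm
      obtain ⟨t, ht, htq⟩ := RO.mem_up.1 h1.2 ⟨q', hT⟩ le_rfl
      refine hn z ?_ t htq ((F z).down ht h1.1)
      rw [hz]
      exact le_max_right _ _)
    refine ⟨q1, hq1, hle.trans ⟨hsub, subset_rfl⟩, z, e, ?_, hfr, fun i hi hil => ?_, hd, hav⟩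
    · rw [hz]
      exact le_max_left _ _
    · exact hle.1 (hC' i hi (WithTop.coe_lt_coe.2 hil))
  · exact hout false x p ⟨hpx, (RO.up q).down hp (RO.self_mem_up q)⟩

theorem tncp (hG : ∀ t, GT t) : TNcp rho := by
  refine ⟨fun n => {a | n ≤ a.1}, ?_, fun a => ⟨a.1 + 1, by simp⟩,
    fun m n hmn a ha => hmn.trans ha, ?_⟩
  · intro n q a ha
    exact tcl_lev n q a (not_le.1 ha)
  · intro q F hF hn
    have h1 : ∀ n, ∃ l : Lb, (∀ p ∈ Q l, Tv (Q l) l (S l) false p) ∧
        ∀ x (p : Cn), p ≤ q → p ∈ F n x → ∃ r ≤ p, Mem (Q l) (S l false x) (r.1.res l) :=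
      fun n => exists_lab (fun l => hG l) n (hF n) (hn n)
    choose l hl1 hl2 using h1
    obtain ⟨r', z, hr', hsub, -, -, hC⟩ := hG ⊤ q.1.r (mem_Q.1 q.2).1 0 ∅ (Set.range l)
      Set.countable_empty (Set.countable_range l)
    refine ⟨⟨q.1.wr r' hr'.cnt, rext q.2 hr' hsub⟩, ⟨hsub, subset_rfl⟩, z, fun n r1 hr1 h2 => ?_⟩
    have hr1q : r1 ≤ q := hr1.trans (show (⟨q.1.wr r' hr'.cnt, rext q.2 hr' hsub⟩ : Cn) ≤ q from
      ⟨hsub, subset_rfl⟩)
    obtain ⟨t, ht, hm⟩ := hl2 n z r1 hr1q h2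
    have h3 : (z, l n, ⊤) ∈ t.1.r :=
      (Pre.le_def.1 (ht.trans hr1)).1 (hC (l n) ⟨n, rfl⟩ (WithTop.coe_lt_top _))
    exact ((mem_Q.1 t.2).1.at' (l n) (WithTop.coe_lt_top _)).out z h3 false (t.1.res (l n))
      (Q_res t.2 le_top) subset_rfl (hl1 n _ (Q_res t.2 le_top)) hm

end DSB
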