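import Pool.Agent.DSB.DNor
import Pool.Agent.DSB.DNcp
import Pool.Agent.DSB.Bridge

/-! # The typed statements hold for the generic space

(problem MP_f2e766_lc, project DSB; assembly of part D) -/

set_option autoImplicit false

universe u

namespace DSB

open STP

instance : Nonempty Cn := ⟨⟨⟨∅, ∅, Set.countable_empty, Set.finite_empty⟩, mem_Q_empty (RLeg.empty ⊤)⟩⟩

theorem tdat (hG : ∀ t, GT t) : TDat rho where
  sp := tsp
  t1 := tt1
  nor := tnor fun l => hG l
  sd := tsd
  ncp := tncp hG

/-- the main lemma gives a model with a Dowker space with a `σ`-disjoint base -/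
theorem main_of (hG : ∀ t, GT t) : ∃ (N : Type 1) (E : N → N → Prop), ZFC E ∧ DowSD E :=
  model_of (tdat hG)

end DSB
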