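import Pool.Agent.DSB.StA
import Pool.Agent.DSB.Tdec
import Pool.Agent.DSB.Red

/-! # Every point gets a status for every label (package P8; F7 of the paper proof)

(problem MP_f2e766_lc, project DSB, part P)

`stat`: `val_ext`: let `(a, l, v) ∈ p.r`. `dec_st`: for all status atoms `st l b c e` of `p` either
`In p.g a b e`, or `¬ In g' a b e` for all
`g' ⊇ p.g`, `Bs g'`.

Case 1: `In p.g a b e_b` for some `st l b c e_b ∈ p.g`. By `GAt.ag` (with `w = a`) all such `b`
have the colour `c`. Choose `e > b.1`, `e ≥ e_b`,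
larger than all `v'` with `cl w a v' ∈ p.g` (finitely many), and `≥ v` if `v ≠ ⊤`. `add_st`:
`hcol`; `htv`: if `(e : ℕ∞) < v` then `v = ⊤`. If `a = b`: there is already a
status, nothing to prove. Otherwise `In.lad` gives `m` with `Lad a b m`, `e_b < m`, and `RAt.lad`
(`a` is declared) gives `(b, l, v1) ∈ p.r` with `m ≤ v1`, so
`e_b < v1` and `GAt.tv` gives `Tv .. c (p.res l)`. `hav`: `GAt.av` for `b` and `Av.sub`
(`In (p.res l).g a b e_b` by `in_gres`; `bs_of_Q`).

Case 2: no such `b`. 2a: `l` is free: `S l` is empty, so every `q ∈ Q l` is good for `S l false`: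
by `GT l` (as in `good_of_Tv`: the names are empty, `Av` is
trivial, `e = 0`); so `Tv .. false q` for all `q ∈ Q l`. `add_st` with `c = false`, `e` large,
`hav` trivial (`Mem` is impossible).
2b: `l` is not free: take `p'` from `red hp hl`; its status atoms with label `l` are those of `p`
and the membership of `a` is negatively decided.
If `v = ⊤`: `Tv_dense` gives `q ≤ p'.res l` in `Q l` and `c` with `Tv .. c q`; by `RAt.out` (of
`p'`, for `a`; `rres l p'.r ⊆ q.r`) no `q' ≤ q` has
`Mem (Q l) (S l c a) q'` (`Tv.mono`). If `v ≠ ⊤`: if no `q' ≤ p'.res l` has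
`Mem (Q l) (S l false a) q'` take `c = false`, `q = p'.res l`; otherwise take
such a `q`, and `c = true`: by `(act_S l).dis` no `q' ≤ q` has `Mem (Q l) (S l true a) q'`. In all
cases `(act_S l).clo c q a` gives `q1 ≤ q` in `Q l` and
`e0` with `Av (Q l) (S l c) q1 a e0`. The last part of `red` gives `u ∈ Q t`, `u ≤ p'`,
`u.res l = q1`. Apply `add_st` to `u` with `e ≥ e0` large (`Av.anti`);
`hcol` is void: the status atoms of `u` with label `l` are in `p'.g`, so in `p.g`, and
`In u.g a b e'` is impossible; `htv`: `Tv .. c q1`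
if `v = ⊤`, and void otherwise (`e ≥ v`). -/

set_option autoImplicit false

namespace DSB

open STP

/-- the value of an atom -/
private def avl : Atom → ℕ
  | .cl _ _ v => v
  | .st _ _ _ _ => 0

/-- a large modulus -/
private theorem exists_big {g : Set Atom} (hg : g.Finite) (a : Pt) (v : ℕ∞) (n : ℕ) :
    ∃ e : ℕ, n ≤ e ∧ (∀ w v', .cl w a v' ∈ g → v' ≤ e) ∧ ((e : ℕ∞) < v → v = ⊤) := by
  obtain ⟨N, hN⟩ := (hg.image avl).bddAbove
  obtain ⟨nv, hnv⟩ : ∃ nv : ℕ, v = ⊤ ∨ v ≤ nv := by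
    induction v using ENat.recTopCoe with
    | top => exact ⟨0, Or.inl rfl⟩
    | coe k => exact ⟨k, Or.inr le_rfl⟩
  refine ⟨max n (max N nv), le_max_left _ _, fun w v' h => ?_, fun h => ?_⟩
  · have h1 : v' ≤ N := hN ⟨_, h, rfl⟩
    exact h1.trans ((le_max_left _ _).trans (le_max_right _ _))
  · rcases hnv with h1 | h1
    · exact h1
    · have h2 : (nv : ℕ∞) ≤ ((max n (max N nv) : ℕ) : ℕ∞) :=
        Nat.cast_le.2 ((le_max_right _ _).trans (le_max_right _ _))
      exact absurd (h.trans_le (h1.trans h2)) (lt_irrefl _)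

private theorem good_free (hG : ∀ l : Lb, GT l) {l : Lb} (hl : Free l) {p : Pre} :
    Good (Q l) l (S l false) p := by
  intro p' hp' _ N B C hB hC
  obtain ⟨q, hq, hle, c, hc⟩ := Tv_dense hp'
  have h1 : Good (Q l) l (S l c) q := good_of_Tv (hG l) hq hc
  have h2 : S l c = S l false := by
    funext x k
    rw [S_free hl, S_free hl]
  rw [h2] at h1
  obtain ⟨q', hq', hle', h3⟩ := h1 q hq le_rfl N B C hB hC
  exact ⟨q', hq', hle'.trans hle, h3⟩

theorem stat (hG : ∀ l : Lb, GT l) {t : WithTop Lb} {p : Pre} (hp : p ∈ Q t) (a : Pt) {l : Lb}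
    (hl : (l : WithTop Lb) < t) : ∃ q ∈ Q t, q ≤ p ∧ ∃ c e, .st l a c e ∈ q.g := by
  obtain ⟨p1, hp1, hle1, -, v, hv1⟩ := val_ext hp a hl
  obtain ⟨p2, hp2, hz, hdec⟩ := dec_st hp1 l hl a
  have hle2 : p2 ≤ p := hz.le.trans hle1
  have hv : (a, l, v) ∈ p2.r := by
    rw [hz.r]
    exact hv1
  have hR := (mem_Q.1 hp2).1.at' l hl
  have hGl := (mem_Q.1 hp2).2.at' l hl
  by_cases hst : ∃ c e, .st l a c e ∈ p2.g
  · exact ⟨p2, hp2, hle2, hst⟩
  by_cases hcase : ∃ b c e, .st l b c e ∈ p2.g ∧ In p2.g a b e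
  · obtain ⟨b, c, eb, hb, hin⟩ := hcase
    have hne : a ≠ b := by
      rintro rfl
      exact hst ⟨c, eb, hb⟩
    obtain ⟨e, he, hbig, htop⟩ := exists_big p2.fg a v (max (b.1 + 1) eb)
    obtain ⟨q, hq, hqle, hqst⟩ := add_st (c := c) (e := e) hp2 hl hv hbig
      (fun b' c' e' h h' => hGl.ag a b' b c' c e' eb h hb h' hin)
      (fun h => by
        obtain rfl := htop h
        obtain ⟨v1, m, -, hlad, h2, h3⟩ := In.lad (bs_of_Q hp2) hin hne
        obtain ⟨v', hv', hm⟩ := hR.lad a hv b m hlad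
        refine hGl.tv b c eb v' hb hv' (lt_of_lt_of_le ?_ hm)
        exact Nat.cast_lt.2 (h2.trans_le h3))
      (Av.sub (fun q hq => bs_of_Q hq) (hGl.av b c eb hb) (in_gres.2 hin)
        (Nat.lt_of_succ_le ((le_max_left _ _).trans he)) ((le_max_right _ _).trans he))
    exact ⟨q, hq, hqle.trans hle2, c, e, hqst⟩
  · have hno : ∀ b c e, .st l b c e ∈ p2.g → ∀ g' : Set Atom, p2.g ⊆ g' → Bs g' →
        ¬ In g' a b e := by
      intro b c e h
      rcases hdec b c e h with h1 | h1
      · exact absurd ⟨b, c, e, h, h1⟩ hcase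
      · exact h1
    by_cases hf : Free l
    · obtain ⟨e, -, hbig, -⟩ := exists_big p2.fg a v 0
      obtain ⟨q, hq, hqle, hqst⟩ := add_st (c := false) (e := e) hp2 hl hv hbig
        (fun b' c' e' h h' => absurd h' (hno b' c' e' h p2.g subset_rfl (bs_of_Q hp2)))
        (fun _ => good_free hG hf)
        (fun q _ _ w _ hm => by
          obtain ⟨k, b, h, -⟩ := hm
          rw [S_free hf] at h
          exact absurd h (by simp))
      exact ⟨q, hq, hqle.trans hle2, false, e, hqst⟩
    · obtain ⟨p', hp', hle', -, hst', -, hext⟩ := red hp2 hf hl.le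
      have hv' : (a, l, v) ∈ p'.r := hle'.1 hv
      have hq0 : p'.res l ∈ Q l := Q_res hp' hl.le
      obtain ⟨c, q, hq, hqle, hTv, hnm⟩ : ∃ c, ∃ q ∈ Q l, q ≤ p'.res l ∧
          (v = ⊤ → Tv (Q l) l (S l) c q) ∧
          ∀ q' ∈ Q l, q' ≤ q → ¬ Mem (Q l) (S l c a) q' := by
        by_cases hvt : v = ⊤
        · subst hvt
          obtain ⟨q, hq, hle, c, hc⟩ := Tv_dense hq0
          refine ⟨c, q, hq, hle, fun _ => hc, fun q' hq' hle'' => ?_⟩
          exact ((mem_Q.1 hp').1.at' l hl).out a hv' c q' hq' (hle''.trans hle).1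
            (hc.mono hle'')
        · by_cases hm : ∃ q' ∈ Q l, q' ≤ p'.res l ∧ Mem (Q l) (S l false a) q'
          · obtain ⟨q', hq', hle'', hm⟩ := hm
            refine ⟨true, q', hq', hle'', fun h => absurd h hvt, fun q'' hq'' hle3 h => ?_⟩
            exact (act_S l).dis q'' hq'' a (hm.mono hle3) h
          · refine ⟨false, p'.res l, hq0, le_rfl, fun h => absurd h hvt, fun q'' hq'' hle3 h => ?_⟩
            exact hm ⟨q'', hq'', hle3, h⟩
      obtain ⟨q1, hq1, hq1le, e0, -, hav⟩ := (act_S l).clo c q hq a hnm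
      obtain ⟨u, hu, hule, hures, hust, -⟩ := hext q1 hq1 (hq1le.trans hqle)
      obtain ⟨e, he, hbig, htop⟩ := exists_big u.fg a v e0
      obtain ⟨q2, hq2, hq2le, hqst⟩ := add_st (c := c) (e := e) hu hl (hule.1 hv') hbig
        (fun b' c' e' h h' => absurd h' (hno b' c' e' (hst' _ _ _ _ (hust _ _ _ _ h le_rfl)
          le_rfl) u.g (hle'.2.trans hule.2) (bs_of_Q hu)))
        (fun h => by
          rw [hures]
          exact (hTv (htop h)).mono hq1le)
        (by
          rw [hures]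
          exact hav.anti he)
      exact ⟨q2, hq2, hq2le.trans (hule.trans (hle'.trans hle2)), c, e, hqst⟩

end DSB
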