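import Pool.Agent.DSB.DLab
import Pool.Agent.DSB.Stat

/-! # Normality

(problem MP_f2e766_lc, project DSB, part D)

Let `q` force that `H false`, `H true` are closed and disjoint, and let `l` be a label which
carries `H c ⊓ up q` (`exists_label`). Let `CU l c` be the union of
all `N(b, e)` with `st l b c e ∈ G`. By `GAt.ag` `CU l false`, `CU l true` are disjoint, by `stat`
they cover the space, by `GAt.av` `CU l c` is disjoint from
`H c`. So `H c` is a subset of `U c := CU l (!c)`. -/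

set_option autoImplicit false

namespace DSB

open STP

/-- the truth value of: the point `a` is in the union of the sets `N(b, e)` with
`st l b c e ∈ G` -/
def CU (l : Lb) (c : Bool) (a : Pt) : RO Cn :=
  RO.cl {p | ∃ b e, .st l b c e ∈ p.1.g ∧ In p.1.g a b e}

theorem mem_CU {l : Lb} {c : Bool} {a : Pt} {p : Cn} :
    p ∈ CU l c a ↔ ∀ q ≤ p, ∃ r ≤ q, ∃ b e, .st l b c e ∈ r.1.g ∧ In r.1.g a b e := by
  refine RO.mem_cl ?_
  rintro p q hq ⟨b, e, h1, h2⟩
  exact ⟨b, e, (Pre.le_def.1 hq).2 h1, h2.mono (Pre.le_def.1 hq).2 (bs_of_Q q.2)⟩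

theorem CU_op (l : Lb) (c : Bool) (q : Cn) : TOp rho q (CU l c) := by
  intro r _ a hr
  obtain ⟨r', hr', b, e, h1, h2⟩ := mem_CU.1 hr r le_rfl
  refine ⟨r', hr', (b, e), In.rho h2, fun a' r'' hr'' h3 => mem_CU.2 fun s hs => ?_⟩
  obtain ⟨t, ht, h4⟩ := mem_rho.1 h3 s hs
  exact ⟨t, ht, b, e, (Pre.le_def.1 (ht.trans (hs.trans hr''))).2 h1, h4⟩

theorem CU_dis (l : Lb) (a : Pt) (q : Cn) : ¬ (q ∈ CU l false a ∧ q ∈ CU l true a) := by
  rintro ⟨h1, h2⟩
  obtain ⟨r, hr, b, e, h3, h4⟩ := mem_CU.1 h1 q le_rfl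
  obtain ⟨s, hs, b', e', h5, h6⟩ := mem_CU.1 h2 r hr
  have h7 : r.1.g ⊆ s.1.g := (Pre.le_def.1 hs).2
  have h8 := ((mem_Q.1 s.2).2.at' l (WithTop.coe_lt_top l)).ag a b b' false true e e' (h7 h3) h5
    (h4.mono h7 (bs_of_Q s.2)) h6
  exact absurd h8 (by simp)

theorem tnor (hG : ∀ l : Lb, GT l) : TNor rho := by
  intro q H hcl hdis
  obtain ⟨l, -, -, -, hout⟩ := exists_label (H := fun c a => H c a ⊓ RO.up q)
    (fun c p => tclo_mix tsp.ex (hcl c) p)
    (fun p a => mix_dis fun r hr h => hdis r hr a h) (exists_nonfree.choose)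
  refine ⟨fun c => CU l (!c), fun c => CU_op l (!c) q, ?_, ?_⟩
  · intro c r hr a hra
    refine mem_CU.2 fun s hs => ?_
    obtain ⟨t, ht, hts, c', e, hst⟩ := stat hG s.2 a (WithTop.coe_lt_top l)
    have hat := (mem_Q.1 ht).2.at' l (WithTop.coe_lt_top l)
    have hIn : In t.g a a e := In.self (hat.dc a c' e hst)
    by_cases hcc : c' = !c
    · subst hcc
      exact ⟨⟨t, ht⟩, hts, a, e, hst, hIn⟩
    · obtain rfl : c' = c := by
        cases c <;> cases c' <;> simp_all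
      have h1 : (⟨t, ht⟩ : Cn) ∈ H c' a ⊓ RO.up q :=
        ⟨(H c' a).down (show (⟨t, ht⟩ : Cn) ≤ r from le_trans hts hs) hra,
          (RO.up q).down (show (⟨t, ht⟩ : Cn) ≤ q from (le_trans hts hs).trans hr)
            (RO.self_mem_up q)⟩
      obtain ⟨t2, ht2, hm⟩ := hout c' a ⟨t, ht⟩ h1
      refine absurd hm (hat.av a c' e hst (t2.1.res l) (Q_res t2.2 le_top) (res_mono ht2 l) a ?_)
      exact in_gres.2 (hIn.mono (Pre.le_def.1 ht2).2 (bs_of_Q t2.2))
  · intro r _ a h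
    exact CU_dis l a r ⟨h.2, h.1⟩

end DSB
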