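import Pool.Agent.DSB.FinA

/-! # The main lemma (package M10; section 2 of the paper proof)

(problem MP_f2e766_lc, project DSB, part M)

`main_step`: suppose `GT l` for all `l < t`. Let `r`, `N`, `B`, `C` be given. `exists_world` for
`r`, `B`, `C` gives `W ⊇ B`, `L ⊇ C`, `r0 ⊇ r`. If no `l ∈ L` is `< t`: take `z` from `exists_pt`
with the empty ladder (`z ∉ B`, level `N`), `r' := r`.
Otherwise let `l ∈ L`, `l < t`. `Tk` is not empty: `Tv_dense` for the condition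
`(rres l r0, ∅) ∈ Q l` (`mem_Q_empty`, `RLeg.res`) gives `p`, `c` with `Tv .. c p`; by `good_of_Tv`
and `World.cp` there is a task. `exists_ladr`, `exists_newPt` (for `W ⊇ B`) give the ladder and `z`.
Let `R := ⋃ k, r k` (legal: `RLeg.chain`), `r' := R ∪ {(z, i, ⊤) | i ∈ L, i < t}`. `RLeg t r'`:
countable, labels `< t`. `RAt` at `l`: `fn`: `z` does not occur in `R`. `lad`: for a declared point
of `R`: `R` is legal; for `z` and `l ∈ L`: `NewPt.lad`, `Ladr.vA`, `Ladr.vb`.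
`out`: for a declared point of `R`: `RAt.out` of `R` (`rres l R ⊆ rres l r'`); for `z`, `l ∈ L`:
`out_z` (`rres l r' ⊆ p.r` contains `(z, i, ⊤)` for `i ∈ L`, `i < l`). `Fresh z B`: `z ∉ W`; the
elements of the ladder of `z` are some `A k` or in the ladder of some `A k`, and
`Fresh (A k) W`. `z.1 = N`.
`main_lemma`: well-founded induction on `t : WithTop Lb` (first for `l : Lb`, then for `⊤`). -/

set_option autoImplicit false

namespace DSB

open STP

theorem main_step {t : WithTop Lb} (h : ∀ l : Lb, (l : WithTop Lb) < t → GT l) : GT t := by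
  intro r hr N B C hB hC
  obtain ⟨W, L, r0, hW, hBW, hCL, hr0⟩ := exists_world hr hB hC
  by_cases hL : ∃ l ∈ L, (l : WithTop Lb) < t
  swap
  · obtain ⟨z, hz, hzN, hzl⟩ := exists_pt N (Z := ∅) (fun x hx => hx.elim)
      (fun x hx => hx.elim) hB
    refine ⟨r, z, hr, subset_rfl, hzN, ⟨hz, fun a m h1 => ((hzl a m).1 h1).elim⟩,
      fun i hi hit => absurd ⟨i, hCL hi, hit⟩ hL⟩
  obtain ⟨l, hlL, hlt⟩ := hL
  have hTk : (Tk t W L r0).Nonempty := by
    obtain ⟨p, hp, hple, c, hT⟩ := Tv_dense (mem_Q_empty (hW.rl.res hlt.le))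
    obtain ⟨f, j, -, q, hq, h1, -, h2, h3, h4⟩ := hW.cp l hlL hlt c p hp hple.1
      (good_of_Tv (h l hlt) hp hT)
    exact ⟨(l, c, q), hlL, hlt, hq, h1, h2, h3, h4⟩
  obtain ⟨rk, τ, q, A, e, M, hl⟩ := exists_ladr hW hTk N
  obtain ⟨z, hz, hzB, hzN, hzr⟩ := exists_newPt hl hW.cW hB
  have hR : RLeg t (⋃ k, rk k) := RLeg.chain hl.rl hl.mono
  have hzR : ∀ i v, (z, i, v) ∉ ⋃ k, rk k := by
    intro i v h1
    obtain ⟨k, hk⟩ := Set.mem_iUnion.1 h1
    exact hzr k i v hk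
  obtain ⟨r', hr'⟩ : ∃ r' : Set Tr, r' = (⋃ k, rk k) ∪
      {x | ∃ i ∈ L, (i : WithTop Lb) < t ∧ x = (z, i, ⊤)} := ⟨_, rfl⟩
  have hRr' : (⋃ k, rk k) ⊆ r' := by
    rw [hr']
    exact Set.subset_union_left
  have hzr' : ∀ i ∈ L, (i : WithTop Lb) < t → (z, i, ⊤) ∈ r' := by
    intro i hi hit
    rw [hr']
    exact Or.inr ⟨i, hi, hit, rfl⟩
  have hcase : ∀ {a i v}, (a, i, v) ∈ r' → ((a, i, v) ∈ ⋃ k, rk k) ∨
      (i ∈ L ∧ (i : WithTop Lb) < t ∧ a = z ∧ v = ⊤) := by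
    intro a i v h1
    rw [hr'] at h1
    rcases h1 with h1 | ⟨i', hi', hit, h1⟩
    · exact Or.inl h1
    · cases h1
      exact Or.inr ⟨hi', hit, rfl, rfl⟩
  have hleg : RLeg t r' := by
    refine ⟨?_, ?_, ?_⟩
    · rw [hr']
      refine hR.cnt.union (Set.Countable.mono ?_ (hW.cL.image fun i : Lb => ((z, i, ⊤) : Tr)))
      rintro x ⟨i, hi, -, rfl⟩
      exact ⟨i, hi, rfl⟩
    · rintro ⟨a, i, v⟩ h1
      rcases hcase h1 with h2 | ⟨-, h2, -, -⟩
      · exact hR.bd _ h2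
      · exact h2
    · intro i hi
      have hA := hR.at' i hi
      refine ⟨fun a v v' h1 h2 => ?_, fun z' h1 a m h2 => ?_, fun z' h1 c q' hq' h2 h3 => ?_⟩
      · rcases hcase h1 with h3 | ⟨-, -, h3, h4⟩
        · rcases hcase h2 with h5 | ⟨-, -, h5, -⟩
          · exact hA.fn a v v' h3 h5
          · rw [h5] at h3
            exact absurd h3 (hzR _ _)
        · rcases hcase h2 with h5 | ⟨-, -, -, h6⟩
          · rw [h3] at h5
            exact absurd h5 (hzR _ _)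
          · rw [h4, h6]
      · rcases hcase h1 with h3 | ⟨hiL, -, h3, -⟩
        · obtain ⟨v, hv, hmv⟩ := hA.lad z' h3 a m h2
          exact ⟨v, hRr' hv, hmv⟩
        · rw [h3] at h2
          obtain ⟨k, ⟨h4, h5⟩ | ⟨h4, -⟩⟩ := (hz.lad a m).1 h2
          · obtain ⟨v, hv, hmv⟩ := hl.vA k i hiL hi
            rw [h4, h5]
            exact ⟨v, hRr' (Set.mem_iUnion.2 ⟨_, hv⟩), hmv⟩
          · obtain ⟨v, hv, hmv⟩ := hl.vb k i hiL hi a m h4
            exact ⟨v, hRr' (Set.mem_iUnion.2 ⟨_, hv⟩), hmv⟩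
      · have h5 : rres i (⋃ k, rk k) ⊆ q'.r := (rres_mono hRr' _).trans h2
        rcases hcase h1 with h4 | ⟨hiL, -, h4, -⟩
        · exact hA.out z' h4 c q' hq' h5 h3
        · rw [h4]
          refine out_z hW hl hz hiL hi (h i hi) hq' h5 (fun i' hi' hii' => h2 ⟨?_, ?_⟩) h3
          · exact hzr' i' hi' ((WithTop.coe_lt_coe.2 hii').trans hi)
          · exact WithTop.coe_lt_coe.2 hii'
  refine ⟨r', z, hleg, ?_, hzN, ⟨hzB, fun a m h1 h2 => ?_⟩, fun i hi hit => hzr' i (hCL hi) hit⟩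
  · exact hr0.trans (hl.start.trans ((Set.subset_iUnion rk 0).trans hRr'))
  · obtain ⟨k, ⟨h4, -⟩ | ⟨h4, -⟩⟩ := (hz.lad a m).1 h1
    · rw [h4] at h2
      exact (hl.frW k).1 (hBW h2)
    · exact (hl.frW k).2 a m h4 (hBW h2)

theorem main_lemma (t : WithTop Lb) : GT t := by
  have h : ∀ l : Lb, GT l := by
    intro l
    induction l using WellFoundedLT.induction with
    | ind l ih => exact main_step fun i hi => ih i (WithTop.coe_lt_coe.1 hi)
  exact main_step fun l _ => h l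

end DSB
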