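import Pool.Agent.DSB.Ladr
import Pool.Agent.DSB.Amal
import Pool.Agent.DSB.Tdec

/-! # The new point avoids the names (package M9; section 2 (iv) of the paper proof)

(problem MP_f2e766_lc, project DSB, part M)

`NewPt`: the point `z` has the ladder `{(A k, M k)} ∪ {(b, m) | Lad (A k) b m, b.1 < M k}` and
avoids `W` and all `gp (q k).g`.

`out_z`: let `l ∈ L`, `l < t`, `p ∈ Q l`, `r k ⊆ ..`: `rres l (⋃ k, r k) ⊆ p.r`, `(z, i, ⊤) ∈ p.r`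
for all `i ∈ L`, `i < l`, and `Tv .. c p`. Suppose `Mem (Q l) (S l c z) p`. By `good_of_Tv`
(`GT l`) `p` is good. `World.cp` (`rres l r0 ⊆ rres l (⋃ r k) ⊆ p.r`) gives
`f`, `j`, `q0` with `(l, c, q0) ∈ Tk t W L r0`. The sets `gp p.g ∪ {z}` and `gl p.g` are finite
(`gp_fin`, `gl_fin`); `finP`, `finL` and `task` give `k` with `τ k = (l, c, q0)`,
`gp (q k).g ∩ gp p.g ⊆ W`, `A k ∉ gp p.g`, no element of the ladder of `A k` in `gp p.g`,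
`gl (q k).g ∩ gl p.g ⊆ L`. `AmH p.g (q k).g z (A k) (e k) (M k) f j W L`: `bs_of_Q`; `dcs1`,
`dcs2`: `GAt.dc` at the label `i` (which is `< l`, `Bd`); `dc1`: `st (j i) (f a) c e' ∈ q0.g`,
`GAt.dc` of `q0`, `q0.g` is the image; `him`: `gq`; the others from `NewPt` and `Ladr`.
`(q k).r ⊆ r (k + 1)` has labels `< l`, so `(q k).r ⊆ rres l (⋃ k, r k) ⊆ p.r`. `hdz`: `i ∈ L` and
`i < l`. `amal` gives `h ≤ p`, `h ≤ q k`, `In h.g z (A k) (e k)`. `Ladr.av`: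
`¬ Mem (Q l) (S l c z) h`, but `Mem.mono`. Contradiction. -/

set_option autoImplicit false

namespace DSB

open STP

/-- the new point -/
structure NewPt (W : Set Pt) (q : ℕ → Pre) (A : ℕ → Pt) (M : ℕ → ℕ) (z : Pt) : Prop where
  zW : z ∉ W
  zg : ∀ k, z ∉ gp (q k).g
  lad : ∀ a m, Lad z a m ↔ ∃ k, (a = A k ∧ m = M k) ∨ (Lad (A k) a m ∧ a.1 < M k)

theorem out_z {t : WithTop Lb} {W : Set Pt} {L : Set Lb} {r0 : Set Tr} (hW : World t W L r0)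
    {N : ℕ} {r : ℕ → Set Tr} {τ : ℕ → Lb × Bool × Pre} {q : ℕ → Pre} {A : ℕ → Pt} {e M : ℕ → ℕ}
    (hl : Ladr t W L r0 N r τ q A e M) {z : Pt} (hz : NewPt W q A M z) {l : Lb} (hlL : l ∈ L)
    (hlt : (l : WithTop Lb) < t) (hG : GT l) {c : Bool} {p : Pre} (hp : p ∈ Q l)
    (h1 : rres l (⋃ k, r k) ⊆ p.r) (h2 : ∀ i ∈ L, i < l → (z, i, ⊤) ∈ p.r)
    (hT : Tv (Q l) l (S l) c p) : ¬ Mem (Q l) (S l c z) p := by
  intro hm
  have hgood := good_of_Tv hG hp hT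
  have hr0 : rres l r0 ⊆ p.r :=
    (rres_mono (hl.start.trans (Set.subset_iUnion r 0)) l).trans h1
  obtain ⟨f, j, hcopy, q0, hq0, hq0r, hq0g, hq0p, hq0l, hq0good⟩ :=
    hW.cp l hlL hlt c p hp hr0 hgood
  have htask : (l, c, q0) ∈ Tk t W L r0 := ⟨hlL, hlt, hq0, hq0r, hq0p, hq0l, hq0good⟩
  obtain ⟨n1, hn1⟩ := hl.finP (gp p.g ∪ {z}) ((gp_fin p.fg).union (Set.finite_singleton z))
  obtain ⟨n2, hn2⟩ := hl.finL (gl p.g) (gl_fin p.fg)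
  obtain ⟨k, hk, hτ⟩ := hl.task _ htask (max n1 n2)
  obtain ⟨k1, k2, k3⟩ := hn1 k ((le_max_left _ _).trans hk)
  have k4 := hn2 k ((le_max_right _ _).trans hk)
  have hqQ := hl.qQ k
  have hgq := hl.gq k
  have hav := hl.av k
  rw [hτ] at hqQ hgq hav
  have hqQ' : q k ∈ Q l := hqQ
  have hr : (q k).r ⊆ p.r := fun x hx =>
    h1 ⟨Set.mem_iUnion.2 ⟨k + 1, hl.qr k hx⟩, (bd_of_Q hqQ').1 x hx⟩
  have H : AmH p.g (q k).g z (A k) (e k) (M k) f j W L := by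
    refine ⟨bs_of_Q hp, bs_of_Q hqQ', (q k).fg, ?_, ?_, hcopy, ?_, ?_, ?_, ?_, hz.zg k, ?_, ?_,
      ?_, ?_, ?_, hl.eM k, hl.dc k⟩
    · intro i a c' e' h
      exact ((mem_Q.1 hp).2.at' i ((bd_of_Q hp).2 i ⟨_, h, rfl⟩)).dc a c' e' h
    · intro i a c' e' h
      exact ((mem_Q.1 hqQ').2.at' i ((bd_of_Q hqQ').2 i ⟨_, h, rfl⟩)).dc a c' e' h
    · intro i a c' e' h
      have h3 : Atom.st (j i) (f a) c' e' ∈ q0.g := by
        rw [hq0g]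
        exact ⟨_, h, rfl⟩
      have h4 := ((mem_Q.1 hq0).2.at' (j i) ((bd_of_Q hq0).2 (j i) ⟨_, h3, rfl⟩)).dc _ _ _ h3
      rwa [hq0g] at h4
    · rw [← hq0g]
      exact hgq
    · intro x hx hx'
      exact k1 x hx (Or.inl hx')
    · intro i hi hi'
      exact k4 i hi hi'
    · intro a m hlad
      obtain ⟨k', ⟨rfl, -⟩ | ⟨h3, -⟩⟩ := (hz.lad a m).1 hlad
      · exact (hl.frW k').1
      · exact (hl.frW k').2 a m h3
    · exact fun h => k2 (Or.inl h)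
    · exact fun b m hb h => k3 b m hb (Or.inl h)
    · exact (hz.lad _ _).2 ⟨k, Or.inl ⟨rfl, rfl⟩⟩
    · exact fun b m hb hb' => (hz.lad _ _).2 ⟨k, Or.inr ⟨hb, hb'⟩⟩
  obtain ⟨h, hh, hle1, hle2, hin⟩ := amal hp hqQ' hr H fun i hi hi' =>
    h2 i (k4 i hi hi') (WithTop.coe_lt_coe.1 ((bd_of_Q hp).2 i hi'))
  exact hav h hh hle2 z hin (hm.mono hle1)

/-- there is a new point -/
theorem exists_newPt {t : WithTop Lb} {W : Set Pt} {L : Set Lb} {r0 : Set Tr} {N : ℕ}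
    {r : ℕ → Set Tr} {τ : ℕ → Lb × Bool × Pre} {q : ℕ → Pre} {A : ℕ → Pt} {e M : ℕ → ℕ}
    (hl : Ladr t W L r0 N r τ q A e M) (hW : W.Countable) {B : Set Pt} (hB : B.Countable) :
    ∃ z, NewPt W q A M z ∧ z ∉ B ∧ z.1 = N ∧ ∀ k i v, (z, i, v) ∉ r k := by
  have hstep : ∀ k, (A k).1 < (A (k + 1)).1 := fun k => (hl.aM k).trans (hl.lev k)
  have hmonoA : StrictMono fun k => (A k).1 := strictMono_nat_of_lt_succ hstep
  have hNA : ∀ k, N < (A k).1 := fun k =>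
    lt_of_lt_of_le hl.lev0 (hmonoA.monotone (Nat.zero_le k))
  have hMA : ∀ k k', k < k' → M k < (A k').1 := fun k k' h =>
    lt_of_lt_of_le (hl.lev k) (hmonoA.monotone h)
  obtain ⟨Z, hZ⟩ : ∃ Z : Set (Pt × ℕ), Z = {x | ∃ k, (x.1 = A k ∧ x.2 = M k) ∨
    (Lad (A k) x.1 x.2 ∧ x.1.1 < M k)} := ⟨_, rfl⟩
  have hmem : ∀ x : Pt × ℕ, x ∈ Z ↔ ∃ k, (x.1 = A k ∧ x.2 = M k) ∨
      (Lad (A k) x.1 x.2 ∧ x.1.1 < M k) := fun x => by rw [hZ]; exact Iff.rfl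
  -- the levels of the block `k`
  have hblk : ∀ (x : Pt × ℕ) k, (x.1 = A k ∧ x.2 = M k) ∨
      (Lad (A k) x.1 x.2 ∧ x.1.1 < M k) → (A k).1 ≤ x.1.1 ∧ x.1.1 < M k := by
    rintro x k (⟨h1, -⟩ | ⟨h1, h2⟩)
    · rw [h1]
      exact ⟨le_rfl, hl.aM k⟩
    · exact ⟨h1.lt.le, h2⟩
  have hZ1 : ∀ x ∈ Z, N < x.1.1 := by
    intro x hx
    obtain ⟨k, hk⟩ := (hmem x).1 hx
    exact lt_of_lt_of_le (hNA k) (hblk x k hk).1
  have hZ2 : ∀ x ∈ Z, ∀ y ∈ Z, x.1.1 = y.1.1 → x = y := by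
    intro x hx y hy hxy
    obtain ⟨k, hk⟩ := (hmem x).1 hx
    obtain ⟨k', hk'⟩ := (hmem y).1 hy
    have e1 := hblk x k hk
    have e2 := hblk y k' hk'
    have hkk : k = k' := by
      rcases lt_trichotomy k k' with h | h | h
      · have := hMA k k' h
        omega
      · exact h
      · have := hMA k' k h
        omega
    subst hkk
    rcases hk with ⟨h1, h2⟩ | ⟨h1, h2⟩ <;> rcases hk' with ⟨h3, h4⟩ | ⟨h3, h4⟩
    · exact Prod.ext (h1.trans h3.symm) (h2.trans h4.symm)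
    · have h5 := h3.lt
      rw [← hxy, h1] at h5
      exact absurd h5 (lt_irrefl _)
    · have h5 := h1.lt
      rw [hxy, h3] at h5
      exact absurd h5 (lt_irrefl _)
    · have h5 := h1.eq h3 hxy
      exact Prod.ext h5.1 h5.2
  have hB' : (B ∪ W ∪ (⋃ k, gp (q k).g) ∪ ⋃ k, Prod.fst '' r k).Countable :=
    ((hB.union hW).union (Set.countable_iUnion fun k => (gp_fin (q k).fg).countable)).union
      (Set.countable_iUnion fun k => (hl.rl k).cnt.image _)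
  obtain ⟨z, hzB, hzN, hzl⟩ := exists_pt N hZ1 hZ2 hB'
  refine ⟨z, ⟨?_, ?_, ?_⟩, ?_, hzN, ?_⟩
  · exact fun h => hzB (Or.inl (Or.inl (Or.inr h)))
  · exact fun k h => hzB (Or.inl (Or.inr (Set.mem_iUnion.2 ⟨k, h⟩)))
  · intro a m
    rw [hzl, hmem]
  · exact fun h => hzB (Or.inl (Or.inl (Or.inl h)))
  · exact fun k i v h => hzB (Or.inr (Set.mem_iUnion.2 ⟨k, ⟨_, h, rfl⟩⟩))

end DSB
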