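import Pool.Agent.DSB.Gr

/-! # Enumeration of the data by the labels (package G3)

(problem MP_f2e766_lc, project DSB, part G)

A simplified copy of `SSO/GDat.lean` (there is a complete proof of the same kind; here `K = Set ℕ`,
everything is in `Type`).
Let `c := #(Set K) = 2 ^ #K`, `#Lb = c` (`Cardinal.mk_ord_toType`), `ℵ₀ ≤ #K`.
* `c ^ #K = c`, `c ^ ℵ₀ = c`, `c * c = c`, `#K ≤ c`.
* `#Pre ≤ c`: the map `p ↦ (p.r, p.g)` is injective; there are at most `c ^ ℵ₀ = c` countable
  subsets of a type `Z` with `#Z ≤ c`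
  (`Cardinal.mk_bounded_set_le`); `Z = Tr = Pt × Lb × ℕ∞`, and finite sets of atoms are countable
  sets; `Atom` is injected in
  `(Pt × Pt × K) ⊕ (Lb × Pt × K × K)`.
* `#Dat ≤ c`: `Dat = Bool → Pt → K → Option Pre`.
* So `#(Lb × Dat) = c = #Lb`; take a bijection `e : Lb ≃ Lb × Dat` and `dat := Prod.snd ∘ e`. For a
  datum `d` the set
  `{ζ | dat ζ = d}` has the cardinality `c`; the initial segment `Set.Iic ξ` has a cardinality
  `< c`, so some `ζ` with `dat ζ = d` is
  not in `Set.Iic ξ`. -/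

set_option autoImplicit false

namespace DSB

open Cardinal

private theorem hK0 : ℵ₀ ≤ #K := by
  have h : Infinite K := inferInstanceAs (Infinite (Set ℕ))
  exact Cardinal.aleph0_le_mk K

private theorem hKc : #K ≤ #(Set K) := by
  rw [Cardinal.mk_set (α := K)]
  exact (Cardinal.cantor _).le

private theorem hc0 : ℵ₀ ≤ #(Set K) := hK0.trans hKc

private theorem hcK : #(Set K) ^ #K = #(Set K) := by
  rw [Cardinal.mk_set, ← Cardinal.power_mul, Cardinal.mul_eq_self hK0]

private theorem hcω : #(Set K) ^ (ℵ₀ : Cardinal.{0}) ≤ #(Set K) := by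
  have h1 : #(Set K) ^ (ℵ₀ : Cardinal.{0}) ≤ #(Set K) ^ #K :=
    Cardinal.power_le_power_left (Cardinal.aleph0_pos.trans_le hc0).ne' hK0
  rwa [hcK] at h1

private theorem hprod {A B : Type} (hA : #A ≤ #(Set K)) (hB : #B ≤ #(Set K)) :
    #(A × B) ≤ #(Set K) := by
  rw [← Cardinal.mul_def]
  exact Cardinal.mul_le_of_le hc0 hA hB

private theorem hsum {A B : Type} (hA : #A ≤ #(Set K)) (hB : #B ≤ #(Set K)) :
    #(A ⊕ B) ≤ #(Set K) := by
  rw [← Cardinal.add_def]
  exact Cardinal.add_le_of_le hc0 hA hB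

private theorem hcnt {Z : Type} (hZ : #Z ≤ #(Set K)) :
    #{s : Set Z // #s ≤ ℵ₀} ≤ #(Set K) := by
  refine (Cardinal.mk_bounded_set_le Z ℵ₀).trans ?_
  refine le_trans (Cardinal.power_le_power_right (max_le hZ hc0)) hcω

private theorem hfun {A B : Type} (hA : #A ≤ #K) (hB : #B ≤ #(Set K)) :
    #(A → B) ≤ #(Set K) := by
  rw [← Cardinal.power_def]
  refine (Cardinal.power_le_power_right hB).trans ?_
  refine (Cardinal.power_le_power_left (Cardinal.aleph0_pos.trans_le hc0).ne' hA).trans ?_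
  rw [hcK]

private theorem hLb : #Lb = #(Set K) := Cardinal.mk_ord_toType _

private theorem hPt : #Pt ≤ #K := by
  rw [Cardinal.mk_prod, Cardinal.mk_nat, Cardinal.lift_aleph0, Cardinal.lift_id,
    Cardinal.aleph0_mul_eq hK0]

private def encN (q : ℕ) : K := {q}

private theorem encN_inj : Function.Injective encN := fun _ _ h => Set.singleton_injective h

private def encB (q : Bool) : K := encN (Encodable.encode q)

private theorem encB_inj : Function.Injective encB := fun _ _ h =>
  Encodable.encode_injective (encN_inj h)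

private def encA : Atom → (Pt × Pt × K) ⊕ (Lb × Pt × K × K)
  | .cl z a v => .inl (z, a, encN v)
  | .st l a c e => .inr (l, a, encB c, encN e)

private theorem encA_inj : Function.Injective encA := by
  intro α β h
  rcases α with ⟨z, a, v⟩ | ⟨l, a, c, e⟩ <;>
    rcases β with ⟨z', a', v'⟩ | ⟨l', a', c', e'⟩ <;>
    simp only [encA, Sum.inl.injEq, Sum.inr.injEq, Prod.mk.injEq, reduceCtorEq] at h
  · obtain ⟨h1, h2, h3⟩ := h
    rw [h1, h2, encN_inj h3]
  · obtain ⟨h1, h2, h3, h4⟩ := h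
    rw [h1, h2, encB_inj h3, encN_inj h4]

private theorem hAtom : #Atom ≤ #(Set K) := by
  have hP : #Pt ≤ #(Set K) := hPt.trans hKc
  refine (Cardinal.mk_le_of_injective encA_inj).trans ?_
  exact hsum (hprod hP (hprod hP hKc)) (hprod hLb.le (hprod hP (hprod hKc hKc)))

private theorem hTr : #Tr ≤ #(Set K) := by
  have hP : #Pt ≤ #(Set K) := hPt.trans hKc
  have hE : #ℕ∞ ≤ #(Set K) := (Cardinal.mk_le_aleph0 (α := ℕ∞)).trans hc0
  exact hprod hP (hprod hLb.le hE)

private theorem hPre : #Pre ≤ #(Set K) := by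
  let f : Pre → {s : Set Tr // #s ≤ ℵ₀} × {s : Set Atom // #s ≤ ℵ₀} :=
    fun p => (⟨p.r, Cardinal.le_aleph0_iff_set_countable.2 p.cr⟩,
      ⟨p.g, Cardinal.le_aleph0_iff_set_countable.2 p.fg.countable⟩)
  have hf : Function.Injective f := by
    intro p q h
    have h1 := congrArg (fun z => z.1.1) h
    have h2 := congrArg (fun z => z.2.1) h
    exact Pre.ext h1 h2
  refine (Cardinal.mk_le_of_injective hf).trans ?_
  exact hprod (hcnt hTr) (hcnt hAtom)

private theorem hDat : #Dat ≤ #(Set K) := by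
  have hO : #(Option Pre) ≤ #(Set K) := by
    rw [Cardinal.mk_option]
    exact Cardinal.add_le_of_le hc0 hPre (Cardinal.one_le_aleph0.trans hc0)
  have hB : #Bool ≤ #K := (Cardinal.mk_le_aleph0 (α := Bool)).trans hK0
  exact hfun hB (hfun hPt (hfun le_rfl hO))

theorem exists_dat : ∃ dat : Lb → Dat, ∀ (d : Dat) (ξ : Lb), ∃ ζ, ξ < ζ ∧ dat ζ = d := by
  have hne : Nonempty Dat := ⟨fun _ _ _ => none⟩
  have hcard : #Lb = #(Lb × Dat) := by
    apply le_antisymm
    · obtain ⟨d⟩ := hne
      exact Cardinal.mk_le_of_injective (f := fun l : Lb => (l, d)) fun _ _ h =>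
        congrArg Prod.fst h
    · exact (hprod hLb.le hDat).trans hLb.ge
  obtain ⟨e⟩ := Cardinal.eq.1 hcard
  refine ⟨fun l => (e l).2, fun d ξ => ?_⟩
  by_contra hcon
  push Not at hcon
  have h1 : #Lb ≤ #(Set.Iic ξ) := by
    refine Cardinal.mk_le_of_injective (f := fun η : Lb => (⟨e.symm (η, d), ?_⟩ : Set.Iic ξ)) ?_
    · by_contra h
      exact hcon _ (not_le.1 h) (by rw [e.apply_symm_apply])
    · intro η η' h
      have h2 := congrArg Subtype.val h
      have h3 := e.symm.injective h2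
      exact congrArg Prod.fst h3
  have h2 : #(Set.Iic ξ) < #(Set K) := by
    rw [← Set.Iio_insert]
    refine (Cardinal.mk_insert_le).trans_lt ?_
    exact Cardinal.add_lt_of_lt hc0 (Cardinal.mk_Iio_toType_ord_lt ξ)
      (Cardinal.one_lt_aleph0.trans_le hc0)
  rw [hLb] at h1
  exact absurd h1 (not_le.2 h2)

/-- the data of the labels -/
noncomputable def dat : Lb → Dat := exists_dat.choose

theorem exists_lb (d : Dat) (ξ : Lb) : ∃ ζ, ξ < ζ ∧ dat ζ = d := exists_dat.choose_spec d ξ

end DSB
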