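import Pool.Agent.DSB.Gr

/-! # Free labels, bounded sets of labels (package G2)

(problem MP_f2e766_lc, project DSB, part G)

`c := #(Set K) = 2 ^ #K`, `#Lb = c` (`Cardinal.mk_ord_toType`), `#K` is the continuum (infinite).
* `lb_bdd`: `c = 2 ^ #K` has cofinality `> #K` (`Cardinal.lt_cof_power`, `Cardinal.mk_set`): the
  range of `f` has at most `#K`
  elements, so it is bounded in `Lb` (`Ordinal.lt_cof_type`, `Order.cof`, or `Ordinal.cof_type`: a
  subset without an
  upper bound is cofinal in the well-order `Lb` which has no maximum), so there is a strict upper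
  bound.
* `no_max`: the case of one label.
* `exists_nonfree`: otherwise all proper initial segments of `Lb` are countable, so the order type
  of `Lb` is `≤ ω₁` and
  `#Lb ≤ ℵ₁ ≤ #K < c`. More elementary: for every `l` choose an injection of `Set.Iio l` in `ℕ`; if
  `f : ℕ → Lb` is a sequence
  then by `lb_bdd` some `l` is above all `f n`. If all `Iio l` are countable, take an injection of
  a subset of `K` of size `ℵ₁` in `Lb` ..;
  or: `#Lb = c`, take `l` such that `Iio l` is uncountable: `#(Iio l) < c` for all `l` and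
  `c > ℵ₁`: if all `Iio l` are
  countable then `Lb = ⋃ l, Iio l` along a cofinal subset; use `Ordinal`:
  `l ↦ typein (· < ·) l < ω₁` is injective, so
  `#Lb ≤ #(Set.Iio ω₁) = ℵ₁ ≤ 2 ^ ℵ₀ = #K < #(Set K)` (`Cardinal.aleph_one_le_continuum`,
  `Cardinal.cantor`).
* `free_inj`: let `m` be the least label which is not free (`WellFounded.min`); all labels `< m`
  are free, `m ≤ l`, and `Set.Iio m` is
  not countable, so `Set.Iio m \ C` is infinite. Choose an injection of the finite set `S` in it. -/

set_option autoImplicit false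

namespace DSB

open Cardinal

/-- the free labels: those with countably many predecessors -/
def Free (l : Lb) : Prop := (Set.Iio l).Countable

private theorem aleph0_le_K : ℵ₀ ≤ #K := by
  rw [Cardinal.mk_set, Cardinal.mk_nat]
  exact (Cardinal.cantor _).le

theorem lb_bdd {ι : Type} (hι : #ι ≤ #K) (f : ι → Lb) : ∃ l, ∀ i, f i < l := by
  by_contra hcon
  push Not at hcon
  have h1 : IsCofinal (Set.range f) := fun l => by
    obtain ⟨i, hi⟩ := hcon l
    exact ⟨f i, ⟨i, rfl⟩, hi⟩
  have h2 : Order.cof Lb ≤ #(Set.range f) := Order.cof_le h1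
  have h3 : #(Set.range f) ≤ #ι := Cardinal.mk_range_le
  have h4 : #K < Order.cof Lb := by
    rw [Ordinal.cof_toType, Cardinal.mk_set (α := K)]
    exact Cardinal.lt_cof_ord_power aleph0_le_K Cardinal.one_lt_two
  exact absurd (h4.trans_le (h2.trans (h3.trans hι))) (lt_irrefl _)

theorem no_max (l : Lb) : ∃ l', l < l' := by
  have h1 : #Unit ≤ #K := by
    rw [Cardinal.mk_fintype, Fintype.card_unit, Nat.cast_one]
    exact Cardinal.one_le_aleph0.trans aleph0_le_K
  obtain ⟨l', hl'⟩ := lb_bdd h1 fun _ : Unit => l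
  exact ⟨l', hl' ()⟩

theorem exists_nonfree : ∃ l : Lb, ¬ Free l := by
  have h1 : #K ≤ #Lb := by
    rw [Cardinal.mk_ord_toType, Cardinal.mk_set (α := K)]
    exact (Cardinal.cantor _).le
  obtain ⟨f⟩ := h1
  obtain ⟨l, hl⟩ := lb_bdd le_rfl f
  refine ⟨l, fun h => ?_⟩
  have h2 : (Set.range f).Countable := h.mono (Set.range_subset_iff.2 hl)
  have h3 : Countable K := by
    have := h2.to_subtype
    exact (Set.rangeFactorization_injective.2 f.injective).countable
  have h4 : #K ≤ ℵ₀ := Cardinal.mk_le_aleph0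
  have h5 : ℵ₀ < #K := by
    rw [Cardinal.mk_set, Cardinal.mk_nat]
    exact Cardinal.cantor _
  exact absurd h4 (not_le.2 h5)

theorem Free.mono {l l' : Lb} (h : l ≤ l') (h' : Free l') : Free l :=
  Set.Countable.mono (Set.Iio_subset_Iio h) h'

theorem free_inj {l : Lb} (hl : ¬ Free l) {S : Set Lb} (hS : S.Finite) {C : Set Lb}
    (hC : C.Countable) : ∃ j : Lb → Lb, Set.InjOn j S ∧ ∀ s ∈ S, Free (j s) ∧ j s < l ∧ j s ∉ C := by
  have hne : {m : Lb | ¬ Free m}.Nonempty := ⟨l, hl⟩
  obtain ⟨m, hm, hmin⟩ : ∃ m : Lb, ¬ Free m ∧ ∀ k : Lb, ¬ Free k → m ≤ k :=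
    ⟨(wellFounded_lt (α := Lb)).min _ hne, (wellFounded_lt (α := Lb)).min_mem _ hne,
      fun k hk => not_lt.1 ((wellFounded_lt (α := Lb)).not_lt_min _ hk)⟩
  have hinf : (Set.Iio m \ C).Infinite := by
    intro hfin
    refine hm ((hfin.countable.union hC).mono fun x hx => ?_)
    by_cases hxC : x ∈ C
    · exact Or.inr hxC
    · exact Or.inl ⟨hx, hxC⟩
  obtain ⟨g, hg⟩ := Set.countable_iff_exists_injOn.1 hS.countable
  refine ⟨fun s => (hinf.natEmbedding _ (g s) : Lb), fun s hs s' hs' h => hg hs hs'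
    ((hinf.natEmbedding _).injective (Subtype.ext h)), fun s _ => ?_⟩
  obtain ⟨h1, h2⟩ := (hinf.natEmbedding _ (g s)).2
  refine ⟨?_, lt_of_lt_of_le h1 (hmin l hl), h2⟩
  by_contra h3
  exact absurd h1 (not_lt.2 (hmin _ h3))

end DSB
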