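import Mathlib

/-! # The ground model objects: points, ladders, labels, preconditions, data

(problem MP_f2e766_lc, project DSB; definitions; paper proof `/team-store/DOWK.md`)

* `K`: a set of the size of the continuum. `Pt = ℕ × K`: the points; `z.1` is the level of `z`.
* `dec : K → (ℕ → Option (K × ℕ)) × K`: a surjection. `Lad z a m`: `a` is in the ladder of `z`,
  with the
  bound `m`. The levels of the elements of the ladder are `> z.1` and pairwise different.
* `Lb`: the labels, a well-order of the initial order type `#(Set K) = 2 ^ #K`.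
* `Atom`: `cl z a v` (the closeness of `z` to `a` is `v`), `st l a c e` (for the label `l` the
  point `a` has the
  status: colour `c`, modulus `e`).
* `Pre`: preconditions `(r, g)`: `r` is a countable set of triples `(a, l, v)`, `v ∈ ω + 1`, `g` a
  finite set of
  atoms. `q ≤ p` iff `p.r ⊆ q.r` and `p.g ⊆ q.g`.
* `rres t r`, `gres t g`, `p.res t` (`t : WithTop Lb`): the part of `r`, `g`, `p` with labels `< t`
  (all atoms
  `cl z a v` remain).
* `gp g`, `gl g`: the points and the labels which occur in the atoms in `g`.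
* `Dat`: the data of a label: for `c : Bool` and a point `x` an enumeration of preconditions (the
  name of the
  closed set `Opp ^ c`, which must be avoided by the points of colour `c`).

Conventions, different from the paper: the modulus is `e : ℕ` with strict inequalities: `N(a, e)`
is the set
of all `w` with `w = a` or `e < f(w, a)` and `f(a, x) ≤ f(w, x)` for all `x` in the ladder of `a`
of level `< e`
with `1 ≤ f(a, x)`. -/

set_option autoImplicit false

namespace DSB

open Cardinal

/-- a set of the size of the continuum -/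
abbrev K : Type := Set ℕ

/-- points -/
abbrev Pt : Type := ℕ × K

/-- labels -/
abbrev Lb : Type := (#(Set K)).ord.ToType

theorem exists_dec : ∃ d : K → (ℕ → Option (K × ℕ)) × K, Function.Surjective d := by
  have hK : #K = 𝔠 := by simp [K]
  have h1 : #(Option (K × ℕ)) = 𝔠 := by
    rw [Cardinal.mk_option, Cardinal.mk_prod, Cardinal.mk_nat, Cardinal.lift_aleph0,
      Cardinal.lift_id, hK, Cardinal.continuum_mul_aleph0]
    exact Cardinal.add_one_of_aleph0_le Cardinal.aleph0_le_continuum
  have h2 : #((ℕ → Option (K × ℕ)) × K) = #K := by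
    rw [Cardinal.mk_prod, Cardinal.mk_arrow, Cardinal.mk_nat, Cardinal.lift_id, Cardinal.lift_id,
      Cardinal.lift_id, Cardinal.lift_id, h1, hK, Cardinal.continuum_power_aleph0,
      Cardinal.continuum_mul_self]
  obtain ⟨e⟩ := Cardinal.eq.1 h2
  exact ⟨e.symm, e.symm.surjective⟩

/-- the ladders are coded by a surjection -/
noncomputable def dec : K → (ℕ → Option (K × ℕ)) × K := exists_dec.choose

theorem dec_surj : Function.Surjective dec := exists_dec.choose_spec

/-- `a` is in the ladder of `z`, with the bound `m` -/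
def Lad (z a : Pt) (m : ℕ) : Prop := z.1 < a.1 ∧ (dec z.2).1 a.1 = some (a.2, m)

theorem Lad.lt {z a : Pt} {m : ℕ} (h : Lad z a m) : z.1 < a.1 := h.1

theorem Lad.eq {z a a' : Pt} {m m' : ℕ} (h : Lad z a m) (h' : Lad z a' m') (he : a.1 = a'.1) :
    a = a' ∧ m = m' := by
  have h1 := h.2
  rw [he, h'.2] at h1
  have h2 := Option.some.inj h1
  rw [Prod.mk.injEq] at h2
  exact ⟨Prod.ext he h2.1.symm, h2.2.symm⟩

/-- atoms -/
inductive Atom : Type
  /-- the closeness of `z` to `a` is `v` -/
  | cl (z a : Pt) (v : ℕ) : Atom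
  /-- for the label `l` the point `a` has the colour `c` and the modulus `e` -/
  | st (l : Lb) (a : Pt) (c : Bool) (e : ℕ) : Atom

/-- the points of an atom -/
def Atom.pts : Atom → Set Pt
  | .cl z a _ => {z, a}
  | .st _ a _ _ => {a}

/-- the labels of an atom -/
def Atom.lbs : Atom → Set Lb
  | .cl _ _ _ => ∅
  | .st l _ _ _ => {l}

/-- renaming -/
def Atom.map (f : Pt → Pt) (j : Lb → Lb) : Atom → Atom
  | .cl z a v => .cl (f z) (f a) v
  | .st l a c e => .st (j l) (f a) c e

/-- the points which occur in `g` -/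
def gp (g : Set Atom) : Set Pt := {x | ∃ α ∈ g, x ∈ α.pts}

/-- the labels which occur in `g` -/
def gl (g : Set Atom) : Set Lb := {l | ∃ α ∈ g, l ∈ α.lbs}

/-- triples -/
abbrev Tr : Type := Pt × Lb × ℕ∞

/-- preconditions -/
@[ext]
structure Pre : Type where
  r : Set Tr
  g : Set Atom
  cr : r.Countable
  fg : g.Finite

instance : PartialOrder Pre where
  le q p := p.r ⊆ q.r ∧ p.g ⊆ q.g
  le_refl _ := ⟨subset_rfl, subset_rfl⟩
  le_trans _ _ _ h h' := ⟨h'.1.trans h.1, h'.2.trans h.2⟩
  le_antisymm _ _ h h' := Pre.ext (h'.1.antisymm h.1) (h'.2.antisymm h.2)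

theorem Pre.le_def {q p : Pre} : q ≤ p ↔ p.r ⊆ q.r ∧ p.g ⊆ q.g := Iff.rfl

/-- the part with labels `< t` -/
def rres (t : WithTop Lb) (r : Set Tr) : Set Tr := {x | x ∈ r ∧ (x.2.1 : WithTop Lb) < t}

/-- the part with labels `< t` -/
def gres (t : WithTop Lb) (g : Set Atom) : Set Atom :=
  {α | α ∈ g ∧ ∀ l ∈ α.lbs, (l : WithTop Lb) < t}

/-- the part with labels `< t` -/
def Pre.res (p : Pre) (t : WithTop Lb) : Pre :=
  ⟨rres t p.r, gres t p.g, p.cr.mono fun _ h => h.1, p.fg.subset fun _ h => h.1⟩

/-- the data of a label -/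
abbrev Dat : Type := Bool → Pt → K → Option Pre

end DSB
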