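import Pool.Agent.DSB.ANor
import Pool.Agent.DSB.ASd
import Pool.Agent.DSB.ACp

/-! # Part A: from coded data to a Dowker space with a `σ`-disjoint base

(problem MP_f2e766_lc, project DSB, part A; assembly) -/

set_option autoImplicit false

universe v

namespace DSB

open STP CPI DLN

variable {N : Type v} {E : N → N → Prop}

theorem KDow (hE : ZFC E) {Y B h : N} (d : CDat E Y B h) : DowSD E := by
  obtain ⟨τ, hτ⟩ := exists_CT hE Y B h
  exact ⟨Y, τ, CT_top d.sp hτ, CT_nor hE d.t1 d.nor hτ, CT_ncp hE d.ncp hτ, CT_sd hE d.sd hτ⟩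

end DSB
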