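import Pool.Agent.DSB.Rung

/-! # The ladder (package M6; section 2 (iii) of the paper proof)

(problem MP_f2e766_lc, project DSB, part M)

`exists_ladr`: the set `Tk` of tasks is countable (`q0` is determined by `l`, `c` and the finite
set `q0.g` of atoms with points in `W` and labels in `L`). Let `τ : ℕ → ..` be
an enumeration in which every task occurs infinitely often (`enum_inf`). Define states
`x k = (r, B, D, M)` by recursion: `x 0 = (r0, W, L, N)`; `x (k + 1)` comes from a rung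
(`exists_rung`) for the task `τ k`, `r`, `B`, `D` and `N := M`:
`(r', B ∪ gp q.g ∪ {A} ∪ {b | ∃ m, Lad A b m}, D ∪ gl q.g, M')`. (Use a subtype of states with
`RLeg t r`, `r0 ⊆ r`, countable `B ⊇ W`,
`D ⊇ L`, and `Nat.rec`, or `exists_seq`-like choice.) All fields of `Ladr` follow from `Rg`.
`finP`: the sets `T k := (gp (q k).g \ W) ∪ {A k} ∪ {b | ∃ m, Lad (A k) b m}` are pairwise
disjoint (`pB`, `fr`: `T k` is disjoint from `B k`, which contains `T i` for `i < k`), so every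
`x ∈ F` is in at most one of them and for large `k` the set `T k` misses `F` (induction on the
finite
set `F`, or: for every `x ∈ F` there is `n x` such that `x ∉ T k` for `k ≥ n x`; take the maximum).
`finL` in the same way with `gl (q k).g \ L`. -/

set_option autoImplicit false

namespace DSB

open STP

/-- the tasks of the world -/
def Tk (t : WithTop Lb) (W : Set Pt) (L : Set Lb) (r0 : Set Tr) : Set (Lb × Bool × Pre) :=
  {x | x.1 ∈ L ∧ (x.1 : WithTop Lb) < t ∧ x.2.2 ∈ Q x.1 ∧ x.2.2.r = rres x.1 r0 ∧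
    gp x.2.2.g ⊆ W ∧ gl x.2.2.g ⊆ L ∧ Good (Q x.1) x.1 (S x.1 x.2.1) x.2.2}

/-- the ladder -/
structure Ladr (t : WithTop Lb) (W : Set Pt) (L : Set Lb) (r0 : Set Tr) (N : ℕ)
    (r : ℕ → Set Tr) (τ : ℕ → Lb × Bool × Pre) (q : ℕ → Pre) (A : ℕ → Pt) (e M : ℕ → ℕ) :
    Prop where
  start : r0 ⊆ r 0
  rl : ∀ k, RLeg t (r k)
  mono : ∀ k, r k ⊆ r (k + 1)
  mem : ∀ k, τ k ∈ Tk t W L r0
  task : ∀ x ∈ Tk t W L r0, ∀ n, ∃ k, n ≤ k ∧ τ k = x
  qQ : ∀ k, q k ∈ Q (τ k).1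
  qr : ∀ k, (q k).r ⊆ r (k + 1)
  gq : ∀ k, (τ k).2.2.g ⊆ (q k).g
  lev0 : N < (A 0).1
  lev : ∀ k, M k < (A (k + 1)).1
  aM : ∀ k, (A k).1 < M k
  eM : ∀ k, e k < M k
  frW : ∀ k, Fresh (A k) W
  vA : ∀ k, ∀ i ∈ L, (i : WithTop Lb) < t → ∃ v : ℕ∞, (A k, i, v) ∈ r (k + 1) ∧ (M k : ℕ∞) ≤ v
  vb : ∀ k, ∀ i ∈ L, (i : WithTop Lb) < t → ∀ b m, Lad (A k) b m →
    ∃ v : ℕ∞, (b, i, v) ∈ r (k + 1) ∧ (m : ℕ∞) ≤ v
  dc : ∀ k, Dc (q k).g (A k) (e k)
  av : ∀ k, Av (Q (τ k).1) (S (τ k).1 (τ k).2.1) (q k) (A k) (e k)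
  finP : ∀ F : Set Pt, F.Finite → ∃ n, ∀ k, n ≤ k → (∀ x ∈ gp (q k).g, x ∈ F → x ∈ W) ∧
    A k ∉ F ∧ ∀ b m, Lad (A k) b m → b ∉ F
  finL : ∀ F : Set Lb, F.Finite → ∃ n, ∀ k, n ≤ k → ∀ i ∈ gl (q k).g, i ∈ F → i ∈ L

private theorem Ladr_atoms {W : Set Pt} {L : Set Lb} (hW : W.Countable) (hL : L.Countable) :
    {α : Atom | α.pts ⊆ W ∧ α.lbs ⊆ L}.Countable := by
  have := hW.to_subtype
  have := hL.to_subtype
  have h1 : (Set.range fun x : W × W × ℕ => Atom.cl x.1 x.2.1 x.2.2).Countable :=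
    Set.countable_range _
  have h2 : (Set.range fun x : L × W × Bool × ℕ =>
      Atom.st x.1 x.2.1 x.2.2.1 x.2.2.2).Countable := Set.countable_range _
  refine (h1.union h2).mono ?_
  rintro α ⟨ha, hb⟩
  cases α with
  | cl z a v =>
    have hz : z ∈ W := ha (Set.mem_insert _ _)
    have haa : a ∈ W := ha (Set.mem_insert_of_mem _ (Set.mem_singleton _))
    exact Or.inl ⟨(⟨z, hz⟩, ⟨a, haa⟩, v), rfl⟩
  | st l a c e =>
    have hz : l ∈ L := hb (Set.mem_singleton _)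
    have haa : a ∈ W := ha (Set.mem_singleton _)
    exact Or.inr ⟨(⟨l, hz⟩, ⟨a, haa⟩, c, e), rfl⟩

private theorem Ladr_tk (t : WithTop Lb) {W : Set Pt} {L : Set Lb} (r0 : Set Tr)
    (hW : W.Countable) (hL : L.Countable) : (Tk t W L r0).Countable := by
  have h1 : {g : Set Atom | g.Finite ∧ g ⊆ {α : Atom | α.pts ⊆ W ∧ α.lbs ⊆ L}}.Countable :=
    Set.countable_ofPred_finite_subset (Ladr_atoms hW hL)
  have h2 : (L ×ˢ ((Set.univ : Set Bool) ×ˢ
      {g : Set Atom | g.Finite ∧ g ⊆ {α : Atom | α.pts ⊆ W ∧ α.lbs ⊆ L}})).Countable :=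
    hL.prod ((Set.to_countable _).prod h1)
  refine Set.MapsTo.countable_of_injOn (f := fun x : Lb × Bool × Pre => (x.1, x.2.1, x.2.2.g))
    ?_ ?_ h2
  · rintro ⟨l, c, p⟩ ⟨a1, a2, a3, a4, a5, a6, a7⟩
    refine ⟨a1, trivial, p.fg, ?_⟩
    intro α hα
    exact ⟨fun y hy => a5 ⟨α, hα, hy⟩, fun y hy => a6 ⟨α, hα, hy⟩⟩
  · rintro ⟨l, c, p⟩ ⟨a1, a2, a3, a4, a5, a6, a7⟩ ⟨l', c', p'⟩ ⟨b1, b2, b3, b4, b5, b6, b7⟩ he
    simp only [Prod.mk.injEq] at he
    obtain ⟨rfl, rfl, he⟩ := he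
    have hr : p.r = p'.r := a4.trans b4.symm
    have hp : p = p' := Pre.ext hr he
    rw [hp]

private structure Ladr_St (t : WithTop Lb) (W : Set Pt) (L : Set Lb) (r0 : Set Tr) where
  r : Set Tr
  B : Set Pt
  D : Set Lb
  M : ℕ
  h1 : RLeg t r
  h2 : r0 ⊆ r
  hB : B.Countable
  hD : D.Countable
  h6 : W ⊆ B
  h7 : L ⊆ D

private structure Ladr_Sp {t : WithTop Lb} {W : Set Pt} {L : Set Lb} {r0 : Set Tr}
    (x : Lb × Bool × Pre) (s s' : Ladr_St t W L r0) (q : Pre) (A : Pt) (e : ℕ) : Prop where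
  rg : Rg t W L x.1 x.2.1 x.2.2.g s.r s'.r s.B s.D s.M q A e s'.M
  bB : s.B ⊆ s'.B
  dD : s.D ⊆ s'.D
  gB : gp q.g ⊆ s'.B
  aB : A ∈ s'.B
  lB : ∀ b m, Lad A b m → b ∈ s'.B
  gD : gl q.g ⊆ s'.D

private theorem Ladr_step {t : WithTop Lb} {W : Set Pt} {L : Set Lb} {r0 : Set Tr}
    (hW : World t W L r0) (x : {x // x ∈ Tk t W L r0}) (s : Ladr_St t W L r0) :
    ∃ (s' : Ladr_St t W L r0) (q : Pre) (A : Pt) (e : ℕ), Ladr_Sp x.1 s s' q A e := by
  obtain ⟨⟨l, c, p⟩, a1, a2, a3, a4, a5, a6, a7⟩ := x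
  obtain ⟨r', q, A, e, M, h⟩ := exists_rung hW a1 a2 a3 a4 a5 a6 a7 s.h1 s.h2 s.hB s.hD s.h6
    s.h7 s.M
  refine ⟨⟨r', s.B ∪ gp q.g ∪ {A} ∪ {b | ∃ m, Lad A b m}, s.D ∪ gl q.g, M, h.rl,
    s.h2.trans h.ext, ?_, ?_, ?_, ?_⟩, q, A, e, ?_⟩
  · exact ((s.hB.union (gp_fin q.fg).countable).union (Set.countable_singleton _)).union
      (lad_cnt A)
  · exact s.hD.union (gl_fin q.fg).countable
  · exact fun y hy => Or.inl (Or.inl (Or.inl (s.h6 hy)))
  · exact fun y hy => Or.inl (s.h7 hy)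
  · exact
      { rg := h
        bB := fun y hy => Or.inl (Or.inl (Or.inl hy))
        dD := fun y hy => Or.inl hy
        gB := fun y hy => Or.inl (Or.inl (Or.inr hy))
        aB := Or.inl (Or.inr rfl)
        lB := fun b m hb => Or.inr ⟨m, hb⟩
        gD := fun y hy => Or.inr hy }

private theorem Ladr_ev {α : Type*} {B T : ℕ → Set α} (h1 : ∀ k, B k ⊆ B (k + 1))
    (h2 : ∀ k, T k ⊆ B (k + 1)) (h3 : ∀ k, ∀ y ∈ T k, y ∉ B k) {F : Set α} (hF : F.Finite) :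
    ∃ n, ∀ k, n ≤ k → ∀ y ∈ T k, y ∉ F := by
  have h : ∀ y, ∃ n, ∀ k, n ≤ k → y ∉ T k := by
    intro y
    by_cases hy : ∃ k, y ∈ T k
    · obtain ⟨k0, hk0⟩ := hy
      refine ⟨k0 + 1, fun k hk hc => h3 k y hc ?_⟩
      have hm : Monotone B := monotone_nat_of_le_succ h1
      exact hm hk (h2 k0 hk0)
    · push Not at hy
      exact ⟨0, fun k _ => hy k⟩
  choose n hn using h
  refine ⟨hF.toFinset.sup n, fun k hk y hy hyF => ?_⟩
  exact hn y k ((Finset.le_sup (hF.mem_toFinset.2 hyF)).trans hk) hy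

theorem exists_ladr {t : WithTop Lb} {W : Set Pt} {L : Set Lb} {r0 : Set Tr}
    (hW : World t W L r0) (hne : (Tk t W L r0).Nonempty) (N : ℕ) :
    ∃ r τ q A e M, Ladr t W L r0 N r τ q A e M := by
  obtain ⟨τ, hτ1, hτ2⟩ := enum_inf (Ladr_tk t r0 hW.cW hW.cL) hne
  choose F q A e hF using Ladr_step hW
  let s0 : Ladr_St t W L r0 := ⟨r0, W, L, N, hW.rl, subset_rfl, hW.cW, hW.cL, subset_rfl,
    subset_rfl⟩
  obtain ⟨x, hx0, hxs⟩ : ∃ x : ℕ → Ladr_St t W L r0, x 0 = s0 ∧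
      ∀ k, x (k + 1) = F ⟨τ k, hτ1 k⟩ (x k) :=
    ⟨fun k => Nat.rec s0 (fun k s => F ⟨τ k, hτ1 k⟩ s) k, rfl, fun k => rfl⟩
  have hS : ∀ k, Ladr_Sp (τ k) (x k) (x (k + 1)) (q ⟨τ k, hτ1 k⟩ (x k)) (A ⟨τ k, hτ1 k⟩ (x k))
      (e ⟨τ k, hτ1 k⟩ (x k)) := by
    intro k
    rw [hxs k]
    exact hF ⟨τ k, hτ1 k⟩ (x k)
  generalize hq' : (fun k => q ⟨τ k, hτ1 k⟩ (x k)) = q'
  generalize hA' : (fun k => A ⟨τ k, hτ1 k⟩ (x k)) = A'
  generalize he' : (fun k => e ⟨τ k, hτ1 k⟩ (x k)) = e'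
  have hS' : ∀ k, Ladr_Sp (τ k) (x k) (x (k + 1)) (q' k) (A' k) (e' k) := by
    intro k
    rw [← hq', ← hA', ← he']
    exact hS k
  refine ⟨fun k => (x k).r, τ, q', A', e', fun k => (x (k + 1)).M, ?_⟩
  exact
    { start := (x 0).h2
      rl := fun k => (x k).h1
      mono := fun k => (hS' k).rg.ext
      mem := hτ1
      task := hτ2
      qQ := fun k => (hS' k).rg.qQ
      qr := fun k => (hS' k).rg.qr
      gq := fun k => (hS' k).rg.gq
      lev0 := by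
        have h := (hS' 0).rg.lev
        rw [hx0] at h
        exact h
      lev := fun k => (hS' (k + 1)).rg.lev
      aM := fun k => (hS' k).rg.aM
      eM := fun k => (hS' k).rg.eM
      frW := fun k => ⟨fun h => (hS' k).rg.fr.1 ((x k).h6 h),
        fun a m ha h => (hS' k).rg.fr.2 a m ha ((x k).h6 h)⟩
      vA := fun k => (hS' k).rg.vA
      vb := fun k => (hS' k).rg.vb
      dc := fun k => (hS' k).rg.dc
      av := fun k => (hS' k).rg.av
      finP := by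
        intro Fs hFs
        obtain ⟨n, hn⟩ := Ladr_ev (B := fun k => (x k).B)
          (T := fun k => {y | (y ∈ gp (q' k).g ∧ y ∉ W) ∨ y = A' k ∨ ∃ m, Lad (A' k) y m})
          (fun k => (hS' k).bB) (by
            rintro k y (hy | rfl | ⟨m, hy⟩)
            · exact (hS' k).gB hy.1
            · exact (hS' k).aB
            · exact (hS' k).lB y m hy) (by
            rintro k y (hy | rfl | ⟨m, hy⟩) hc
            · exact hy.2 ((hS' k).rg.pB ⟨hy.1, hc⟩)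
            · exact (hS' k).rg.fr.1 hc
            · exact (hS' k).rg.fr.2 y m hy hc) hFs
        refine ⟨n, fun k hk => ⟨fun y hy hyF => ?_, fun hc => ?_, fun b m hb hc => ?_⟩⟩
        · by_contra hyW
          exact hn k hk y (Or.inl ⟨hy, hyW⟩) hyF
        · exact hn k hk (A' k) (Or.inr (Or.inl rfl)) hc
        · exact hn k hk b (Or.inr (Or.inr ⟨m, hb⟩)) hc
      finL := by
        intro Fs hFs
        obtain ⟨n, hn⟩ := Ladr_ev (B := fun k => (x k).D)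
          (T := fun k => {y | y ∈ gl (q' k).g ∧ y ∉ L})
          (fun k => (hS' k).dD) (by
            rintro k y hy
            exact (hS' k).gD hy.1) (by
            rintro k y hy hc
            exact hy.2 ((hS' k).rg.lD ⟨hy.1, hc⟩)) hFs
        refine ⟨n, fun k hk y hy hyF => ?_⟩
        by_contra hyL
        exact hn k hk y ⟨hy, hyL⟩ hyF }

end DSB
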