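import Pool.Agent.CPI.Lang

/-! # General topology inside a structure `(N, E)`: Dowker spaces with a `σ`-disjoint base

(problem MP_f2e766_lc, project DSB; definitions, no sorry in this file)

Every definition quantifies over the elements of `N` only. `Sub`, `Val`, `IsFun`, `IsOm` are the
notions of `STP/Lang.lean` (inclusion, `(x, y) ∈ f`, function with domain `a`, the set of natural
numbers), `IsCnt`, `IsFin`, `IsTop`, `IsCov` those of `CPI/Lang.lean` (countable, finite, topology,
cover). -/

set_option autoImplicit false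

universe v

namespace DSB

open STP CPI

section

variable {N : Type v} (E : N → N → Prop)

/-- the space `(X, τ)` is `T₁`: the complement of every point is open -/
def IsT1 (X τ : N) : Prop :=
  ∀ x, E x X → ∃ U, E U τ ∧ ∀ y, E y U ↔ E y X ∧ y ≠ x

/-- `A` is a closed subset of the space `(X, τ)` -/
def IsClo (X τ A : N) : Prop :=
  Sub E A X ∧ ∃ U, E U τ ∧ ∀ y, E y U ↔ E y X ∧ ¬ E y A

/-- the space `(X, τ)` is normal: it is `T₁`, and any two disjoint closed sets are subsets of
disjoint open
sets -/
def IsNor (X τ : N) : Prop :=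
  IsT1 E X τ ∧ ∀ A B, IsClo E X τ A → IsClo E X τ B → (∀ z, ¬ (E z A ∧ E z B)) →
    ∃ U V, E U τ ∧ E V τ ∧ Sub E A U ∧ Sub E B V ∧ ∀ z, ¬ (E z U ∧ E z V)

/-- the family `S` of sets is locally finite: every point has an open neighbourhood `U` such that
all
members of `S` which meet `U` are in a finite set `F` -/
def IsLF (X τ S : N) : Prop :=
  ∀ x, E x X → ∃ U F, E U τ ∧ E x U ∧ IsFin E F ∧ ∀ V z, E V S → E z U → E z V → E V F

/-- the space `(X, τ)` is countably paracompact: every countable open cover `S` has a locally finite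
open refinement `S'` which covers the space -/
def IsCP (X τ : N) : Prop :=
  ∀ S, Sub E S τ → IsCnt E S → IsCov E X S → ∃ S', Sub E S' τ ∧ IsCov E X S' ∧
    (∀ V, E V S' → ∃ U, E U S ∧ Sub E V U) ∧ IsLF E X τ S'

/-- the space with topology `τ` has a `σ`-disjoint base: there are sets `b n` (`n ∈ ω`) of pairwise
disjoint open sets whose union is a base -/
def HasSDB (τ : N) : Prop :=
  ∃ w b, IsOm E w ∧ IsFun E b w ∧
    (∀ n B, Val E b n B → Sub E B τ ∧ ∀ U V z, E U B → E V B → E z U → E z V → U = V) ∧
    ∀ U x, E U τ → E x U → ∃ n B V, Val E b n B ∧ E V B ∧ E x V ∧ Sub E V U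

/-- There is a Dowker space with a `σ`-disjoint base: a normal space which is not countably
paracompact
and has a `σ`-disjoint base. -/
def DowSD : Prop :=
  ∃ X τ, IsTop E X τ ∧ IsNor E X τ ∧ ¬ IsCP E X τ ∧ HasSDB E τ

end

end DSB
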