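import Pool.Agent.DSB.Typed
import Pool.Agent.DSB.Coded
import Pool.Agent.DLN.Nam

/-! # Names of typed spaces; truth values of the coded statements

(problem MP_f2e766_lc, project DSB; no sorry in this file)

`DLN.pN A`: the set of (codes of) all elements of `A`. The membership relation of a typed space `ρ`
is the
name `CPI.rn ρ`. `nm ρ` (`ρ : A → ℕ → RO P`): the set of the pairs `(kn a, nn n)` with the truth
value
`ρ a n`. -/

set_option autoImplicit false

namespace DSB

open STP STP.BSet CPI DLN

section

variable {P : Type} [PartialOrder P] {A C : Type}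

/-- the name of the set of all pairs `(kn a, nn n)` with the truth values `ρ a n` -/
noncomputable def nm (ρ : A → ℕ → RO P) : BSet (RO P) :=
  BSet.mk (A × ℕ) (fun z => opN (kn z.1) (nn z.2)) fun z => ρ z.1 z.2

variable (Y B h H K w D : BSet (RO P))

instance : TV fun G => CT1 (EG G) (NG.mk G Y) (NG.mk G B) (NG.mk G h) := by
  unfold CT1
  infer_instance

instance : TV fun G => COp (EG G) (NG.mk G Y) (NG.mk G B) (NG.mk G h) (NG.mk G H) := by
  unfold COp
  infer_instance

instance : TV fun G => CNor (EG G) (NG.mk G Y) (NG.mk G B) (NG.mk G h) := by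
  unfold CNor
  infer_instance

instance : TV fun G => CSd (EG G) (NG.mk G Y) (NG.mk G B) (NG.mk G h) := by
  unfold CSd
  infer_instance

instance : TV fun G => CSc (EG G) (NG.mk G w) (NG.mk G Y) (NG.mk G B) (NG.mk G h)
    (NG.mk G D) := by
  unfold CSc
  infer_instance

instance : TV fun G => CNcp (EG G) (NG.mk G Y) (NG.mk G B) (NG.mk G h) := by
  unfold CNcp
  infer_instance

end

end DSB
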