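import Pool.Agent.STP.RO

/-! # The typed statements

(problem MP_f2e766_lc, project DSB; definitions, no sorry in this file)

`P` is a poset, `A` the type of points, `C` the type of codes of basic open sets, `ρ a b : RO P` the
truth value of: the point `a` is in the basic set with the code `b`. -/

set_option autoImplicit false

namespace DSB

open STP

section

variable {P : Type} [PartialOrder P] {A C : Type} (ρ : A → C → RO P)

/-- the basic sets cover the space, and are directed at every point -/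
structure TSp : Prop where
  ex : ∀ a, ∃ b, ∀ q : P, q ∈ ρ a b
  nb : ∀ (q : P) (a : A) (b b' : C), q ∈ ρ a b → q ∈ ρ a b' → ∃ r ≤ q, ∃ c, r ∈ ρ a c ∧
    ∀ a', ∀ r' ≤ r, r' ∈ ρ a' c → r' ∈ ρ a' b ∧ r' ∈ ρ a' b'

/-- the space is `T₁` -/
def TT1 : Prop :=
  ∀ (q : P) (a a' : A), a ≠ a' → ∃ r ≤ q, ∃ b, r ∈ ρ a b ∧ ∀ r' ≤ r, r' ∉ ρ a' b

/-- `q` forces that the set `U` is open -/
def TOp (q : P) (U : A → RO P) : Prop :=
  ∀ r ≤ q, ∀ a, r ∈ U a → ∃ r' ≤ r, ∃ b, r' ∈ ρ a b ∧ ∀ a', ∀ r'' ≤ r', r'' ∈ ρ a' b → r'' ∈ U a'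

/-- `q` forces that the set `H` is closed -/
def TClo (q : P) (H : A → RO P) : Prop :=
  ∀ r ≤ q, ∀ a, (∀ r' ≤ r, r' ∉ H a) →
    ∃ r' ≤ r, ∃ b, r' ∈ ρ a b ∧ ∀ a', ∀ r'' ≤ r', r'' ∈ ρ a' b → r'' ∉ H a'

/-- disjoint closed sets are subsets of disjoint open sets -/
def TNor : Prop :=
  ∀ (q : P) (H : Bool → A → RO P), (∀ c, TClo ρ q (H c)) →
    (∀ r ≤ q, ∀ a, ¬ (r ∈ H false a ∧ r ∈ H true a)) →
    ∃ U : Bool → A → RO P, (∀ c, TOp ρ q (U c)) ∧ (∀ c, ∀ r ≤ q, ∀ a, r ∈ H c a → r ∈ U c a) ∧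
      ∀ r ≤ q, ∀ a, ¬ (r ∈ U false a ∧ r ∈ U true a)

/-- basic sets of different codes with the same index are disjoint -/
def TSd : Prop :=
  ∃ s : C → ℕ, ∀ b c, s b = s c → ∀ (a : A) (q : P), q ∈ ρ a b → q ∈ ρ a c → b = c

/-- there is a decreasing sequence `D` of closed ground model sets with empty intersection such that
no sequence `K` of closed sets, `K n` disjoint from `D n`, covers the space -/
def TNcp : Prop :=
  ∃ D : ℕ → Set A, (∀ n (q : P) (a : A), a ∉ D n → ∃ r ≤ q, ∃ b, r ∈ ρ a b ∧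
      ∀ a' ∈ D n, ∀ r' ≤ r, r' ∉ ρ a' b) ∧
    (∀ a, ∃ n, a ∉ D n) ∧ (∀ m n, m ≤ n → D n ⊆ D m) ∧
    ∀ (q : P) (K : ℕ → A → RO P), (∀ n, TClo ρ q (K n)) →
      (∀ n, ∀ a ∈ D n, ∀ r ≤ q, r ∉ K n a) → ∃ r ≤ q, ∃ a, ∀ n, ∀ r' ≤ r, r' ∉ K n a

/-- the typed data of a Dowker space with a `σ`-disjoint base -/
structure TDat : Prop where
  sp : TSp ρ
  t1 : TT1 ρ
  nor : TNor ρ
  sd : TSd ρ
  ncp : TNcp ρ

end

end DSB
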