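import Pool.Agent.DSB.GFree
import Pool.Agent.DSB.GDat
import Pool.Agent.DSB.Typed

/-! # The poset

(problem MP_f2e766_lc, project DSB; definitions and immediate consequences, no sorry in this file;
paper
proof `/team-store/DOWK.md`)

* `Bs g`: the closeness atoms in `g` are valid and functional.
* `Dc g a e`: the closeness of `a` to all elements of its ladder of level `< e` is decided in `g`.
  `In g w a e`: it is decided in `g`
  that `w ∈ N(a, e)`.
* For a set `Q` of preconditions (a poset): `Mem Q s q` (`s : K → Option Pre`): `q` is below a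
  member of the family `s` which is in
  `Q`. `Av Q s p a e` (`s : Pt → K → Option Pre`): `p` forces that `N(a, e)` is disjoint from the
  set with the name `s`. `Act Q s`
  (`s : Dat`): the sets with the names `s false`, `s true` are (forced by all conditions to be)
  closed and disjoint.
* `Good Q l s p`: `p` is good at the label `l` for the name `s`. `Tv Q l s c p` (`s : Dat`): `p`
  forces `T(l) = c` (`false` is the colour
  `0`: `T(l) = false` iff some condition in the generic filter is good for `s false`).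
* `eff Q l`: the effective data of `l`: `dat l` if `l` is not free and `Act Q (dat l)`, otherwise
  the empty names.
* `RAt Q l s r`, `GAt Q l s p`: the legality conditions at the label `l` for `r` and for `g`.
* `PL l`: the legal preconditions with labels `< l` (recursion on `l`). `Q t` (`t : WithTop Lb`):
  the legal preconditions with labels
  `< t`; `Q l = PL l`. `S l = eff (Q l) l`.
* `RLeg t r`: `r` is legal. `GLeg t p`: the conditions for `g`.
  `mem_Q : p ∈ Q t ↔ RLeg t p.r ∧ GLeg t p`.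
* `GT t`: the main lemma for `t`. `Cn`: the poset of all conditions, `Q ⊤`. `rho w (a, e)`: the
  truth value of `w ∈ N(a, e)`. -/

set_option autoImplicit false

namespace DSB

open STP

/-- the closeness atoms are valid and functional -/
structure Bs (g : Set Atom) : Prop where
  val : ∀ z a v, .cl z a v ∈ g → ∃ m, Lad z a m ∧ v ≤ m
  fn : ∀ z a v v', .cl z a v ∈ g → .cl z a v' ∈ g → v = v'

/-- the closeness of `a` to the elements of its ladder of level `< e` is decided -/
def Dc (g : Set Atom) (a : Pt) (e : ℕ) : Prop :=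
  ∀ x m, Lad a x m → x.1 < e → ∃ v, .cl a x v ∈ g

/-- `w ∈ N(a, e)` is decided -/
def In (g : Set Atom) (w a : Pt) (e : ℕ) : Prop :=
  Dc g a e ∧ (w = a ∨ ((∃ v, e < v ∧ .cl w a v ∈ g) ∧
    ∀ x v, .cl a x v ∈ g → x.1 < e → 1 ≤ v → ∃ v', v ≤ v' ∧ .cl w x v' ∈ g))

/-- `q` is below a member of the family -/
def Mem (Q : Set Pre) (s : K → Option Pre) (q : Pre) : Prop :=
  ∃ k b, s k = some b ∧ b ∈ Q ∧ q ≤ b

/-- `p` forces that `N(a, e)` is disjoint from the set with the name `s` -/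
def Av (Q : Set Pre) (s : Pt → K → Option Pre) (p : Pre) (a : Pt) (e : ℕ) : Prop :=
  ∀ q ∈ Q, q ≤ p → ∀ w, In q.g w a e → ¬ Mem Q (s w) q

/-- the two names are names of disjoint closed sets -/
structure Act (Q : Set Pre) (s : Dat) : Prop where
  clo : ∀ c, ∀ p ∈ Q, ∀ x, (∀ q ∈ Q, q ≤ p → ¬ Mem Q (s c x) q) →
    ∃ q ∈ Q, q ≤ p ∧ ∃ e, Dc q.g x e ∧ Av Q (s c) q x e
  dis : ∀ p ∈ Q, ∀ x, Mem Q (s false x) p → Mem Q (s true x) p → False

/-- neither `z` nor an element of its ladder is in `B` -/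
def Fresh (z : Pt) (B : Set Pt) : Prop := z ∉ B ∧ ∀ a m, Lad z a m → a ∉ B

/-- the condition `p` is good at the label `l` for the name `s` -/
def Good (Q : Set Pre) (l : Lb) (s : Pt → K → Option Pre) (p : Pre) : Prop :=
  ∀ p' ∈ Q, p' ≤ p → ∀ (N : ℕ) (B : Set Pt) (C : Set Lb), B.Countable → C.Countable →
    ∃ q ∈ Q, q ≤ p' ∧ ∃ z e, N ≤ z.1 ∧ Fresh z B ∧ (∀ i ∈ C, i < l → (z, i, ⊤) ∈ q.r) ∧
      Dc q.g z e ∧ Av Q s q z e

/-- `p` forces `T(l) = c` -/
def Tv (Q : Set Pre) (l : Lb) (s : Dat) : Bool → Pre → Prop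
  | false, p => Good Q l (s false) p
  | true, p => ∀ q ∈ Q, q ≤ p → ¬ Good Q l (s false) q

open Classical in
/-- the effective data of the label `l` -/
noncomputable def eff (Q : Set Pre) (l : Lb) : Dat :=
  if ¬ Free l ∧ Act Q (dat l) then dat l else fun _ _ _ => none

/-- legality at the label `l`: the part `r` -/
structure RAt (Q : Set Pre) (l : Lb) (s : Dat) (r : Set Tr) : Prop where
  fn : ∀ a v v', (a, l, v) ∈ r → (a, l, v') ∈ r → v = v'
  lad : ∀ z, (z, l, ⊤) ∈ r → ∀ a m, Lad z a m → ∃ v : ℕ∞, (a, l, v) ∈ r ∧ (m : ℕ∞) ≤ v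
  out : ∀ z, (z, l, ⊤) ∈ r → ∀ c, ∀ q ∈ Q, rres l r ⊆ q.r → Tv Q l s c q → ¬ Mem Q (s c z) q

/-- legality at the label `l`: the part `g` -/
structure GAt (Q : Set Pre) (l : Lb) (s : Dat) (p : Pre) : Prop where
  dom : ∀ a c e, .st l a c e ∈ p.g → ∃ v, (a, l, v) ∈ p.r
  dc : ∀ a c e, .st l a c e ∈ p.g → Dc p.g a e
  ag : ∀ w a b c c' e e', .st l a c e ∈ p.g → .st l b c' e' ∈ p.g → In p.g w a e →
    In p.g w b e' → c = c'
  tv : ∀ a c (e : ℕ) (v : ℕ∞), .st l a c e ∈ p.g → (a, l, v) ∈ p.r → (e : ℕ∞) < v → Tv Q l s c (p.res l)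
  av : ∀ a c e, .st l a c e ∈ p.g → Av Q (s c) (p.res l) a e

/-- the labels of `p` are `< t` -/
def Bd (t : WithTop Lb) (p : Pre) : Prop :=
  (∀ x ∈ p.r, (x.2.1 : WithTop Lb) < t) ∧ ∀ l ∈ gl p.g, (l : WithTop Lb) < t

/-- the recursion -/
noncomputable def PF (l : Lb) (P : ∀ l' < l, Set Pre) : Set Pre :=
  {p | Bs p.g ∧ Bd l p ∧ ∀ l' (h : l' < l), RAt (P l' h) l' (eff (P l' h) l') p.r ∧
    GAt (P l' h) l' (eff (P l' h) l') p}

/-- the legal preconditions with labels `< l` -/
noncomputable def PL : Lb → Set Pre := (wellFounded_lt (α := Lb)).fix PF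

theorem PL_eq (l : Lb) : PL l = {p | Bs p.g ∧ Bd l p ∧ ∀ l' < l,
    RAt (PL l') l' (eff (PL l') l') p.r ∧ GAt (PL l') l' (eff (PL l') l') p} := by
  unfold PL
  rw [WellFounded.fix_eq]
  rfl

/-- the legal preconditions with labels `< t` -/
noncomputable def Q (t : WithTop Lb) : Set Pre :=
  {p | Bs p.g ∧ Bd t p ∧ ∀ l : Lb, (l : WithTop Lb) < t →
    RAt (PL l) l (eff (PL l) l) p.r ∧ GAt (PL l) l (eff (PL l) l) p}

theorem Q_coe (l : Lb) : Q l = PL l := by
  rw [PL_eq]
  unfold Q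
  simp only [WithTop.coe_lt_coe]

/-- the effective data of the label `l` -/
noncomputable def S (l : Lb) : Dat := eff (Q l) l

/-- `r` is legal, with labels `< t` -/
structure RLeg (t : WithTop Lb) (r : Set Tr) : Prop where
  cnt : r.Countable
  bd : ∀ x ∈ r, (x.2.1 : WithTop Lb) < t
  at' : ∀ l : Lb, (l : WithTop Lb) < t → RAt (Q l) l (S l) r

/-- the conditions for `g` -/
structure GLeg (t : WithTop Lb) (p : Pre) : Prop where
  bs : Bs p.g
  bd : ∀ l ∈ gl p.g, (l : WithTop Lb) < t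
  at' : ∀ l : Lb, (l : WithTop Lb) < t → GAt (Q l) l (S l) p

theorem mem_Q {t : WithTop Lb} {p : Pre} : p ∈ Q t ↔ RLeg t p.r ∧ GLeg t p := by
  constructor
  · intro h
    refine ⟨⟨p.cr, h.2.1.1, fun l hl => ?_⟩, ⟨h.1, h.2.1.2, fun l hl => ?_⟩⟩
    · have := (h.2.2 l hl).1
      rwa [← Q_coe] at this
    · have := (h.2.2 l hl).2
      rwa [← Q_coe] at this
  · rintro ⟨h1, h2⟩
    refine ⟨h2.bs, ⟨h1.bd, h2.bd⟩, fun l hl => ⟨?_, ?_⟩⟩
    · have := h1.at' l hl
      rwa [S, Q_coe] at this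
    · have := h2.at' l hl
      rwa [S, Q_coe] at this

/-- the main lemma for `t`: every legal `r` can be extended by a fresh point of any given level,
declared for
the labels in a given countable set -/
def GT (t : WithTop Lb) : Prop :=
  ∀ r, RLeg t r → ∀ (N : ℕ) (B : Set Pt) (C : Set Lb), B.Countable → C.Countable →
    ∃ r' z, RLeg t r' ∧ r ⊆ r' ∧ z.1 = N ∧ Fresh z B ∧
      ∀ i ∈ C, (i : WithTop Lb) < t → (z, i, ⊤) ∈ r'

/-- the poset of all conditions -/
abbrev Cn : Type := {p : Pre // p ∈ Q ⊤}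

/-- codes of basic sets -/
abbrev Cod : Type := Pt × ℕ

/-- the truth value of `w ∈ N(a, e)` -/
def rho (w : Pt) (b : Cod) : RO Cn := RO.cl {p | In p.1.g w b.1 b.2}

end DSB
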