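import Pool.Agent.DSB.Book
import Pool.Agent.DSB.RExt

/-! # Roots of good conditions (package M2; section 2 (i) of the paper proof)

(problem MP_f2e766_lc, project DSB, part M)

`root`: suppose that `Phi l s p.g N r1 A C` fails for all legal `r1 ⊇ p.r` and all finite `A`, `C`.
Apply `book` to the following data.
* `α`: the states `(r, B, D)`: `RLeg l r`, `p.r ⊆ r`, `B : Set Pt`, `D : Set Lb` countable; the
  order is inclusion of all three components.
* tasks: pairs `(A, C) : Set Pt × Set Lb`; `tk (r, B, D)`: the pairs with `A` finite, `A ⊆ B`, `C`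
  finite, `C ⊆ D` (countable:
  `Set.countable_setOf_finite_subset`). `hub`: the unions (`RLeg.chain`); a finite subset of an
  increasing union is contained in a member
  (`Set.Finite.subset_iUnion..` / `Set.Finite.induction_on`, or
  `DirectedOn.exists_mem_subset_of_finset_subset_biUnion`).
* `D (A, C) c d`: if `A`, `C` are finite then there is no `q` as in the definition of `Phi` for
  `r' = d.r`, `B = d.B`, `D = d.D`. `hD`: `Phi .. c.r A C` fails, so there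
  are `r' ⊇ c.r`, `B'`, `D'` without such a `q`; `d := (r', c.B ∪ B', c.D ∪ D')`: a `q` for
  `(d.B, d.D)` would be one for `(B', D')`.
Start with `(p.r, ∅, ∅)`; let `b` be the result. `p' := p.wr b.r` is in `Q l` (`rext`), `p' ≤ p`.
Goodness of `p` for `p'`, `N`, `b.B`, `b.D` gives `q ∈ Q l`, `q ≤ p'`, `z`, `e`. Let
`A := gp q.g ∩ b.B`, `C := gl q.g ∩ b.D` (finite: `gp_fin`, `gl_fin`). The task `(A, C)` of `b`
gives `c ≤ d ≤ b` with `D (A, C) c d`; but `q` is as in the definition of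
`Phi` for `d` (`gp q.g ∩ d.B ⊆ A`, fresh for `d.B ⊆ b.B`, ...). Contradiction. -/

set_option autoImplicit false

namespace DSB

open STP

/-- the root property: `A`, `C` are the root (points and labels) of good extensions -/
def Phi (l : Lb) (s : Pt → K → Option Pre) (g : Set Atom) (N : ℕ) (r1 : Set Tr) (A : Set Pt)
    (C : Set Lb) : Prop :=
  ∀ r', RLeg l r' → r1 ⊆ r' → ∀ (B : Set Pt) (D : Set Lb), B.Countable → D.Countable →
    ∃ q ∈ Q l, r' ⊆ q.r ∧ g ⊆ q.g ∧ gp q.g ∩ B ⊆ A ∧ gl q.g ∩ D ⊆ C ∧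
      ∃ z e, N ≤ z.1 ∧ Fresh z B ∧ (∀ i ∈ D, i < l → (z, i, ⊤) ∈ q.r) ∧
        Dc q.g z e ∧ Av (Q l) s q z e

/-- the states: a legal `r`, a countable set of points, a countable set of labels -/
private structure RSt (l : Lb) (r0 : Set Tr) : Type where
  r : Set Tr
  B : Set Pt
  D : Set Lb
  hr : RLeg l r
  h0 : r0 ⊆ r
  hB : B.Countable
  hD : D.Countable

private instance RStPre (l : Lb) (r0 : Set Tr) : Preorder (RSt l r0) where
  le x y := x.r ⊆ y.r ∧ x.B ⊆ y.B ∧ x.D ⊆ y.D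
  le_refl _ := ⟨subset_rfl, subset_rfl, subset_rfl⟩
  le_trans _ _ _ h h' := ⟨h.1.trans h'.1, h.2.1.trans h'.2.1, h.2.2.trans h'.2.2⟩

/-- the tasks of a state -/
private def rtk {l : Lb} {r0 : Set Tr} (x : RSt l r0) : Set (Set Pt × Set Lb) :=
  {y | (y.1.Finite ∧ y.1 ⊆ x.B) ∧ (y.2.Finite ∧ y.2 ⊆ x.D)}

private theorem fin_chain {β : Type} {A : Set β} (hA : A.Finite) {f : ℕ → Set β}
    (hf : Monotone f) (h : A ⊆ ⋃ n, f n) : ∃ n, A ⊆ f n := by
  induction A, hA using Set.Finite.induction_on with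
  | empty => exact ⟨0, Set.empty_subset _⟩
  | insert _ _ ih =>
    obtain ⟨n, hn⟩ := ih fun x hx => h (Set.mem_insert_of_mem _ hx)
    obtain ⟨m, hm⟩ := Set.mem_iUnion.1 (h (Set.mem_insert _ _))
    exact ⟨max n m, Set.insert_subset (hf (le_max_right _ _) hm)
      (hn.trans (hf (le_max_left _ _)))⟩

private theorem rhub {l : Lb} {r0 : Set Tr} (f : ℕ → RSt l r0) (hf : ∀ n, f n ≤ f (n + 1)) :
    ∃ b, (∀ n, f n ≤ b) ∧ ∀ τ ∈ rtk b, ∃ n, τ ∈ rtk (f n) := by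
  refine ⟨⟨⋃ n, (f n).r, ⋃ n, (f n).B, ⋃ n, (f n).D,
    RLeg.chain (fun n => (f n).hr) (fun n => (hf n).1),
    (f 0).h0.trans (Set.subset_iUnion (fun n => (f n).r) 0),
    Set.countable_iUnion fun n => (f n).hB, Set.countable_iUnion fun n => (f n).hD⟩, ?_, ?_⟩
  · intro n
    exact ⟨Set.subset_iUnion (fun n => (f n).r) n, Set.subset_iUnion (fun n => (f n).B) n,
      Set.subset_iUnion (fun n => (f n).D) n⟩
  · rintro τ ⟨⟨h1, h2⟩, h3, h4⟩
    have hB : Monotone fun n => (f n).B := monotone_nat_of_le_succ fun n => (hf n).2.1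
    have hD : Monotone fun n => (f n).D := monotone_nat_of_le_succ fun n => (hf n).2.2
    obtain ⟨n, hn⟩ := fin_chain h1 hB h2
    obtain ⟨m, hm⟩ := fin_chain h3 hD h4
    exact ⟨max n m, ⟨h1, hn.trans (hB (le_max_left _ _))⟩, h3, hm.trans (hD (le_max_right _ _))⟩

theorem root {l : Lb} {s : Pt → K → Option Pre} {p : Pre} (hp : p ∈ Q l)
    (hg : Good (Q l) l s p) (N : ℕ) : ∃ r1 A C, RLeg l r1 ∧ p.r ⊆ r1 ∧ A.Finite ∧ C.Finite ∧
      Phi l s p.g N r1 A C := by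
  by_contra hno
  have hno' : ∀ r1 A C, RLeg l r1 → p.r ⊆ r1 → A.Finite → C.Finite →
      ¬ Phi l s p.g N r1 A C := fun r1 A C h1 h2 h3 h4 h5 => hno ⟨r1, A, C, h1, h2, h3, h4, h5⟩
  let R : Set Pt × Set Lb → RSt l p.r → RSt l p.r → Prop := fun τ _ d =>
    τ.1.Finite → τ.2.Finite → ¬ ∃ q ∈ Q l, d.r ⊆ q.r ∧ p.g ⊆ q.g ∧ gp q.g ∩ d.B ⊆ τ.1 ∧
      gl q.g ∩ d.D ⊆ τ.2 ∧ ∃ z e, N ≤ z.1 ∧ Fresh z d.B ∧
        (∀ i ∈ d.D, i < l → (z, i, ⊤) ∈ q.r) ∧ Dc q.g z e ∧ Av (Q l) s q z e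
  have hR : ∀ τ c, ∃ d, c ≤ d ∧ R τ c d := by
    intro τ c
    by_cases h1 : τ.1.Finite
    swap
    · exact ⟨c, le_rfl, fun h => absurd h h1⟩
    by_cases h2 : τ.2.Finite
    swap
    · exact ⟨c, le_rfl, fun _ h => absurd h h2⟩
    by_contra hcon
    refine hno' c.r τ.1 τ.2 c.hr c.h0 h1 h2 ?_
    intro r' hr' hcr B D hB hD
    obtain ⟨q, hq, h3, h4, h5, h6, z, e, h7, h8, h9, h10, h11⟩ := by_contra fun h =>
      hcon ⟨⟨r', c.B ∪ B, c.D ∪ D, hr', c.h0.trans hcr, c.hB.union hB, c.hD.union hD⟩,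
        ⟨hcr, Set.subset_union_left, Set.subset_union_left⟩, fun _ _ => h⟩
    exact ⟨q, hq, h3, h4, (Set.inter_subset_inter_right _ Set.subset_union_right).trans h5,
      (Set.inter_subset_inter_right _ Set.subset_union_right).trans h6, z, e, h7,
      ⟨fun h => h8.1 (Or.inr h), fun a m hl h => h8.2 a m hl (Or.inr h)⟩,
      fun i hi => h9 i (Or.inr hi), h10, h11⟩
  have hc : ∀ x : RSt l p.r, (rtk x).Countable := by
    intro x
    refine ((Set.countable_ofPred_finite_subset x.hB).prod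
      (Set.countable_ofPred_finite_subset x.hD)).mono ?_
    intro y hy
    exact ⟨hy.1, hy.2⟩
  have hm : ∀ x y : RSt l p.r, x ≤ y → rtk x ⊆ rtk y := by
    intro x y hxy τ hτ
    have h1 : x.B ⊆ y.B := hxy.2.1
    have h2 : x.D ⊆ y.D := hxy.2.2
    exact ⟨⟨hτ.1.1, hτ.1.2.trans h1⟩, hτ.2.1, hτ.2.2.trans h2⟩
  obtain ⟨b, -, hb⟩ := book (fun x : RSt l p.r => rtk x) hc hm rhub R hR
    ⟨p.r, ∅, ∅, (mem_Q.1 hp).1, subset_rfl, Set.countable_empty, Set.countable_empty⟩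
  obtain ⟨q, hq, hqp, z, e, h7, h8, h9, h10, h11⟩ :=
    hg (p.wr b.r b.hr.cnt) (rext hp b.hr b.h0) ⟨b.h0, subset_rfl⟩ N b.B b.D b.hB b.hD
  have hA : (gp q.g ∩ b.B).Finite := (gp_fin q.fg).subset Set.inter_subset_left
  have hC : (gl q.g ∩ b.D).Finite := (gl_fin q.fg).subset Set.inter_subset_left
  obtain ⟨c, d, -, -, hdb, -, hRd⟩ := hb (gp q.g ∩ b.B, gl q.g ∩ b.D)
    ⟨⟨hA, Set.inter_subset_right⟩, hC, Set.inter_subset_right⟩
  exact hRd hA hC ⟨q, hq, hdb.1.trans hqp.1, hqp.2,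
    Set.inter_subset_inter_right _ hdb.2.1, Set.inter_subset_inter_right _ hdb.2.2, z, e, h7,
    ⟨fun h => h8.1 (hdb.2.1 h), fun a m hl h => h8.2 a m hl (hdb.2.1 h)⟩,
    fun i hi => h9 i (hdb.2.2 hi), h10, h11⟩

theorem Phi.mono {l : Lb} {s : Pt → K → Option Pre} {g : Set Atom} {N : ℕ} {r1 r2 : Set Tr}
    {A : Set Pt} {C : Set Lb} (h : Phi l s g N r1 A C) (hr : r1 ⊆ r2) : Phi l s g N r2 A C :=
  fun r' h1 h2 => h r' h1 (hr.trans h2)

end DSB
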