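import Pool.Agent.DSB.World

/-! # One rung of the ladder (package M5; section 2 (iii) of the paper proof)

(problem MP_f2e766_lc, project DSB, part M)

`exists_rung`: let `r1`, `A0`, `C0` be from `World.rt` for `q0` and `N + 1`. Apply `Phi` to
`r' := rres l r` (`RLeg.res`; `r1 ⊆ rres l r0 ⊆ rres l r`) and the countable sets
`B' := B ∪ {a | ∃ i v, (a, i, v) ∈ r}`, `D' := D`: `q ∈ Q l`, `rres l r ⊆ q.r`, `q0.g ⊆ q.g`,
`gp q.g ∩ B' ⊆ A0 ⊆ W`, `gl q.g ∩ D ⊆ C0 ⊆ L`, `A := z`, `e`. Let `M := max e A.1 + 1`. Let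
`X := {(A, i, M) | i ∈ L, i < t, l ≤ i} ∪ {(b, i, m) | Lad A b m, i ∈ L, i < t, l ≤ i}` (countable:
`lad_cnt`) and `r' := (r ∪ q.r) ∪ X`. `RLeg.glue` and `RLeg.add`: the places of `X`
are not in `r` (`A`, `b` are fresh for the points of `r`), not in `q.r` (labels `< l`); functional:
`A` is not in its own ladder, `Lad.eq`. `vA`: for `i < l`: `(A, i, ⊤) ∈ q.r`
(`i ∈ L ⊆ D`), for `l ≤ i`: `X`. `vb`: for `i < l`: `RAt.lad` of `q.r` at the label `i` for the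
declared point `A`; for `l ≤ i`: `X`. -/

set_option autoImplicit false

namespace DSB

open STP

/-- a rung: the condition `q` is good at `l` with the point `A`, `r` is extended to `r'` -/
structure Rg (t : WithTop Lb) (W : Set Pt) (L : Set Lb) (l : Lb) (c : Bool) (g0 : Set Atom)
    (r r' : Set Tr) (B : Set Pt) (D : Set Lb) (N : ℕ) (q : Pre) (A : Pt) (e M : ℕ) : Prop where
  rl : RLeg t r'
  ext : r ⊆ r'
  qQ : q ∈ Q l
  qr : q.r ⊆ r'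
  gq : g0 ⊆ q.g
  pB : gp q.g ∩ B ⊆ W
  lD : gl q.g ∩ D ⊆ L
  lev : N < A.1
  fr : Fresh A B
  eM : e < M
  aM : A.1 < M
  vA : ∀ i ∈ L, (i : WithTop Lb) < t → ∃ v : ℕ∞, (A, i, v) ∈ r' ∧ (M : ℕ∞) ≤ v
  vb : ∀ i ∈ L, (i : WithTop Lb) < t → ∀ b m, Lad A b m →
    ∃ v : ℕ∞, (b, i, v) ∈ r' ∧ (m : ℕ∞) ≤ v
  dc : Dc q.g A e
  av : Av (Q l) (S l c) q A e

theorem exists_rung {t : WithTop Lb} {W : Set Pt} {L : Set Lb} {r0 : Set Tr}
    (hW : World t W L r0) {l : Lb} (hl : l ∈ L) (hlt : (l : WithTop Lb) < t) {c : Bool} {q0 : Pre}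
    (hq : q0 ∈ Q l) (h1 : q0.r = rres l r0) (h2 : gp q0.g ⊆ W) (h3 : gl q0.g ⊆ L)
    (h4 : Good (Q l) l (S l c) q0) {r : Set Tr} (hr : RLeg t r) (h5 : r0 ⊆ r) {B : Set Pt}
    {D : Set Lb} (hB : B.Countable) (hD : D.Countable) (h6 : W ⊆ B) (h7 : L ⊆ D) (N : ℕ) :
    ∃ r' q A e M, Rg t W L l c q0.g r r' B D N q A e M := by
  obtain ⟨r1, A0, C0, hr1, hA0, hC0, hPhi⟩ := hW.rt l hl hlt c q0 hq h1 h2 h3 h4 (N + 1)
  have hcB : (B ∪ {a | ∃ i v, (a, i, v) ∈ r}).Countable := by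
    refine hB.union ((hr.cnt.image Prod.fst).mono ?_)
    rintro a ⟨i, v, h⟩
    exact ⟨_, h, rfl⟩
  obtain ⟨q, hqQ, hrq, hgq, hpB, hlD, z, e, hNz, hfr, hdec, hdc, hav⟩ :=
    hPhi (rres l r) (hr.res hlt.le) (hr1.trans (rres_mono h5 _)) _ D hcB hD
  have hq1 : RLeg l q.r := (mem_Q.1 hqQ).1
  have hglue : RLeg t (r ∪ q.r) := hr.glue hlt.le hq1 hrq
  obtain ⟨M, hM⟩ : ∃ M : ℕ, M = max e z.1 + 1 := ⟨_, rfl⟩
  have hM1 : e < M := by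
    have := le_max_left e z.1
    omega
  have hM2 : z.1 < M := by
    have := le_max_right e z.1
    omega
  obtain ⟨X, hX⟩ : ∃ X : Set Tr, X = {x | x.2.1 ∈ L ∧ (x.2.1 : WithTop Lb) < t ∧ l ≤ x.2.1 ∧
      ((x.1 = z ∧ x.2.2 = (M : ℕ∞)) ∨ ∃ m : ℕ, Lad z x.1 m ∧ x.2.2 = (m : ℕ∞))} := ⟨_, rfl⟩
  have hmem : ∀ a i v, (a, i, v) ∈ X ↔ i ∈ L ∧ (i : WithTop Lb) < t ∧ l ≤ i ∧
      ((a = z ∧ v = (M : ℕ∞)) ∨ ∃ m : ℕ, Lad z a m ∧ v = (m : ℕ∞)) := by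
    intro a i v
    rw [hX]
    rfl
  have hXc : X.Countable := by
    have h8 : ((insert z {a | ∃ m, Lad z a m}) ×ˢ (L ×ˢ (Set.univ : Set ℕ∞))).Countable :=
      ((lad_cnt z).insert z).prod (hW.cL.prod (Set.to_countable _))
    refine h8.mono ?_
    rintro ⟨a, i, v⟩ hx
    obtain ⟨k1, -, -, k4⟩ := (hmem a i v).1 hx
    refine ⟨?_, k1, Set.mem_univ _⟩
    rcases k4 with ⟨k4, -⟩ | ⟨m, k4, -⟩
    · exact Or.inl k4
    · exact Or.inr ⟨m, k4⟩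
  have hleg : RLeg t ((r ∪ q.r) ∪ X) := by
    refine hglue.add hXc ?_ ?_ ?_ ?_
    · rintro ⟨a, i, v⟩ hx
      exact ((hmem a i v).1 hx).2.1
    · rintro ⟨a, i, v⟩ hx
      rcases ((hmem a i v).1 hx).2.2.2 with ⟨-, k⟩ | ⟨m, -, k⟩
      · change v ≠ ⊤
        rw [k]
        exact ENat.natCast_ne_top _
      · change v ≠ ⊤
        rw [k]
        exact ENat.natCast_ne_top _
    · intro a i v v' hx hx'
      rcases ((hmem a i v).1 hx).2.2.2 with ⟨k1, k2⟩ | ⟨m, k1, k2⟩ <;>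
        rcases ((hmem a i v').1 hx').2.2.2 with ⟨k3, k4⟩ | ⟨m', k3, k4⟩
      · rw [k2, k4]
      · rw [k1] at k3
        exact absurd k3.lt (lt_irrefl _)
      · rw [k3] at k1
        exact absurd k1.lt (lt_irrefl _)
      · rw [k2, k4, (k1.eq k3 rfl).2]
    · intro a i v v' hx hx'
      obtain ⟨-, -, k3, k4⟩ := (hmem a i v).1 hx
      rcases hx' with hx' | hx'
      · have k5 : a ∈ B ∪ {a | ∃ i v, (a, i, v) ∈ r} := Or.inr ⟨i, v', hx'⟩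
        rcases k4 with ⟨k4, -⟩ | ⟨m, k4, -⟩
        · rw [k4] at k5
          exact hfr.1 k5
        · exact hfr.2 a m k4 k5
      · exact absurd (WithTop.coe_lt_coe.1 (hq1.bd _ hx')) (not_lt.2 k3)
  refine ⟨(r ∪ q.r) ∪ X, q, z, e, M, hleg, ?_, hqQ, ?_, hgq, ?_, hlD.trans hC0, ?_, ?_, hM1, hM2,
    ?_, ?_, hdc, hav⟩
  · exact fun x hx => Or.inl (Or.inl hx)
  · exact fun x hx => Or.inl (Or.inr hx)
  · exact fun x hx => hA0 (hpB ⟨hx.1, Or.inl hx.2⟩)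
  · omega
  · exact ⟨fun h => hfr.1 (Or.inl h), fun a m h h' => hfr.2 a m h (Or.inl h')⟩
  · intro i hi hit
    rcases lt_or_ge i l with hil | hil
    · exact ⟨⊤, Or.inl (Or.inr (hdec i (h7 hi) hil)), le_top⟩
    · exact ⟨M, Or.inr ((hmem _ _ _).2 ⟨hi, hit, hil, Or.inl ⟨rfl, rfl⟩⟩), le_rfl⟩
  · intro i hi hit b m hlad
    rcases lt_or_ge i l with hil | hil
    · obtain ⟨v, hv, hmv⟩ := (hq1.at' i (WithTop.coe_lt_coe.2 hil)).lad z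
        (hdec i (h7 hi) hil) b m hlad
      exact ⟨v, Or.inl (Or.inr hv), hmv⟩
    · exact ⟨m, Or.inr ((hmem _ _ _).2 ⟨hi, hit, hil, Or.inr ⟨m, hlad, rfl⟩⟩), le_rfl⟩

end DSB
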