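import Pool.Agent.DSB.Zero

/-! # Adding a status, the last step (package P7; F7 of the paper proof)

(problem MP_f2e766_lc, project DSB, part P)

`add_st`: let `p ∈ Q t`, `l < t`, `(a, l, v) ∈ p.r`. Suppose that
* `e` is larger than all decided values `f(w, a)` (`hbig`);
* `c` is the colour of all status points `b` (label `l`) with `a ∈ N(b, e_b)` (`hcol`), and the
  membership of `a` in `N(b, e_b)` is decided for all status points `b`
  of the label `l` - this is expressed by `hdec`: in the extension by zeros no new membership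
  appears;
* `Av` holds for `a`, `e`, `c`, and `T(l) = c` is forced if `e < v`.
Then `(p.r, p1.g ∪ {st l a c e})` is in `Q t`, where `p1` is the extension of `p` by zeros with
`Dc p1.g a e` (`dc_ext`). PROOF. `mem_Q`, the part `r` is that
of `p`. `Bs`: no new closeness atoms. `GAt` at `i ≠ l`: the status atoms with label `i` are the
same, `In` depends on the closeness atoms only, `tv`, `av`
by `Tv.mono`, `Av.mono`. `GAt` at `l`: `dom` by `hv`, `dc` by `Dc`; `ag` for two old atoms: from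
`p1`; for two new ones trivial; for the new one
and an old one `st l b c' e'` and a point `w` with `In p1.g w a e`, `In p1.g w b e'`: if `w ≠ a`
then `cl w a v1 ∈ p1.g` with `e < v1`; new atoms have the
value `0`, so `cl w a v1 ∈ p.g`, which contradicts `hbig`. So `w = a`, `In p1.g a b e'`, hence
`In p.g a b e'` (`Zx.in_of`, the references of `b` are decided in
`p.g`), and `hcol` gives `c' = c`. `tv`, `av`: the hypotheses and `Tv.mono`, `Av.mono`
(`new.res l ≤ p.res l`). -/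

set_option autoImplicit false

namespace DSB

open STP

private theorem cl_ins {g : Set Atom} {l : Lb} {a w b : Pt} {c : Bool} {e v : ℕ} :
    .cl w b v ∈ insert (Atom.st l a c e) g ↔ .cl w b v ∈ g := by
  constructor
  · rintro (h | h)
    · exact Atom.noConfusion h
    · exact h
  · exact fun h => Or.inr h

private theorem dc_ins {g : Set Atom} {l : Lb} {a b : Pt} {c : Bool} {e e' : ℕ} :
    Dc (insert (Atom.st l a c e) g) b e' ↔ Dc g b e' := by
  unfold Dc
  simp only [cl_ins]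

private theorem in_ins {g : Set Atom} {l : Lb} {a w b : Pt} {c : Bool} {e e' : ℕ} :
    In (insert (Atom.st l a c e) g) w b e' ↔ In g w b e' := by
  unfold In
  simp only [cl_ins, dc_ins]

theorem add_st {t : WithTop Lb} {p : Pre} (hp : p ∈ Q t) {l : Lb} (hl : (l : WithTop Lb) < t)
    {a : Pt} {v : ℕ∞} (hv : (a, l, v) ∈ p.r) {c : Bool} {e : ℕ}
    (hbig : ∀ w v', .cl w a v' ∈ p.g → v' ≤ e)
    (hcol : ∀ b c' e', .st l b c' e' ∈ p.g → In p.g a b e' → c' = c)
    (htv : (e : ℕ∞) < v → Tv (Q l) l (S l) c (p.res l))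
    (hav : Av (Q l) (S l c) (p.res l) a e) :
    ∃ q ∈ Q t, q ≤ p ∧ .st l a c e ∈ q.g := by
  obtain ⟨p1, hp1, hz, hdc⟩ := dc_ext hp a e
  have hR := (mem_Q.1 hp1).1
  have hG := (mem_Q.1 hp1).2
  have hG0 := (mem_Q.1 hp).2
  obtain ⟨q, hqr, hqg⟩ : ∃ q : Pre, q.r = p1.r ∧ q.g = insert (Atom.st l a c e) p1.g :=
    ⟨⟨p1.r, insert (Atom.st l a c e) p1.g, p1.cr, p1.fg.insert _⟩, rfl, rfl⟩
  have hq1 : q ≤ p1 := by
    refine ⟨hqr.ge, ?_⟩
    rw [hqg]
    exact Set.subset_insert _ _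
  have hqp : q ≤ p := hq1.trans hz.le
  -- the status atoms of the new condition
  have hst : ∀ {l' : Lb} {b : Pt} {c' : Bool} {e' : ℕ}, Atom.st l' b c' e' ∈ q.g →
      (l' = l ∧ b = a ∧ c' = c ∧ e' = e) ∨ Atom.st l' b c' e' ∈ p1.g := by
    intro l' b c' e' h
    rw [hqg] at h
    rcases h with h | h
    · exact Or.inl (Atom.st.inj h)
    · exact Or.inr h
  have hold : ∀ {l' : Lb} {b : Pt} {c' : Bool} {e' : ℕ}, Atom.st l' b c' e' ∈ p1.g →
      Atom.st l' b c' e' ∈ p.g := by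
    intro l' b c' e' h
    rcases hz.new _ h with h1 | ⟨w, x, h1⟩
    · exact h1
    · exact Atom.noConfusion h1
  have hdq : ∀ {b : Pt} {e' : ℕ}, Dc q.g b e' ↔ Dc p1.g b e' := by
    intro b e'
    rw [hqg]
    exact dc_ins
  have hiq : ∀ {w b : Pt} {e' : ℕ}, In q.g w b e' ↔ In p1.g w b e' := by
    intro w b e'
    rw [hqg]
    exact in_ins
  -- the new status point against an old one
  have key : ∀ w b c' e', Atom.st l b c' e' ∈ p1.g → In p1.g w a e → In p1.g w b e' →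
      c' = c := by
    intro w b c' e' h1 h2 h3
    have h1' := hold h1
    have hw : w = a := by
      by_contra hn
      obtain ⟨v1, m, h4, -, h5, -⟩ := In.lad hG.bs h2 hn
      rcases hz.new _ h4 with h6 | ⟨w', x, h6⟩
      · exact absurd (hbig w v1 h6) (not_le.2 h5)
      · have h7 := (Atom.cl.inj h6).2.2
        omega
    subst hw
    exact hcol b c' e' h1' (hz.in_of hG.bs ((hG0.at' l hl).dc b c' e' h1') h3)
  refine ⟨q, mem_Q.2 ⟨by rw [hqr]; exact hR, ⟨⟨?_, ?_⟩, ?_, ?_⟩⟩, hqp, ?_⟩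
  · intro z b v1 h
    rw [hqg, cl_ins] at h
    exact hG.bs.val z b v1 h
  · intro z b v1 v2 h h'
    rw [hqg, cl_ins] at h h'
    exact hG.bs.fn z b v1 v2 h h'
  · rintro l' ⟨α, hα, hl'⟩
    rw [hqg] at hα
    rcases hα with rfl | hα
    · have h1 : l' = l := hl'
      rw [h1]
      exact hl
    · exact hG.bd l' ⟨α, hα, hl'⟩
  · intro l' hl'
    have h1 := hG.at' l' hl'
    refine ⟨?_, ?_, ?_, ?_, ?_⟩
    · intro b c' e' h
      rw [hqr]
      rcases hst h with ⟨rfl, rfl, rfl, rfl⟩ | h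
      · rw [hz.r]
        exact ⟨v, hv⟩
      · exact h1.dom b c' e' h
    · intro b c' e' h
      rw [hdq]
      rcases hst h with ⟨rfl, rfl, rfl, rfl⟩ | h
      · exact hdc
      · exact h1.dc b c' e' h
    · intro w x b c1 c2 e1 e2 hx hb hwx hwb
      rw [hiq] at hwx hwb
      rcases hst hx with ⟨rfl, rfl, rfl, rfl⟩ | hx
      · rcases hst hb with ⟨-, -, rfl, -⟩ | hb
        · rfl
        · exact (key w b c2 e2 hb hwx hwb).symm
      · rcases hst hb with ⟨rfl, rfl, rfl, rfl⟩ | hb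
        · exact key w x c1 e1 hx hwb hwx
        · exact h1.ag w x b c1 c2 e1 e2 hx hb hwx hwb
    · intro b c' e' v1 h hr he
      rw [hqr] at hr
      rcases hst h with ⟨rfl, rfl, rfl, rfl⟩ | h
      · have h2 : v1 = v := (hR.at' l' hl').fn b v1 v hr (by rw [hz.r]; exact hv)
        rw [h2] at he
        exact Tv.mono (htv he) (res_mono hqp _)
      · exact Tv.mono (h1.tv b c' e' v1 h hr he) (res_mono hq1 _)
    · intro b c' e' h
      rcases hst h with ⟨rfl, rfl, rfl, rfl⟩ | h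
      · exact Av.mono hav (res_mono hqp _)
      · exact Av.mono (h1.av b c' e' h) (res_mono hq1 _)
  · rw [hqg]
    exact Set.mem_insert _ _

/-- deciding the membership of `a` in all `N(b, e)` of status points -/
theorem dec_st {t : WithTop Lb} {p : Pre} (hp : p ∈ Q t) (l : Lb) (hl : (l : WithTop Lb) < t)
    (a : Pt) : ∃ q ∈ Q t, Zx p q ∧ ∀ b c e, .st l b c e ∈ q.g → In q.g a b e ∨
      ∀ g' : Set Atom, q.g ⊆ g' → Bs g' → ¬ In g' a b e := by
  classical
  obtain ⟨N, hN⟩ : ∃ N : ℕ, ∀ b c e, Atom.st l b c e ∈ p.g → b.1 < N ∧ e ≤ N := by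
    let f : Atom → ℕ := fun α => match α with
      | .cl _ _ _ => 0
      | .st _ b _ e => b.1 + e + 1
    obtain ⟨N, hN⟩ := (p.fg.image f).bddAbove
    refine ⟨N, fun b c e h => ?_⟩
    have h1 : b.1 + e + 1 ≤ N := hN ⟨_, h, rfl⟩
    omega
  have hD : ((fun x : Pt => (a, x)) '' {x | ∃ m, Lad a x m ∧ x.1 < N}).Finite :=
    (lad_fin a N).image _
  obtain ⟨q, hq, hz, hd⟩ := decs hp hD (by
    rintro _ ⟨x, ⟨m, hm, -⟩, rfl⟩
    exact ⟨m, hm⟩)
  have hd' : ∀ x m, Lad a x m → x.1 < N → ∃ v, .cl a x v ∈ q.g := fun x m h1 h2 =>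
    hd (a, x) ⟨x, ⟨m, h1, h2⟩, rfl⟩
  refine ⟨q, hq, hz, fun b c e hb => ?_⟩
  have hb' : Atom.st l b c e ∈ p.g := by
    rcases hz.new _ hb with h1 | ⟨w, x, h1⟩
    · exact h1
    · exact Atom.noConfusion h1
  obtain ⟨hbN, heN⟩ := hN b c e hb'
  have hdc : Dc q.g b e := Dc.mono hz.sub (((mem_Q.1 hp).2.at' l hl).dc b c e hb')
  by_cases h : In q.g a b e
  · exact Or.inl h
  refine Or.inr fun g' hg hB hi => h ⟨hdc, ?_⟩
  obtain ⟨-, hi⟩ := hi
  rcases hi with hi | ⟨⟨v, hv, hv'⟩, hi⟩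
  · exact Or.inl hi
  refine Or.inr ⟨?_, fun x v1 h1 h2 h3 => ?_⟩
  · obtain ⟨m, hm, -⟩ := hB.val a b v hv'
    obtain ⟨v0, hv0⟩ := hd' b m hm hbN
    have h4 := hB.fn a b v v0 hv' (hg hv0)
    rw [← h4] at hv0
    exact ⟨v, hv, hv0⟩
  · obtain ⟨v2, h4, h5⟩ := hi x v1 (hg h1) h2 h3
    obtain ⟨m, hm, -⟩ := hB.val a x v2 h5
    obtain ⟨v0, hv0⟩ := hd' x m hm (by omega)
    have h6 := hB.fn a x v2 v0 h5 (hg hv0)
    rw [← h6] at hv0
    exact ⟨v2, h4, hv0⟩

end DSB
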