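import Pool.Agent.DSB.Root
import Pool.Agent.DSB.Pat

/-! # The countable world (package M4; section 2 (ii) of the paper proof)

(problem MP_f2e766_lc, project DSB, part M)

`exists_world`: apply `book` to the following data.
* `α`: the states `(r, W, L)` with `RLeg t r`, `W : Set Pt`, `L : Set Lb` countable, ordered by
  inclusion of all components.
* Tasks: `T := (Lb × Bool × Set PA) ⊕ (Lb × Bool × Set Atom × ℕ)`. `tk (r, W, L)`: `inl (l, c, π)`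
  with `l ∈ L`, `POk W L π` (`pat_cnt`); `inr (l, c, g, N)` with `l ∈ L`, `g` finite,
  `gp g ⊆ W`, `gl g ⊆ L` (countable: the atoms with points in `W` and labels in `L` are countably
  many). `hub`: unions, `RLeg.chain`, `pat_fin`; a finite set of points or
  labels in an increasing union is contained in one member.
* `D (inl (l, c, π)) a b` (`l < t`; otherwise `True`): if there is `p ∈ Q l` with
  `rres l a.r ⊆ p.r`, `Re a.W a.L π p.g`, `Good (Q l) l (S l c) p` then there is such a `p` with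
  `p.r ⊆ b.r`, `gp p.g ⊆ b.W`,
  `gl p.g ⊆ b.L`. `hD`: take such a `p` and `b := (a.r ∪ p.r, a.W ∪ gp p.g, a.L ∪ gl p.g)`
  (`RLeg.glue`).
* `D (inr (l, c, g, N)) a b` (`l < t`): if there is `p ∈ Q l` with `p.g = g`, `rres l a.r ⊆ p.r`,
  `Good (Q l) l (S l c) p`, then there are `r1 ⊆ rres l b.r`, `A ⊆ b.W`, `C ⊆ b.L` with
  `Phi l (S l c) g N r1 A C`. `hD`: `root` for such a `p` gives `r1 ⊇ p.r`, `A`, `C`;
  `b := (a.r ∪ r1, a.W ∪ A, a.L ∪ C)`.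
Start with `(r, B, D)`; the result `(r', W, L)` is a world. `cp`: let `p` be given; `pat_ex W L`
gives `π` with `POk W L π`, `Re W L π p.g`. The task `inl (l, c, π)` was
treated at some state `a` which has this task (`POk a.W a.L π`), `a ≤ b ≤ (r', W, L)`: `p` itself
is as required (`rres l a.r ⊆ rres l r' ⊆ p.r`, `re_anti`), so there is
`p0 ∈ Q l` with `p0.r ⊆ b.r ⊆ r'`, `Re a.W a.L π p0.g`, good, supports in `W`, `L`. `pat_copy` for
`a.W ⊆ W`, `a.L ⊆ L` gives `f`, `j` with `Copy f j W L p.g` and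
`Atom.map f j '' p.g = p0.g`. The condition `q := (rres l r', p0.g)` is in `Q l` (`rext`;
`p0.r ⊆ rres l r'` since the labels of `p0` are `< l`;
`RLeg.res`), and good (`Good.mono`). `rt`: the task `inr (l, c, q.g, N)`; `q` itself is as required
at every state. -/

set_option autoImplicit false

namespace DSB

open STP

/-- the countable world `(W, L, r)` -/
structure World (t : WithTop Lb) (W : Set Pt) (L : Set Lb) (r : Set Tr) : Prop where
  cW : W.Countable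
  cL : L.Countable
  rl : RLeg t r
  cp : ∀ l ∈ L, (l : WithTop Lb) < t → ∀ c, ∀ p ∈ Q l, rres l r ⊆ p.r →
    Good (Q l) l (S l c) p → ∃ f j, Copy f j W L p.g ∧ ∃ q ∈ Q l, q.r = rres l r ∧
      q.g = Atom.map f j '' p.g ∧ gp q.g ⊆ W ∧ gl q.g ⊆ L ∧ Good (Q l) l (S l c) q
  rt : ∀ l ∈ L, (l : WithTop Lb) < t → ∀ c, ∀ q ∈ Q l, q.r = rres l r → gp q.g ⊆ W →
    gl q.g ⊆ L → Good (Q l) l (S l c) q → ∀ N, ∃ r1 A C, r1 ⊆ rres l r ∧ A ⊆ W ∧ C ⊆ L ∧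
      Phi l (S l c) q.g N r1 A C

/-- the states: a legal `r`, a countable set of points, a countable set of labels -/
private structure WSt (t : WithTop Lb) : Type where
  r : Set Tr
  W : Set Pt
  L : Set Lb
  hr : RLeg t r
  cW : W.Countable
  cL : L.Countable

private instance WStPre (t : WithTop Lb) : Preorder (WSt t) where
  le x y := x.r ⊆ y.r ∧ x.W ⊆ y.W ∧ x.L ⊆ y.L
  le_refl _ := ⟨subset_rfl, subset_rfl, subset_rfl⟩
  le_trans _ _ _ h h' := ⟨h.1.trans h'.1, h.2.1.trans h'.2.1, h.2.2.trans h'.2.2⟩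

/-- the tasks -/
private abbrev WT : Type := (Lb × Bool × Set PA) ⊕ (Lb × Bool × Set Atom × ℕ)

/-- the tasks of a state -/
private def wtk {t : WithTop Lb} (x : WSt t) : Set WT :=
  {τ | Sum.elim (fun y : Lb × Bool × Set PA => y.1 ∈ x.L ∧ POk x.W x.L y.2.2)
    (fun y : Lb × Bool × Set Atom × ℕ => y.1 ∈ x.L ∧ y.2.2.1.Finite ∧ gp y.2.2.1 ⊆ x.W ∧
      gl y.2.2.1 ⊆ x.L) τ}

private theorem wfin_chain {β : Type} {A : Set β} (hA : A.Finite) {f : ℕ → Set β}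
    (hf : Monotone f) (h : A ⊆ ⋃ n, f n) : ∃ n, A ⊆ f n := by
  induction A, hA using Set.Finite.induction_on with
  | empty => exact ⟨0, Set.empty_subset _⟩
  | insert _ _ ih =>
    obtain ⟨n, hn⟩ := ih fun x hx => h (Set.mem_insert_of_mem _ hx)
    obtain ⟨m, hm⟩ := Set.mem_iUnion.1 (h (Set.mem_insert _ _))
    exact ⟨max n m, Set.insert_subset (hf (le_max_right _ _) hm)
      (hn.trans (hf (le_max_left _ _)))⟩

private theorem pok_mono {W W' : Set Pt} {L L' : Set Lb} {π : Set PA} (hW : W ⊆ W')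
    (hL : L ⊆ L') (h : POk W L π) : POk W' L' π :=
  ⟨h.1, fun α hα x hx => hW (h.2.1 α hα x hx), fun α hα i hi => hL (h.2.2 α hα i hi)⟩

/-- the set of the atoms with points in `W` and labels in `L` is countable -/
private theorem atom_cnt {W : Set Pt} {L : Set Lb} (hW : W.Countable) (hL : L.Countable) :
    {α : Atom | α.pts ⊆ W ∧ α.lbs ⊆ L}.Countable := by
  have h1 : ((fun x : Pt × Pt × ℕ => Atom.cl x.1 x.2.1 x.2.2) ''
      (W ×ˢ (W ×ˢ (Set.univ : Set ℕ)))).Countable :=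
    (hW.prod (hW.prod Set.countable_univ)).image _
  have h2 : ((fun x : Lb × Pt × Bool × ℕ => Atom.st x.1 x.2.1 x.2.2.1 x.2.2.2) ''
      (L ×ˢ (W ×ˢ ((Set.univ : Set Bool) ×ˢ (Set.univ : Set ℕ))))).Countable :=
    (hL.prod (hW.prod (Set.countable_univ.prod Set.countable_univ))).image _
  refine (h1.union h2).mono ?_
  rintro α ⟨hp, hl⟩
  cases α with
  | cl z a v =>
    refine Or.inl ⟨(z, a, v), ⟨hp (Or.inl rfl), hp (Or.inr rfl), Set.mem_univ _⟩, rfl⟩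
  | st l a c e =>
    exact Or.inr ⟨(l, a, c, e), ⟨hl rfl, hp rfl, Set.mem_univ _, Set.mem_univ _⟩, rfl⟩

private theorem wtk_cnt {t : WithTop Lb} (x : WSt t) : (wtk x).Countable := by
  have h1 : (x.L ×ˢ ((Set.univ : Set Bool) ×ˢ {π | POk x.W x.L π})).Countable :=
    x.cL.prod (Set.countable_univ.prod (pat_cnt x.cW x.cL))
  have h2 : (x.L ×ˢ ((Set.univ : Set Bool) ×ˢ ({g : Set Atom | g.Finite ∧
      g ⊆ {α : Atom | α.pts ⊆ x.W ∧ α.lbs ⊆ x.L}} ×ˢ (Set.univ : Set ℕ)))).Countable :=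
    x.cL.prod (Set.countable_univ.prod
      ((Set.countable_ofPred_finite_subset (atom_cnt x.cW x.cL)).prod Set.countable_univ))
  refine ((h1.image (Sum.inl : _ → WT)).union (h2.image (Sum.inr : _ → WT))).mono ?_
  rintro (y | y) hy
  · have hy' : y.1 ∈ x.L ∧ POk x.W x.L y.2.2 := hy
    exact Or.inl ⟨y, ⟨hy'.1, Set.mem_univ _, hy'.2⟩, rfl⟩
  · have hy' : y.1 ∈ x.L ∧ y.2.2.1.Finite ∧ gp y.2.2.1 ⊆ x.W ∧ gl y.2.2.1 ⊆ x.L := hy
    refine Or.inr ⟨y, ⟨hy'.1, Set.mem_univ _, ⟨hy'.2.1, fun α hα => ⟨?_, ?_⟩⟩,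
      Set.mem_univ _⟩, rfl⟩
    · exact fun z hz => hy'.2.2.1 ⟨α, hα, hz⟩
    · exact fun z hz => hy'.2.2.2 ⟨α, hα, hz⟩

private theorem wtk_mono {t : WithTop Lb} (x y : WSt t) (hxy : x ≤ y) : wtk x ⊆ wtk y := by
  have h1 : x.W ⊆ y.W := hxy.2.1
  have h2 : x.L ⊆ y.L := hxy.2.2
  rintro (u | u) hu
  · have hu' : u.1 ∈ x.L ∧ POk x.W x.L u.2.2 := hu
    exact ⟨h2 hu'.1, pok_mono h1 h2 hu'.2⟩
  · have hu' : u.1 ∈ x.L ∧ u.2.2.1.Finite ∧ gp u.2.2.1 ⊆ x.W ∧ gl u.2.2.1 ⊆ x.L := hu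
    exact ⟨h2 hu'.1, hu'.2.1, hu'.2.2.1.trans h1, hu'.2.2.2.trans h2⟩

private theorem whub {t : WithTop Lb} (f : ℕ → WSt t) (hf : ∀ n, f n ≤ f (n + 1)) :
    ∃ b, (∀ n, f n ≤ b) ∧ ∀ τ ∈ wtk b, ∃ n, τ ∈ wtk (f n) := by
  have hW : Monotone fun n => (f n).W := monotone_nat_of_le_succ fun n => (hf n).2.1
  have hL : Monotone fun n => (f n).L := monotone_nat_of_le_succ fun n => (hf n).2.2
  refine ⟨⟨⋃ n, (f n).r, ⋃ n, (f n).W, ⋃ n, (f n).L,
    RLeg.chain (fun n => (f n).hr) (fun n => (hf n).1),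
    Set.countable_iUnion fun n => (f n).cW, Set.countable_iUnion fun n => (f n).cL⟩, ?_, ?_⟩
  · intro n
    exact ⟨Set.subset_iUnion (fun n => (f n).r) n, Set.subset_iUnion (fun n => (f n).W) n,
      Set.subset_iUnion (fun n => (f n).L) n⟩
  · rintro (u | u) hu
    · have hu' : u.1 ∈ (⋃ n, (f n).L) ∧ POk (⋃ n, (f n).W) (⋃ n, (f n).L) u.2.2 := hu
      obtain ⟨n, hn⟩ := Set.mem_iUnion.1 hu'.1
      obtain ⟨m, hm⟩ := pat_fin (fun n => (hf n).2.1) (fun n => (hf n).2.2) hu'.2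
      exact ⟨max n m, hL (le_max_left _ _) hn,
        pok_mono (hW (le_max_right _ _)) (hL (le_max_right _ _)) hm⟩
    · have hu' : u.1 ∈ (⋃ n, (f n).L) ∧ u.2.2.1.Finite ∧ gp u.2.2.1 ⊆ (⋃ n, (f n).W) ∧
        gl u.2.2.1 ⊆ (⋃ n, (f n).L) := hu
      obtain ⟨n, hn⟩ := Set.mem_iUnion.1 hu'.1
      obtain ⟨m, hm⟩ := wfin_chain (gp_fin hu'.2.1) hW hu'.2.2.1
      obtain ⟨k, hk⟩ := wfin_chain (gl_fin hu'.2.1) hL hu'.2.2.2
      exact ⟨max n (max m k), hL (le_max_left _ _) hn, hu'.2.1,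
        hm.trans (hW ((le_max_left _ _).trans (le_max_right _ _))),
        hk.trans (hL ((le_max_right _ _).trans (le_max_right _ _)))⟩

/-- the task is treated between `a` and `b` -/
private def WR {t : WithTop Lb} (τ : WT) (a b : WSt t) : Prop :=
  Sum.elim (fun y : Lb × Bool × Set PA => (y.1 : WithTop Lb) < t →
      (∃ p ∈ Q y.1, rres y.1 a.r ⊆ p.r ∧ Re a.W a.L y.2.2 p.g ∧
        Good (Q y.1) y.1 (S y.1 y.2.1) p) →
      ∃ p ∈ Q y.1, Re a.W a.L y.2.2 p.g ∧ Good (Q y.1) y.1 (S y.1 y.2.1) p ∧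
        p.r ⊆ b.r ∧ gp p.g ⊆ b.W ∧ gl p.g ⊆ b.L)
    (fun y : Lb × Bool × Set Atom × ℕ => (y.1 : WithTop Lb) < t →
      (∃ p ∈ Q y.1, p.g = y.2.2.1 ∧ rres y.1 a.r ⊆ p.r ∧ Good (Q y.1) y.1 (S y.1 y.2.1) p) →
      ∃ r1 A C, r1 ⊆ rres y.1 b.r ∧ A ⊆ b.W ∧ C ⊆ b.L ∧
        Phi y.1 (S y.1 y.2.1) y.2.2.1 y.2.2.2 r1 A C) τ

private theorem wr_ex {t : WithTop Lb} (τ : WT) (a : WSt t) : ∃ b, a ≤ b ∧ WR τ a b := by
  rcases τ with ⟨l, c, π⟩ | ⟨l, c, g, N⟩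
  · by_cases hl : (l : WithTop Lb) < t
    swap
    · exact ⟨a, le_rfl, fun h => absurd h hl⟩
    by_cases hp : ∃ p ∈ Q l, rres l a.r ⊆ p.r ∧ Re a.W a.L π p.g ∧ Good (Q l) l (S l c) p
    swap
    · exact ⟨a, le_rfl, fun _ h => absurd h hp⟩
    obtain ⟨p, hpQ, h1, h2, h3⟩ := hp
    exact ⟨⟨a.r ∪ p.r, a.W ∪ gp p.g, a.L ∪ gl p.g,
      a.hr.glue hl.le (mem_Q.1 hpQ).1 h1, a.cW.union (gp_fin p.fg).countable,
      a.cL.union (gl_fin p.fg).countable⟩,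
      ⟨Set.subset_union_left, Set.subset_union_left, Set.subset_union_left⟩,
      fun _ _ => ⟨p, hpQ, h2, h3, Set.subset_union_right, Set.subset_union_right,
        Set.subset_union_right⟩⟩
  · by_cases hl : (l : WithTop Lb) < t
    swap
    · exact ⟨a, le_rfl, fun h => absurd h hl⟩
    by_cases hp : ∃ p ∈ Q l, p.g = g ∧ rres l a.r ⊆ p.r ∧ Good (Q l) l (S l c) p
    swap
    · exact ⟨a, le_rfl, fun _ h => absurd h hp⟩
    obtain ⟨p, hpQ, rfl, h1, h2⟩ := hp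
    obtain ⟨r1, A, C, h3, h4, h5, h6, h7⟩ := root hpQ h2 N
    exact ⟨⟨a.r ∪ r1, a.W ∪ A, a.L ∪ C, a.hr.glue hl.le h3 (h1.trans h4),
      a.cW.union h5.countable, a.cL.union h6.countable⟩,
      ⟨Set.subset_union_left, Set.subset_union_left, Set.subset_union_left⟩,
      fun _ _ => ⟨r1, A, C, fun x hx => ⟨Or.inr hx, h3.bd x hx⟩, Set.subset_union_right,
        Set.subset_union_right, h7⟩⟩

theorem exists_world {t : WithTop Lb} {r : Set Tr} (hr : RLeg t r) {B : Set Pt} {D : Set Lb}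
    (hB : B.Countable) (hD : D.Countable) :
    ∃ W L r', World t W L r' ∧ B ⊆ W ∧ D ⊆ L ∧ r ⊆ r' := by
  obtain ⟨b, hab, hb⟩ := book (fun x : WSt t => wtk x) wtk_cnt wtk_mono whub WR wr_ex
    ⟨r, B, D, hr, hB, hD⟩
  refine ⟨b.W, b.L, b.r, ⟨b.cW, b.cL, b.hr, ?_, ?_⟩, hab.2.1, hab.2.2, hab.1⟩
  · intro l hlL hlt c p hp hrp hgood
    obtain ⟨π, hπ, hre⟩ := pat_ex b.W b.L p.fg
    obtain ⟨a, d, -, had, hdb, hta, hR⟩ := hb (Sum.inl (l, c, π)) ⟨hlL, hπ⟩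
    have haW : a.W ⊆ b.W := (had.trans hdb).2.1
    have haL : a.L ⊆ b.L := (had.trans hdb).2.2
    have har : a.r ⊆ b.r := (had.trans hdb).1
    have hta' : l ∈ a.L ∧ POk a.W a.L π := hta
    obtain ⟨p0, hp0, h1, h2, h3, h4, h5⟩ :=
      hR hlt ⟨p, hp, (rres_mono har l).trans hrp, re_anti haW haL hre, hgood⟩
    obtain ⟨f, j, hc, hm⟩ := pat_copy haW haL hta'.2 hre h1
    have h6 : RLeg l (rres l b.r) := b.hr.res hlt.le
    have h7 : p0.r ⊆ rres l b.r := fun x hx => ⟨hdb.1 (h3 hx), (mem_Q.1 hp0).1.bd x hx⟩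
    exact ⟨f, j, hc, p0.wr (rres l b.r) h6.cnt, rext hp0 h6 h7, rfl, hm.symm,
      h4.trans hdb.2.1, h5.trans hdb.2.2, h2.mono ⟨h7, subset_rfl⟩⟩
  · intro l hlL hlt c q hq hqr hqW hqL hgood N
    obtain ⟨a, d, -, had, hdb, -, hR⟩ := hb (Sum.inr (l, c, q.g, N)) ⟨hlL, q.fg, hqW, hqL⟩
    have har : a.r ⊆ b.r := (had.trans hdb).1
    obtain ⟨r1, A, C, h1, h2, h3, h4⟩ :=
      hR hlt ⟨q, hq, rfl, (rres_mono har l).trans hqr.ge, hgood⟩
    exact ⟨r1, A, C, h1.trans (rres_mono hdb.1 l), h2.trans hdb.2.1, h3.trans hdb.2.2, h4⟩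

end DSB
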