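import Pool.Agent.DSB.RExt

/-! # Deciding closeness by zero (package P5; F5 of the paper proof)

(problem MP_f2e766_lc, project DSB, part P)

* `in_zero`: let `g' = insert (cl w b 0) g` with `cl w b _` undecided in `g`, and let `Dc g a e`.
  Then `In g' u a e` implies `In g u a e`: `cl u a v ∈ g'` with
  `e < v` is in `g` (since `v ≠ 0`); a reference `cl a x v ∈ g` with `1 ≤ v` and `cl u x v' ∈ g'`,
  `v ≤ v'`: `v' ≠ 0`, so it is in `g`.
* `zero`: `mem_Q`: the part `r` does not change. `Bs`: `Lad w b m`, `0 ≤ m`, functional by `hn`.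
  `GAt` at `i`: the status atoms are the same; `dc` by
  monotonicity; `ag`: for status points `a`, `b` the references are decided in `p.g` (`dc`), so
  `in_zero`; `tv`, `av`: `Tv.mono`, `Av.mono`
  (`res_mono`).
* `decs`: induction on the finite set `D` (`Set.Finite.induction_on` or on a `Finset`), `zero` at
  each undecided pair.
* `dc_ext`: `decs` for the finite set of all `(a, x)`, `x` in the ladder of `a`, `x.1 < e`
  (`lad_fin`). `val_ext`: if there is no value at
  `(a, l)` use `RLeg.add` with `X = {(a, l, 0)}` and `rext`. -/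

set_option autoImplicit false

namespace DSB

open STP

private theorem cl_ins {g : Set Atom} {w b z a : Pt} {v : ℕ}
    (h : .cl z a v ∈ insert (Atom.cl w b 0) g) (hv : v ≠ 0) : .cl z a v ∈ g := by
  rcases h with h | h
  · injection h with _ _ h3
    exact absurd h3 hv
  · exact h

theorem in_zero {g : Set Atom} {w b u a : Pt} {e : ℕ} (hn : ∀ v, .cl w b v ∉ g) (hd : Dc g a e)
    (h : In (insert (.cl w b 0) g) u a e) : In g u a e := by
  refine ⟨hd, ?_⟩
  rcases h.2 with h | ⟨⟨v, hv, h1⟩, h2⟩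
  · exact Or.inl h
  · refine Or.inr ⟨⟨v, hv, cl_ins h1 (by omega)⟩, fun x v' hx hl hv' => ?_⟩
    obtain ⟨v'', h3, h4⟩ := h2 x v' (Set.mem_insert_of_mem _ hx) hl hv'
    exact ⟨v'', h3, cl_ins h4 (by omega)⟩

/-- `p'` is `p` with some new decisions of closeness by `0` -/
structure Zx (p p' : Pre) : Prop where
  r : p'.r = p.r
  sub : p.g ⊆ p'.g
  new : ∀ α ∈ p'.g, α ∈ p.g ∨ ∃ w b, α = .cl w b 0

private theorem st_ins {g : Set Atom} {w b a : Pt} {l : Lb} {c : Bool} {e : ℕ}
    (h : .st l a c e ∈ insert (Atom.cl w b 0) g) : .st l a c e ∈ g := by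
  rcases h with h | h
  · exact absurd h (by simp)
  · exact h

theorem zero {t : WithTop Lb} {p : Pre} (hp : p ∈ Q t) {w b : Pt} {m : ℕ} (h : Lad w b m)
    (hn : ∀ v, .cl w b v ∉ p.g) : ∃ p' ∈ Q t, Zx p p' ∧ .cl w b 0 ∈ p'.g := by
  obtain ⟨hr, hg⟩ := mem_Q.1 hp
  let p' : Pre := ⟨p.r, insert (.cl w b 0) p.g, p.cr, p.fg.insert _⟩
  have hle : p' ≤ p := ⟨subset_rfl, Set.subset_insert _ _⟩
  refine ⟨p', mem_Q.2 ⟨hr, ?_⟩, ⟨rfl, Set.subset_insert _ _, ?_⟩, Set.mem_insert _ _⟩
  · refine ⟨⟨?_, ?_⟩, ?_, ?_⟩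
    · intro z a v hv
      rcases hv with hv | hv
      · injection hv with h1 h2 h3
        subst h1 h2 h3
        exact ⟨m, h, Nat.zero_le _⟩
      · exact hg.bs.val z a v hv
    · intro z a v v' hv hv'
      rcases hv with hv | hv
      · injection hv with h1 h2 h3
        subst h1 h2 h3
        rcases hv' with hv' | hv'
        · injection hv' with _ _ h3
          exact h3.symm
        · exact absurd hv' (hn _)
      · rcases hv' with hv' | hv'
        · injection hv' with h1 h2 h3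
          subst h1 h2 h3
          exact absurd hv (hn _)
        · exact hg.bs.fn z a v v' hv hv'
    · rintro l ⟨α, hα, hl⟩
      rcases hα with hα | hα
      · subst hα
        exact absurd hl (Set.notMem_empty l)
      · exact hg.bd l ⟨α, hα, hl⟩
    · intro l hl
      have hA := hg.at' l hl
      refine ⟨?_, ?_, ?_, ?_, ?_⟩
      · intro a c e ha
        exact hA.dom a c e (st_ins ha)
      · intro a c e ha
        exact Dc.mono (Set.subset_insert _ _) (hA.dc a c e (st_ins ha))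
      · intro u a b' c c' e e' ha hb hu hu'
        have ha' := st_ins ha
        have hb' := st_ins hb
        exact hA.ag u a b' c c' e e' ha' hb' (in_zero hn (hA.dc a c e ha') hu)
          (in_zero hn (hA.dc b' c' e' hb') hu')
      · intro a c e v ha hv hev
        exact Tv.mono (hA.tv a c e v (st_ins ha) hv hev) (res_mono hle l)
      · intro a c e ha
        exact Av.mono (hA.av a c e (st_ins ha)) (res_mono hle l)
  · intro α hα
    rcases hα with hα | hα
    · exact Or.inr ⟨w, b, hα⟩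
    · exact Or.inl hα

private theorem Zx.refl (p : Pre) : Zx p p := ⟨rfl, subset_rfl, fun _ h => Or.inl h⟩

private theorem Zx.trans {p q s : Pre} (h : Zx p q) (h' : Zx q s) : Zx p s :=
  ⟨h'.r.trans h.r, h.sub.trans h'.sub, fun α hα => (h'.new α hα).elim (h.new α) Or.inr⟩

theorem decs {t : WithTop Lb} {p : Pre} (hp : p ∈ Q t) {D : Set (Pt × Pt)} (hD : D.Finite)
    (h : ∀ x ∈ D, ∃ m, Lad x.1 x.2 m) :
    ∃ p' ∈ Q t, Zx p p' ∧ ∀ x ∈ D, ∃ v, .cl x.1 x.2 v ∈ p'.g := by
  induction D, hD using Set.Finite.induction_on with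
  | empty => exact ⟨p, hp, Zx.refl p, fun x hx => absurd hx (Set.notMem_empty x)⟩
  | @insert a s ha hs ih =>
    obtain ⟨p1, hp1, hz, h1⟩ := ih (fun x hx => h x (Set.mem_insert_of_mem _ hx))
    by_cases hd : ∃ v, .cl a.1 a.2 v ∈ p1.g
    · refine ⟨p1, hp1, hz, fun x hx => ?_⟩
      rcases hx with hx | hx
      · rw [hx]
        exact hd
      · exact h1 x hx
    · obtain ⟨m, hm⟩ := h a (Set.mem_insert _ _)
      obtain ⟨p2, hp2, hz2, h2⟩ := zero hp1 hm (fun v hv => hd ⟨v, hv⟩)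
      refine ⟨p2, hp2, hz.trans hz2, fun x hx => ?_⟩
      rcases hx with hx | hx
      · rw [hx]
        exact ⟨0, h2⟩
      · obtain ⟨v, hv⟩ := h1 x hx
        exact ⟨v, hz2.sub hv⟩

theorem dc_ext {t : WithTop Lb} {p : Pre} (hp : p ∈ Q t) (a : Pt) (e : ℕ) :
    ∃ p' ∈ Q t, Zx p p' ∧ Dc p'.g a e := by
  obtain ⟨p', hp', hz, hd⟩ := decs hp ((lad_fin a e).image (fun x => (a, x))) (by
    rintro _ ⟨x, ⟨m, hm, _⟩, rfl⟩
    exact ⟨m, hm⟩)
  exact ⟨p', hp', hz, fun x m hx hl => hd (a, x) ⟨x, ⟨m, hx, hl⟩, rfl⟩⟩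

theorem Zx.le {p p' : Pre} (h : Zx p p') : p' ≤ p := ⟨h.r.ge, h.sub⟩

private theorem Zx.of_ne {p p' : Pre} (h : Zx p p') {z a : Pt} {v : ℕ} (ha : .cl z a v ∈ p'.g)
    (hv : v ≠ 0) : .cl z a v ∈ p.g := by
  rcases h.new _ ha with h1 | ⟨w, b, h1⟩
  · exact h1
  · injection h1 with _ _ h3
    exact absurd h3 hv

/-- a positive membership at a decided point is not changed -/
theorem Zx.in_of {p p' : Pre} (h : Zx p p') {u a : Pt} {e : ℕ} (hb : Bs p'.g) (hd : Dc p.g a e)
    (hi : In p'.g u a e) : In p.g u a e := by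
  refine ⟨hd, ?_⟩
  rcases hi.2 with h0 | ⟨⟨v, hv, h1⟩, h2⟩
  · exact Or.inl h0
  · refine Or.inr ⟨⟨v, hv, h.of_ne h1 (by omega)⟩, fun x v' hx hl hv' => ?_⟩
    obtain ⟨v'', h3, h4⟩ := h2 x v' (h.sub hx) hl hv'
    exact ⟨v'', h3, h.of_ne h4 (by omega)⟩

theorem val_ext {t : WithTop Lb} {p : Pre} (hp : p ∈ Q t) (a : Pt) {l : Lb}
    (hl : (l : WithTop Lb) < t) : ∃ p' ∈ Q t, p' ≤ p ∧ p'.g = p.g ∧ ∃ v, (a, l, v) ∈ p'.r := by
  by_cases hv : ∃ v, (a, l, v) ∈ p.r
  · exact ⟨p, hp, le_refl p, rfl, hv⟩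
  · have hr : RLeg t (p.r ∪ {(a, l, 0)}) := by
      refine (mem_Q.1 hp).1.add (Set.countable_singleton _) ?_ ?_ ?_ ?_
      · intro x hx
        rw [Set.mem_singleton_iff.1 hx]
        exact hl
      · intro x hx
        rw [Set.mem_singleton_iff.1 hx]
        simp
      · intro a' l' v v' h1 h2
        have e1 := Set.mem_singleton_iff.1 h1
        have e2 := Set.mem_singleton_iff.1 h2
        simp only [Prod.mk.injEq] at e1 e2
        exact e1.2.2.trans e2.2.2.symm
      · intro a' l' v v' h1 h2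
        have e1 := Set.mem_singleton_iff.1 h1
        simp only [Prod.mk.injEq] at e1
        rw [e1.1, e1.2.1] at h2
        exact hv ⟨v', h2⟩
    exact ⟨p.wr _ hr.cnt, rext hp hr Set.subset_union_left,
      ⟨Set.subset_union_left, subset_rfl⟩, rfl, 0, Or.inr rfl⟩

end DSB
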